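import Pool.Agent.QD.A.Loc

/-!
# QD-A01: the sequences `lseq`
-/

namespace Pool.Agent.QD

private noncomputable def lsA (p r : ℝ) : ℂ := ⟨p / 2, Real.sqrt (r ^ 2 - p ^ 2 / 4)⟩

private theorem lsA_sq {p r : ℝ} (hr : 0 ≤ r) (hp : |p| ≤ 2 * r) :
    Complex.normSq (lsA p r) = r ^ 2 := by
  have h1 : p ^ 2 ≤ (2 * r) ^ 2 := by
    rw [← sq_abs p]
    exact pow_le_pow_left₀ (abs_nonneg p) hp 2
  rw [Complex.normSq_apply]
  unfold lsA
  simp only
  rw [Real.mul_self_sqrt (by nlinarith)]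
  ring

private theorem lsA_norm {p r : ℝ} (hr : 0 ≤ r) (hp : |p| ≤ 2 * r) : ‖lsA p r‖ = r := by
  have h := lsA_sq hr hp
  rw [Complex.normSq_eq_norm_sq] at h
  exact (pow_left_inj₀ (norm_nonneg _) hr two_ne_zero).1 h

private theorem lsA_exists {p q r : ℝ} (hr : 0 ≤ r) (hp : |p| ≤ 2 * r) (hq : q = r ^ 2) :
    ∃ α β : ℂ, ‖α‖ = r ∧ ‖β‖ = r ∧ α + β = p ∧ α * β = q := by
  refine ⟨lsA p r, (starRingEnd ℂ) (lsA p r), lsA_norm hr hp, ?_, ?_, ?_⟩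
  · rw [Complex.norm_conj]
    exact lsA_norm hr hp
  · rw [Complex.add_conj]
    congr 1
    unfold lsA
    simp only
    ring
  · rw [Complex.mul_conj, lsA_sq hr hp, hq]

private theorem lseq_step {p q : ℝ} {α β : ℂ} (h1 : α + β = p) (h2 : α * β = q) (n : ℕ) :
    (lseq p q (n + 1) : ℂ) = β * (lseq p q n : ℂ) + α ^ (n + 1) := by
  induction n with
  | zero =>
    have e0 : lseq p q 0 = 1 := rfl
    have e1 : lseq p q (0 + 1) = p := rfl
    rw [e0, e1, ← h1]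
    push_cast
    ring
  | succ n ih =>
    have e2 : lseq p q (n + 1 + 1) = p * lseq p q (n + 1) - q * lseq p q n := rfl
    rw [e2]
    push_cast
    rw [← h1, ← h2]
    linear_combination α * ih

theorem lseq_bd {p q r : ℝ} (hr : 0 ≤ r) (hp : |p| ≤ 2 * r) (hq : q = r ^ 2) (n : ℕ) :
    |lseq p q n| ≤ (n + 1) * r ^ n := by
  obtain ⟨α, β, ha, hb, h1, h2⟩ := lsA_exists hr hp hq
  have key : ‖(lseq p q n : ℂ)‖ ≤ (n + 1) * r ^ n := by
    induction n with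
    | zero =>
      have e0 : lseq p q 0 = 1 := rfl
      rw [e0]
      simp
    | succ n ih =>
      rw [lseq_step h1 h2 n]
      calc ‖β * (lseq p q n : ℂ) + α ^ (n + 1)‖ ≤ ‖β * (lseq p q n : ℂ)‖ + ‖α ^ (n + 1)‖ :=
            norm_add_le _ _
        _ = r * ‖(lseq p q n : ℂ)‖ + r ^ (n + 1) := by rw [norm_mul, norm_pow, ha, hb]
        _ ≤ r * ((n + 1) * r ^ n) + r ^ (n + 1) := by gcongr
        _ = ((n + 1 : ℕ) + 1) * r ^ (n + 1) := by
          push_cast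
          ring
  rwa [Complex.norm_real, Real.norm_eq_abs] at key

private theorem one_sub_ne {α X : ℂ} {r : ℝ} (ha : ‖α‖ = r) (hX : r * ‖X‖ < 1) : 1 - α * X ≠ 0 := by
  intro h
  have h1 : α * X = 1 := (sub_eq_zero.1 h).symm
  have h2 : ‖α * X‖ = 1 := by rw [h1, norm_one]
  rw [norm_mul, ha] at h2
  linarith

private theorem quad_fac {p q : ℝ} {α β : ℂ} (h1 : α + β = p) (h2 : α * β = q) (X : ℂ) :
    1 - (p : ℂ) * X + (q : ℂ) * X ^ 2 = (1 - β * X) * (1 - α * X) := by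
  rw [← h1, ← h2]
  ring

theorem quad_ne {p q r : ℝ} (hr : 0 ≤ r) (hp : |p| ≤ 2 * r) (hq : q = r ^ 2) {X : ℂ}
    (hX : r * ‖X‖ < 1) : 1 - (p : ℂ) * X + (q : ℂ) * X ^ 2 ≠ 0 := by
  obtain ⟨α, β, ha, hb, h1, h2⟩ := lsA_exists hr hp hq
  rw [quad_fac h1 h2]
  exact mul_ne_zero (one_sub_ne hb hX) (one_sub_ne ha hX)

theorem lseq_gen {p q r : ℝ} (hr : 0 ≤ r) (hp : |p| ≤ 2 * r) (hq : q = r ^ 2) {X : ℂ}
    (hX : r * ‖X‖ < 1) :
    HasSum (fun n : ℕ => (lseq p q n : ℂ) * X ^ n) (1 - (p : ℂ) * X + (q : ℂ) * X ^ 2)⁻¹ := by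
  obtain ⟨α, β, ha, hb, h1, h2⟩ := lsA_exists hr hp hq
  have hρ : 0 ≤ r * ‖X‖ := by positivity
  have hsum : Summable (fun n : ℕ => (lseq p q n : ℂ) * X ^ n) := by
    refine Summable.of_norm_bounded (g := fun n : ℕ => ((n : ℝ) + 1) * (r * ‖X‖) ^ n) ?_ ?_
    · have e1 : Summable (fun n : ℕ => (n : ℝ) ^ 1 * (r * ‖X‖) ^ n) :=
        summable_pow_mul_geometric_of_norm_lt_one 1 (by rwa [Real.norm_of_nonneg hρ])
      have e2 : Summable (fun n : ℕ => (r * ‖X‖) ^ n) := summable_geometric_of_lt_one hρ hX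
      refine (e1.add e2).congr fun n => ?_
      rw [pow_one]
      ring
    · intro n
      rw [norm_mul, norm_pow, Complex.norm_real, Real.norm_eq_abs, mul_pow, ← mul_assoc]
      gcongr
      exact lseq_bd hr hp hq n
  have hαX : ‖α * X‖ < 1 := by rwa [norm_mul, ha]
  have hgeo : HasSum (fun n : ℕ => (α * X) ^ n) (1 - α * X)⁻¹ := hasSum_geometric_of_norm_lt_one hαX
  have hS := hsum.hasSum
  set S := ∑' n : ℕ, (lseq p q n : ℂ) * X ^ n with hSd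
  have h3 : S = 1 + ∑' n : ℕ, (lseq p q (n + 1) : ℂ) * X ^ (n + 1) := by
    rw [hSd, hsum.tsum_eq_zero_add]
    have e0 : lseq p q 0 = 1 := rfl
    rw [e0]
    simp
  have h4 : HasSum (fun n : ℕ => (lseq p q (n + 1) : ℂ) * X ^ (n + 1))
      (β * X * S + (α * X) * (1 - α * X)⁻¹) := by
    have e1 := (hS.mul_left (β * X)).add (hgeo.mul_left (α * X))
    have e2 : (fun n : ℕ => (lseq p q (n + 1) : ℂ) * X ^ (n + 1)) =
        fun n : ℕ => β * X * ((lseq p q n : ℂ) * X ^ n) + α * X * (α * X) ^ n := by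
      funext n
      rw [lseq_step h1 h2 n]
      ring
    rw [e2]
    exact e1
  rw [h4.tsum_eq] at h3
  have hna := one_sub_ne ha hX
  have hnb := one_sub_ne hb hX
  have h5 : S = (1 - (p : ℂ) * X + (q : ℂ) * X ^ 2)⁻¹ := by
    rw [quad_fac h1 h2]
    have h6 : (1 - β * X) * S = (1 - α * X)⁻¹ := by
      have h7 : (1 : ℂ) + α * X * (1 - α * X)⁻¹ = (1 - α * X)⁻¹ := by
        field_simp
        ring
      linear_combination h3 + h7
    rw [mul_inv, ← h6, ← mul_assoc, inv_mul_cancel₀ hnb, one_mul]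
  rw [← h5]
  exact hS

/-- parameters for `l1` -/
theorem l1_par {N l : ℝ} (hN : 101 ≤ N) (hl : |l| ≤ 2 * Real.sqrt N) :
    0 ≤ Real.sqrt N ∧ |l| ≤ 2 * Real.sqrt N ∧ N = Real.sqrt N ^ 2 :=
  ⟨Real.sqrt_nonneg N, hl, (Real.sq_sqrt (by linarith)).symm⟩

/-- parameters for `l2` -/
theorem l2_par {N l : ℝ} (hN : 101 ≤ N) (hl : |l| ≤ 2 * Real.sqrt N) :
    0 ≤ N ∧ |l ^ 2 - 2 * N| ≤ 2 * N ∧ N ^ 2 = N ^ 2 := by
  have h0 : 0 ≤ N := by linarith
  have h1 : l ^ 2 ≤ 4 * N := by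
    have h2 := pow_le_pow_left₀ (abs_nonneg l) hl 2
    rw [sq_abs, mul_pow, Real.sq_sqrt h0] at h2
    linarith
  refine ⟨h0, ?_, rfl⟩
  rw [abs_le]
  constructor
  · nlinarith [sq_nonneg l]
  · linarith

end Pool.Agent.QD
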