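import Pool.Agent.QD.A.LocH

/-!
# QD-A04: columns of the local weights

For fixed `a` the sum over `b` of `hloc a b y^b` is the finite sum over `i, j` with
`2i + 4j ≤ a` of `l2 i N^(i+4j) y^(2i+2j) ψ_(a-2i-4j)(y)`, where `ψ_a'(y) = ∑_b h0 a' b y^b`.
-/

namespace Pool.Agent.QD

/-- shift of a convergent series -/
theorem locCol_shift {g : ℕ → ℂ} {S : ℂ} (h : HasSum g S) (e : ℕ) :
    HasSum (fun b : ℕ => if e ≤ b then g (b - e) else 0) S := by
  have hinj : Function.Injective (fun n : ℕ => n + e) := add_left_injective e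
  refine (hinj.hasSum_iff ?_).1 ?_
  · intro b hb
    rw [if_neg]
    intro h1
    exact hb ⟨b - e, Nat.sub_add_cancel h1⟩
  · refine h.congr_fun ?_
    intro n
    simp

/-- `hloc` as a sum over a fixed range -/
theorem locCol_hloc (N l : ℝ) (a b : ℕ) :
    hloc N l a b = ∑ i ∈ Finset.range (a + 1), ∑ j ∈ Finset.range (a + 1),
      if 2 * i + 4 * j ≤ a ∧ 2 * i + 2 * j ≤ b then
        l2 N l i * N ^ (i + 4 * j) * h0 N l (a - (2 * i + 4 * j)) (b - (2 * i + 2 * j)) else 0 := by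
  unfold hloc
  have hsub : Finset.range (a + 1) ⊆ Finset.range (a + b + 1) := by
    intro x hx
    rw [Finset.mem_range] at hx ⊢
    omega
  symm
  rw [← Finset.sum_subset hsub]
  · refine Finset.sum_congr rfl fun i _ => ?_
    refine Finset.sum_subset hsub ?_
    intro j _ hj
    rw [Finset.mem_range, not_lt] at hj
    rw [if_neg]
    omega
  · intro i _ hi
    rw [Finset.mem_range, not_lt] at hi
    refine Finset.sum_eq_zero fun j _ => ?_
    rw [if_neg]
    omega

theorem locCol_gen (N l : ℝ) (a : ℕ) (w : ℕ → ℂ) (Y : ℂ) (Ψ : ℕ → ℂ)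
    (hΨ : ∀ a', (Even a' ↔ Even a) → HasSum (fun b => (h0 N l a' b : ℂ) * w b) (Ψ a'))
    (hw : ∀ e b, Even e → w (b + e) = w b * Y ^ e) :
    HasSum (fun b => (hloc N l a b : ℂ) * w b)
      (∑ i ∈ Finset.range (a + 1), ∑ j ∈ Finset.range (a + 1), if 2 * i + 4 * j ≤ a then
        (l2 N l i : ℂ) * (N : ℂ) ^ (i + 4 * j) * (Y ^ (2 * i + 2 * j) * Ψ (a - (2 * i + 4 * j)))
        else 0) := by
  have h1 : (fun b => (hloc N l a b : ℂ) * w b) = fun b =>
      ∑ i ∈ Finset.range (a + 1), ∑ j ∈ Finset.range (a + 1), if 2 * i + 4 * j ≤ a then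
        (if 2 * i + 2 * j ≤ b then
          (l2 N l i : ℂ) * (N : ℂ) ^ (i + 4 * j) * (Y ^ (2 * i + 2 * j) *
            ((h0 N l (a - (2 * i + 4 * j)) (b - (2 * i + 2 * j)) : ℂ) *
              w (b - (2 * i + 2 * j)))) else 0) else 0 := by
    funext b
    rw [locCol_hloc]
    push_cast
    rw [Finset.sum_mul]
    refine Finset.sum_congr rfl fun i _ => ?_
    rw [Finset.sum_mul]
    refine Finset.sum_congr rfl fun j _ => ?_
    by_cases ha : 2 * i + 4 * j ≤ a
    · by_cases hb : 2 * i + 2 * j ≤ b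
      · rw [if_pos ⟨ha, hb⟩, if_pos ha, if_pos hb]
        have h2 := hw (2 * i + 2 * j) (b - (2 * i + 2 * j)) ⟨i + j, by ring⟩
        rw [Nat.sub_add_cancel hb] at h2
        rw [h2]
        push_cast
        ring
      · rw [if_neg (fun h => hb h.2), if_pos ha, if_neg hb]
        simp
    · rw [if_neg (fun h => ha h.1), if_neg ha]
      simp
  rw [h1]
  refine hasSum_sum fun i _ => hasSum_sum fun j _ => ?_
  by_cases ha : 2 * i + 4 * j ≤ a
  · simp only [if_pos ha]
    have hpar : Even (a - (2 * i + 4 * j)) ↔ Even a := by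
      constructor
      · rintro ⟨k, hk⟩
        exact ⟨k + i + 2 * j, by omega⟩
      · rintro ⟨k, hk⟩
        exact ⟨k - i - 2 * j, by omega⟩
    have h2 := ((hΨ (a - (2 * i + 4 * j)) hpar).mul_left (Y ^ (2 * i + 2 * j))).mul_left
      ((l2 N l i : ℂ) * (N : ℂ) ^ (i + 4 * j))
    exact locCol_shift h2 (2 * i + 2 * j)
  · simp only [if_neg ha]
    exact hasSum_zero

/-- the finitely supported part of `h0` -/
theorem locCol_fin (N l : ℝ) (a' : ℕ) (w : ℕ → ℂ) :
    HasSum (fun b : ℕ => (((if b = 0 then l1 N l a' else 0) -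
        (if b = 2 ∧ 4 ≤ a' then N ^ 3 * l1 N l (a' - 4) else 0) : ℝ) : ℂ) * w b)
      ((l1 N l a' : ℂ) * w 0 -
        (if 4 ≤ a' then (N : ℂ) ^ 3 * (l1 N l (a' - 4) : ℂ) * w 2 else 0)) := by
  have h1 : (fun b : ℕ => (((if b = 0 then l1 N l a' else 0) -
        (if b = 2 ∧ 4 ≤ a' then N ^ 3 * l1 N l (a' - 4) else 0) : ℝ) : ℂ) * w b) =
      fun b : ℕ => (if b = 0 then (l1 N l a' : ℂ) * w 0 else 0) -
        (if b = 2 then (if 4 ≤ a' then (N : ℂ) ^ 3 * (l1 N l (a' - 4) : ℂ) * w 2 else 0) else 0) := by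
    funext b
    by_cases h0 : b = 0
    · subst h0
      simp
    · by_cases h2 : b = 2
      · subst h2
        by_cases h4 : 4 ≤ a'
        · simp [h4]
        · simp [h4]
      · simp [h0, h2]
  rw [h1]
  exact (hasSum_ite_eq 0 _).sub (hasSum_ite_eq 2 _)

theorem locCol_h0 (N l : ℝ) (a b : ℕ) : h0 N l a b =
    ((if b = 0 then l1 N l a else 0) - (if b = 2 ∧ 4 ≤ a then N ^ 3 * l1 N l (a - 4) else 0)) +
      ((if a = 0 ∧ 1 ≤ b then 1 else 0) + (if a = 2 ∧ 2 ≤ b then N ^ 2 else 0)) := by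
  unfold h0
  ring

open Classical in
theorem col_even (N l : ℝ) {a : ℕ} (ha : Even a) {y : ℂ} (hy : ‖y‖ < 1) {u : ℂ}
    (hu : u = 1 ∨ u = -1) :
    HasSum (fun b : ℕ => (hloc N l a b : ℂ) * (if Odd b then u else 1) * y ^ b)
      ((1 - u * y)⁻¹ * Qw N l a (u * y)) := by
  have hY : ‖u * y‖ < 1 := by
    rcases hu with h | h <;> simp [h, hy]
  have hY1 : 1 - u * y ≠ 0 := by
    intro h
    have h1 : u * y = 1 := (sub_eq_zero.1 h).symm
    rw [h1, norm_one] at hY
    exact lt_irrefl _ hY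
  have hgeo : HasSum (fun n : ℕ => (u * y) ^ n) (1 - u * y)⁻¹ := hasSum_geometric_of_norm_lt_one hY
  have hgk : ∀ k : ℕ, HasSum (fun b : ℕ => if k ≤ b then (u * y) ^ b else 0)
      ((u * y) ^ k * (1 - u * y)⁻¹) := by
    intro k
    have h1 := locCol_shift (hgeo.mul_left ((u * y) ^ k)) k
    refine h1.congr_fun fun b => ?_
    by_cases hb : k ≤ b
    · rw [if_pos hb, if_pos hb, ← pow_add, Nat.add_sub_cancel' hb]
    · rw [if_neg hb, if_neg hb]
  let Ψ : ℕ → ℂ := fun a' => (1 - u * y)⁻¹ * ((1 - u * y) * ((l1 N l a' : ℂ) -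
      (if 4 ≤ a' then (N : ℂ) ^ 3 * (l1 N l (a' - 4) : ℂ) * (u * y) ^ 2 else 0)) +
      (if a' = 0 then u * y else 0) + (if a' = 2 then (N : ℂ) ^ 2 * (u * y) ^ 2 else 0))
  have hΨ : ∀ a', (Even a' ↔ Even a) →
      HasSum (fun b => (h0 N l a' b : ℂ) * (u * y) ^ b) (Ψ a') := by
    intro a' _
    have h1 := locCol_fin N l a' (fun b => (u * y) ^ b)
    have h2 : HasSum (fun b : ℕ => ((if a' = 0 ∧ 1 ≤ b then (1 : ℝ) else 0 : ℝ) : ℂ) * (u * y) ^ b)
        (if a' = 0 then (u * y) ^ 1 * (1 - u * y)⁻¹ else 0) := by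
      by_cases h : a' = 0
      · rw [if_pos h]
        refine (hgk 1).congr_fun fun b => ?_
        by_cases hb : 1 ≤ b
        · simp [h, hb]
        · simp [hb]
      · rw [if_neg h]
        refine hasSum_zero.congr_fun fun b => ?_
        simp [h]
    have h3 : HasSum (fun b : ℕ => ((if a' = 2 ∧ 2 ≤ b then N ^ 2 else 0 : ℝ) : ℂ) * (u * y) ^ b)
        (if a' = 2 then (N : ℂ) ^ 2 * ((u * y) ^ 2 * (1 - u * y)⁻¹) else 0) := by
      by_cases h : a' = 2
      · rw [if_pos h]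
        refine ((hgk 2).mul_left ((N : ℂ) ^ 2)).congr_fun fun b => ?_
        by_cases hb : 2 ≤ b
        · simp [h, hb]
        · simp [hb]
      · rw [if_neg h]
        refine hasSum_zero.congr_fun fun b => ?_
        simp [h]
    have h4 := h1.add (h2.add h3)
    have h5 : (l1 N l a' : ℂ) * (u * y) ^ 0 -
        (if 4 ≤ a' then (N : ℂ) ^ 3 * (l1 N l (a' - 4) : ℂ) * (u * y) ^ 2 else 0) +
        ((if a' = 0 then (u * y) ^ 1 * (1 - u * y)⁻¹ else 0) +
        (if a' = 2 then (N : ℂ) ^ 2 * ((u * y) ^ 2 * (1 - u * y)⁻¹) else 0)) = Ψ a' := by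
      simp only [Ψ]
      rw [mul_add, mul_add, ← mul_assoc (1 - u * y)⁻¹ (1 - u * y), inv_mul_cancel₀ hY1]
      split_ifs <;> ring
    rw [h5] at h4
    refine h4.congr_fun fun b => ?_
    rw [locCol_h0]
    push_cast
    ring
  have hmain := locCol_gen N l a (fun b => (u * y) ^ b) (u * y) Ψ hΨ (fun e b _ => pow_add _ _ _)
  have hval : (∑ i ∈ Finset.range (a + 1), ∑ j ∈ Finset.range (a + 1), if 2 * i + 4 * j ≤ a then
        (l2 N l i : ℂ) * (N : ℂ) ^ (i + 4 * j) * ((u * y) ^ (2 * i + 2 * j) *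
          Ψ (a - (2 * i + 4 * j))) else 0) = (1 - u * y)⁻¹ * Qw N l a (u * y) := by
    unfold Qw
    rw [Finset.mul_sum]
    refine Finset.sum_congr rfl fun i _ => ?_
    rw [Finset.mul_sum]
    refine Finset.sum_congr rfl fun j _ => ?_
    by_cases h : 2 * i + 4 * j ≤ a
    · rw [if_pos h, if_pos h, if_pos ha]
      simp only [Ψ]
      ring
    · rw [if_neg h, if_neg h, mul_zero]
  rw [hval] at hmain
  refine hmain.congr_fun fun b => ?_
  have h6 : (if Odd b then u else 1) = u ^ b := by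
    by_cases hb : Odd b
    · rw [if_pos hb]
      rcases hu with h | h
      · rw [h, one_pow]
      · rw [h, hb.neg_one_pow]
    · rw [if_neg hb]
      have hb' : Even b := Nat.not_odd_iff_even.1 hb
      rcases hu with h | h
      · rw [h, one_pow]
      · rw [h, hb'.neg_one_pow]
  rw [h6, mul_pow]
  ring

open Classical in
theorem col_odd (N l : ℝ) {a : ℕ} (ha : Odd a) {y : ℂ} (hy : ‖y‖ < 1) (u : ℂ) :
    HasSum (fun b : ℕ => (hloc N l a b : ℂ) * (if Odd b then u else 1) * y ^ b)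
      (Qw N l a y) := by
  have hne : ¬ Even a := Nat.not_even_iff_odd.2 ha
  let w : ℕ → ℂ := fun b => (if Odd b then u else 1) * y ^ b
  let Ψ : ℕ → ℂ := fun a' => (l1 N l a' : ℂ) -
      (if 4 ≤ a' then (N : ℂ) ^ 3 * (l1 N l (a' - 4) : ℂ) * y ^ 2 else 0)
  have hw0 : w 0 = 1 := by simp [w]
  have hw2 : w 2 = y ^ 2 := by
    have : ¬ Odd 2 := by decide
    simp [w, this]
  have hΨ : ∀ a', (Even a' ↔ Even a) → HasSum (fun b => (h0 N l a' b : ℂ) * w b) (Ψ a') := by
    intro a' hp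
    have hna : ¬ Even a' := fun h => hne (hp.1 h)
    have h00 : a' ≠ 0 := fun h => hna (by rw [h]; exact ⟨0, rfl⟩)
    have h02 : a' ≠ 2 := fun h => hna (by rw [h]; exact ⟨1, rfl⟩)
    have h1 := locCol_fin N l a' w
    rw [hw0, hw2, mul_one] at h1
    refine h1.congr_fun fun b => ?_
    rw [locCol_h0]
    simp [h00, h02]
  have hmain := locCol_gen N l a w y Ψ hΨ (by
    intro e b he
    have h1 : Odd (b + e) ↔ Odd b := by
      rw [Nat.odd_add]
      simp [he]
    simp only [w, h1, pow_add]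
    ring)
  have hval : (∑ i ∈ Finset.range (a + 1), ∑ j ∈ Finset.range (a + 1), if 2 * i + 4 * j ≤ a then
        (l2 N l i : ℂ) * (N : ℂ) ^ (i + 4 * j) * (y ^ (2 * i + 2 * j) *
          Ψ (a - (2 * i + 4 * j))) else 0) = Qw N l a y := by
    unfold Qw
    refine Finset.sum_congr rfl fun i _ => ?_
    refine Finset.sum_congr rfl fun j _ => ?_
    by_cases h : 2 * i + 4 * j ≤ a
    · have h00 : a - (2 * i + 4 * j) ≠ 0 := fun h' => hne ⟨i + 2 * j, by omega⟩
      have h02 : a - (2 * i + 4 * j) ≠ 2 := fun h' => hne ⟨i + 2 * j + 1, by omega⟩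
      rw [if_pos h, if_pos h, if_neg hne, if_neg h00, if_neg h02]
      simp only [Ψ]
      ring
    · rw [if_neg h, if_neg h]
  rw [hval] at hmain
  refine hmain.congr_fun fun b => ?_
  simp only [w]
  ring

end Pool.Agent.QD
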