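import Pool.Agent.QD.A.LocSeq

/-!
# QD-A05: functional equation of the row polynomials

PLAN. Fix `x ≠ 0` and work in `PowerSeries ℂ` in `Y`.  Let `G_x = ∑ Pw (2m) x Y^m`,
`G'_x = ∑ Pw (2m+1) x Y^m`, `D_x = (1 - Y) E2(N x^2 Y) (1 - N^4 x^4 Y)`.  From the definitions
(`∑_k rk k x Y^k = 1/(E2(N x^2 Y)(1 - N^4 x^4 Y))` since `∑ l2 i X^i = 1/E2(X)` formally):
`D_x G_x = 1 + (-l x + (N + N^2) x^2 - N^2 l x^3) Y + N^3 x^4 Y^2`,
`D_x G'_x = 1 + N^2 x^2 Y`.
Let `x' = 1/(N^2 x)` and rescale `Y` to `N^4 x^4 Y` in the identities for `x'`: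
`D_x'(N^4x^4 Y) = D_x(Y)`, and both numerators are fixed.  `D_x` is invertible (constant
coefficient `1`), so `coeff m G_x = (N^4 x^4)^m coeff m G_x'`.  `(N x)^(4 (b/2)) = (N^4x^4)^(b/2)`.
(An induction on `m` with the recurrences instead of power series is also fine.)
All identities were checked numerically.
-/

namespace Pool.Agent.QD

open PowerSeries in
private theorem pfe_c (p q : ℝ) (A : ℂ) :
    (1 - C ((p : ℂ) * A) * X + C ((q : ℂ) * A ^ 2) * (X * X)) *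
      PowerSeries.mk (fun i => (lseq p q i : ℂ) * A ^ i) = 1 := by
  ext n
  rw [add_mul, sub_mul, one_mul, mul_assoc, mul_assoc, mul_assoc, map_add, map_sub,
    coeff_C_mul, coeff_C_mul]
  rcases n with _ | _ | n
  · simp [lseq]
  · rw [coeff_succ_X_mul, coeff_succ_X_mul, coeff_zero_X_mul, coeff_mk, coeff_mk, coeff_one]
    simp [lseq]
  · rw [coeff_succ_X_mul, coeff_succ_X_mul, coeff_succ_X_mul, coeff_mk, coeff_mk, coeff_mk,
      coeff_one, if_neg (by omega)]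
    simp only [lseq]
    push_cast
    ring

open PowerSeries in
private theorem pfe_geo (M : ℂ) :
    (1 - C M * X) * PowerSeries.mk (fun i => M ^ i) = 1 := by
  ext n
  rw [sub_mul, one_mul, mul_assoc, map_sub, coeff_C_mul]
  rcases n with _ | n
  · simp
  · rw [coeff_succ_X_mul, coeff_mk, coeff_mk, coeff_one, if_neg (by omega)]
    ring

private theorem pfe_rk (N l : ℝ) (k : ℕ) (x : ℂ) : rk N l k x =
    ∑ i ∈ Finset.range (k + 1), ((l2 N l i : ℂ) * ((N : ℂ) * x ^ 2) ^ i) *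
      ((N : ℂ) ^ 4 * x ^ 4) ^ (k - i) := by
  unfold rk
  refine Finset.sum_congr rfl fun i _ => ?_
  rw [pow_add, pow_add, pow_mul, pow_mul, pow_mul, mul_pow, mul_pow]
  ring

open PowerSeries in
private theorem pfe_R (N l : ℝ) (x : ℂ) :
    (1 - C ((((l ^ 2 - 2 * N : ℝ)) : ℂ) * ((N : ℂ) * x ^ 2)) * X +
      C ((N : ℂ) ^ 4 * x ^ 4) * (X * X)) * (1 - C ((N : ℂ) ^ 4 * x ^ 4) * X) *
      PowerSeries.mk (fun k => rk N l k x) = 1 := by
  have h1 : PowerSeries.mk (fun k => rk N l k x) =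
      PowerSeries.mk (fun i => (l2 N l i : ℂ) * ((N : ℂ) * x ^ 2) ^ i) *
        PowerSeries.mk (fun i => ((N : ℂ) ^ 4 * x ^ 4) ^ i) := by
    ext k
    rw [coeff_mul, coeff_mk, pfe_rk, Finset.Nat.sum_antidiagonal_eq_sum_range_succ_mk]
    simp only [coeff_mk]
  have h2 := pfe_c (l ^ 2 - 2 * N) (N ^ 2) ((N : ℂ) * x ^ 2)
  have h3 := pfe_geo ((N : ℂ) ^ 4 * x ^ 4)
  have h4 : (((N ^ 2 : ℝ)) : ℂ) * ((N : ℂ) * x ^ 2) ^ 2 = (N : ℂ) ^ 4 * x ^ 4 := by
    push_cast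
    ring
  rw [h4] at h2
  rw [h1]
  change _ * (PowerSeries.mk (fun i => (lseq (l ^ 2 - 2 * N) (N ^ 2) i : ℂ) *
    ((N : ℂ) * x ^ 2) ^ i) * _) = 1
  rw [mul_mul_mul_comm, h2, h3, one_mul]

/-- the numerator of the even polynomials -/
private noncomputable def pfeA (N l : ℝ) (x : ℂ) : ℂ :=
  -(l : ℂ) * x + ((N : ℂ) + (N : ℂ) ^ 2) * x ^ 2 - (N : ℂ) ^ 2 * l * x ^ 3

open PowerSeries in
private theorem pfe_even (N l : ℝ) (x : ℂ) :
    (1 - X) * PowerSeries.mk (fun m => Pw N l (2 * m) x) =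
      (1 + C (pfeA N l x) * X + C ((N : ℂ) ^ 3 * x ^ 4) * (X * X)) *
        PowerSeries.mk (fun k => rk N l k x) := by
  have hev : ∀ m : ℕ, Pw N l (2 * m) x = rk N l m x +
      (if 1 ≤ m then rk N l (m - 1) x *
        ((1 + (N : ℂ) ^ 2 * x ^ 2) * EE N l x - (N : ℂ) ^ 3 * x ^ 4) else 0) +
      ∑ k ∈ Finset.range (m - 1), rk N l k x * ((1 + (N : ℂ) ^ 2 * x ^ 2) * EE N l x) := by
    intro m
    rw [Pw, if_pos (even_two_mul m), Nat.mul_div_cancel_left m two_pos]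
  ext n
  rw [sub_mul, one_mul, map_sub, add_mul, add_mul, one_mul, mul_assoc, mul_assoc, mul_assoc,
    map_add, map_add, coeff_C_mul, coeff_C_mul]
  rcases n with _ | _ | n
  · simp [hev]
  · rw [coeff_succ_X_mul, coeff_succ_X_mul, coeff_succ_X_mul, coeff_zero_X_mul]
    simp only [coeff_mk, hev]
    simp only [EE, pfeA]
    norm_num
    ring
  · rw [coeff_succ_X_mul, coeff_succ_X_mul, coeff_succ_X_mul, coeff_succ_X_mul]
    simp only [coeff_mk, hev]
    rw [if_pos (by omega), if_pos (by omega)]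
    have e1 : n + 1 + 1 - 1 = n + 1 := by omega
    have e2 : n + 1 - 1 = n := by omega
    rw [e1, e2, Finset.sum_range_succ]
    simp only [EE, pfeA]
    ring

open PowerSeries in
private theorem pfe_odd (N l : ℝ) (x : ℂ) :
    (1 - X) * PowerSeries.mk (fun m => Pw N l (2 * m + 1) x) =
      (1 + C ((N : ℂ) ^ 2 * x ^ 2) * X) * PowerSeries.mk (fun k => rk N l k x) := by
  have hod : ∀ m : ℕ, Pw N l (2 * m + 1) x = rk N l m x +
      ∑ k ∈ Finset.range m, rk N l k x * (1 + (N : ℂ) ^ 2 * x ^ 2) := by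
    intro m
    have h1 : (2 * m + 1) / 2 = m := by omega
    rw [Pw, if_neg (by simp), h1]
  ext n
  rw [sub_mul, one_mul, map_sub, add_mul, one_mul, mul_assoc, map_add, coeff_C_mul]
  rcases n with _ | n
  · simp [hod]
  · rw [coeff_succ_X_mul, coeff_succ_X_mul]
    simp only [coeff_mk, hod]
    rw [Finset.sum_range_succ]
    ring

/-- the common denominator -/
private noncomputable def pfeD (N l : ℝ) (x : ℂ) : PowerSeries ℂ :=
  (1 - PowerSeries.C ((((l ^ 2 - 2 * N : ℝ)) : ℂ) * ((N : ℂ) * x ^ 2)) * PowerSeries.X +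
    PowerSeries.C ((N : ℂ) ^ 4 * x ^ 4) * (PowerSeries.X * PowerSeries.X)) *
    (1 - PowerSeries.C ((N : ℂ) ^ 4 * x ^ 4) * PowerSeries.X) * (1 - PowerSeries.X)

open PowerSeries in
private theorem pfeD_even (N l : ℝ) (x : ℂ) :
    pfeD N l x * PowerSeries.mk (fun m => Pw N l (2 * m) x) =
      1 + C (pfeA N l x) * X + C ((N : ℂ) ^ 3 * x ^ 4) * (X * X) := by
  rw [pfeD, mul_assoc, pfe_even, mul_left_comm, pfe_R, mul_one]

open PowerSeries in
private theorem pfeD_odd (N l : ℝ) (x : ℂ) :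
    pfeD N l x * PowerSeries.mk (fun m => Pw N l (2 * m + 1) x) =
      1 + C ((N : ℂ) ^ 2 * x ^ 2) * X := by
  rw [pfeD, mul_assoc, pfe_odd, mul_left_comm, pfe_R, mul_one]

private theorem pfeD_ne (N l : ℝ) (x : ℂ) : pfeD N l x ≠ 0 := by
  intro h
  have h1 := congrArg PowerSeries.constantCoeff h
  simp [pfeD] at h1

private theorem pfe_resc_C (M a : ℂ) :
    PowerSeries.rescale M (PowerSeries.C a) = PowerSeries.C a := by
  ext n
  rw [PowerSeries.coeff_rescale, PowerSeries.coeff_C]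
  split_ifs with h
  · subst h; simp
  · simp

private theorem pfe_resc_X (M : ℂ) :
    PowerSeries.rescale M PowerSeries.X = PowerSeries.C M * PowerSeries.X := by
  ext n
  rw [PowerSeries.coeff_rescale, PowerSeries.coeff_C_mul, PowerSeries.coeff_X]
  split_ifs with h
  · subst h; simp
  · simp

private theorem pfe_resc_mul (M : ℂ) (P Q : PowerSeries ℂ) :
    PowerSeries.rescale M (P * Q) = PowerSeries.rescale M P * PowerSeries.rescale M Q :=
  map_mul _ _ _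

private theorem pfe_resc_add (M : ℂ) (P Q : PowerSeries ℂ) :
    PowerSeries.rescale M (P + Q) = PowerSeries.rescale M P + PowerSeries.rescale M Q :=
  map_add _ _ _

private theorem pfe_resc_sub (M : ℂ) (P Q : PowerSeries ℂ) :
    PowerSeries.rescale M (P - Q) = PowerSeries.rescale M P - PowerSeries.rescale M Q :=
  map_sub _ _ _

private theorem pfe_resc_one (M : ℂ) : PowerSeries.rescale M (1 : PowerSeries ℂ) = 1 :=
  map_one _

open PowerSeries in
private theorem pfeD_fe {N l : ℝ} (hN : N ≠ 0) {x : ℂ} (hx : x ≠ 0) :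
    PowerSeries.rescale ((N : ℂ) ^ 4 * x ^ 4) (pfeD N l (1 / ((N : ℂ) ^ 2 * x))) = pfeD N l x := by
  have hN' : (N : ℂ) ≠ 0 := by exact_mod_cast hN
  rw [pfeD, pfeD]
  simp only [pfe_resc_mul, pfe_resc_sub, pfe_resc_add, pfe_resc_one, pfe_resc_C, pfe_resc_X]
  have e1 : C ((((l ^ 2 - 2 * N : ℝ)) : ℂ) * ((N : ℂ) * (1 / ((N : ℂ) ^ 2 * x)) ^ 2)) *
      (C ((N : ℂ) ^ 4 * x ^ 4) * X) =
      C ((((l ^ 2 - 2 * N : ℝ)) : ℂ) * ((N : ℂ) * x ^ 2)) * (X : PowerSeries ℂ) := by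
    rw [← mul_assoc, ← map_mul]
    congr 2
    field_simp
  have e2 : C ((N : ℂ) ^ 4 * (1 / ((N : ℂ) ^ 2 * x)) ^ 4) *
      (C ((N : ℂ) ^ 4 * x ^ 4) * X * (C ((N : ℂ) ^ 4 * x ^ 4) * X)) =
      C ((N : ℂ) ^ 4 * x ^ 4) * ((X : PowerSeries ℂ) * X) := by
    rw [mul_mul_mul_comm, ← mul_assoc, ← map_mul, ← map_mul]
    congr 2
    field_simp
  have e3 : C ((N : ℂ) ^ 4 * (1 / ((N : ℂ) ^ 2 * x)) ^ 4) *
      (C ((N : ℂ) ^ 4 * x ^ 4) * X) = (X : PowerSeries ℂ) := by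
    rw [← mul_assoc, ← map_mul]
    have : (N : ℂ) ^ 4 * (1 / ((N : ℂ) ^ 2 * x)) ^ 4 * ((N : ℂ) ^ 4 * x ^ 4) = 1 := by
      field_simp
    rw [this, map_one, one_mul]
  rw [e1, e2, e3]
  ring

theorem Pw_fe {N l : ℝ} (hN : N ≠ 0) (b : ℕ) {x : ℂ} (hx : x ≠ 0) :
    Pw N l b x = ((N : ℂ) * x) ^ (4 * (b / 2)) * Pw N l b (1 / ((N : ℂ) ^ 2 * x)) := by
  have hN' : (N : ℂ) ≠ 0 := by exact_mod_cast hN
  set x' : ℂ := 1 / ((N : ℂ) ^ 2 * x) with hx'
  set M : ℂ := (N : ℂ) ^ 4 * x ^ 4 with hM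
  have hpow : ∀ m : ℕ, ((N : ℂ) * x) ^ (4 * m) = M ^ m := by
    intro m
    rw [pow_mul, mul_pow]
  have hfe := pfeD_fe (l := l) hN hx
  have hCC : ∀ a : ℂ, PowerSeries.C a * (PowerSeries.C M * PowerSeries.X *
      (PowerSeries.C M * PowerSeries.X)) = PowerSeries.C (a * (M * M)) *
      ((PowerSeries.X : PowerSeries ℂ) * PowerSeries.X) := by
    intro a
    rw [mul_mul_mul_comm, ← mul_assoc, ← map_mul, ← map_mul]
  have hC : ∀ a : ℂ, PowerSeries.C a * (PowerSeries.C M * PowerSeries.X) =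
      PowerSeries.C (a * M) * (PowerSeries.X : PowerSeries ℂ) := by
    intro a
    rw [← mul_assoc, ← map_mul]
  rcases Nat.even_or_odd' b with ⟨m, rfl | rfl⟩
  · rw [Nat.mul_div_cancel_left m two_pos, hpow]
    have h1 := pfeD_even N l x
    have h2 := congrArg (PowerSeries.rescale M) (pfeD_even N l x')
    simp only [pfe_resc_mul, pfe_resc_add, pfe_resc_one, pfe_resc_C, pfe_resc_X] at h2
    rw [hfe, hC, hCC] at h2
    have e1 : pfeA N l x' * M = pfeA N l x := by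
      rw [pfeA, pfeA, hx', hM]
      field_simp
      ring
    have e2 : (N : ℂ) ^ 3 * x' ^ 4 * (M * M) = (N : ℂ) ^ 3 * x ^ 4 := by
      rw [hx', hM]
      field_simp
    rw [e1, e2, ← h1] at h2
    have h3 := mul_left_cancel₀ (pfeD_ne N l x) h2
    have h4 := congrArg (PowerSeries.coeff m) h3
    rw [PowerSeries.coeff_rescale, PowerSeries.coeff_mk, PowerSeries.coeff_mk] at h4
    exact h4.symm
  · have hm : (2 * m + 1) / 2 = m := by omega
    rw [hm, hpow]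
    have h1 := pfeD_odd N l x
    have h2 := congrArg (PowerSeries.rescale M) (pfeD_odd N l x')
    simp only [pfe_resc_mul, pfe_resc_add, pfe_resc_one, pfe_resc_C, pfe_resc_X] at h2
    rw [hfe, hC] at h2
    have e1 : (N : ℂ) ^ 2 * x' ^ 2 * M = (N : ℂ) ^ 2 * x ^ 2 := by
      rw [hx', hM]
      field_simp
    rw [e1, ← h1] at h2
    have h3 := mul_left_cancel₀ (pfeD_ne N l x) h2
    have h4 := congrArg (PowerSeries.coeff m) h3
    rw [PowerSeries.coeff_rescale, PowerSeries.coeff_mk, PowerSeries.coeff_mk] at h4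
    exact h4.symm

end Pool.Agent.QD
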