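import Pool.Agent.QD.A.LocSeq

/-!
# QD-A06: functional equation of the column polynomials

PLAN. Fix `y ≠ 0`, power series in `X`.  From the definition (`∑ l1 a x^a = 1/E(x)`,
`E(x) E(-x) = E2(x^2)`; split into even and odd `a`; `∑_{i,j} l2 i N^(i+4j) y^(2i+2j) x^(2i+4j) =
1/(E2(N x^2 y^2) (1 - N^4 x^4 y^2))`):
`∑ Qw (2m) y X^m = [(1+NX)(1+NXy)(1+N^2Xy^2) - l^2 X y (1+N^2 X y)] / D`,
`∑ Qw (2m+1) y X^m = l (1 - N^3 X^2 y^2) / D`,  `D = E2(X) E2(N X y^2) (1 - N^4 X^2 y^2)`.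
The substitution `X → N y^2 X`, `y → 1/(N y)` fixes `D` and both numerators.  Hence
`Qw a y = (N y^2)^(a/2) Qw a (1/(N y))`.  All identities were checked numerically.
-/
namespace Pool.Agent.QD

open PowerSeries

private theorem lq_three {P Q : PowerSeries ℂ} (h0 : coeff 0 P = coeff 0 Q)
    (h1 : coeff 1 P = coeff 1 Q) (h2 : ∀ n, coeff (n + 2) P = coeff (n + 2) Q) : P = Q := by
  ext n
  match n with
  | 0 => exact h0
  | 1 => exact h1
  | (n + 2) => exact h2 n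

private theorem lq_quad (S : PowerSeries ℂ) (a b : ℂ) :
    S * (1 - C a * X + C b * X ^ 2) = S - C a * (X * S) + C b * (X * (X * S)) := by
  ring

private theorem lq_c0 (S : PowerSeries ℂ) (a b : ℂ) :
    coeff 0 (S * (1 - C a * X + C b * X ^ 2)) = coeff 0 S := by
  rw [lq_quad, map_add, map_sub, coeff_C_mul, coeff_C_mul, coeff_zero_X_mul, coeff_zero_X_mul]
  ring

private theorem lq_c1 (S : PowerSeries ℂ) (a b : ℂ) :
    coeff 1 (S * (1 - C a * X + C b * X ^ 2)) = coeff 1 S - a * coeff 0 S := by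
  have h1 : coeff 1 (X * S) = coeff 0 S := coeff_succ_X_mul 0 S
  have h2 : coeff 1 (X * (X * S)) = coeff 0 (X * S) := coeff_succ_X_mul 0 (X * S)
  rw [lq_quad, map_add, map_sub, coeff_C_mul, coeff_C_mul, h1, h2, coeff_zero_X_mul]
  ring

private theorem lq_c2 (S : PowerSeries ℂ) (a b : ℂ) (n : ℕ) :
    coeff (n + 2) (S * (1 - C a * X + C b * X ^ 2)) =
      coeff (n + 2) S - a * coeff (n + 1) S + b * coeff n S := by
  rw [lq_quad, map_add, map_sub, coeff_C_mul, coeff_C_mul, coeff_succ_X_mul, coeff_succ_X_mul,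
    coeff_succ_X_mul]

private theorem lseq_ps (p q : ℝ) (c : ℂ) :
    (PowerSeries.mk fun i => (lseq p q i : ℂ) * c ^ i) *
      (1 - C ((p : ℂ) * c) * X + C ((q : ℂ) * c ^ 2) * X ^ 2) = 1 := by
  apply lq_three
  · rw [lq_c0, coeff_mk, coeff_one, if_pos rfl]
    simp [lseq]
  · rw [lq_c1, coeff_mk, coeff_mk, coeff_one, if_neg one_ne_zero]
    simp [lseq]
  · intro n
    rw [lq_c2, coeff_mk, coeff_mk, coeff_mk, coeff_one, if_neg (by omega)]
    have h : (lseq p q (n + 2) : ℂ) = (p : ℂ) * lseq p q (n + 1) - q * lseq p q n := by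
      rw [lseq]; push_cast; ring
    rw [h]
    ring

private theorem l1_four (N l : ℝ) (n : ℕ) :
    l1 N l (n + 4) = (l ^ 2 - 2 * N) * l1 N l (n + 2) - N ^ 2 * l1 N l n := by
  have h2 : l1 N l (n + 2) = l * l1 N l (n + 1) - N * l1 N l n := by
    unfold l1; rw [lseq]
  have h3 : l1 N l (n + 3) = l * l1 N l (n + 2) - N * l1 N l (n + 1) := by
    unfold l1; rw [lseq]
  have h4 : l1 N l (n + 4) = l * l1 N l (n + 3) - N * l1 N l (n + 2) := by
    unfold l1; rw [lseq]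
  rw [h4, h3]
  linear_combination N * h2

/-- even part of `1/E` -/
private theorem l1_even_ps (N l : ℝ) :
    (PowerSeries.mk fun k => (l1 N l (2 * k) : ℂ)) *
      (1 - C ((l : ℂ) ^ 2 - 2 * (N : ℂ)) * X + C ((N : ℂ) ^ 2) * X ^ 2) = 1 + C (N : ℂ) * X := by
  apply lq_three
  · rw [lq_c0, coeff_mk]
    simp [l1, lseq]
  · rw [lq_c1, coeff_mk, coeff_mk]
    simp only [map_add, coeff_one, coeff_C_mul, coeff_one_X, l1, lseq]
    push_cast
    simp
    ring
  · intro n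
    rw [lq_c2, coeff_mk, coeff_mk, coeff_mk]
    have h : (l1 N l (2 * (n + 2)) : ℂ) = ((l : ℂ) ^ 2 - 2 * (N : ℂ)) * l1 N l (2 * (n + 1)) -
        (N : ℂ) ^ 2 * l1 N l (2 * n) := by
      have := l1_four N l (2 * n)
      rw [show 2 * (n + 2) = 2 * n + 4 by ring, show 2 * (n + 1) = 2 * n + 2 by ring, this]
      push_cast
      ring
    rw [h, map_add, coeff_one, coeff_C_mul, coeff_X, if_neg (by omega), if_neg (by omega)]
    ring

/-- odd part of `1/E` -/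
private theorem l1_odd_ps (N l : ℝ) :
    (PowerSeries.mk fun k => (l1 N l (2 * k + 1) : ℂ)) *
      (1 - C ((l : ℂ) ^ 2 - 2 * (N : ℂ)) * X + C ((N : ℂ) ^ 2) * X ^ 2) = C (l : ℂ) := by
  apply lq_three
  · rw [lq_c0, coeff_mk]
    simp [l1, lseq]
  · rw [lq_c1, coeff_mk, coeff_mk]
    simp only [coeff_C, l1, lseq]
    push_cast
    simp
    ring
  · intro n
    rw [lq_c2, coeff_mk, coeff_mk, coeff_mk]
    have h : (l1 N l (2 * (n + 2) + 1) : ℂ) =
        ((l : ℂ) ^ 2 - 2 * (N : ℂ)) * l1 N l (2 * (n + 1) + 1) -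
        (N : ℂ) ^ 2 * l1 N l (2 * n + 1) := by
      have := l1_four N l (2 * n + 1)
      rw [show 2 * (n + 2) + 1 = 2 * n + 1 + 4 by ring,
        show 2 * (n + 1) + 1 = 2 * n + 1 + 2 by ring, this]
      push_cast
      ring
    rw [h, coeff_C, if_neg (by omega)]
    ring

private theorem geo2_ps (c : ℂ) :
    (PowerSeries.mk fun k => if Even k then c ^ (k / 2) else 0) *
      (1 - C (0 : ℂ) * X + C (-c) * X ^ 2) = 1 := by
  apply lq_three
  · rw [lq_c0, coeff_mk]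
    simp
  · rw [lq_c1, coeff_mk, coeff_mk]
    simp [coeff_one]
  · intro n
    rw [lq_c2, coeff_mk, coeff_mk, coeff_mk, coeff_one, if_neg (show n + 2 ≠ 0 by omega)]
    by_cases h : Even n
    · rw [if_pos (h.add even_two), if_pos h, show (n + 2) / 2 = n / 2 + 1 by omega]
      ring
    · rw [if_neg (fun h' => h ((Nat.even_add.1 h').2 even_two)), if_neg h]
      ring

private theorem conv2 (g h : ℕ → ℂ) {r M : ℕ} (hM : r < M) :
    coeff r ((PowerSeries.mk fun k => if Even k then g (k / 2) else 0) * PowerSeries.mk h) =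
      ∑ j ∈ Finset.range M, if 2 * j ≤ r then g j * h (r - 2 * j) else 0 := by
  rw [coeff_mul, Finset.Nat.sum_antidiagonal_eq_sum_range_succ
    (fun i j => coeff i (PowerSeries.mk fun k => if Even k then g (k / 2) else 0) *
      coeff j (PowerSeries.mk h)) r]
  simp only [coeff_mk, ite_mul, zero_mul]
  rw [← Finset.sum_filter, ← Finset.sum_filter]
  refine Finset.sum_nbij' (fun k => k / 2) (fun j => 2 * j) ?_ ?_ ?_ ?_ ?_
  · intro k hk
    rw [Finset.mem_filter, Finset.mem_range] at hk ⊢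
    omega
  · intro j hj
    rw [Finset.mem_filter, Finset.mem_range] at hj ⊢
    exact ⟨by omega, even_two_mul j⟩
  · intro k hk
    rw [Finset.mem_filter] at hk
    obtain ⟨t, ht⟩ := hk.2
    show 2 * (k / 2) = k
    omega
  · intro j hj
    show 2 * j / 2 = j
    omega
  · intro k hk
    rw [Finset.mem_filter] at hk
    obtain ⟨t, ht⟩ := hk.2
    show g (k / 2) * h (r - k) = g (k / 2) * h (r - 2 * (k / 2))
    rw [show 2 * (k / 2) = k by omega]

private theorem conv3 (f g h : ℕ → ℂ) {m M : ℕ} (hM : m < M) :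
    ∑ i ∈ Finset.range M, ∑ j ∈ Finset.range M,
      (if i + 2 * j ≤ m then f i * g j * h (m - (i + 2 * j)) else 0) =
    coeff m (PowerSeries.mk f *
      ((PowerSeries.mk fun k => if Even k then g (k / 2) else 0) * PowerSeries.mk h)) := by
  rw [coeff_mul, Finset.Nat.sum_antidiagonal_eq_sum_range_succ
    (fun i j => coeff i (PowerSeries.mk f) *
      coeff j ((PowerSeries.mk fun k => if Even k then g (k / 2) else 0) * PowerSeries.mk h)) m]
  rw [← Finset.sum_subset (Finset.range_mono (show m + 1 ≤ M from hM))]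
  · refine Finset.sum_congr rfl fun i hi => ?_
    rw [Finset.mem_range] at hi
    rw [coeff_mk, conv2 g h (show m - i < M by omega), Finset.mul_sum]
    refine Finset.sum_congr rfl fun j _ => ?_
    by_cases h1 : i + 2 * j ≤ m
    · rw [if_pos h1, if_pos (by omega), show m - i - 2 * j = m - (i + 2 * j) by omega]
      ring
    · rw [if_neg h1, if_neg (by omega), mul_zero]
  · intro i _ hi
    rw [Finset.mem_range, not_lt] at hi
    refine Finset.sum_eq_zero fun j _ => ?_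
    rw [if_neg (by omega)]

/-- the first factor -/
private noncomputable def qS1 (N l : ℝ) (y : ℂ) : PowerSeries ℂ :=
  PowerSeries.mk fun i => (l2 N l i : ℂ) * ((N : ℂ) * y ^ 2) ^ i

/-- the second factor -/
private noncomputable def qS2 (N : ℝ) (y : ℂ) : PowerSeries ℂ :=
  PowerSeries.mk fun k => if Even k then ((N : ℂ) ^ 4 * y ^ 2) ^ (k / 2) else 0

private noncomputable def qHe (N l : ℝ) (y : ℂ) : ℕ → ℂ := fun k =>
  (1 - y) * ((l1 N l (2 * k) : ℂ) -
    (if 2 ≤ k then (N : ℂ) ^ 3 * (l1 N l (2 * (k - 2)) : ℂ) * y ^ 2 else 0)) +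
    (if k = 0 then y else 0) + (if k = 1 then (N : ℂ) ^ 2 * y ^ 2 else 0)

private noncomputable def qHo (N l : ℝ) (y : ℂ) : ℕ → ℂ := fun k =>
  (l1 N l (2 * k + 1) : ℂ) -
    (if 2 ≤ k then (N : ℂ) ^ 3 * (l1 N l (2 * (k - 2) + 1) : ℂ) * y ^ 2 else 0)

private theorem Qw_even (N l : ℝ) (y : ℂ) (m : ℕ) :
    Qw N l (2 * m) y = coeff m (qS1 N l y * (qS2 N y * PowerSeries.mk (qHe N l y))) := by
  unfold qS1 qS2
  rw [← conv3 (fun i => (l2 N l i : ℂ) * ((N : ℂ) * y ^ 2) ^ i)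
    (fun j => ((N : ℂ) ^ 4 * y ^ 2) ^ j) (qHe N l y) (show m < 2 * m + 1 by omega)]
  unfold Qw
  refine Finset.sum_congr rfl fun i _ => Finset.sum_congr rfl fun j _ => ?_
  by_cases h : i + 2 * j ≤ m
  · rw [if_pos h, if_pos (by omega), if_pos (even_two_mul m)]
    unfold qHe
    have h1 : 2 * m - (2 * i + 4 * j) = 2 * (m - (i + 2 * j)) := by omega
    rw [h1]
    set k := m - (i + 2 * j) with hk
    have e1 : (if 4 ≤ 2 * k then (N : ℂ) ^ 3 * (l1 N l (2 * k - 4) : ℂ) * y ^ 2 else 0) =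
        if 2 ≤ k then (N : ℂ) ^ 3 * (l1 N l (2 * (k - 2)) : ℂ) * y ^ 2 else 0 := by
      by_cases h2 : 2 ≤ k
      · rw [if_pos h2, if_pos (by omega), show 2 * k - 4 = 2 * (k - 2) by omega]
      · rw [if_neg h2, if_neg (by omega)]
    have e2 : (if 2 * k = 0 then y else 0) = if k = 0 then y else 0 := by
      by_cases h2 : k = 0
      · rw [if_pos h2, if_pos (by omega)]
      · rw [if_neg h2, if_neg (by omega)]
    have e3 : (if 2 * k = 2 then (N : ℂ) ^ 2 * y ^ 2 else 0) =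
        if k = 1 then (N : ℂ) ^ 2 * y ^ 2 else 0 := by
      by_cases h2 : k = 1
      · rw [if_pos h2, if_pos (by omega)]
      · rw [if_neg h2, if_neg (by omega)]
    rw [e1, e2, e3]
    ring
  · rw [if_neg h, if_neg (by omega)]

private theorem Qw_odd (N l : ℝ) (y : ℂ) (m : ℕ) :
    Qw N l (2 * m + 1) y = coeff m (qS1 N l y * (qS2 N y * PowerSeries.mk (qHo N l y))) := by
  unfold qS1 qS2
  rw [← conv3 (fun i => (l2 N l i : ℂ) * ((N : ℂ) * y ^ 2) ^ i)
    (fun j => ((N : ℂ) ^ 4 * y ^ 2) ^ j) (qHo N l y) (show m < 2 * m + 1 + 1 by omega)]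
  unfold Qw
  refine Finset.sum_congr rfl fun i _ => Finset.sum_congr rfl fun j _ => ?_
  have hodd : ¬ Even (2 * m + 1) := by
    rw [Nat.not_even_iff_odd]
    exact ⟨m, rfl⟩
  by_cases h : i + 2 * j ≤ m
  · rw [if_pos h, if_pos (by omega), if_neg hodd]
    unfold qHo
    have h1 : 2 * m + 1 - (2 * i + 4 * j) = 2 * (m - (i + 2 * j)) + 1 := by omega
    rw [h1]
    set k := m - (i + 2 * j) with hk
    have e1 : (if 4 ≤ 2 * k + 1 then (N : ℂ) ^ 3 * (l1 N l (2 * k + 1 - 4) : ℂ) * y ^ 2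
        else 0) =
        if 2 ≤ k then (N : ℂ) ^ 3 * (l1 N l (2 * (k - 2) + 1) : ℂ) * y ^ 2 else 0 := by
      by_cases h2 : 2 ≤ k
      · rw [if_pos h2, if_pos (by omega), show 2 * k + 1 - 4 = 2 * (k - 2) + 1 by omega]
      · rw [if_neg h2, if_neg (by omega)]
    rw [e1, if_neg (show ¬ (2 * k + 1 = 0) by omega), if_neg (show ¬ (2 * k + 1 = 2) by omega)]
    ring
  · rw [if_neg h, if_neg (by omega)]

private theorem qHe_ps (N l : ℝ) (y : ℂ) :
    PowerSeries.mk (qHe N l y) = C (1 - y) * ((PowerSeries.mk fun k => (l1 N l (2 * k) : ℂ)) -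
      C ((N : ℂ) ^ 3 * y ^ 2) * (X ^ 2 * PowerSeries.mk fun k => (l1 N l (2 * k) : ℂ))) +
      C y + C ((N : ℂ) ^ 2 * y ^ 2) * X := by
  ext k
  rw [coeff_mk, map_add, map_add, coeff_C_mul, map_sub, coeff_C_mul, coeff_X_pow_mul', coeff_mk,
    coeff_C, coeff_C_mul, coeff_X]
  unfold qHe
  by_cases h2 : 2 ≤ k
  · rw [if_pos h2, if_pos h2, coeff_mk]
    simp only [mul_ite, mul_one, mul_zero]
    ring
  · rw [if_neg h2, if_neg h2]
    simp only [mul_ite, mul_one, mul_zero]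

private theorem qHo_ps (N l : ℝ) (y : ℂ) :
    PowerSeries.mk (qHo N l y) = (PowerSeries.mk fun k => (l1 N l (2 * k + 1) : ℂ)) -
      C ((N : ℂ) ^ 3 * y ^ 2) * (X ^ 2 * PowerSeries.mk fun k => (l1 N l (2 * k + 1) : ℂ)) := by
  ext k
  rw [coeff_mk, map_sub, coeff_C_mul, coeff_X_pow_mul', coeff_mk]
  unfold qHo
  by_cases h2 : 2 ≤ k
  · rw [if_pos h2, if_pos h2, coeff_mk]
    ring
  · rw [if_neg h2, if_neg h2, mul_zero]

/-- the common denominator `D` -/
private noncomputable def qD (N l : ℝ) (y : ℂ) : PowerSeries ℂ :=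
  (1 - C ((l : ℂ) ^ 2 - 2 * (N : ℂ)) * X + C ((N : ℂ) ^ 2) * X ^ 2) *
    ((1 - C ((l : ℂ) ^ 2 - 2 * (N : ℂ)) * (C ((N : ℂ) * y ^ 2) * X) +
      C ((N : ℂ) ^ 2) * (C ((N : ℂ) * y ^ 2) * X) ^ 2) *
      (1 - C ((N : ℂ) ^ 4 * y ^ 2) * X ^ 2))

private theorem qS_D (N l : ℝ) (y : ℂ) (H : PowerSeries ℂ) :
    (qS1 N l y * (qS2 N y * H)) * qD N l y =
      H * (1 - C ((l : ℂ) ^ 2 - 2 * (N : ℂ)) * X + C ((N : ℂ) ^ 2) * X ^ 2) := by
  have h1 := lseq_ps (l ^ 2 - 2 * N) (N ^ 2) ((N : ℂ) * y ^ 2)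
  have h2 := geo2_ps ((N : ℂ) ^ 4 * y ^ 2)
  have h1' : qS1 N l y * (1 - C ((l : ℂ) ^ 2 - 2 * (N : ℂ)) * (C ((N : ℂ) * y ^ 2) * X) +
      C ((N : ℂ) ^ 2) * (C ((N : ℂ) * y ^ 2) * X) ^ 2) = 1 := by
    refine Eq.trans ?_ h1
    have e1 : ((l ^ 2 - 2 * N : ℝ) : ℂ) = (l : ℂ) ^ 2 - 2 * (N : ℂ) := by push_cast; ring
    have e2 : ((N ^ 2 : ℝ) : ℂ) = (N : ℂ) ^ 2 := by push_cast; ring
    rw [e1, e2]
    unfold qS1 l2
    rw [map_mul C ((l : ℂ) ^ 2 - 2 * (N : ℂ)), map_mul C ((N : ℂ) ^ 2),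
      map_pow C ((N : ℂ) * y ^ 2)]
    ring
  have h2' : qS2 N y * (1 - C ((N : ℂ) ^ 4 * y ^ 2) * X ^ 2) = 1 := by
    refine Eq.trans ?_ h2
    unfold qS2
    rw [map_zero, map_neg]
    ring
  unfold qD
  linear_combination (H * (1 - C ((l : ℂ) ^ 2 - 2 * (N : ℂ)) * X + C ((N : ℂ) ^ 2) * X ^ 2)) *
    (qS2 N y * (1 - C ((N : ℂ) ^ 4 * y ^ 2) * X ^ 2)) * h1' +
    (H * (1 - C ((l : ℂ) ^ 2 - 2 * (N : ℂ)) * X + C ((N : ℂ) ^ 2) * X ^ 2)) * h2'

private theorem qD_ne (N l : ℝ) (y : ℂ) : qD N l y ≠ 0 := by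
  intro h
  have h1 := congrArg (constantCoeff (R := ℂ)) h
  unfold qD at h1
  simp at h1

/-- numerator, even case -/
private theorem q_even_num (N l : ℝ) (y : ℂ) :
    (qS1 N l y * (qS2 N y * PowerSeries.mk (qHe N l y))) * qD N l y =
      (1 + C (N : ℂ) * X) * (1 + C ((N : ℂ) * y) * X) * (1 + C ((N : ℂ) ^ 2 * y ^ 2) * X) -
        C ((l : ℂ) ^ 2 * y) * X * (1 + C ((N : ℂ) ^ 2 * y) * X) := by
  rw [qS_D, qHe_ps]
  have h := l1_even_ps N l
  set A := PowerSeries.mk fun k => (l1 N l (2 * k) : ℂ) with hA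
  simp only [map_mul, map_pow, map_sub, map_one, map_ofNat] at h ⊢
  linear_combination ((1 - C y) * (1 - C (N : ℂ) ^ 3 * C y ^ 2 * X ^ 2)) * h

private theorem q_odd_num (N l : ℝ) (y : ℂ) :
    (qS1 N l y * (qS2 N y * PowerSeries.mk (qHo N l y))) * qD N l y =
      C (l : ℂ) * (1 - C ((N : ℂ) ^ 3 * y ^ 2) * X ^ 2) := by
  rw [qS_D, qHo_ps]
  have h := l1_odd_ps N l
  set A := PowerSeries.mk fun k => (l1 N l (2 * k + 1) : ℂ) with hA
  linear_combination (1 - C ((N : ℂ) ^ 3 * y ^ 2) * X ^ 2) * h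

private theorem qD_resc {N l : ℝ} {y w : ℂ} (h : (N : ℂ) * y * w = 1) :
    rescale ((N : ℂ) * y ^ 2) (qD N l w) = qD N l y := by
  have e1 : (N : ℂ) * w ^ 2 * ((N : ℂ) * y ^ 2) = 1 := by
    linear_combination ((N : ℂ) * y * w + 1) * h
  have e2 : (N : ℂ) ^ 4 * w ^ 2 * ((N : ℂ) * y ^ 2) ^ 2 = (N : ℂ) ^ 4 * y ^ 2 := by
    linear_combination ((N : ℂ) ^ 4 * y ^ 2 * ((N : ℂ) * y * w + 1)) * h
  have f1 : C ((N : ℂ) * w ^ 2) * (C ((N : ℂ) * y ^ 2) * X) = X := by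
    rw [← mul_assoc, ← map_mul, e1, map_one, one_mul]
  have f2 : C ((N : ℂ) ^ 4 * w ^ 2) * (C ((N : ℂ) * y ^ 2) * X) ^ 2 =
      C ((N : ℂ) ^ 4 * y ^ 2) * X ^ 2 := by
    rw [mul_pow, ← map_pow, ← mul_assoc, ← map_mul, e2]
  have hC : ∀ a : ℂ, rescale ((N : ℂ) * y ^ 2) (C a) = C a := by
    intro a
    ext n
    rw [coeff_rescale, coeff_C]
    split_ifs with hn
    · rw [hn, pow_zero, one_mul]
    · rw [mul_zero]
  unfold qD
  rw [map_mul, map_mul]
  simp only [map_add, map_sub, map_one, map_mul (rescale ((N : ℂ) * y ^ 2)),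
    map_pow (rescale ((N : ℂ) * y ^ 2)), rescale_X, hC]
  rw [f1, f2]
  ring

theorem Qw_fe {N l : ℝ} (hN : N ≠ 0) (a : ℕ) {y : ℂ} (hy : y ≠ 0) :
    Qw N l a y = ((N : ℂ) * y ^ 2) ^ (a / 2) * Qw N l a (1 / ((N : ℂ) * y)) := by
  have hN' : (N : ℂ) ≠ 0 := by exact_mod_cast hN
  set w : ℂ := 1 / ((N : ℂ) * y) with hw
  have h : (N : ℂ) * y * w = 1 := by
    rw [hw]
    field_simp
  have hC : ∀ a : ℂ, rescale ((N : ℂ) * y ^ 2) (C a) = C a := by
    intro a
    ext n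
    rw [coeff_rescale, coeff_C]
    split_ifs with hn
    · rw [hn, pow_zero, one_mul]
    · rw [mul_zero]
  have hCh : C (N : ℂ) * C y * C w = (1 : PowerSeries ℂ) := by
    rw [← map_mul, ← map_mul, h, map_one]
  rcases Nat.even_or_odd' a with ⟨m, rfl | rfl⟩
  · have key : qS1 N l y * (qS2 N y * PowerSeries.mk (qHe N l y)) =
        rescale ((N : ℂ) * y ^ 2) (qS1 N l w * (qS2 N w * PowerSeries.mk (qHe N l w))) := by
      apply mul_right_cancel₀ (qD_ne N l y)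
      rw [q_even_num]
      conv_rhs => rw [← qD_resc (l := l) h, ← map_mul, q_even_num]
      simp only [map_add, map_sub, map_one, map_mul (rescale ((N : ℂ) * y ^ 2)), rescale_X, hC]
      simp only [map_mul, map_pow]
      have g1 : C (N : ℂ) ^ 2 * C y ^ 2 * C w = C (N : ℂ) * C y := by
        linear_combination (C (N : ℂ) * C y) * hCh
      have g2 : C (N : ℂ) ^ 3 * C y ^ 2 * C w ^ 2 = C (N : ℂ) := by
        linear_combination (C (N : ℂ) * (C (N : ℂ) * C y * C w + 1)) * hCh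
      have g3 : C (N : ℂ) * C y ^ 2 * C w = C y := by
        linear_combination (C y) * hCh
      have g4 : C (N : ℂ) ^ 3 * C y ^ 2 * C w = C (N : ℂ) ^ 2 * C y := by
        linear_combination (C (N : ℂ) ^ 2 * C y) * hCh
      have e1 : C (N : ℂ) * C w * (C (N : ℂ) * C y ^ 2 * X) = C (N : ℂ) * C y * X := by
        linear_combination X * g1
      have e2 : C (N : ℂ) ^ 2 * C w ^ 2 * (C (N : ℂ) * C y ^ 2 * X) = C (N : ℂ) * X := by
        linear_combination X * g2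
      have e3 : C (l : ℂ) ^ 2 * C w * (C (N : ℂ) * C y ^ 2 * X) = C (l : ℂ) ^ 2 * C y * X := by
        linear_combination (C (l : ℂ) ^ 2 * X) * g3
      have e4 : C (N : ℂ) ^ 2 * C w * (C (N : ℂ) * C y ^ 2 * X) = C (N : ℂ) ^ 2 * C y * X := by
        linear_combination X * g4
      rw [e1, e2, e3, e4]
      ring
    rw [Qw_even, Qw_even, key, coeff_rescale, show 2 * m / 2 = m by omega]
  · have key : qS1 N l y * (qS2 N y * PowerSeries.mk (qHo N l y)) =
        rescale ((N : ℂ) * y ^ 2) (qS1 N l w * (qS2 N w * PowerSeries.mk (qHo N l w))) := by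
      apply mul_right_cancel₀ (qD_ne N l y)
      rw [q_odd_num]
      conv_rhs => rw [← qD_resc (l := l) h, ← map_mul, q_odd_num]
      simp only [map_sub, map_one, map_mul (rescale ((N : ℂ) * y ^ 2)),
        map_pow (rescale ((N : ℂ) * y ^ 2)), rescale_X, hC]
      have e2 : (N : ℂ) ^ 3 * w ^ 2 * ((N : ℂ) * y ^ 2) ^ 2 = (N : ℂ) ^ 3 * y ^ 2 := by
        linear_combination ((N : ℂ) ^ 3 * y ^ 2 * ((N : ℂ) * y * w + 1)) * h
      rw [mul_pow, ← map_pow C, ← mul_assoc (C ((N : ℂ) ^ 3 * w ^ 2)), ← map_mul, e2]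
    rw [Qw_odd, Qw_odd, key, coeff_rescale, show (2 * m + 1) / 2 = m by omega]

end Pool.Agent.QD
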