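import Pool.Agent.QD.A.LocH

/-!
# QD-A03: rows of the local weights

PLAN. Put `c_ij = l2 i * N^(i+4j)`.  For fixed `b` the sum over `a` of `hloc a b x^a` is the
finite sum over `i, j` with `2i + 2j ≤ b` of `c_ij x^(2i+4j) φ_(b-2i-2j)(x)`, where
`φ_b'(x) = ∑_a h0 a b' x^a`: `φ_0 = 1/E(x)`, `φ_1 = 1`, `φ_2 = 1 + N^2 x^2 - N^3 x^4/E(x)`,
`φ_b' = 1 + N^2 x^2` for `b' ≥ 3` (`lseq_gen` with `r = √N`, `√N ‖x‖ < 1`; a shifted series for the
`N^3` term).  With `k = i + j`: `∑_{i+j=k} c_ij x^(2i+4j) = rk k x`.  So the row sum is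
`∑_{k ≤ b/2} rk k x * φ_(b-2k)(x)`; comparing with the definition of `Pw` gives the claim for
`u = 1`.  For `u = -1` replace `x` by `-x` (`(-1)^a = if Odd a then -1 else 1`).
Odd `b`: only `φ_1` and `φ_(≥3)` occur, polynomial in `x^2`; the terms with `a` odd vanish
(`hloc_odd`), so `u` is arbitrary.
-/

namespace Pool.Agent.QD

private theorem lr_small {N : ℝ} (hN : 101 ≤ N) {x : ℂ} (hx : ‖x‖ ≤ (N ^ 3)⁻¹) :
    Real.sqrt N * ‖x‖ < 1 := by
  have h1 : Real.sqrt N ≤ N := by
    rw [Real.sqrt_le_left (by linarith)]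
    nlinarith
  have h0 : 0 < N ^ 3 := by positivity
  calc Real.sqrt N * ‖x‖ ≤ N * (N ^ 3)⁻¹ :=
        mul_le_mul h1 hx (norm_nonneg _) (by linarith)
    _ = (N ^ 2)⁻¹ := by field_simp
    _ < 1 := by
        apply inv_lt_one_of_one_lt₀
        nlinarith

private theorem lr_shift {g : ℕ → ℂ} {x F : ℂ} (h : HasSum (fun a => g a * x ^ a) F) (s : ℕ) :
    HasSum (fun a => (if s ≤ a then g (a - s) else 0) * x ^ a) (x ^ s * F) := by
  rw [← hasSum_nat_add_iff' s]
  have h1 : ∑ i ∈ Finset.range s, (if s ≤ i then g (i - s) else 0) * x ^ i = 0 := by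
    refine Finset.sum_eq_zero fun i hi => ?_
    rw [Finset.mem_range] at hi
    rw [if_neg (by omega), zero_mul]
  rw [h1, sub_zero]
  have h2 := h.mul_left (x ^ s)
  refine h2.congr_fun ?_
  intro n
  rw [if_pos (by omega), Nat.add_sub_cancel, pow_add]
  ring

/-- `φ_b` -/
private noncomputable def lphi (N l : ℝ) (b : ℕ) (x : ℂ) : ℂ :=
  (if b = 0 then (EE N l x)⁻¹ else 0) -
    (if b = 2 then (N : ℂ) ^ 3 * x ^ 4 * (EE N l x)⁻¹ else 0) +
    (if 1 ≤ b then 1 else 0) + (if 2 ≤ b then (N : ℂ) ^ 2 * x ^ 2 else 0)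

private theorem lr_phi {N l : ℝ} (hN : 101 ≤ N) (hl : |l| ≤ 2 * Real.sqrt N) (b : ℕ)
    {x : ℂ} (hx : ‖x‖ ≤ (N ^ 3)⁻¹) :
    HasSum (fun a : ℕ => (h0 N l a b : ℂ) * x ^ a) (lphi N l b x) := by
  obtain ⟨q1, q2, q3⟩ := l1_par hN hl
  have hgen : HasSum (fun a : ℕ => (l1 N l a : ℂ) * x ^ a) (EE N l x)⁻¹ :=
    lseq_gen q1 q2 q3 (lr_small hN hx)
  have hA : HasSum (fun a : ℕ => (if b = 0 then (l1 N l a : ℂ) else 0) * x ^ a)
      (if b = 0 then (EE N l x)⁻¹ else 0) := by
    by_cases hb : b = 0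
    · simp only [hb, if_true]
      exact hgen
    · simp only [hb, if_false, zero_mul]
      exact hasSum_zero
  have hB : HasSum (fun a : ℕ => (if b = 2 then (if 4 ≤ a then (N : ℂ) ^ 3 * (l1 N l (a - 4) : ℂ)
      else 0) else 0) * x ^ a) (if b = 2 then (N : ℂ) ^ 3 * x ^ 4 * (EE N l x)⁻¹ else 0) := by
    by_cases hb : b = 2
    · simp only [hb, if_true]
      have h1 : HasSum (fun a : ℕ => ((N : ℂ) ^ 3 * (l1 N l a : ℂ)) * x ^ a)
          ((N : ℂ) ^ 3 * (EE N l x)⁻¹) := by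
        have h2 := hgen.mul_left ((N : ℂ) ^ 3)
        refine h2.congr_fun ?_
        intro n
        ring
      have h3 := lr_shift h1 4
      have h4 : x ^ 4 * ((N : ℂ) ^ 3 * (EE N l x)⁻¹) = (N : ℂ) ^ 3 * x ^ 4 * (EE N l x)⁻¹ := by
        ring
      rw [h4] at h3
      exact h3
    · simp only [hb, if_false, zero_mul]
      exact hasSum_zero
  have hC : HasSum (fun a : ℕ => (if a = 0 then (if 1 ≤ b then (1 : ℂ) else 0) else 0) * x ^ a)
      (if 1 ≤ b then 1 else 0) := by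
    have h1 := hasSum_single (f := fun a : ℕ =>
      (if a = 0 then (if 1 ≤ b then (1 : ℂ) else 0) else 0) * x ^ a) 0 (by
        intro a ha
        simp only [ha, if_false, zero_mul])
    simpa using h1
  have hD : HasSum (fun a : ℕ => (if a = 2 then (if 2 ≤ b then (N : ℂ) ^ 2 else 0) else 0) * x ^ a)
      (if 2 ≤ b then (N : ℂ) ^ 2 * x ^ 2 else 0) := by
    have h1 := hasSum_single (f := fun a : ℕ =>
      (if a = 2 then (if 2 ≤ b then (N : ℂ) ^ 2 else 0) else 0) * x ^ a) 2 (by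
        intro a ha
        simp only [ha, if_false, zero_mul])
    simp only [if_true] at h1
    by_cases hb : 2 ≤ b
    · simp only [hb, if_true] at h1 ⊢
      exact h1
    · simp only [hb, if_false, zero_mul] at h1 ⊢
      exact h1
  have h := ((hA.sub hB).add hC).add hD
  refine h.congr_fun ?_
  intro a
  have e : (h0 N l a b : ℂ) = (if b = 0 then (l1 N l a : ℂ) else 0) -
      (if b = 2 then (if 4 ≤ a then (N : ℂ) ^ 3 * (l1 N l (a - 4) : ℂ) else 0) else 0) +
      (if a = 0 then (if 1 ≤ b then (1 : ℂ) else 0) else 0) +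
      (if a = 2 then (if 2 ≤ b then (N : ℂ) ^ 2 else 0) else 0) := by
    unfold h0
    simp only [ite_and]
    split_ifs <;> push_cast <;> ring
  rw [e]
  ring

private theorem lr_hloc (N l : ℝ) (a b : ℕ) : hloc N l a b =
    ∑ i ∈ Finset.range (b + 1), ∑ j ∈ Finset.range (b + 1),
      if 2 * i + 2 * j ≤ b then l2 N l i * N ^ (i + 4 * j) *
        (if 2 * i + 4 * j ≤ a then h0 N l (a - (2 * i + 4 * j)) (b - (2 * i + 2 * j)) else 0)
      else 0 := by
  unfold hloc
  have hF : ∀ i j : ℕ, (if 2 * i + 4 * j ≤ a ∧ 2 * i + 2 * j ≤ b then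
      l2 N l i * N ^ (i + 4 * j) * h0 N l (a - (2 * i + 4 * j)) (b - (2 * i + 2 * j)) else 0) =
      if 2 * i + 2 * j ≤ b then l2 N l i * N ^ (i + 4 * j) *
        (if 2 * i + 4 * j ≤ a then h0 N l (a - (2 * i + 4 * j)) (b - (2 * i + 2 * j)) else 0)
      else 0 := by
    intro i j
    by_cases c1 : 2 * i + 2 * j ≤ b <;> by_cases c2 : 2 * i + 4 * j ≤ a <;> simp [c1, c2]
  simp only [hF]
  symm
  have hinner : ∀ i : ℕ, ∑ j ∈ Finset.range (b + 1),
      (if 2 * i + 2 * j ≤ b then l2 N l i * N ^ (i + 4 * j) *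
        (if 2 * i + 4 * j ≤ a then h0 N l (a - (2 * i + 4 * j)) (b - (2 * i + 2 * j)) else 0)
      else 0) = ∑ j ∈ Finset.range (a + b + 1),
      (if 2 * i + 2 * j ≤ b then l2 N l i * N ^ (i + 4 * j) *
        (if 2 * i + 4 * j ≤ a then h0 N l (a - (2 * i + 4 * j)) (b - (2 * i + 2 * j)) else 0)
      else 0) := by
    intro i
    refine Finset.sum_subset (Finset.range_mono (by omega)) fun j _ hj => ?_
    rw [Finset.mem_range] at hj
    rw [if_neg (by omega)]
  rw [Finset.sum_congr rfl fun i _ => hinner i]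
  refine Finset.sum_subset (Finset.range_mono (by omega)) fun i _ hi => ?_
  rw [Finset.mem_range] at hi
  refine Finset.sum_eq_zero fun j _ => ?_
  rw [if_neg (by omega)]

private theorem lr_group (F : ℕ → ℕ → ℂ) (b : ℕ) :
    ∑ i ∈ Finset.range (b + 1), ∑ j ∈ Finset.range (b + 1),
      (if 2 * i + 2 * j ≤ b then F i j else 0) =
    ∑ k ∈ Finset.range (b / 2 + 1), ∑ i ∈ Finset.range (k + 1), F i (k - i) := by
  rw [← Finset.sum_product', ← Finset.sum_filter, Finset.sum_sigma']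
  refine Finset.sum_nbij' (fun p => ⟨p.1 + p.2, p.1⟩) (fun q => (q.2, q.1 - q.2)) ?_ ?_ ?_ ?_ ?_
  · rintro ⟨i, j⟩ h
    simp only [Finset.mem_filter, Finset.mem_product, Finset.mem_range, Finset.mem_sigma] at h ⊢
    omega
  · rintro ⟨k, i⟩ h
    simp only [Finset.mem_filter, Finset.mem_product, Finset.mem_range, Finset.mem_sigma] at h ⊢
    omega
  · rintro ⟨i, j⟩ h
    simp
  · rintro ⟨k, i⟩ h
    simp only [Finset.mem_range, Finset.mem_sigma] at h
    have : i + (k - i) = k := by omega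
    simp [this]
  · rintro ⟨i, j⟩ h
    simp

/-- the row sum -/
private theorem lr_row {N l : ℝ} (hN : 101 ≤ N) (hl : |l| ≤ 2 * Real.sqrt N) (b : ℕ)
    {x : ℂ} (hx : ‖x‖ ≤ (N ^ 3)⁻¹) :
    HasSum (fun a : ℕ => (hloc N l a b : ℂ) * x ^ a)
      (∑ k ∈ Finset.range (b / 2 + 1), rk N l k x * lphi N l (b - 2 * k) x) := by
  have h1 : ∀ i j : ℕ, HasSum (fun a : ℕ => (if 2 * i + 2 * j ≤ b then
      (l2 N l i : ℂ) * (N : ℂ) ^ (i + 4 * j) *
        ((if 2 * i + 4 * j ≤ a then (h0 N l (a - (2 * i + 4 * j)) (b - (2 * i + 2 * j)) : ℂ)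
          else 0) * x ^ a) else 0))
      (if 2 * i + 2 * j ≤ b then (l2 N l i : ℂ) * (N : ℂ) ^ (i + 4 * j) *
        (x ^ (2 * i + 4 * j) * lphi N l (b - (2 * i + 2 * j)) x) else 0) := by
    intro i j
    by_cases c : 2 * i + 2 * j ≤ b
    · simp only [c, if_true]
      exact (lr_shift (lr_phi hN hl (b - (2 * i + 2 * j)) hx) (2 * i + 4 * j)).mul_left _
    · simp only [c, if_false]
      exact hasSum_zero
  have h2 := hasSum_sum (s := Finset.range (b + 1)) (fun i _ =>
    hasSum_sum (s := Finset.range (b + 1)) (fun j _ => h1 i j))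
  rw [lr_group (fun i j => (l2 N l i : ℂ) * (N : ℂ) ^ (i + 4 * j) *
        (x ^ (2 * i + 4 * j) * lphi N l (b - (2 * i + 2 * j)) x))] at h2
  have h3 : ∑ k ∈ Finset.range (b / 2 + 1), ∑ i ∈ Finset.range (k + 1),
      ((l2 N l i : ℂ) * (N : ℂ) ^ (i + 4 * (k - i)) *
        (x ^ (2 * i + 4 * (k - i)) * lphi N l (b - (2 * i + 2 * (k - i))) x)) =
      ∑ k ∈ Finset.range (b / 2 + 1), rk N l k x * lphi N l (b - 2 * k) x := by
    refine Finset.sum_congr rfl fun k _ => ?_
    unfold rk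
    rw [Finset.sum_mul]
    refine Finset.sum_congr rfl fun i hi => ?_
    rw [Finset.mem_range] at hi
    have h4 : 2 * i + 2 * (k - i) = 2 * k := by omega
    rw [h4]
    ring
  rw [h3] at h2
  refine h2.congr_fun ?_
  intro a
  rw [lr_hloc]
  push_cast
  rw [Finset.sum_mul]
  refine Finset.sum_congr rfl fun i _ => ?_
  rw [Finset.sum_mul]
  refine Finset.sum_congr rfl fun j _ => ?_
  by_cases c : 2 * i + 2 * j ≤ b
  · simp only [c, if_true]
    by_cases c' : 2 * i + 4 * j ≤ a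
    · simp only [c', if_true]
      push_cast
      ring
    · simp only [c', if_false]
      push_cast
      ring
  · simp only [c, if_false]
    push_cast
    ring

private theorem lr_pow_u {u : ℂ} (hu : u = 1 ∨ u = -1) (a : ℕ) [Decidable (Odd a)] :
    (if Odd a then u else 1) = u ^ a := by
  by_cases h : Odd a
  · rw [if_pos h]
    rcases hu with rfl | rfl
    · simp
    · rw [h.neg_one_pow]
  · rw [if_neg h]
    have h2 : Even a := Nat.not_odd_iff_even.1 h
    rcases hu with rfl | rfl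
    · simp
    · rw [h2.neg_one_pow]

open Classical in
theorem row_even {N l : ℝ} (hN : 101 ≤ N) (hl : |l| ≤ 2 * Real.sqrt N) {b : ℕ} (hb : Even b)
    {x : ℂ} (hx : ‖x‖ ≤ (N ^ 3)⁻¹) {u : ℂ} (hu : u = 1 ∨ u = -1) :
    HasSum (fun a : ℕ => (hloc N l a b : ℂ) * (if Odd a then u else 1) * x ^ a)
      ((EE N l (u * x))⁻¹ * Pw N l b (u * x)) := by
  have hux : ‖u * x‖ ≤ (N ^ 3)⁻¹ := by
    rw [norm_mul]
    rcases hu with rfl | rfl
    · rw [norm_one, one_mul]
      exact hx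
    · rw [norm_neg, norm_one, one_mul]
      exact hx
  have h1 := lr_row hN hl b hux
  obtain ⟨q1, q2, q3⟩ := l1_par hN hl
  have hE : EE N l (u * x) ≠ 0 := quad_ne q1 q2 q3 (lr_small hN hux)
  have h2 : ∑ k ∈ Finset.range (b / 2 + 1), rk N l k (u * x) * lphi N l (b - 2 * k) (u * x) =
      (EE N l (u * x))⁻¹ * Pw N l b (u * x) := by
    obtain ⟨m, hm⟩ := hb
    have hm2 : b / 2 = m := by omega
    unfold Pw
    rw [if_pos ⟨m, hm⟩, hm2]
    rcases m with _ | m
    · have hb0 : b = 0 := by omega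
      subst hb0
      simp [lphi]
      ring
    · rw [Finset.sum_range_succ, Finset.sum_range_succ]
      have e1 : b - 2 * (m + 1) = 0 := by omega
      have e2 : b - 2 * m = 2 := by omega
      have e3 : ∀ k ∈ Finset.range m, rk N l k (u * x) * lphi N l (b - 2 * k) (u * x) =
          rk N l k (u * x) * (1 + (N : ℂ) ^ 2 * (u * x) ^ 2) := by
        intro k hk
        rw [Finset.mem_range] at hk
        unfold lphi
        rw [if_neg (by omega), if_neg (by omega), if_pos (by omega), if_pos (by omega)]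
        ring
      rw [e1, e2, Finset.sum_congr rfl e3]
      rw [if_pos (by omega : 1 ≤ m + 1), Nat.add_sub_cancel]
      unfold lphi
      simp only [if_true, show ¬ (0 = 2) by omega, show ¬ (2 = 0) by omega,
        show ¬ (1 ≤ 0) by omega, show ¬ (2 ≤ 0) by omega, show (1 ≤ 2) by omega,
        show (2 ≤ 2) by omega, if_false]
      have e4 : ∑ k ∈ Finset.range m, rk N l k (u * x) *
          ((1 + (N : ℂ) ^ 2 * (u * x) ^ 2) * EE N l (u * x)) =
          (∑ k ∈ Finset.range m, rk N l k (u * x) * (1 + (N : ℂ) ^ 2 * (u * x) ^ 2)) *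
            EE N l (u * x) := by
        rw [Finset.sum_mul]
        refine Finset.sum_congr rfl fun k _ => ?_
        ring
      rw [e4]
      generalize (∑ k ∈ Finset.range m, rk N l k (u * x) *
        (1 + (N : ℂ) ^ 2 * (u * x) ^ 2)) = Sg
      field_simp
      ring
  rw [h2] at h1
  refine h1.congr_fun ?_
  intro a
  rw [lr_pow_u hu, mul_pow]
  ring

open Classical in
theorem row_odd {N l : ℝ} (hN : 101 ≤ N) (hl : |l| ≤ 2 * Real.sqrt N) {b : ℕ} (hb : Odd b)
    {x : ℂ} (hx : ‖x‖ ≤ (N ^ 3)⁻¹) (u : ℂ) :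
    HasSum (fun a : ℕ => (hloc N l a b : ℂ) * (if Odd a then u else 1) * x ^ a)
      (Pw N l b x) := by
  have h1 := lr_row hN hl b hx
  have h2 : ∑ k ∈ Finset.range (b / 2 + 1), rk N l k x * lphi N l (b - 2 * k) x =
      Pw N l b x := by
    obtain ⟨m, hm⟩ := hb
    have hm2 : b / 2 = m := by omega
    unfold Pw
    rw [if_neg (by rw [Nat.not_even_iff_odd]; exact ⟨m, hm⟩), hm2, Finset.sum_range_succ]
    have e1 : b - 2 * m = 1 := by omega
    have e3 : ∀ k ∈ Finset.range m, rk N l k x * lphi N l (b - 2 * k) x =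
        rk N l k x * (1 + (N : ℂ) ^ 2 * x ^ 2) := by
      intro k hk
      rw [Finset.mem_range] at hk
      unfold lphi
      rw [if_neg (by omega), if_neg (by omega), if_pos (by omega), if_pos (by omega)]
      ring
    rw [e1, Finset.sum_congr rfl e3]
    have e4 : lphi N l 1 x = 1 := by
      unfold lphi
      simp
    rw [e4]
    ring
  rw [h2] at h1
  refine h1.congr_fun ?_
  intro a
  by_cases h : Odd a
  · rw [hloc_odd N l h hb]
    simp
  · rw [if_neg h]
    ring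

end Pool.Agent.QD
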