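import Pool.Agent.QD.A.Defs

/-!
# QD/A: data of a pole, definitions of the functions of section 2.6
-/

namespace Pool.Agent.QD

open Pool.Agent.QD

/-- data: pole `t0` of order `k`, radius `r`, `Lo = (t - t0)^k Ls` continued to `Om` -/
structure PoleD where
  t0 : ℂ
  k : ℕ
  r : ℝ
  Lo : ℂ → ℂ

namespace PoleD

variable (T : PoleD)

/-- the domain -/
def Om : Set ℂ := {t : ℂ | |(t - T.t0).im| < T.r ∧ T.t0.re - T.r < t.re}

/-- relatively compact part -/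
def OmR (R1 : ℝ) : Set ℂ :=
  {t : ℂ | |(t - T.t0).im| < T.r / 2 ∧ T.t0.re - T.r / 2 < t.re ∧ t.re < R1}

end PoleD

/-- axioms for the pole -/
structure IsPole (S : SysD) (T : PoleD) : Prop where
  hr : 0 < T.r
  hk : 1 ≤ T.k
  t0_le : T.t0.re ≤ 3 / 2
  diff : DifferentiableOn ℂ T.Lo T.Om
  ne : T.Lo T.t0 ≠ 0
  eq : ∀ t ∈ T.Om, 3 / 2 < t.re → T.Lo t = (t - T.t0) ^ T.k * S.Ls t

namespace SysD

variable (S : SysD) (T : PoleD)

/-- region 1: `Re t > 6` -/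
noncomputable def F1 (c : S.G) (s t : ℂ) : ℂ :=
  (t - T.t0) ^ T.k * T.Lo t * S.Ls s * ∑' m : S.J, (S.nJ m : ℂ) ^ (-s) * S.DD m c (t - s + 1 / 2)

open Classical in
/-- the inner sum of region 2 -/
noncomputable def In2 (c' : S.G) (z t : ℂ) : ℂ :=
  (t - T.t0) ^ (2 * T.k) *
      (∑' b : S.J, if S.R b c' ∧ ¬ S.Sq b c' then S.LL b c' t * (S.nJ b : ℂ) ^ (-z) else 0) +
    if c' = 1 then T.Lo t ^ 2 * ∑' f : S.J, S.P (2 • f) 1 t * (S.nJ f : ℂ) ^ (-(2 * z)) else 0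

/-- region 2: `Re s` large, `Re t < 8` -/
noncomputable def F2 (c : S.G) (s t : ℂ) : ℂ :=
  (t - s + 1 / 2 - 1) ^ 2 * S.Z1 (1 - (t - s + 1 / 2)) * S.Ls s * ((S.cU : ℂ) ^ 2)⁻¹ *
    ∑ c' : S.G, S.M (c * c') (t - s + 1 / 2) * S.In2 T c' (1 - (t - s + 1 / 2)) t

open Classical in
noncomputable def FFn (c : S.G) (s t : ℂ) : ℂ := if t.re < 7 then S.F2 T c s t else S.F1 T c s t

/-- `HH(s,t) = (w'-1)^2 Z1(w') F(s,t)`, `w' = t + s - 3/2` -/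
noncomputable def HH (c : S.G) (s t : ℂ) : ℂ :=
  (t + s - 3 / 2 - 1) ^ 2 * S.Z1 (t + s - 3 / 2) * S.FFn T c s t

open Classical in
/-- region 3 -/
noncomputable def V (c : S.G) (s t : ℂ) : ℂ :=
  (t - T.t0) ^ T.k * T.Lo t * (t - s + 1 / 2 - 1) ^ 2 * S.Z1 (t - s + 1 / 2) *
    (t + s - 3 / 2 - 1) ^ 2 * S.Z1 (t + s - 3 / 2) *
    ∑' b : S.J, if S.R b c then S.LL b c s * (S.nJ b : ℂ) ^ (-(t - s + 1 / 2)) else 0

/-- kernel -/
noncomputable def kern (u : ℂ) : ℂ := Complex.exp (u ^ 2) / u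

/-- the Cauchy integral -/
noncomputable def I (b : ℝ) (c : S.G) (s t : ℂ) : ℂ :=
  (2 * Real.pi : ℂ)⁻¹ *
    ((∫ y : ℝ, S.HH T c (b + y * Complex.I) t * kern (b + y * Complex.I - s)) -
      ∫ y : ℝ, S.GG c (2 - b + y * Complex.I) * S.HH T c (b - y * Complex.I) t *
        kern (2 - b + y * Complex.I - s))

end SysD

end Pool.Agent.QD
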