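import Mathlib

/-!
# QD-A08: Euler products over finitely supported exponents

PLAN. `ι` countable.  For a finite set `s ⊆ ι`: the sum over the `m` supported in `s` is the
product of the local sums (`Finset.prod` of `tsum`s, `Summable.tsum_mul_tsum` iterated, or
induction on `s` with `Finsupp` split at one coordinate), for the norms and for the values.  The
norm version gives: partial sums of `∑_m ∏ ‖f‖` are bounded by `∏_{v∈s} (1 + ∑_{j≥1} ‖f v j‖) ≤
exp (∑_v ∑_{j≥1} ‖f v j‖)`, hence summability (every finite set of `m`'s is supported in a finite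
`s`).  Then let `s → univ`: the sums over `m` supported in `s` tend to the total sum, the products
tend to `∏'` (`multipliable_one_add_of_summable`: `∑_v ‖∑_{j≥1} f v j‖ < ∞`).
Compare Mathlib `EulerProduct.eulerProduct_hasProd` for the pattern.
-/

namespace Pool.Agent.QD

private theorem ep_fin {ι : Type} [DecidableEq ι] {R : Type} [CommSemiring R] (g : ι → ℕ → R)
    (h0 : ∀ v, g v 0 = 1) (s : Finset ι) (t : ι → Finset ℕ) :
    ∑ m ∈ s.finsupp t, ∏ v ∈ m.support, g v (m v) = ∏ v ∈ s, ∑ j ∈ t v, g v j := by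
  classical
  rw [Finset.prod_sum, Finset.finsupp, Finset.sum_map]
  have key : ∀ p : (a : ι) → a ∈ s → ℕ,
      ∏ v ∈ (Finsupp.indicator s p).support, g v (Finsupp.indicator s p v) =
        ∏ x ∈ s.attach, g x.1 (p x.1 x.2) := by
    intro p
    have h1 : ∏ v ∈ (Finsupp.indicator s p).support, g v (Finsupp.indicator s p v) =
        ∏ v ∈ s, g v (Finsupp.indicator s p v) :=
      Finset.prod_subset (Finsupp.support_indicator_subset s p) (fun v _ hv => by
        rw [Finsupp.notMem_support_iff.1 hv, h0])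
    rw [h1, ← Finset.prod_attach]
    apply Finset.prod_congr rfl
    intro x _
    rw [Finsupp.indicator_of_mem x.2]
  refine Finset.sum_congr ?_ (fun p _ => ?_)
  · exact congrArg (fun inst : DecidableEq ι => @Finset.pi ι (fun _ => ℕ) inst s t) (Subsingleton.elim _ _)
  · exact key p

private theorem ep_cover {ι : Type} [DecidableEq ι] (T : Finset (ι →₀ ℕ)) :
    ∃ (s0 : Finset ι) (N0 : ℕ), ∀ s, s0 ⊆ s → ∀ N, N0 ≤ N →
      T ⊆ s.finsupp (fun _ => Finset.range N) := by
  classical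
  refine ⟨T.sup fun m => m.support, (T.sup fun m => m.support.sup m) + 1, ?_⟩
  intro s hs N hN m hm
  rw [Finset.mem_finsupp_iff]
  refine ⟨(Finset.le_sup (f := fun m : ι →₀ ℕ => m.support) hm).trans hs, ?_⟩
  intro i _
  rw [Finset.mem_range]
  by_cases hi : i ∈ m.support
  · have h1 : m i ≤ m.support.sup m := Finset.le_sup hi
    have h2 : m.support.sup m ≤ T.sup fun m => m.support.sup m :=
      Finset.le_sup (f := fun m : ι →₀ ℕ => m.support.sup m) hm
    omega
  · rw [Finsupp.notMem_support_iff.1 hi]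
    omega

private theorem ep_part {ι : Type} [DecidableEq ι] (f : ι → ℕ → ℂ) (h0 : ∀ v, f v 0 = 1)
    (hs : Summable fun p : ι × ℕ => ‖f p.1 (p.2 + 1)‖) (T : Finset (ι →₀ ℕ)) :
    ∑ m ∈ T, ‖∏ v ∈ m.support, f v (m v)‖ ≤ Real.exp (∑' p : ι × ℕ, ‖f p.1 (p.2 + 1)‖) := by
  classical
  obtain ⟨s, N0, hN⟩ := ep_cover T
  have hT := hN s (Finset.Subset.refl s) (N0 + 1) (Nat.le_succ N0)
  have h1 : ∑ m ∈ T, ‖∏ v ∈ m.support, f v (m v)‖ ≤
      ∑ m ∈ s.finsupp (fun _ => Finset.range (N0 + 1)), ∏ v ∈ m.support, ‖f v (m v)‖ := by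
    refine (Finset.sum_le_sum_of_subset_of_nonneg hT fun _ _ _ => norm_nonneg _).trans ?_
    exact Finset.sum_le_sum fun m _ => (norm_prod _ _).le
  rw [ep_fin (fun v j => ‖f v j‖) (fun v => by simp [h0])] at h1
  refine h1.trans ?_
  have h2 : ∀ v ∈ s, ∑ j ∈ Finset.range (N0 + 1), ‖f v j‖ ≤
      Real.exp (∑ j ∈ Finset.range N0, ‖f v (j + 1)‖) := by
    intro v _
    rw [Finset.sum_range_succ', h0, norm_one]
    exact Real.add_one_le_exp _
  refine (Finset.prod_le_prod (fun v _ => Finset.sum_nonneg fun _ _ => norm_nonneg _) h2).trans ?_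
  rw [← Real.exp_sum]
  apply Real.exp_le_exp.2
  rw [← Finset.sum_product' s (Finset.range N0) (fun v j => ‖f v (j + 1)‖)]
  exact hs.sum_le_tsum _ fun _ _ => norm_nonneg _

theorem ep_summable {ι : Type} [DecidableEq ι] (f : ι → ℕ → ℂ) (h0 : ∀ v, f v 0 = 1)
    (hs : Summable fun p : ι × ℕ => ‖f p.1 (p.2 + 1)‖) :
    Summable fun m : ι →₀ ℕ => ‖∏ v ∈ m.support, f v (m v)‖ :=
  summable_of_sum_le (fun _ => norm_nonneg _) (ep_part f h0 hs)

private theorem ep_row {ι : Type} [DecidableEq ι] (f : ι → ℕ → ℂ)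
    (hs : Summable fun p : ι × ℕ => ‖f p.1 (p.2 + 1)‖) (v : ι) : Summable fun j => f v j := by
  have h1 : Summable fun j : ℕ => ‖f v (j + 1)‖ :=
    hs.comp_injective (i := fun j : ℕ => (v, j)) fun a b hab => (Prod.mk.inj hab).2
  exact (summable_nat_add_iff 1).1 h1.of_norm

theorem ep_hasSum {ι : Type} [DecidableEq ι] (f : ι → ℕ → ℂ) (h0 : ∀ v, f v 0 = 1)
    (hs : Summable fun p : ι × ℕ => ‖f p.1 (p.2 + 1)‖) :
    HasSum (fun m : ι →₀ ℕ => ∏ v ∈ m.support, f v (m v)) (∏' v, ∑' j : ℕ, f v j) := by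
  classical
  obtain ⟨A, hA⟩ := (ep_summable f h0 hs).of_norm
  have hprod : HasProd (fun v => ∑' j : ℕ, f v j) A := by
    rw [HasProd, SummationFilter.unconditional_filter]
    rw [HasSum, SummationFilter.unconditional_filter] at hA
    rw [Metric.tendsto_atTop] at hA ⊢
    intro ε hε
    obtain ⟨T, hT⟩ := hA (ε / 2) (by positivity)
    obtain ⟨s0, N0, hN⟩ := ep_cover T
    refine ⟨s0, fun s hs0 => ?_⟩
    have hlim : Filter.Tendsto (fun N : ℕ => ∏ v ∈ s, ∑ j ∈ Finset.range N, f v j) Filter.atTop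
        (nhds (∏ v ∈ s, ∑' j : ℕ, f v j)) :=
      tendsto_finsetProd _ fun v _ => (ep_row f hs v).hasSum.tendsto_sum_nat
    have hle : dist (∏ v ∈ s, ∑' j : ℕ, f v j) A ≤ ε / 2 := by
      refine le_of_tendsto (hlim.dist tendsto_const_nhds) ?_
      filter_upwards [Filter.eventually_ge_atTop N0] with N hN'
      have := hT (s.finsupp (fun _ => Finset.range N)) (hN s hs0 N hN')
      rw [ep_fin f h0] at this
      exact this.le
    linarith
  rw [hprod.tprod_eq]
  exact hA

/-- bound of the norm sum -/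
theorem ep_bound {ι : Type} [DecidableEq ι] (f : ι → ℕ → ℂ) (h0 : ∀ v, f v 0 = 1)
    (hs : Summable fun p : ι × ℕ => ‖f p.1 (p.2 + 1)‖) :
    ∑' m : ι →₀ ℕ, ‖∏ v ∈ m.support, f v (m v)‖ ≤ Real.exp (∑' p : ι × ℕ, ‖f p.1 (p.2 + 1)‖) :=
  (ep_summable f h0 hs).tsum_le_of_sum_le (ep_part f h0 hs)

end Pool.Agent.QD
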