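import Pool.Agent.QD.A.LocSeq

/-!
# QD-A07: size and differentiability of the local polynomials
-/

namespace Pool.Agent.QD

private theorem l2_zero (N l : ℝ) : l2 N l 0 = 1 := rfl

private theorem l1_zero (N l : ℝ) : l1 N l 0 = 1 := rfl

private theorem rk_zero (N l : ℝ) (x : ℂ) : rk N l 0 x = 1 := by
  unfold rk
  rw [zero_add, Finset.sum_range_one]
  simp [l2_zero]

theorem Pw_zero (N l : ℝ) (x : ℂ) : Pw N l 0 x = 1 := by
  unfold Pw
  simp [rk_zero]

theorem Qw_zero (N l : ℝ) (y : ℂ) : Qw N l 0 y = 1 := by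
  unfold Qw
  simp [l2_zero, l1_zero]

private theorem rk_diff (N l : ℝ) (k : ℕ) : Differentiable ℂ (rk N l k) := by
  unfold rk
  fun_prop

private theorem EE_diff (N l : ℝ) : Differentiable ℂ (EE N l) := by
  unfold EE
  fun_prop

theorem Pw_diff (N l : ℝ) (b : ℕ) : Differentiable ℂ (Pw N l b) := by
  have h1 := rk_diff N l
  have h2 := EE_diff N l
  unfold Pw
  split_ifs <;> fun_prop

theorem Qw_diff (N l : ℝ) (a : ℕ) : Differentiable ℂ (Qw N l a) := by
  unfold Qw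
  refine Differentiable.fun_sum fun i _ => Differentiable.fun_sum fun j _ => ?_
  split_ifs <;> fun_prop

private theorem succ_le_pow {M : ℝ} (hM : 101 ≤ M) (k : ℕ) : (k : ℝ) + 1 ≤ M ^ k := by
  have h1 : k + 1 ≤ 2 ^ k := Nat.lt_two_pow_self
  have h2 : (k : ℝ) + 1 ≤ 2 ^ k := by exact_mod_cast h1
  exact h2.trans (pow_le_pow_left₀ (by norm_num) (by linarith) k)

private theorem two_mul_le {M : ℝ} (hM : 101 ≤ M) {c : ℝ} (hc : c ≤ 101) (n : ℕ) :
    c * M ^ n ≤ M ^ (n + 1) := by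
  rw [pow_succ, mul_comm (M ^ n)]
  exact mul_le_mul_of_nonneg_right (hc.trans hM) (by positivity)

private theorem pm {M : ℝ} (hM : 101 ≤ M) {m n : ℕ} (h : m ≤ n) : M ^ m ≤ M ^ n :=
  pow_le_pow_right₀ (by linarith) h

private theorem l2_le {N l M : ℝ} (hN : 101 ≤ N) (hl : |l| ≤ 2 * Real.sqrt N) (hNM : N ≤ M) (i : ℕ) :
    ‖(l2 N l i : ℂ)‖ ≤ M ^ (2 * i) := by
  obtain ⟨h1, h2, -⟩ := l2_par hN hl
  have h3 := lseq_bd h1 h2 rfl i
  have hM0 : 0 < M := by linarith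
  rw [Complex.norm_real, Real.norm_eq_abs]
  calc |l2 N l i| ≤ (i + 1) * N ^ i := h3
    _ ≤ M ^ i * M ^ i := by
      gcongr
      exact succ_le_pow (hN.trans hNM) i
    _ = M ^ (2 * i) := by rw [two_mul, pow_add]

private theorem l1_le {N l M : ℝ} (hN : 101 ≤ N) (hl : |l| ≤ 2 * Real.sqrt N) (hNM : N ≤ M) (a : ℕ) :
    ‖(l1 N l a : ℂ)‖ ≤ M ^ (2 * a) := by
  obtain ⟨h1, h2, h4⟩ := l1_par hN hl
  have h3 := lseq_bd h1 h2 h4 a
  have hM0 : 0 < M := by linarith
  have h5 : Real.sqrt N ≤ M := by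
    refine le_trans ?_ hNM
    rw [Real.sqrt_le_left (by linarith)]
    nlinarith
  rw [Complex.norm_real, Real.norm_eq_abs]
  calc |l1 N l a| ≤ (a + 1) * Real.sqrt N ^ a := h3
    _ ≤ M ^ a * M ^ a := by
      gcongr
      exact succ_le_pow (hN.trans hNM) a
    _ = M ^ (2 * a) := by rw [two_mul, pow_add]

private theorem normN {N M : ℝ} (hN : 101 ≤ N) (hNM : N ≤ M) (n : ℕ) :
    ‖(N : ℂ) ^ n‖ ≤ M ^ n := by
  rw [norm_pow, Complex.norm_real, Real.norm_of_nonneg (by linarith)]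
  exact pow_le_pow_left₀ (by linarith) hNM n

private theorem normX {M : ℝ} {x : ℂ} (hx : ‖x‖ ≤ M) (n : ℕ) : ‖x ^ n‖ ≤ M ^ n := by
  rw [norm_pow]
  exact pow_le_pow_left₀ (norm_nonneg _) hx n

private theorem rk_le {N l M : ℝ} (hN : 101 ≤ N) (hl : |l| ≤ 2 * Real.sqrt N) (hNM : N ≤ M) (k : ℕ)
    {x : ℂ} (hx : ‖x‖ ≤ M) : ‖rk N l k x‖ ≤ M ^ (9 * k) := by
  have hM := hN.trans hNM
  have hM0 : 0 < M := by linarith
  unfold rk
  calc ‖∑ i ∈ Finset.range (k + 1), (l2 N l i : ℂ) * (N : ℂ) ^ (i + 4 * (k - i)) *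
        x ^ (2 * i + 4 * (k - i))‖
      ≤ ∑ i ∈ Finset.range (k + 1), ‖(l2 N l i : ℂ) * (N : ℂ) ^ (i + 4 * (k - i)) *
        x ^ (2 * i + 4 * (k - i))‖ := norm_sum_le _ _
    _ ≤ ∑ i ∈ Finset.range (k + 1), M ^ (8 * k) := by
      refine Finset.sum_le_sum fun i hi => ?_
      have hik : i ≤ k := Nat.lt_succ_iff.1 (Finset.mem_range.1 hi)
      rw [norm_mul, norm_mul]
      calc ‖(l2 N l i : ℂ)‖ * ‖(N : ℂ) ^ (i + 4 * (k - i))‖ * ‖x ^ (2 * i + 4 * (k - i))‖
          ≤ M ^ (2 * i) * M ^ (i + 4 * (k - i)) * M ^ (2 * i + 4 * (k - i)) := by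
            gcongr
            · exact l2_le hN hl hNM i
            · exact normN hN hNM _
            · exact normX hx _
        _ = M ^ (2 * i + (i + 4 * (k - i)) + (2 * i + 4 * (k - i))) := by
            rw [← pow_add, ← pow_add]
        _ ≤ M ^ (8 * k) := pm hM (by omega)
    _ = ((k : ℝ) + 1) * M ^ (8 * k) := by
      rw [Finset.sum_const, Finset.card_range, nsmul_eq_mul]
      push_cast
      ring
    _ ≤ M ^ k * M ^ (8 * k) := by
      gcongr
      exact succ_le_pow hM k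
    _ = M ^ (9 * k) := by
      rw [← pow_add]
      congr 1
      ring

private theorem EE_le {N l M : ℝ} (hN : 101 ≤ N) (hl : |l| ≤ 2 * Real.sqrt N) (hNM : N ≤ M)
    {x : ℂ} (hx : ‖x‖ ≤ M) : ‖EE N l x‖ ≤ M ^ 4 := by
  have hM := hN.trans hNM
  have hM0 : 0 < M := by linarith
  have h1 : |l| ≤ 2 * M := by
    refine hl.trans ?_
    have h5 : Real.sqrt N ≤ M := by
      refine le_trans ?_ hNM
      rw [Real.sqrt_le_left (by linarith)]
      nlinarith
    linarith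
  unfold EE
  have h2 : ‖(l : ℂ) * x‖ ≤ 2 * M * M := by
    rw [norm_mul, Complex.norm_real, Real.norm_eq_abs]
    gcongr
  have h3 : ‖(N : ℂ) * x ^ 2‖ ≤ M ^ 1 * M ^ 2 := by
    rw [norm_mul]
    gcongr
    · have := normN hN hNM 1
      rwa [pow_one] at this
    · exact normX hx 2
  calc ‖1 - (l : ℂ) * x + (N : ℂ) * x ^ 2‖ ≤ ‖1 - (l : ℂ) * x‖ + ‖(N : ℂ) * x ^ 2‖ := norm_add_le _ _
    _ ≤ (‖(1 : ℂ)‖ + ‖(l : ℂ) * x‖) + ‖(N : ℂ) * x ^ 2‖ := by
      gcongr
      exact norm_sub_le _ _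
    _ ≤ (1 + 2 * M * M) + M ^ 1 * M ^ 2 := by
      rw [norm_one]
      gcongr
    _ ≤ 4 * M ^ 3 := by nlinarith [pow_pos hM0 3, pow_pos hM0 2]
    _ ≤ M ^ 4 := two_mul_le hM (by norm_num) 3

private theorem one_add_le' {N M : ℝ} (hN : 101 ≤ N) (hNM : N ≤ M) {x : ℂ} (hx : ‖x‖ ≤ M) :
    ‖1 + (N : ℂ) ^ 2 * x ^ 2‖ ≤ M ^ 5 := by
  have hM := hN.trans hNM
  have hM0 : 0 < M := by linarith
  have h3 : ‖(N : ℂ) ^ 2 * x ^ 2‖ ≤ M ^ 2 * M ^ 2 := by
    rw [norm_mul]
    gcongr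
    · exact normN hN hNM 2
    · exact normX hx 2
  calc ‖1 + (N : ℂ) ^ 2 * x ^ 2‖ ≤ ‖(1 : ℂ)‖ + ‖(N : ℂ) ^ 2 * x ^ 2‖ := norm_add_le _ _
    _ ≤ 1 + M ^ 2 * M ^ 2 := by
      rw [norm_one]
      gcongr
    _ ≤ 2 * M ^ 4 := by
      have h4 : (1 : ℝ) ≤ M ^ 4 := one_le_pow₀ (by linarith)
      linarith [show M ^ 2 * M ^ 2 = M ^ 4 by ring]
    _ ≤ M ^ 5 := two_mul_le hM (by norm_num) 4

private theorem mid_le {N l M : ℝ} (hN : 101 ≤ N) (hl : |l| ≤ 2 * Real.sqrt N) (hNM : N ≤ M)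
    {x : ℂ} (hx : ‖x‖ ≤ M) :
    ‖(1 + (N : ℂ) ^ 2 * x ^ 2) * EE N l x - (N : ℂ) ^ 3 * x ^ 4‖ ≤ M ^ 10 := by
  have hM := hN.trans hNM
  have hM0 : 0 < M := by linarith
  calc ‖(1 + (N : ℂ) ^ 2 * x ^ 2) * EE N l x - (N : ℂ) ^ 3 * x ^ 4‖
      ≤ ‖1 + (N : ℂ) ^ 2 * x ^ 2‖ * ‖EE N l x‖ + ‖(N : ℂ) ^ 3‖ * ‖x ^ 4‖ := by
        rw [← norm_mul, ← norm_mul]
        exact norm_sub_le _ _
    _ ≤ M ^ 5 * M ^ 4 + M ^ 3 * M ^ 4 := by
        gcongr
        · exact one_add_le' hN hNM hx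
        · exact EE_le hN hl hNM hx
        · exact normN hN hNM 3
        · exact normX hx 4
    _ = M ^ 9 + M ^ 7 := by ring
    _ ≤ 2 * M ^ 9 := by linarith [pm hM (show 7 ≤ 9 by norm_num)]
    _ ≤ M ^ 10 := two_mul_le hM (by norm_num) 9

private theorem Pw_nat {N l M : ℝ} (hN : 101 ≤ N) (hl : |l| ≤ 2 * Real.sqrt N) (hNM : N ≤ M) (b : ℕ)
    {x : ℂ} (hx : ‖x‖ ≤ M) : ‖Pw N l b x‖ ≤ M ^ (16 * b) := by
  have hM := hN.trans hNM
  have hM0 : 0 < M := by linarith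
  rcases Nat.eq_zero_or_pos b with rfl | hb
  · rw [Pw_zero]
    simp
  unfold Pw
  split_ifs with h1 h2
  · -- even, positive
    set h := b / 2 with hh
    have hbh : 2 * h ≤ b := by omega
    calc _ ≤ ‖rk N l h x‖ + ‖rk N l (h - 1) x‖ *
          ‖(1 + (N : ℂ) ^ 2 * x ^ 2) * EE N l x - (N : ℂ) ^ 3 * x ^ 4‖ +
          ∑ k ∈ Finset.range (h - 1), ‖rk N l k x‖ * (‖1 + (N : ℂ) ^ 2 * x ^ 2‖ * ‖EE N l x‖) := by
          refine (norm_add_le _ _).trans (add_le_add ((norm_add_le _ _).trans (add_le_add le_rfl ?_)) ?_)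
          · rw [norm_mul]
          · refine (norm_sum_le _ _).trans (le_of_eq ?_)
            simp only [norm_mul]
      _ ≤ M ^ (9 * h) + M ^ (9 * h) * M ^ 10 + ∑ k ∈ Finset.range (h - 1), M ^ (9 * h) * (M ^ 5 * M ^ 4) := by
          gcongr with k hk
          · exact rk_le hN hl hNM h hx
          · exact (rk_le hN hl hNM (h - 1) hx).trans (pm hM (by omega))
          · exact mid_le hN hl hNM hx
          · have := Finset.mem_range.1 hk
            exact (rk_le hN hl hNM k hx).trans (pm hM (by omega))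
          · exact one_add_le' hN hNM hx
          · exact EE_le hN hl hNM hx
      _ = M ^ (9 * h) + M ^ (9 * h + 10) + ((h - 1 : ℕ) : ℝ) * M ^ (9 * h + 9) := by
          rw [Finset.sum_const, Finset.card_range, nsmul_eq_mul]
          ring
      _ ≤ M ^ (9 * h + 10) + M ^ (9 * h + 10) + (h : ℝ) * M ^ (9 * h + 10) := by
          gcongr
          · linarith
          · omega
          · omega
          · linarith
          · omega
      _ = ((h : ℝ) + 2) * M ^ (9 * h + 10) := by ring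
      _ ≤ M ^ (h + 1) * M ^ (9 * h + 10) := by
          gcongr
          have := succ_le_pow hM (h + 1)
          push_cast at this
          linarith
      _ = M ^ (10 * h + 11) := by
          rw [← pow_add]
          congr 1
          ring
      _ ≤ M ^ (16 * b) := pm hM (by omega)
  · exfalso
    have : b / 2 = 0 := by omega
    have h3 : b = 1 := by omega
    rw [h3] at h1
    exact absurd h1 (by decide)
  · set h := b / 2 with hh
    have hbh : 2 * h ≤ b := by omega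
    calc _ ≤ ‖rk N l h x‖ + ∑ k ∈ Finset.range h, ‖rk N l k x‖ * ‖1 + (N : ℂ) ^ 2 * x ^ 2‖ := by
          refine (norm_add_le _ _).trans (add_le_add le_rfl ?_)
          refine (norm_sum_le _ _).trans (le_of_eq ?_)
          simp only [norm_mul]
      _ ≤ M ^ (9 * h) + ∑ k ∈ Finset.range h, M ^ (9 * h) * M ^ 5 := by
          gcongr with k hk
          · exact rk_le hN hl hNM h hx
          · have := Finset.mem_range.1 hk
            exact (rk_le hN hl hNM k hx).trans (pm hM (by omega))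
          · exact one_add_le' hN hNM hx
      _ = M ^ (9 * h) + (h : ℝ) * M ^ (9 * h + 5) := by
          rw [Finset.sum_const, Finset.card_range, nsmul_eq_mul]
          ring
      _ ≤ M ^ (9 * h + 5) + (h : ℝ) * M ^ (9 * h + 5) := by
          gcongr
          · linarith
          · omega
      _ = ((h : ℝ) + 1) * M ^ (9 * h + 5) := by ring
      _ ≤ M ^ h * M ^ (9 * h + 5) := by
          gcongr
          exact succ_le_pow hM h
      _ = M ^ (10 * h + 5) := by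
          rw [← pow_add]
          congr 1
          ring
      _ ≤ M ^ (16 * b) := pm hM (by omega)

private theorem Qw_nat {N l M : ℝ} (hN : 101 ≤ N) (hl : |l| ≤ 2 * Real.sqrt N) (hNM : N ≤ M) (a : ℕ)
    {y : ℂ} (hy : ‖y‖ ≤ M) : ‖Qw N l a y‖ ≤ M ^ (16 * a) := by
  have hM := hN.trans hNM
  have hM0 : 0 < M := by linarith
  rcases Nat.eq_zero_or_pos a with rfl | ha
  · rw [Qw_zero]
    simp
  have hbr : ∀ a' : ℕ, a' ≤ a → ‖((if Even a then 1 - y else 1) *
            ((l1 N l a' : ℂ) -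
              (if 4 ≤ a' then
                (N : ℂ) ^ 3 * (l1 N l (a' - 4) : ℂ) * y ^ 2 else 0)) +
          (if a' = 0 then y else 0) +
          (if a' = 2 then (N : ℂ) ^ 2 * y ^ 2 else 0))‖ ≤ M ^ (2 * a + 9) := by
    intro a' ha'
    have e1 : ‖(if Even a then 1 - y else 1 : ℂ)‖ ≤ M ^ 2 := by
      split_ifs
      · calc ‖1 - y‖ ≤ ‖(1 : ℂ)‖ + ‖y‖ := norm_sub_le _ _
          _ ≤ 1 + M := by
            rw [norm_one]
            gcongr
          _ ≤ M ^ 2 := by nlinarith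
      · rw [norm_one]
        nlinarith
    have e2 : ‖(l1 N l a' : ℂ)‖ ≤ M ^ (2 * a) :=
      (l1_le hN hl hNM a').trans (pm hM (by omega))
    have e3 : ‖(if 4 ≤ a' then (N : ℂ) ^ 3 * (l1 N l (a' - 4) : ℂ) * y ^ 2 else 0)‖ ≤ M ^ (2 * a + 5) := by
      split_ifs
      · rw [norm_mul, norm_mul]
        calc _ ≤ M ^ 3 * M ^ (2 * a) * M ^ 2 := by
              gcongr
              · exact normN hN hNM 3
              · exact (l1_le hN hl hNM _).trans (pm hM (by omega))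
              · exact normX hy 2
          _ = M ^ (2 * a + 5) := by ring
      · rw [norm_zero]
        positivity
    have e4 : ‖(if a' = 0 then y else 0 : ℂ)‖ ≤ M ^ (2 * a + 8) := by
      split_ifs
      · calc ‖y‖ ≤ M ^ 1 := by rwa [pow_one]
          _ ≤ _ := pm hM (by omega)
      · rw [norm_zero]
        positivity
    have e5 : ‖(if a' = 2 then (N : ℂ) ^ 2 * y ^ 2 else 0)‖ ≤ M ^ (2 * a + 8) := by
      split_ifs
      · rw [norm_mul]
        calc _ ≤ M ^ 2 * M ^ 2 := by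
              gcongr
              · exact normN hN hNM 2
              · exact normX hy 2
          _ = M ^ 4 := by ring
          _ ≤ _ := pm hM (by omega)
      · rw [norm_zero]
        positivity
    calc _ ≤ ‖(if Even a then 1 - y else 1 : ℂ)‖ * (‖(l1 N l a' : ℂ)‖ +
            ‖(if 4 ≤ a' then (N : ℂ) ^ 3 * (l1 N l (a' - 4) : ℂ) * y ^ 2 else 0)‖) +
            ‖(if a' = 0 then y else 0 : ℂ)‖ + ‖(if a' = 2 then (N : ℂ) ^ 2 * y ^ 2 else 0)‖ := by
          refine (norm_add_le _ _).trans (add_le_add ((norm_add_le _ _).trans (add_le_add ?_ le_rfl)) le_rfl)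
          rw [norm_mul]
          gcongr
          exact norm_sub_le _ _
      _ ≤ M ^ 2 * (M ^ (2 * a) + M ^ (2 * a + 5)) + M ^ (2 * a + 8) + M ^ (2 * a + 8) := by
          gcongr
      _ ≤ M ^ 2 * (M ^ (2 * a + 5) + M ^ (2 * a + 5)) + M ^ (2 * a + 8) + M ^ (2 * a + 8) := by
          gcongr
          · linarith
          · omega
      _ = 2 * M ^ (2 * a + 7) + 2 * M ^ (2 * a + 8) := by ring
      _ ≤ M ^ (2 * a + 8) + 2 * M ^ (2 * a + 8) := by
          gcongr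
          exact two_mul_le hM (by norm_num) _
      _ = 3 * M ^ (2 * a + 8) := by ring
      _ ≤ M ^ (2 * a + 9) := two_mul_le hM (by norm_num) _
  unfold Qw
  calc _ ≤ ∑ i ∈ Finset.range (a + 1), ∑ j ∈ Finset.range (a + 1), M ^ (5 * a + 9) := by
        refine (norm_sum_le _ _).trans (Finset.sum_le_sum fun i _ => ?_)
        refine (norm_sum_le _ _).trans (Finset.sum_le_sum fun j _ => ?_)
        by_cases h1 : 2 * i + 4 * j ≤ a
        · rw [if_pos h1, norm_mul, norm_mul, norm_mul]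
          calc _ ≤ M ^ (2 * i) * M ^ (i + 4 * j) * M ^ (2 * i + 2 * j) * M ^ (2 * a + 9) := by
                gcongr
                · exact l2_le hN hl hNM i
                · exact normN hN hNM _
                · exact normX hy _
                · exact hbr _ (Nat.sub_le _ _)
            _ = M ^ (2 * i + (i + 4 * j) + (2 * i + 2 * j) + (2 * a + 9)) := by
                rw [← pow_add, ← pow_add, ← pow_add]
            _ ≤ _ := pm hM (by omega)
        · rw [if_neg h1, norm_zero]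
          positivity
    _ = (((a : ℝ) + 1) * ((a : ℝ) + 1)) * M ^ (5 * a + 9) := by
        rw [Finset.sum_const, Finset.sum_const, Finset.card_range, nsmul_eq_mul, nsmul_eq_mul]
        push_cast
        ring
    _ ≤ (M ^ a * M ^ a) * M ^ (5 * a + 9) := by
        have := succ_le_pow hM a
        gcongr
    _ = M ^ (7 * a + 9) := by ring
    _ ≤ M ^ (16 * a) := pm hM (by omega)

private theorem to_rpow {N B : ℝ} (hN : 101 ≤ N) (b : ℕ) :
    (N ^ (B + 1)) ^ (16 * b) = N ^ (16 * (B + 1) * (b : ℝ)) := by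
  rw [← Real.rpow_natCast, ← Real.rpow_mul (by linarith)]
  congr 1
  push_cast
  ring

private theorem le_rp {N B : ℝ} (hN : 101 ≤ N) (hB : 0 ≤ B) : N ≤ N ^ (B + 1) ∧ N ^ B ≤ N ^ (B + 1) := by
  constructor
  · have h1 : N ^ (1 : ℝ) ≤ N ^ (B + 1) :=
      Real.rpow_le_rpow_of_exponent_le (by linarith) (by linarith)
    rwa [Real.rpow_one] at h1
  · exact Real.rpow_le_rpow_of_exponent_le (by linarith) (by linarith)

theorem Pw_bd (B : ℝ) (hB : 0 ≤ B) : ∃ A : ℝ, 0 ≤ A ∧ ∀ N l : ℝ, 101 ≤ N →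
    |l| ≤ 2 * Real.sqrt N → ∀ (b : ℕ) (x : ℂ), ‖x‖ ≤ N ^ B → ‖Pw N l b x‖ ≤ N ^ (A * b) := by
  refine ⟨16 * (B + 1), by positivity, fun N l hN hl b x hx => ?_⟩
  obtain ⟨h1, h2⟩ := le_rp hN hB
  rw [← to_rpow hN]
  exact Pw_nat hN hl h1 b (hx.trans h2)

theorem Qw_bd (B : ℝ) (hB : 0 ≤ B) : ∃ A : ℝ, 0 ≤ A ∧ ∀ N l : ℝ, 101 ≤ N →
    |l| ≤ 2 * Real.sqrt N → ∀ (a : ℕ) (y : ℂ), ‖y‖ ≤ N ^ B → ‖Qw N l a y‖ ≤ N ^ (A * a) := by
  refine ⟨16 * (B + 1), by positivity, fun N l hN hl a y hy => ?_⟩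
  obtain ⟨h1, h2⟩ := le_rp hN hB
  rw [← to_rpow hN]
  exact Qw_nat hN hl h1 a (hy.trans h2)

end Pool.Agent.QD
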