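import Pool.Agent.QD.A.LocSeq

/-!
# QD-A02: the local weights `hloc`: parity, first column, bound

PLAN. `h0 N l a b = 0` for `a, b` odd (all four conditions fail); in `hloc` the arguments are
`a - even`, `b - even`.  `hloc N l 0 b`: only `i = j = 0` contributes, `h0 N l 0 b = 1` in all
cases (`b = 0`: `l1 0 = 1`).
Bound: `|l1 a| ≤ (a+1) N^(a/2)` hence `≤ (a+1) N^a`, `|l2 i| ≤ (i+1) N^i` (lseq_bd),
`|h0 N l a b| ≤ 2 (a+1) N^a` (for `b = 2, 4 ≤ a`: `N^3 |l1 (a-4)| ≤ (a+1) N^(3+(a-4)/2) ≤ (a+1)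
N^(a/2+1) ≤ (a+1) N^a`; for `a = 2`: `N^2`; the conditions: at most `b = 0`: one term; `b = 2`:
at most two terms `N^3 ..` and `a = 2` exclusive...).  Then each summand of `hloc` is at most
`(i+1) N^i N^(i+4j) 2(a+1) N^(a-2i-4j) ≤ 2 (a+1)^2 N^a`, and there are at most `(a+1)^2` nonzero
ones (`2i + 4j ≤ a`), so `|hloc| ≤ 2 (a+1)^4 N^a ≤ N^(2a)` for `N ≥ 101` and `a ≥ 1`
(`2 (a+1)^4 ≤ 101^a` for `a ≥ 1` by induction); for `a = 0` it is `1`.
-/

namespace Pool.Agent.QD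

theorem h0_odd (N l : ℝ) {a b : ℕ} (ha : Odd a) (hb : Odd b) : h0 N l a b = 0 := by
  have h1 : ¬ b = 0 := by rintro rfl; exact absurd hb (by decide)
  have h2 : ¬ (b = 2 ∧ 4 ≤ a) := by rintro ⟨rfl, -⟩; exact absurd hb (by decide)
  have h3 : ¬ (a = 0 ∧ 1 ≤ b) := by rintro ⟨rfl, -⟩; exact absurd ha (by decide)
  have h4 : ¬ (a = 2 ∧ 2 ≤ b) := by rintro ⟨rfl, -⟩; exact absurd ha (by decide)
  simp [h0, h1, h2, h3, h4]

theorem hloc_odd (N l : ℝ) {a b : ℕ} (ha : Odd a) (hb : Odd b) : hloc N l a b = 0 := by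
  unfold hloc
  refine Finset.sum_eq_zero fun i _ => Finset.sum_eq_zero fun j _ => ?_
  split_ifs with h
  · have h1 : Odd (a - (2 * i + 4 * j)) := by
      obtain ⟨k, hk⟩ := ha
      exact ⟨k - (i + 2 * j), by omega⟩
    have h2 : Odd (b - (2 * i + 2 * j)) := by
      obtain ⟨k, hk⟩ := hb
      exact ⟨k - (i + j), by omega⟩
    rw [h0_odd N l h1 h2, mul_zero]
  · rfl

theorem hloc_zero (N l : ℝ) (b : ℕ) : hloc N l 0 b = 1 := by
  unfold hloc
  rw [Finset.sum_eq_single_of_mem 0 (by simp), Finset.sum_eq_single_of_mem 0 (by simp)]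
  · have h1 : h0 N l 0 b = 1 := by
      unfold h0
      by_cases hb : b = 0
      · subst hb
        simp [l1, lseq]
      · have h2 : 1 ≤ b := Nat.one_le_iff_ne_zero.mpr hb
        simp [hb, h2]
    simp [h1, l2, lseq]
  · intro j _ hj
    rw [if_neg]
    omega
  · intro i _ hi
    refine Finset.sum_eq_zero fun j _ => ?_
    rw [if_neg]
    omega

theorem h0_bd {N l : ℝ} (hN : 101 ≤ N) (hl : |l| ≤ 2 * Real.sqrt N) (a b : ℕ) :
    |h0 N l a b| ≤ 2 * (a + 1) * N ^ a := by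
  obtain ⟨hr0, hlr, hNr⟩ := l1_par hN hl
  set r := Real.sqrt N with hr
  have hr1 : 1 ≤ r := by
    rw [hr]
    exact Real.one_le_sqrt.mpr (by linarith)
  have hN1 : 1 ≤ N := by linarith
  have hNa : 1 ≤ N ^ a := one_le_pow₀ hN1
  have hl1 : ∀ n : ℕ, |l1 N l n| ≤ (n + 1) * r ^ n := fun n => lseq_bd hr0 hlr hNr n
  have ha0 : (0 : ℝ) ≤ a := Nat.cast_nonneg a
  by_cases hb : b = 0
  · subst hb
    have h1 : h0 N l a 0 = l1 N l a := by simp [h0]
    rw [h1]
    have h2 : r ^ a ≤ N ^ a := by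
      apply pow_le_pow_left₀ hr0
      rw [hNr]
      nlinarith
    have h3 := hl1 a
    have h4 : (a + 1 : ℝ) * r ^ a ≤ (a + 1) * N ^ a :=
      mul_le_mul_of_nonneg_left h2 (by linarith)
    have h5 : 0 ≤ (a + 1 : ℝ) * N ^ a := by positivity
    calc |l1 N l a| ≤ (a + 1) * r ^ a := h3
      _ ≤ (a + 1) * N ^ a := h4
      _ ≤ 2 * (a + 1) * N ^ a := by linarith
  · by_cases hb2 : b = 2 ∧ 4 ≤ a
    · obtain ⟨hb2, ha4⟩ := hb2
      subst hb2
      have h1 : h0 N l a 2 = - (N ^ 3 * l1 N l (a - 4)) := by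
        have e1 : ¬ a = 0 := by omega
        have e2 : ¬ a = 2 := by omega
        simp [h0, ha4, e1, e2]
      rw [h1, abs_neg, abs_mul, abs_of_nonneg (by positivity : (0:ℝ) ≤ N ^ 3)]
      have h3 := hl1 (a - 4)
      have h4 : (((a - 4 : ℕ) : ℝ) + 1) ≤ a + 1 := by
        have : ((a - 4 : ℕ) : ℝ) ≤ a := by exact_mod_cast Nat.sub_le a 4
        linarith
      have h5 : N ^ 3 * r ^ (a - 4) ≤ N ^ a := by
        obtain ⟨k, hk⟩ := Nat.exists_eq_add_of_le ha4
        subst hk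
        have e3 : 4 + k - 4 = k := by omega
        rw [e3, hNr]
        have e4 : (r ^ 2) ^ 3 * r ^ k = r ^ (6 + k) := by ring
        have e5 : (r ^ 2) ^ (4 + k) = r ^ (8 + 2 * k) := by
          rw [← pow_mul]
          congr 1
          ring
        rw [e4, e5]
        exact pow_le_pow_right₀ hr1 (by omega)
      have h6 : 0 ≤ (a + 1 : ℝ) * N ^ a := by positivity
      calc N ^ 3 * |l1 N l (a - 4)| ≤ N ^ 3 * ((((a - 4 : ℕ) : ℝ) + 1) * r ^ (a - 4)) :=
            mul_le_mul_of_nonneg_left h3 (by positivity)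
        _ = (((a - 4 : ℕ) : ℝ) + 1) * (N ^ 3 * r ^ (a - 4)) := by ring
        _ ≤ (a + 1) * N ^ a := by
            apply mul_le_mul h4 h5 (by positivity) (by linarith)
        _ ≤ 2 * (a + 1) * N ^ a := by linarith
    · have h1 : h0 N l a b = (if a = 0 ∧ 1 ≤ b then 1 else 0) +
          (if a = 2 ∧ 2 ≤ b then N ^ 2 else 0) := by
        unfold h0
        rw [if_neg hb, if_neg hb2]
        ring
      rw [h1]
      have h7 : (1 : ℝ) ≤ 2 * (a + 1) := by linarith
      by_cases e1 : a = 0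
      · subst e1
        have hN0 : (N : ℝ) ^ 0 = 1 := pow_zero N
        by_cases e2 : 1 ≤ b
        · simp [e2]
        · simp [e2]
      · by_cases e2 : a = 2 ∧ 2 ≤ b
        · rw [if_neg (by rintro ⟨h, -⟩; exact e1 h), if_pos e2, zero_add]
          obtain ⟨e3, -⟩ := e2
          subst e3
          rw [abs_of_nonneg (by positivity)]
          push_cast
          nlinarith [hNa]
        · rw [if_neg (by rintro ⟨h, -⟩; exact e1 h), if_neg e2, zero_add, abs_zero]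
          positivity

private theorem pow_bd (a : ℕ) (ha : 1 ≤ a) : 2 * ((a : ℝ) + 1) ^ 4 ≤ 101 ^ a := by
  induction a, ha using Nat.le_induction with
  | base => norm_num
  | succ n hn ih =>
    have hn' : (1 : ℝ) ≤ n := by exact_mod_cast hn
    rw [pow_succ (101 : ℝ) n]
    push_cast
    have h1 : ((n : ℝ) + 1 + 1) ≤ 2 * (n + 1) := by linarith
    have h2 : ((n : ℝ) + 1 + 1) ^ 4 ≤ (2 * (n + 1)) ^ 4 :=
      pow_le_pow_left₀ (by linarith) h1 4
    have h3 : (2 * ((n : ℝ) + 1)) ^ 4 = 16 * (n + 1) ^ 4 := by ring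
    have h4 : (0 : ℝ) ≤ ((n : ℝ) + 1) ^ 4 := by positivity
    linarith

private theorem cnt_bd (n a : ℕ) :
    ∑ i ∈ Finset.range n, (if i ≤ a then (1 : ℝ) else 0) ≤ a + 1 := by
  rw [← Finset.sum_filter, Finset.sum_const, nsmul_eq_mul, mul_one]
  have h1 : (Finset.filter (fun i => i ≤ a) (Finset.range n)) ⊆ Finset.range (a + 1) := by
    intro i hi
    rw [Finset.mem_filter] at hi
    rw [Finset.mem_range]
    omega
  have h2 := Finset.card_le_card h1
  rw [Finset.card_range] at h2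
  exact_mod_cast h2

theorem hloc_bd {N l : ℝ} (hN : 101 ≤ N) (hl : |l| ≤ 2 * Real.sqrt N) (a b : ℕ) :
    |hloc N l a b| ≤ N ^ (2 * a) := by
  rcases Nat.eq_zero_or_pos a with ha | ha
  · subst ha
    rw [hloc_zero]
    simp
  have hN0 : 0 ≤ N := by linarith
  have hN1 : 1 ≤ N := by linarith
  have ha0 : (0 : ℝ) ≤ a := Nat.cast_nonneg a
  obtain ⟨hr0, hlr, hNr⟩ := l2_par hN hl
  have hl2 : ∀ n : ℕ, |l2 N l n| ≤ (n + 1) * N ^ n := fun n => lseq_bd hr0 hlr hNr n
  have key : ∀ i j : ℕ, |if 2 * i + 4 * j ≤ a ∧ 2 * i + 2 * j ≤ b then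
      l2 N l i * N ^ (i + 4 * j) * h0 N l (a - (2 * i + 4 * j)) (b - (2 * i + 2 * j)) else 0| ≤
      (if i ≤ a then (1 : ℝ) else 0) * ((if j ≤ a then (1 : ℝ) else 0) *
        (2 * (a + 1) ^ 2 * N ^ a)) := by
    intro i j
    split_ifs with h h1 h2
    · rw [one_mul, one_mul, abs_mul, abs_mul, abs_of_nonneg (by positivity : (0:ℝ) ≤ N ^ (i + 4 * j))]
      have e1 := hl2 i
      have e2 := h0_bd hN hl (a - (2 * i + 4 * j)) (b - (2 * i + 2 * j))
      have e3 : ((i : ℝ) + 1) ≤ a + 1 := by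
        have : (i : ℝ) ≤ a := by exact_mod_cast h1
        linarith
      have e4 : (((a - (2 * i + 4 * j) : ℕ) : ℝ) + 1) ≤ a + 1 := by
        have : ((a - (2 * i + 4 * j) : ℕ) : ℝ) ≤ a := by exact_mod_cast Nat.sub_le a _
        linarith
      have e5 : N ^ i * N ^ (i + 4 * j) * N ^ (a - (2 * i + 4 * j)) = N ^ a := by
        rw [← pow_add, ← pow_add]
        congr 1
        omega
      calc |l2 N l i| * N ^ (i + 4 * j) * |h0 N l (a - (2 * i + 4 * j)) (b - (2 * i + 2 * j))|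
          ≤ ((i + 1) * N ^ i) * N ^ (i + 4 * j) *
            (2 * (((a - (2 * i + 4 * j) : ℕ) : ℝ) + 1) * N ^ (a - (2 * i + 4 * j))) := by
            apply mul_le_mul (mul_le_mul_of_nonneg_right e1 (by positivity)) e2 (abs_nonneg _)
              (by positivity)
        _ = 2 * ((i + 1) * (((a - (2 * i + 4 * j) : ℕ) : ℝ) + 1)) *
            (N ^ i * N ^ (i + 4 * j) * N ^ (a - (2 * i + 4 * j))) := by ring
        _ = 2 * ((i + 1) * (((a - (2 * i + 4 * j) : ℕ) : ℝ) + 1)) * N ^ a := by rw [e5]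
        _ ≤ 2 * ((a + 1) * (a + 1)) * N ^ a := by
            apply mul_le_mul_of_nonneg_right _ (by positivity)
            apply mul_le_mul_of_nonneg_left _ (by norm_num)
            exact mul_le_mul e3 e4 (by positivity) (by linarith)
        _ = 2 * (a + 1) ^ 2 * N ^ a := by ring
    · omega
    · omega
    · omega
    · rw [abs_zero]; positivity
    · rw [abs_zero]; positivity
    · rw [abs_zero]; positivity
    · rw [abs_zero]; positivity
  have h1 : |hloc N l a b| ≤ ((a : ℝ) + 1) * (((a : ℝ) + 1) * (2 * (a + 1) ^ 2 * N ^ a)) := by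
    unfold hloc
    refine le_trans (Finset.abs_sum_le_sum_abs _ _) ?_
    refine le_trans (Finset.sum_le_sum fun i _ => Finset.abs_sum_le_sum_abs _ _) ?_
    refine le_trans (Finset.sum_le_sum fun i _ => Finset.sum_le_sum fun j _ => key i j) ?_
    have e1 : ∀ i : ℕ, ∑ j ∈ Finset.range (a + b + 1), (if i ≤ a then (1 : ℝ) else 0) *
        ((if j ≤ a then (1 : ℝ) else 0) * (2 * ((a : ℝ) + 1) ^ 2 * N ^ a)) =
        (if i ≤ a then (1 : ℝ) else 0) *
          ((∑ j ∈ Finset.range (a + b + 1), (if j ≤ a then (1 : ℝ) else 0)) *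
            (2 * ((a : ℝ) + 1) ^ 2 * N ^ a)) := by
      intro i
      rw [← Finset.mul_sum, ← Finset.sum_mul]
    rw [Finset.sum_congr rfl fun i _ => e1 i, ← Finset.sum_mul]
    have e2 := cnt_bd (a + b + 1) a
    have e3 : 0 ≤ (2 * ((a : ℝ) + 1) ^ 2 * N ^ a) := by positivity
    have e4 : 0 ≤ ∑ j ∈ Finset.range (a + b + 1), (if j ≤ a then (1 : ℝ) else 0) :=
      Finset.sum_nonneg fun i _ => by split_ifs <;> norm_num
    exact mul_le_mul e2 (mul_le_mul_of_nonneg_right e2 e3) (mul_nonneg e4 e3) (by linarith)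
  refine h1.trans ?_
  have h2 := pow_bd a ha
  have h3 : (101 : ℝ) ^ a ≤ N ^ a := pow_le_pow_left₀ (by norm_num) hN a
  have h4 : (0 : ℝ) ≤ N ^ a := by positivity
  calc ((a : ℝ) + 1) * (((a : ℝ) + 1) * (2 * (a + 1) ^ 2 * N ^ a))
      = (2 * ((a : ℝ) + 1) ^ 4) * N ^ a := by ring
    _ ≤ N ^ a * N ^ a := mul_le_mul_of_nonneg_right (h2.trans h3) h4
    _ = N ^ (2 * a) := by rw [← pow_add]; congr 1; ring

end Pool.Agent.QD
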