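import Mathlib

/-!
# QD-A26: holomorphy of parameter integrals

PLAN. Let `t0 ∈ U`, ball `B(t0, 2ρ) ⊆ U` with a bound `g`: `‖F t y‖ ≤ g y` for `t` in this ball.
Cauchy estimate: the derivative of `F · y` on `B(t0, ρ)` is at most `g y / ρ`
(`Complex.norm_deriv_le_of_forall_mem_sphere_norm_le`), then
`hasDerivAt_integral_of_dominated_loc_of_deriv_le`.  Measurability of the derivative in `y`:
limit of difference quotients (`aestronglyMeasurable_of_tendsto_ae`) or use the version of the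
theorem that only needs measurability of the derivative at `t0`.
-/

namespace Pool.Agent.QD

open MeasureTheory

theorem diff_integral {U : Set ℂ} (hU : IsOpen U) {F : ℂ → ℝ → ℂ}
    (hd : ∀ y : ℝ, DifferentiableOn ℂ (fun t => F t y) U)
    (hm : ∀ t ∈ U, AEStronglyMeasurable (F t) volume)
    (hb : ∀ t ∈ U, ∃ ρ : ℝ, 0 < ρ ∧ ∃ g : ℝ → ℝ, Integrable g volume ∧
      ∀ t' ∈ Metric.ball t ρ, t' ∈ U → ∀ y : ℝ, ‖F t' y‖ ≤ g y) :
    DifferentiableOn ℂ (fun t => ∫ y : ℝ, F t y) U := by
  intro t0 ht0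
  obtain ⟨ρ, hρ, g, hg, hgb⟩ := hb t0 ht0
  obtain ⟨ρ', hρ', hball⟩ := Metric.isOpen_iff.1 hU t0 ht0
  obtain ⟨ε, hε, hε1, hε2⟩ : ∃ ε : ℝ, 0 < ε ∧ ε ≤ ρ ∧ ε ≤ ρ' :=
    ⟨min ρ ρ', lt_min hρ hρ', min_le_left _ _, min_le_right _ _⟩
  have hsub : Metric.ball t0 ε ⊆ U := (Metric.ball_subset_ball hε2).trans hball
  have hbd : ∀ t ∈ Metric.ball t0 ε, ∀ y : ℝ, ‖F t y‖ ≤ g y := fun t ht y =>
    hgb t (Metric.ball_subset_ball hε1 ht) (hsub ht) y
  have hder : ∀ y : ℝ, ∀ t ∈ Metric.ball t0 ε,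
      HasDerivAt (fun t => F t y) (deriv (fun t => F t y) t) t := by
    intro y t ht
    exact ((hd y t (hsub ht)).differentiableAt (hU.mem_nhds (hsub ht))).hasDerivAt
  have hmt0 : t0 ∈ Metric.ball t0 ε := Metric.mem_ball_self hε
  have key := hasDerivAt_integral_of_dominated_loc_of_deriv_le (μ := (volume : Measure ℝ))
    (F := F) (F' := fun t y => deriv (fun t => F t y) t) (x₀ := t0)
    (bound := fun y => g y / (ε / 4)) (s := Metric.ball t0 (ε / 2))
    (Metric.ball_mem_nhds t0 (by positivity)) ?_ ?_ ?_ ?_ ?_ ?_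
  · exact key.2.differentiableAt.differentiableWithinAt
  · filter_upwards [hU.mem_nhds ht0] with t ht using hm t ht
  · exact hg.mono' (hm t0 ht0) (Filter.Eventually.of_forall fun y => hbd t0 hmt0 y)
  · have hseq : Filter.Tendsto (fun n : ℕ => ((ε / 2 * (1 / ((n : ℝ) + 1)) : ℝ) : ℂ)) Filter.atTop
        (nhdsWithin 0 {0}ᶜ) := by
      rw [tendsto_nhdsWithin_iff]
      constructor
      · have h1 := (tendsto_one_div_add_atTop_nhds_zero_nat (𝕜 := ℝ)).const_mul (ε / 2)
        rw [mul_zero] at h1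
        have h2 := (Complex.continuous_ofReal.tendsto 0).comp h1
        rw [Complex.ofReal_zero] at h2
        exact h2
      · refine Filter.Eventually.of_forall fun n => ?_
        simp only [Set.mem_compl_iff, Set.mem_singleton_iff]
        have : (ε / 2 * (1 / ((n : ℝ) + 1)) : ℝ) ≠ 0 := by positivity
        exact_mod_cast this
    have hmem : ∀ n : ℕ, t0 + ((ε / 2 * (1 / ((n : ℝ) + 1)) : ℝ) : ℂ) ∈ Metric.ball t0 ε := by
      intro n
      have hp : (0 : ℝ) < 1 / ((n : ℝ) + 1) := by positivity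
      have hle : 1 / ((n : ℝ) + 1) ≤ 1 := by
        rw [div_le_one (by positivity)]
        have : (0 : ℝ) ≤ n := Nat.cast_nonneg n
        linarith
      rw [Metric.mem_ball, dist_eq_norm, add_sub_cancel_left, Complex.norm_real, Real.norm_eq_abs,
        abs_of_pos (by positivity)]
      nlinarith
    refine aestronglyMeasurable_of_tendsto_ae Filter.atTop
      (f := fun (n : ℕ) (y : ℝ) => (((ε / 2 * (1 / ((n : ℝ) + 1)) : ℝ) : ℂ))⁻¹ •
        (F (t0 + ((ε / 2 * (1 / ((n : ℝ) + 1)) : ℝ) : ℂ)) y - F t0 y)) ?_ ?_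
    · intro n
      have h1 : AEStronglyMeasurable
          (fun y => F (t0 + ((ε / 2 * (1 / ((n : ℝ) + 1)) : ℝ) : ℂ)) y - F t0 y) volume :=
        (hm _ (hsub (hmem n))).sub (hm t0 ht0)
      exact AEStronglyMeasurable.const_smul h1 ((((ε / 2 * (1 / ((n : ℝ) + 1)) : ℝ) : ℂ))⁻¹)
    · refine Filter.Eventually.of_forall fun y => ?_
      exact (hder y t0 hmt0).tendsto_slope_zero.comp hseq
  · refine Filter.Eventually.of_forall fun y t ht => ?_
    have hcb : Metric.closedBall t (ε / 4) ⊆ Metric.ball t0 ε := by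
      intro z hz
      rw [Metric.mem_closedBall] at hz
      rw [Metric.mem_ball] at ht ⊢
      have := dist_triangle z t t0
      linarith
    apply Complex.norm_deriv_le_of_forall_mem_sphere_norm_le (by positivity)
    · exact (hd y).diffContOnCl_ball (hcb.trans hsub)
    · intro z hz
      exact hbd z (hcb (Metric.sphere_subset_closedBall hz)) y
  · exact hg.div_const _
  · refine Filter.Eventually.of_forall fun y t ht => ?_
    exact hder y t (Metric.ball_subset_ball (by linarith) ht)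

end Pool.Agent.QD
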