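import Pool.Agent.QD.A.Pole

/-!
# QD-A25: Cauchy's formula in a strip, with the kernel `exp (u^2)/u`

PLAN. `kern_bd`: for `|Re u| ≤ B`, `‖exp (u^2)‖ = exp (Re u^2 - Im u^2) ≤ exp (B^2 - Im u^2)`;
`‖u‖ ≥ |Re u| ≥ δ`.
`strip_cauchy`: fix `s`, `α < Re s < β`; `g z = f z * exp ((z-s)^2)` is holomorphic near the closed
strip; Cauchy's integral formula for the rectangle `[α,β] × [-Y,Y]` (Mathlib:
`Complex.integral_boundary_rect_of_hasFDerivAt_real_off_countable` /
`Complex.integral_boundary_rect_eq_zero_of_differentiableOn` applied to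
`(g z - g s)/(z - s)` (dslope, differentiable), plus the integral of `1/(z-s)` over a rectangle
boundary `= 2 π i` (`Complex.integral...`, or through the circle version
`DiffContOnCl.circleIntegral...`); alternatively: apply the rectangle theorem to
`(f z exp((z-s)^2) - f s exp((z-s)^2))/(z-s)`, and treat `f = 1` separately: the constant
`(1/2π)(∫ kern (β - s + iy) dy - ∫ kern (α - s + iy) dy) = 1` (`kern` is odd: the two integrals are
`∫ kern(β' + iy)` and `- ∫ kern(-α' + iy)`, both independent of `β', α' > 0`, and the value is `1`: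
e.g. `kern (u) = ∫`.. or let `β' → 0`).  The horizontal sides tend to `0` by the growth bound.
-/

namespace Pool.Agent.QD.SysD

open Pool.Agent.QD

theorem kern_bd (B δ : ℝ) (hδ : 0 < δ) : ∀ u : ℂ, |u.re| ≤ B → δ ≤ |u.re| →
    ‖kern u‖ ≤ δ⁻¹ * Real.exp (B ^ 2) * Real.exp (-(u.im ^ 2)) := by
  intro u h1 h2
  have h3 : δ ≤ ‖u‖ := h2.trans (Complex.abs_re_le_norm u)
  have h4 : (u ^ 2).re = u.re ^ 2 - u.im ^ 2 := by simp [sq]
  have h5 : u.re ^ 2 ≤ B ^ 2 := by
    rw [← sq_abs u.re]
    exact pow_le_pow_left₀ (abs_nonneg _) h1 2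
  unfold kern
  rw [norm_div, Complex.norm_exp, h4, div_eq_inv_mul, mul_assoc, ← Real.exp_add]
  apply mul_le_mul
  · exact inv_anti₀ hδ h3
  · apply Real.exp_le_exp.mpr
    linarith
  · positivity
  · positivity

/-! ### the constant -/

open MeasureTheory Filter Topology

private theorem kern_int_pos (b : ℝ) (hb : 0 < b) :
    ∫ y : ℝ, kern (b + y * Complex.I) = (Real.pi : ℂ) := by
  set F : ℝ → ℝ → ℂ := fun y r =>
    Complex.exp ((b + y * Complex.I) ^ 2 - (b + y * Complex.I) * r) with hF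
  have h1 : ∀ y : ℝ, kern (b + y * Complex.I) = ∫ r in Set.Ioi (0 : ℝ), F y r := by
    intro y
    have hre : (-((b : ℂ) + y * Complex.I)).re < 0 := by simp [hb]
    have h2 := integral_exp_mul_complex_Ioi hre 0
    have h3 : ∀ r : ℝ, F y r = Complex.exp ((b + y * Complex.I) ^ 2) *
        Complex.exp (-((b : ℂ) + y * Complex.I) * r) := by
      intro r
      simp only [hF]
      rw [← Complex.exp_add]
      congr 1
      ring
    simp only [h3]
    rw [integral_const_mul, h2]
    unfold kern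
    simp only [Complex.ofReal_zero, mul_zero, Complex.exp_zero]
    rw [neg_div_neg_eq, mul_one_div]
  have hint : Integrable (Function.uncurry F)
      ((volume : Measure ℝ).prod (volume.restrict (Set.Ioi (0 : ℝ)))) := by
    have hA : Integrable (fun y : ℝ => Real.exp (b ^ 2) * Real.exp (-1 * y ^ 2)) :=
      (integrable_exp_neg_mul_sq one_pos).const_mul _
    have hB : Integrable (fun r : ℝ => Real.exp (-b * r)) (volume.restrict (Set.Ioi (0 : ℝ))) := by
      have := integrableOn_exp_mul_Ioi (a := -b) (by linarith) 0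
      exact this
    refine (hA.mul_prod hB).mono' ?_ ?_
    · apply Continuous.aestronglyMeasurable
      simp only [hF, Function.uncurry_def]
      fun_prop
    · refine Eventually.of_forall fun z => ?_
      simp only [hF, Function.uncurry_def]
      rw [Complex.norm_exp, ← Real.exp_add, ← Real.exp_add]
      apply Real.exp_le_exp.mpr
      have : (((b : ℂ) + z.1 * Complex.I) ^ 2 - ((b : ℂ) + z.1 * Complex.I) * z.2).re =
          b ^ 2 - z.1 ^ 2 - b * z.2 := by
        simp [sq]
      rw [this]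
      linarith
  have h4 : ∀ r : ℝ, ∫ y : ℝ, F y r =
      ((Real.pi : ℂ)) ^ (1 / 2 : ℂ) * Complex.exp (-(1 / 4 : ℂ) * (r : ℂ) ^ 2) := by
    intro r
    have h5 := integral_cexp_quadratic (b := (-1 : ℂ)) (by simp)
      ((2 * b - r) * Complex.I) ((b : ℂ) ^ 2 - b * r)
    have h6 : ∀ y : ℝ, F y r = Complex.exp ((-1 : ℂ) * (y : ℂ) ^ 2 +
        (2 * b - r) * Complex.I * y + ((b : ℂ) ^ 2 - b * r)) := by
      intro y
      simp only [hF]
      congr 1
      have hI : Complex.I ^ 2 = -1 := Complex.I_sq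
      linear_combination ((y : ℂ) ^ 2) * hI
    simp only [h6]
    rw [h5, neg_neg, div_one]
    congr 2
    have hI : Complex.I ^ 2 = -1 := Complex.I_sq
    linear_combination ((2 * (b : ℂ) - r) ^ 2 / 4) * hI
  simp only [h1]
  rw [integral_integral_swap hint]
  simp only [h4]
  rw [integral_const_mul, integral_gaussian_complex_Ioi (b := (1 / 4 : ℂ)) (by norm_num)]
  have h7 : (Real.pi : ℂ) / (1 / 4 : ℂ) = ((4 * Real.pi : ℝ) : ℂ) := by
    push_cast
    ring
  rw [h7]
  have h8 : ((1 / 2 : ℂ)) = ((1 / 2 : ℝ) : ℂ) := by push_cast; rfl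
  rw [h8, ← Complex.ofReal_cpow Real.pi_pos.le, ← Complex.ofReal_cpow (by positivity)]
  rw [← Real.sqrt_eq_rpow, ← Real.sqrt_eq_rpow]
  have h9 : Real.sqrt (4 * Real.pi) = 2 * Real.sqrt Real.pi := by
    rw [Real.sqrt_mul (by norm_num)]
    congr 1
    rw [show (4 : ℝ) = 2 ^ 2 by norm_num]
    exact Real.sqrt_sq (by norm_num)
  rw [h9]
  push_cast
  have h10 : ((Real.sqrt Real.pi : ℝ) : ℂ) * ((Real.sqrt Real.pi : ℝ) : ℂ) = (Real.pi : ℂ) := by
    rw [← Complex.ofReal_mul, Real.mul_self_sqrt Real.pi_pos.le]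
  linear_combination h10

private theorem kern_neg (u : ℂ) : kern (-u) = -kern u := by
  unfold kern
  rw [neg_sq, div_neg]

private theorem kern_int_neg (b : ℝ) (hb : b < 0) :
    ∫ y : ℝ, kern (b + y * Complex.I) = -(Real.pi : ℂ) := by
  have h1 := kern_int_pos (-b) (by linarith)
  rw [← h1, ← integral_neg, ← integral_neg_eq_self]
  refine integral_congr_ae (Eventually.of_forall fun y => ?_)
  simp only
  rw [← kern_neg]
  congr 1
  push_cast
  ring

/-! ### the strip -/

private theorem strip_goursat {α β α' β' : ℝ} (h1 : α' < α) (h2 : α < β) (h3 : β < β')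
    {h : ℂ → ℂ} (hd : DifferentiableOn ℂ h {z : ℂ | α' < z.re ∧ z.re < β'}) {M σ : ℝ}
    (hb : ∀ z : ℂ, α ≤ z.re → z.re ≤ β → 1 ≤ |z.im - σ| →
      ‖h z‖ ≤ M * Real.exp (-(z.im - σ) ^ 2 / 2))
    (iα : Integrable (fun y : ℝ => h (α + y * Complex.I)))
    (iβ : Integrable (fun y : ℝ => h (β + y * Complex.I))) :
    ∫ y : ℝ, h (β + y * Complex.I) = ∫ y : ℝ, h (α + y * Complex.I) := by
  have hM : Tendsto (fun y : ℝ => M * Real.exp (-(y - σ) ^ 2 / 2)) atTop (𝓝 0) := by
    rw [← mul_zero M]
    apply Tendsto.const_mul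
    apply Real.tendsto_exp_atBot.comp
    have : Tendsto (fun y : ℝ => (y - σ) ^ 2 / 2) atTop atTop := by
      apply Tendsto.atTop_div_const (by norm_num)
      exact (tendsto_pow_atTop (two_ne_zero)).comp (tendsto_atTop_add_const_right _ _ tendsto_id)
    have h4 := tendsto_neg_atTop_atBot.comp this
    refine h4.congr fun y => ?_
    simp only [Function.comp]
    ring
  have hM' : Tendsto (fun y : ℝ => M * Real.exp (-(-y - σ) ^ 2 / 2)) atTop (𝓝 0) := by
    rw [← mul_zero M]
    apply Tendsto.const_mul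
    apply Real.tendsto_exp_atBot.comp
    have : Tendsto (fun y : ℝ => (y + σ) ^ 2 / 2) atTop atTop := by
      apply Tendsto.atTop_div_const (by norm_num)
      exact (tendsto_pow_atTop (two_ne_zero)).comp (tendsto_atTop_add_const_right _ _ tendsto_id)
    have h4 := tendsto_neg_atTop_atBot.comp this
    refine h4.congr fun y => ?_
    simp only [Function.comp]
    ring
  -- horizontal sides
  have htop : Tendsto (fun Y : ℝ => ∫ x in α..β, h (x + Y * Complex.I)) atTop (𝓝 0) := by
    have h5 : Tendsto (fun Y : ℝ => M * Real.exp (-(Y - σ) ^ 2 / 2) * |β - α|) atTop (𝓝 0) := by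
      simpa using hM.mul_const |β - α|
    refine squeeze_zero_norm' ?_ h5
    filter_upwards [eventually_ge_atTop (σ + 1)] with Y hY
    apply intervalIntegral.norm_integral_le_of_norm_le_const
    intro x hx
    rw [Set.uIoc_of_le h2.le] at hx
    have h6 := hb ((x : ℂ) + Y * Complex.I) (by simpa using hx.1.le) (by simpa using hx.2)
      (by
        simp only [Complex.add_im, Complex.ofReal_im, Complex.mul_im, Complex.ofReal_re,
          Complex.I_im, Complex.I_re, mul_one, mul_zero, add_zero, zero_add]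
        rw [abs_of_nonneg (by linarith)]
        linarith)
    simpa using h6
  have hbot : Tendsto (fun Y : ℝ => ∫ x in α..β, h (x + (-Y : ℝ) * Complex.I)) atTop (𝓝 0) := by
    have h5 : Tendsto (fun Y : ℝ => M * Real.exp (-(-Y - σ) ^ 2 / 2) * |β - α|) atTop (𝓝 0) := by
      simpa using hM'.mul_const |β - α|
    refine squeeze_zero_norm' ?_ h5
    filter_upwards [eventually_ge_atTop (1 - σ)] with Y hY
    apply intervalIntegral.norm_integral_le_of_norm_le_const
    intro x hx
    rw [Set.uIoc_of_le h2.le] at hx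
    have h6 := hb ((x : ℂ) + (-Y : ℝ) * Complex.I) (by simpa using hx.1.le) (by simpa using hx.2)
      (by
        simp only [Complex.add_im, Complex.ofReal_im, Complex.mul_im, Complex.ofReal_re,
          Complex.I_im, Complex.I_re, mul_one, mul_zero, add_zero, zero_add]
        rw [abs_of_nonpos (by linarith)]
        linarith)
    simpa using h6
  -- vertical sides
  have hβ := intervalIntegral_tendsto_integral iβ tendsto_neg_atTop_atBot
    (tendsto_id (α := ℝ) (x := atTop))
  have hα := intervalIntegral_tendsto_integral iα tendsto_neg_atTop_atBot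
    (tendsto_id (α := ℝ) (x := atTop))
  have hrect : ∀ Y : ℝ, (∫ x : ℝ in α..β, h (x + (-Y : ℝ) * Complex.I)) -
      (∫ x : ℝ in α..β, h (x + Y * Complex.I)) +
      Complex.I * (∫ y : ℝ in (-Y)..Y, h (β + y * Complex.I)) -
      Complex.I * (∫ y : ℝ in (-Y)..Y, h (α + y * Complex.I)) = 0 := by
    intro Y
    have h7 := Complex.integral_boundary_rect_eq_zero_of_differentiableOn h
      (⟨α, -Y⟩ : ℂ) (⟨β, Y⟩ : ℂ) (hd.mono ?_)
    · simpa using h7
    · intro z hz
      have h8 : z.re ∈ Set.uIcc α β := hz.1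
      rw [Set.uIcc_of_le h2.le] at h8
      exact ⟨lt_of_lt_of_le h1 h8.1, lt_of_le_of_lt h8.2 h3⟩
  have hlim := ((hbot.sub htop).add (hβ.const_mul Complex.I)).sub (hα.const_mul Complex.I)
  have h9 : (0 - 0 + Complex.I * (∫ y : ℝ, h (β + y * Complex.I)) -
      Complex.I * ∫ y : ℝ, h (α + y * Complex.I)) = 0 := by
    refine tendsto_nhds_unique hlim ?_
    refine tendsto_const_nhds.congr fun Y => ?_
    exact (hrect Y).symm
  have h10 : Complex.I * ((∫ y : ℝ, h (β + y * Complex.I)) -
      ∫ y : ℝ, h (α + y * Complex.I)) = 0 := by linear_combination h9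
  rcases mul_eq_zero.mp h10 with h11 | h11
  · exact absurd h11 Complex.I_ne_zero
  · exact sub_eq_zero.mp h11

/-- growth against the Gaussian -/
private theorem growth (A σ : ℝ) (hA : 0 ≤ A) (y : ℝ) :
    (1 + |y|) ^ A * Real.exp (-(y - σ) ^ 2) ≤
      Real.exp (A * |σ| + A ^ 2 / 2) * Real.exp (-(y - σ) ^ 2 / 2) := by
  have h1 : (1 + |y|) ^ A ≤ Real.exp (A * |y|) := by
    rw [Real.rpow_def_of_pos (by positivity)]
    apply Real.exp_le_exp.mpr
    rw [mul_comm]
    apply mul_le_mul_of_nonneg_left _ hA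
    have := Real.log_le_sub_one_of_pos (show (0 : ℝ) < 1 + |y| by positivity)
    linarith
  calc (1 + |y|) ^ A * Real.exp (-(y - σ) ^ 2)
      ≤ Real.exp (A * |y|) * Real.exp (-(y - σ) ^ 2) :=
        mul_le_mul_of_nonneg_right h1 (Real.exp_pos _).le
    _ ≤ Real.exp (A * |σ| + A ^ 2 / 2) * Real.exp (-(y - σ) ^ 2 / 2) := by
        rw [← Real.exp_add, ← Real.exp_add]
        apply Real.exp_le_exp.mpr
        have h2 : |y| ≤ |σ| + |y - σ| := by
          have := abs_add_le σ (y - σ)
          rwa [add_sub_cancel] at this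
        have h3 : A * |y| ≤ A * |σ| + A * |y - σ| := by
          rw [← mul_add]
          exact mul_le_mul_of_nonneg_left h2 hA
        have h4 : (y - σ) ^ 2 = |y - σ| ^ 2 := (sq_abs _).symm
        nlinarith [sq_nonneg (A - |y - σ|)]

private theorem gauss_integrable (σ : ℝ) :
    Integrable (fun y : ℝ => Real.exp (-(y - σ) ^ 2 / 2)) := by
  have h1 := (integrable_exp_neg_mul_sq (b := 1 / 2) (by norm_num)).comp_sub_right σ
  refine h1.congr (Eventually.of_forall fun y => ?_)
  simp only
  congr 1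
  ring

theorem strip_cauchy {α β α' β' : ℝ} (h1 : α' < α) (h2 : α < β) (h3 : β < β') {f : ℂ → ℂ}
    (hf : DifferentiableOn ℂ f {z : ℂ | α' < z.re ∧ z.re < β'}) {A C : ℝ} (hA : 0 ≤ A)
    (hb : ∀ z : ℂ, α ≤ z.re → z.re ≤ β → ‖f z‖ ≤ C * (1 + |z.im|) ^ A) {s : ℂ}
    (hs1 : α < s.re) (hs2 : s.re < β) :
    f s = (2 * Real.pi : ℂ)⁻¹ *
      ((∫ y : ℝ, f (β + y * Complex.I) * kern (β + y * Complex.I - s)) -
        ∫ y : ℝ, f (α + y * Complex.I) * kern (α + y * Complex.I - s)) := by
  have hC : 0 ≤ C := by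
    have h4 := (norm_nonneg _).trans (hb s hs1.le hs2.le)
    by_contra hneg
    push Not at hneg
    have : 0 < (1 + |s.im|) ^ A := by positivity
    nlinarith
  set U : Set ℂ := {z : ℂ | α' < z.re ∧ z.re < β'} with hU
  have hUo : IsOpen U := by
    have : U = Complex.re ⁻¹' (Set.Ioo α' β') := rfl
    rw [this]
    exact isOpen_Ioo.preimage Complex.continuous_re
  have hsU : s ∈ U := ⟨h1.trans hs1, hs2.trans h3⟩
  have hlineU : ∀ x y : ℝ, α ≤ x → x ≤ β → ((x : ℂ) + y * Complex.I) ∈ U := by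
    intro x y hx1 hx2
    refine ⟨?_, ?_⟩
    · simp only [Complex.add_re, Complex.ofReal_re, Complex.mul_re, Complex.ofReal_im,
        Complex.I_re, Complex.I_im, mul_zero, mul_one, sub_zero, add_zero]
      linarith
    · simp only [Complex.add_re, Complex.ofReal_re, Complex.mul_re, Complex.ofReal_im,
        Complex.I_re, Complex.I_im, mul_zero, mul_one, sub_zero, add_zero]
      linarith
  -- the two kinds of functions on vertical lines
  set B : ℝ := β - α with hB
  have hkc : ∀ x : ℝ, x ≠ s.re → Continuous (fun y : ℝ => kern ((x : ℂ) + y * Complex.I - s)) := by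
    intro x hx
    unfold kern
    apply Continuous.div (by fun_prop) (by fun_prop)
    intro y h0
    apply hx
    have h4 := congrArg Complex.re h0
    simp at h4
    linarith
  have hfc : ∀ x : ℝ, α ≤ x → x ≤ β → Continuous (fun y : ℝ => f ((x : ℂ) + y * Complex.I)) := by
    intro x hx1 hx2
    exact hf.continuousOn.comp_continuous (by fun_prop) (fun y => hlineU x y hx1 hx2)
  have hkb : ∀ x y : ℝ, α ≤ x → x ≤ β → x ≠ s.re →
      ‖kern ((x : ℂ) + y * Complex.I - s)‖ ≤
        |x - s.re|⁻¹ * Real.exp (B ^ 2) * Real.exp (-(y - s.im) ^ 2) := by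
    intro x y hx1 hx2 hx
    have h4 := kern_bd B |x - s.re| (abs_pos.mpr (sub_ne_zero.mpr hx))
      ((x : ℂ) + y * Complex.I - s) (by
        simp only [Complex.sub_re, Complex.add_re, Complex.ofReal_re, Complex.mul_re,
          Complex.ofReal_im, Complex.I_re, Complex.I_im, mul_zero, mul_one, sub_zero, add_zero]
        rw [abs_le]
        constructor <;> linarith) (by simp)
    refine h4.trans (le_of_eq ?_)
    congr 2
    simp
  have hki : ∀ x : ℝ, α ≤ x → x ≤ β → x ≠ s.re →
      Integrable (fun y : ℝ => kern ((x : ℂ) + y * Complex.I - s)) := by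
    intro x hx1 hx2 hx
    refine ((gauss_integrable s.im).const_mul (|x - s.re|⁻¹ * Real.exp (B ^ 2))).mono'
      (hkc x hx).aestronglyMeasurable (Eventually.of_forall fun y => ?_)
    refine (hkb x y hx1 hx2 hx).trans ?_
    apply mul_le_mul_of_nonneg_left _ (by positivity)
    apply Real.exp_le_exp.mpr
    nlinarith [sq_nonneg (y - s.im)]
  have hfki : ∀ x : ℝ, α ≤ x → x ≤ β → x ≠ s.re →
      Integrable (fun y : ℝ => f ((x : ℂ) + y * Complex.I) *
        kern ((x : ℂ) + y * Complex.I - s)) := by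
    intro x hx1 hx2 hx
    refine ((gauss_integrable s.im).const_mul (C * (|x - s.re|⁻¹ * Real.exp (B ^ 2)) *
      Real.exp (A * |s.im| + A ^ 2 / 2))).mono'
      ((hfc x hx1 hx2).mul (hkc x hx)).aestronglyMeasurable (Eventually.of_forall fun y => ?_)
    rw [norm_mul]
    have h4 := hb ((x : ℂ) + y * Complex.I) (by simpa using hx1) (by simpa using hx2)
    have h4' : ‖f ((x : ℂ) + y * Complex.I)‖ ≤ C * (1 + |y|) ^ A := by simpa using h4
    calc ‖f ((x : ℂ) + y * Complex.I)‖ * ‖kern ((x : ℂ) + y * Complex.I - s)‖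
        ≤ (C * (1 + |y|) ^ A) * (|x - s.re|⁻¹ * Real.exp (B ^ 2) *
          Real.exp (-(y - s.im) ^ 2)) :=
          mul_le_mul h4' (hkb x y hx1 hx2 hx) (norm_nonneg _) (by positivity)
      _ = C * (|x - s.re|⁻¹ * Real.exp (B ^ 2)) *
          ((1 + |y|) ^ A * Real.exp (-(y - s.im) ^ 2)) := by ring
      _ ≤ C * (|x - s.re|⁻¹ * Real.exp (B ^ 2)) *
          (Real.exp (A * |s.im| + A ^ 2 / 2) * Real.exp (-(y - s.im) ^ 2 / 2)) :=
          mul_le_mul_of_nonneg_left (growth A s.im hA y) (by positivity)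
      _ = _ := by ring
  -- the function without pole
  set h : ℂ → ℂ := fun z => dslope f s z * Complex.exp ((z - s) ^ 2) with hh
  have hhd : DifferentiableOn ℂ h U := by
    apply DifferentiableOn.mul
    · exact (Complex.differentiableOn_dslope (hUo.mem_nhds hsU)).mpr hf
    · fun_prop
  have hline : ∀ x y : ℝ, x ≠ s.re → h ((x : ℂ) + y * Complex.I) =
      f ((x : ℂ) + y * Complex.I) * kern ((x : ℂ) + y * Complex.I - s) -
        f s * kern ((x : ℂ) + y * Complex.I - s) := by
    intro x y hx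
    have hne : ((x : ℂ) + y * Complex.I) ≠ s := by
      intro h0
      apply hx
      have h4 := congrArg Complex.re h0
      simpa using h4
    simp only [hh]
    rw [dslope_of_ne _ hne, slope_def_field]
    unfold kern
    have : ((x : ℂ) + y * Complex.I) - s ≠ 0 := sub_ne_zero.mpr hne
    field_simp
  have hhi : ∀ x : ℝ, α ≤ x → x ≤ β → x ≠ s.re →
      Integrable (fun y : ℝ => h ((x : ℂ) + y * Complex.I)) := by
    intro x hx1 hx2 hx
    refine ((hfki x hx1 hx2 hx).sub ((hki x hx1 hx2 hx).const_mul (f s))).congr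
      (Eventually.of_forall fun y => ?_)
    simp only [Pi.sub_apply]
    exact (hline x y hx).symm
  have hhb : ∀ z : ℂ, α ≤ z.re → z.re ≤ β → 1 ≤ |z.im - s.im| →
      ‖h z‖ ≤ ((C * Real.exp (A * |s.im| + A ^ 2 / 2) + ‖f s‖) * Real.exp (B ^ 2)) *
        Real.exp (-(z.im - s.im) ^ 2 / 2) := by
    intro z hz1 hz2 hz
    have h4 : 1 ≤ ‖z - s‖ := by
      refine hz.trans ?_
      have := Complex.abs_im_le_norm (z - s)
      rwa [Complex.sub_im] at this
    have hne : z ≠ s := by
      intro h0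
      rw [h0, sub_self, norm_zero] at h4
      linarith
    have h5 : ‖dslope f s z‖ ≤ C * (1 + |z.im|) ^ A + ‖f s‖ := by
      rw [dslope_of_ne _ hne, slope_def_field, norm_div]
      refine (div_le_self (norm_nonneg _) h4).trans ?_
      refine (norm_sub_le _ _).trans ?_
      gcongr
      exact hb z hz1 hz2
    have h6 : ‖Complex.exp ((z - s) ^ 2)‖ ≤ Real.exp (B ^ 2) * Real.exp (-(z.im - s.im) ^ 2) := by
      rw [Complex.norm_exp, ← Real.exp_add]
      apply Real.exp_le_exp.mpr
      have h7 : ((z - s) ^ 2).re = (z.re - s.re) ^ 2 - (z.im - s.im) ^ 2 := by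
        simp [sq]
      rw [h7]
      have h8 : (z.re - s.re) ^ 2 ≤ B ^ 2 := by
        apply sq_le_sq'
        · linarith
        · linarith
      linarith
    have h9 : Real.exp (-(z.im - s.im) ^ 2) ≤ Real.exp (-(z.im - s.im) ^ 2 / 2) := by
      apply Real.exp_le_exp.mpr
      nlinarith [sq_nonneg (z.im - s.im)]
    calc ‖h z‖ = ‖dslope f s z‖ * ‖Complex.exp ((z - s) ^ 2)‖ := norm_mul _ _
      _ ≤ (C * (1 + |z.im|) ^ A + ‖f s‖) *
          (Real.exp (B ^ 2) * Real.exp (-(z.im - s.im) ^ 2)) :=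
          mul_le_mul h5 h6 (norm_nonneg _) (by positivity)
      _ = Real.exp (B ^ 2) * (C * ((1 + |z.im|) ^ A * Real.exp (-(z.im - s.im) ^ 2)) +
          ‖f s‖ * Real.exp (-(z.im - s.im) ^ 2)) := by ring
      _ ≤ Real.exp (B ^ 2) * (C * (Real.exp (A * |s.im| + A ^ 2 / 2) *
          Real.exp (-(z.im - s.im) ^ 2 / 2)) +
          ‖f s‖ * Real.exp (-(z.im - s.im) ^ 2 / 2)) := by
          apply mul_le_mul_of_nonneg_left _ (Real.exp_pos _).le
          apply add_le_add
          · exact mul_le_mul_of_nonneg_left (growth A s.im hA z.im) hC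
          · exact mul_le_mul_of_nonneg_left h9 (norm_nonneg _)
      _ = _ := by ring
  have hβne : β ≠ s.re := hs2.ne'
  have hαne : α ≠ s.re := hs1.ne
  have hgour := strip_goursat h1 h2 h3 hhd hhb (hhi α le_rfl h2.le hαne) (hhi β h2.le le_rfl hβne)
  -- constants
  have hshift : ∀ x : ℝ, (∫ y : ℝ, kern ((x : ℂ) + y * Complex.I - s)) =
      ∫ y : ℝ, kern (((x - s.re : ℝ) : ℂ) + y * Complex.I) := by
    intro x
    rw [← integral_sub_right_eq_self (fun y : ℝ => kern (((x - s.re : ℝ) : ℂ) + y * Complex.I))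
      s.im]
    refine integral_congr_ae (Eventually.of_forall fun y => ?_)
    simp only
    congr 1
    apply Complex.ext <;> simp
  have hKβ : (∫ y : ℝ, kern ((β : ℂ) + y * Complex.I - s)) = (Real.pi : ℂ) := by
    rw [hshift, kern_int_pos _ (by linarith)]
  have hKα : (∫ y : ℝ, kern ((α : ℂ) + y * Complex.I - s)) = -(Real.pi : ℂ) := by
    rw [hshift, kern_int_neg _ (by linarith)]
  have hsplit : ∀ x : ℝ, α ≤ x → x ≤ β → x ≠ s.re →
      (∫ y : ℝ, h ((x : ℂ) + y * Complex.I)) =
      (∫ y : ℝ, f ((x : ℂ) + y * Complex.I) * kern ((x : ℂ) + y * Complex.I - s)) -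
        f s * ∫ y : ℝ, kern ((x : ℂ) + y * Complex.I - s) := by
    intro x hx1 hx2 hx
    rw [← integral_const_mul, ← integral_sub (hfki x hx1 hx2 hx)
      ((hki x hx1 hx2 hx).const_mul (f s))]
    refine integral_congr_ae (Eventually.of_forall fun y => ?_)
    exact hline x y hx
  rw [hsplit β h2.le le_rfl hβne, hsplit α le_rfl h2.le hαne, hKβ, hKα] at hgour
  have hpi : (Real.pi : ℂ) ≠ 0 := Complex.ofReal_ne_zero.mpr Real.pi_ne_zero
  rw [eq_inv_mul_iff_mul_eq₀ (mul_ne_zero two_ne_zero hpi)]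
  linear_combination -hgour

end Pool.Agent.QD.SysD
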