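import Pool.Agent.QD.A.IIb

/-!
# QD-A29: THEOREM AT

PLAN. (paper 2.8) Let `b1` be as in `exists_HHB`, `β = 2 - b1`.  Let `Re s < β`, choose
`b > b1` with `2 - b < Re s`.  Put `J_i = I b c_i · t0`, differentiable on the strip
`2 - b < Re < b` (`I_diff_s`).  For `b1 < Re z < b`: `J_i z = XX z * M c_i (t0 - z + 1/2)`
(`I_eq_HH`, `HHB.val`), `M c_i = r_i Phi` (`Re (t0 - z + 1/2) < 0`), so
`J_1 z * r2 (t0 - z + 1/2) = J_2 z * r1 (t0 - z + 1/2)`; by the identity theorem on the whole strip.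
At `s`: `I_fe`: `GG c1 s * J_1 (2-s) * r2 w = GG c2 s * J_2 (2-s) * r1 w`, `w = t0 - s + 1/2`, and
`J_i (2-s) = XX (2-s) * r_i w' * Phi w'`, `w' = t0 - (2-s) + 1/2 = t0 + s - 3/2`.  `XX ≠ 0`.
So the claimed identity times `Phi w'`; i.e. it holds for all `s` with `Re s < β` and
`Phi (t0 + s - 3/2) ≠ 0`.  `M c1` is analytic on `Re w < 0` and not identically `0` near any
point (identity theorem and `hPhi`: `M c1 w ≠ 0` for some `w`), so the exceptional points are
isolated; both sides of the identity are continuous in `s` (`GG_diff`, `r_i` differentiable).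
-/

namespace Pool.Agent.QD

open Pool.Agent.QD

private theorem M_diff {S : SysD} (hS : IsSys S) (c : S.G) :
    DifferentiableOn ℂ (S.M c) {w : ℂ | w.re < 0} := by
  unfold SysD.M
  refine DifferentiableOn.fun_sum fun b _ => ?_
  exact (differentiableOn_const _).mul (hS.Gam_diff b)

private theorem isOpen_re_lt (x : ℝ) : IsOpen {z : ℂ | z.re < x} :=
  isOpen_lt Complex.continuous_re continuous_const

private theorem claimA {S : SysD} (hS : IsSys S) {T : PoleD} (hT : IsPole S T) (c1 c2 : S.G)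
    (h1 : c1 ≠ 1) (h2 : c2 ≠ 1) (r1 r2 Phi : ℂ → ℂ) (hr1 : Differentiable ℂ r1)
    (hr2 : Differentiable ℂ r2) (hM1 : ∀ w : ℂ, w.re < 0 → S.M c1 w = r1 w * Phi w)
    (hM2 : ∀ w : ℂ, w.re < 0 → S.M c2 w = r2 w * Phi w) {b1 : ℝ} (h : SysD.HHB S T b1)
    (s : ℂ) (hs : s.re < 2 - b1) (hPhi : Phi (T.t0 + s - 3 / 2) ≠ 0) :
      S.GG c1 s * r1 (T.t0 + s - 3 / 2) * r2 (T.t0 - s + 1 / 2) =
        S.GG c2 s * r2 (T.t0 + s - 3 / 2) * r1 (T.t0 - s + 1 / 2) := by
  have hlarge := h.large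
  have hr := hT.hr
  have habs := abs_nonneg T.t0.re
  have habs2 := le_abs_self T.t0.re
  set b : ℝ := 3 - s.re with hb
  have hb1 : b1 < b := by rw [hb]; linarith
  set U : Set ℂ := {z : ℂ | 2 - b < z.re ∧ z.re < b} with hU
  have hUo : IsOpen U := (isOpen_lt continuous_const Complex.continuous_re).inter
    (isOpen_lt Complex.continuous_re continuous_const)
  have hUc : IsPreconnected U := by
    have : U = Complex.re ⁻¹' (Set.Ioo (2 - b) b) := rfl
    rw [this]
    exact ((convex_Ioo (2 - b) b).is_linear_preimage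
      (Complex.reLm.isLinear)).isPreconnected
  have ht : T.t0 ∈ T.OmR (T.t0.re + 1) := by
    refine ⟨?_, ?_, ?_⟩
    · simp only [sub_self, Complex.zero_im, abs_zero]
      linarith
    · linarith
    · linarith
  have hJ : ∀ c, DifferentiableOn ℂ (fun z => S.I T b c z T.t0) U := fun c =>
    SysD.I_diff_s hS hT h c hb1 ht
  have hlin : Differentiable ℂ fun z : ℂ => T.t0 - z + 1 / 2 := by fun_prop
  set G : ℂ → ℂ := fun z => S.I T b c1 z T.t0 * r2 (T.t0 - z + 1 / 2) -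
    S.I T b c2 z T.t0 * r1 (T.t0 - z + 1 / 2) with hG
  have hGd : DifferentiableOn ℂ G U :=
    ((hJ c1).mul (hr2.comp hlin).differentiableOn).sub
      ((hJ c2).mul (hr1.comp hlin).differentiableOn)
  have hval : ∀ (c : S.G), c ≠ 1 → ∀ z : ℂ, b1 < z.re → z.re < b →
      S.I T b c z T.t0 = SysD.XX S T z * S.M c (T.t0 - z + 1 / 2) := by
    intro c hc z hz1 hz2
    rw [SysD.I_eq_HH hS hT h hc hb1 hz1 hz2, h.val c z hz1]
  have hG0 : ∀ z : ℂ, b1 < z.re → z.re < b → G z = 0 := by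
    intro z hz1 hz2
    have hre : (T.t0 - z + 1 / 2).re < 0 := by
      have : (T.t0 - z + 1 / 2).re = T.t0.re - z.re + 1 / 2 := by simp
      rw [this]
      linarith
    simp only [hG]
    rw [hval c1 h1 z hz1 hz2, hval c2 h2 z hz1 hz2, hM1 _ hre, hM2 _ hre]
    ring
  set z0 : ℂ := (((b1 + b) / 2 : ℝ) : ℂ) with hz0
  have hz0re : z0.re = (b1 + b) / 2 := by simp [hz0]
  have hz0U : z0 ∈ U := by
    refine ⟨?_, ?_⟩
    · rw [hz0re]; linarith
    · rw [hz0re]; linarith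
  have hev : G =ᶠ[nhds z0] 0 := by
    have ho : IsOpen {z : ℂ | b1 < z.re ∧ z.re < b} :=
      (isOpen_lt continuous_const Complex.continuous_re).inter
        (isOpen_lt Complex.continuous_re continuous_const)
    have hm : z0 ∈ {z : ℂ | b1 < z.re ∧ z.re < b} := by
      refine ⟨?_, ?_⟩
      · rw [hz0re]; linarith
      · rw [hz0re]; linarith
    filter_upwards [ho.mem_nhds hm] with z hz
    exact hG0 z hz.1 hz.2
  have hzero := (hGd.analyticOnNhd hUo).eqOn_zero_of_preconnected_of_eventuallyEq_zero hUc hz0U hev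
  have hsU : s ∈ U := by
    refine ⟨?_, ?_⟩
    · rw [hb]; linarith
    · rw [hb]; linarith
  have hGs : G s = 0 := hzero hsU
  have hre2 : (2 - s).re = 2 - s.re := by simp
  have hw' : T.t0 - (2 - s) + 1 / 2 = T.t0 + s - 3 / 2 := by ring
  have hw're : (T.t0 + s - 3 / 2).re < 0 := by
    have : (T.t0 + s - 3 / 2).re = T.t0.re + s.re - 3 / 2 := by simp
    rw [this]
    linarith
  have hs3 : 2 - b < s.re := hsU.1
  have hs4 : s.re < 1 / 2 := by linarith
  have e1 : S.I T b c1 s T.t0 = S.GG c1 s *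
      (SysD.XX S T (2 - s) * (r1 (T.t0 + s - 3 / 2) * Phi (T.t0 + s - 3 / 2))) := by
    rw [SysD.I_fe hS hT h h1 hb1 hs3 hs4, hval c1 h1 (2 - s) (by rw [hre2]; linarith)
      (by rw [hre2]; linarith), hw', hM1 _ hw're]
  have e2 : S.I T b c2 s T.t0 = S.GG c2 s *
      (SysD.XX S T (2 - s) * (r2 (T.t0 + s - 3 / 2) * Phi (T.t0 + s - 3 / 2))) := by
    rw [SysD.I_fe hS hT h h2 hb1 hs3 hs4, hval c2 h2 (2 - s) (by rw [hre2]; linarith)
      (by rw [hre2]; linarith), hw', hM2 _ hw're]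
  simp only [hG] at hGs
  rw [e1, e2] at hGs
  have hX : SysD.XX S T (2 - s) ≠ 0 := h.XX_ne _ (by rw [hre2]; linarith)
  have hXP : SysD.XX S T (2 - s) * Phi (T.t0 + s - 3 / 2) ≠ 0 := mul_ne_zero hX hPhi
  apply mul_left_cancel₀ hXP
  linear_combination hGs

theorem theorem_AT {S : SysD} (hS : IsSys S) {T : PoleD} (hT : IsPole S T) (c1 c2 : S.G)
    (h1 : c1 ≠ 1) (h2 : c2 ≠ 1) (r1 r2 Phi : ℂ → ℂ) (hr1 : Differentiable ℂ r1)
    (hr2 : Differentiable ℂ r2) (hM1 : ∀ w : ℂ, w.re < 0 → S.M c1 w = r1 w * Phi w)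
    (hM2 : ∀ w : ℂ, w.re < 0 → S.M c2 w = r2 w * Phi w)
    (hne : ∃ w : ℂ, w.re < 0 ∧ S.M c1 w ≠ 0) :
    ∃ β : ℝ, ∀ s : ℂ, s.re < β →
      S.GG c1 s * r1 (T.t0 + s - 3 / 2) * r2 (T.t0 - s + 1 / 2) =
        S.GG c2 s * r2 (T.t0 + s - 3 / 2) * r1 (T.t0 - s + 1 / 2) := by
  obtain ⟨b1, h⟩ := SysD.exists_HHB hS hT
  have hlarge := h.large
  have hr := hT.hr
  have habs := abs_nonneg T.t0.re
  have habs2 := le_abs_self T.t0.re
  refine ⟨2 - b1, fun s hs => ?_⟩
  -- the half plane in which `z ↦ M c1 (t0 + z - 3/2)` is analytic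
  set x : ℝ := 3 / 2 - T.t0.re with hx
  have hHc : IsPreconnected {z : ℂ | z.re < x} := by
    have : {z : ℂ | z.re < x} = Complex.re ⁻¹' (Set.Iio x) := rfl
    rw [this]
    exact ((convex_Iio x).is_linear_preimage (Complex.reLm.isLinear)).isPreconnected
  have hNd : DifferentiableOn ℂ (fun z => S.M c1 (T.t0 + z - 3 / 2)) {z : ℂ | z.re < x} := by
    have hlin : Differentiable ℂ fun z : ℂ => T.t0 + z - 3 / 2 := by fun_prop
    refine (M_diff hS c1).comp hlin.differentiableOn ?_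
    intro z hz
    have h3 : (T.t0 + z - 3 / 2).re = T.t0.re + z.re - 3 / 2 := by simp
    have h4 : z.re < x := hz
    change (T.t0 + z - 3 / 2).re < 0
    rw [h3]
    linarith
  have hNa := hNd.analyticOnNhd (isOpen_re_lt x)
  have hsx : s ∈ {z : ℂ | z.re < x} := by
    change s.re < x
    rw [hx]
    linarith
  have hdich := (hNa s hsx).eventually_eq_zero_or_eventually_ne_zero
  have hnz : ∀ᶠ z in nhdsWithin s {s}ᶜ, S.M c1 (T.t0 + z - 3 / 2) ≠ 0 := by
    rcases hdich with h0 | h0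
    · exfalso
      have h5 := hNa.eqOn_zero_of_preconnected_of_eventuallyEq_zero hHc hsx h0
      obtain ⟨w, hw, hwM⟩ := hne
      have h6 : (w - T.t0 + 3 / 2) ∈ {z : ℂ | z.re < x} := by
        have h7 : (w - T.t0 + 3 / 2).re = w.re - T.t0.re + 3 / 2 := by simp
        change (w - T.t0 + 3 / 2).re < x
        rw [h7, hx]
        linarith
      have h8 := h5 h6
      apply hwM
      have h9 : T.t0 + (w - T.t0 + 3 / 2) - 3 / 2 = w := by ring
      simp only [Pi.zero_apply] at h8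
      rw [h9] at h8
      exact h8
    · exact h0
  have hbeta : ∀ᶠ z in nhdsWithin s {s}ᶜ, z.re < 2 - b1 :=
    nhdsWithin_le_nhds ((isOpen_re_lt (2 - b1)).mem_nhds hs)
  set D : ℂ → ℂ := fun z => S.GG c1 z * r1 (T.t0 + z - 3 / 2) * r2 (T.t0 - z + 1 / 2) -
    S.GG c2 z * r2 (T.t0 + z - 3 / 2) * r1 (T.t0 - z + 1 / 2) with hD
  have hD0 : ∀ᶠ z in nhdsWithin s {s}ᶜ, D z = 0 := by
    filter_upwards [hnz, hbeta] with z hz1 hz2
    have hre : (T.t0 + z - 3 / 2).re < 0 := by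
      have h3 : (T.t0 + z - 3 / 2).re = T.t0.re + z.re - 3 / 2 := by simp
      rw [h3]
      linarith
    rw [hM1 _ hre] at hz1
    simp only [hD]
    rw [claimA hS hT c1 c2 h1 h2 r1 r2 Phi hr1 hr2 hM1 hM2 h z hz2 (right_ne_zero_of_mul hz1),
      sub_self]
  have hDc : ContinuousAt D s := by
    have hs12 : s.re < 1 / 2 := by linarith
    have hg : ∀ c, ContinuousAt (S.GG c) s := fun c =>
      ((hS.GG_diff c).differentiableAt ((isOpen_re_lt (1 / 2)).mem_nhds hs12)).continuousAt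
    have hl1 : Continuous fun z : ℂ => T.t0 + z - 3 / 2 := by fun_prop
    have hl2 : Continuous fun z : ℂ => T.t0 - z + 1 / 2 := by fun_prop
    exact (((hg c1).mul (hr1.continuous.comp hl1).continuousAt).mul
      (hr2.continuous.comp hl2).continuousAt).sub
      (((hg c2).mul (hr2.continuous.comp hl1).continuousAt).mul
      (hr1.continuous.comp hl2).continuousAt)
  have hlim1 : Filter.Tendsto D (nhdsWithin s {s}ᶜ) (nhds (D s)) := hDc.tendsto.mono_left
    nhdsWithin_le_nhds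
  have hlim2 : Filter.Tendsto D (nhdsWithin s {s}ᶜ) (nhds 0) :=
    tendsto_const_nhds.congr' (hD0.mono fun z hz => hz.symm)
  have hfin : D s = 0 := tendsto_nhds_unique hlim1 hlim2
  simp only [hD] at hfin
  exact sub_eq_zero.1 hfin

end Pool.Agent.QD
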