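import Pool.Agent.QD.A.Glob
import Pool.Agent.QD.A.LocPfe
import Pool.Agent.QD.A.LocQfe

/-!
# QD-A14: global functional equations and bounds of `P`, `Q`

PLAN. Factorwise: `x = N_v^(-s)`, `x' = N_v^(-(2-s)) = 1/(N^2 x)`; `u = ±1` for `b v` even
(`u_even`), `Pw (u x) = (N u x)^(4(b/2)) Pw (1/(N^2 u x))`, `1/(N^2 u x) = u x'`,
`(N u x)^(4(b/2)) = (N x)^(4 (b/2)) = N^(4(b/2)(1-s))`.  Together with `odd b ^ (2(1-s))`:
`4 (b/2) + 2 [b odd] = 2 b`.  Same for `Q`: `y = N^(-w)`, `(N y^2)^(a/2) = N^((a/2)(1-2w))`,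
`2 (a/2) + [a odd] = a`.
Bounds: `Pw_bd`, `Qw_bd` with `‖N^(-s)‖ = N^(-Re s) ≤ N^B`.
-/
namespace Pool.Agent.QD.SysD

open Pool.Agent.QD

variable {S : SysD}

private theorem gfe_prod_cpow {ι : Type*} (s : Finset ι) (f : ι → ℕ) (z : ℂ) :
    (((∏ v ∈ s, f v : ℕ) : ℂ)) ^ z = ∏ v ∈ s, (f v : ℂ) ^ z := by
  classical
  induction s using Finset.induction_on with
  | empty => simp
  | insert a s ha ih =>
    rw [Finset.prod_insert ha, Finset.prod_insert ha, Nat.cast_mul,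
      Complex.natCast_mul_natCast_cpow, ih]

private theorem gfe_pow_cpow (N k : ℕ) (z : ℂ) : ((N ^ k : ℕ) : ℂ) ^ z = ((N : ℂ) ^ z) ^ k := by
  induction k with
  | zero => simp
  | succ k ih =>
    rw [pow_succ, Nat.cast_mul, Complex.natCast_mul_natCast_cpow, ih, pow_succ]

private theorem gfe_sign {e : ℂ} (he : e = 1 ∨ e = -1) : e ≠ 0 ∧ e * e = 1 := by
  rcases he with rfl | rfl <;> norm_num

private theorem gfe_Pfac {N : ℕ} (hN : N ≠ 0) (l : ℝ) (k : ℕ) {e : ℂ} (he : e = 1 ∨ e = -1)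
    (s : ℂ) :
    (((if Odd k then N else 1 : ℕ)) : ℂ) ^ (2 * (1 - s)) * Pw N l k (e * (N : ℂ) ^ (-s)) =
      ((N ^ k : ℕ) : ℂ) ^ (2 * (1 - s)) * Pw N l k (e * (N : ℂ) ^ (-(2 - s))) := by
  obtain ⟨he0, hee⟩ := gfe_sign he
  have hNC : (N : ℂ) ≠ 0 := by exact_mod_cast hN
  have hx : e * (N : ℂ) ^ (-s) ≠ 0 :=
    mul_ne_zero he0 (by rw [Complex.cpow_ne_zero_iff]; exact Or.inl hNC)
  have h1 := Pw_fe (N := (N : ℝ)) (l := l) (by exact_mod_cast hN) k hx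
  rw [Complex.ofReal_natCast] at h1
  have e1 : 1 / ((N : ℂ) ^ 2 * (e * (N : ℂ) ^ (-s))) = e * (N : ℂ) ^ (-(2 - s)) := by
    have h2 : (N : ℂ) ^ (-(2 - s)) * ((N : ℂ) ^ 2 * (N : ℂ) ^ (-s)) = 1 := by
      have h3 : (N : ℂ) ^ 2 = (N : ℂ) ^ (2 : ℂ) := by
        rw [show (2 : ℂ) = ((2 : ℕ) : ℂ) by norm_num, Complex.cpow_natCast]
      rw [h3, ← Complex.cpow_add _ _ hNC, ← Complex.cpow_add _ _ hNC]
      rw [show -(2 - s) + (2 + -s) = 0 by ring, Complex.cpow_zero]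
    have h4 : ((N : ℂ) ^ 2 * (e * (N : ℂ) ^ (-s))) ≠ 0 := mul_ne_zero (pow_ne_zero _ hNC) hx
    rw [eq_comm, eq_div_iff h4]
    calc e * (N : ℂ) ^ (-(2 - s)) * ((N : ℂ) ^ 2 * (e * (N : ℂ) ^ (-s)))
        = e * e * ((N : ℂ) ^ (-(2 - s)) * ((N : ℂ) ^ 2 * (N : ℂ) ^ (-s))) := by ring
      _ = 1 := by rw [hee, h2, one_mul]
  have e2 : (N : ℂ) * (e * (N : ℂ) ^ (-s)) = e * (N : ℂ) ^ (1 - s) := by
    have h3 : (N : ℂ) ^ (1 - s) = (N : ℂ) * (N : ℂ) ^ (-s) := by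
      rw [sub_eq_add_neg, Complex.cpow_add _ _ hNC, Complex.cpow_one]
    rw [h3]; ring
  have e3 : (e * (N : ℂ) ^ (1 - s)) ^ (4 * (k / 2)) = ((N : ℂ) ^ (1 - s)) ^ (4 * (k / 2)) := by
    rw [mul_pow]
    have h4 : e ^ (4 * (k / 2)) = 1 := by
      rw [pow_mul]
      have h5 : e ^ 4 = 1 := by
        calc e ^ 4 = (e * e) * (e * e) := by ring
          _ = 1 := by rw [hee, one_mul]
      rw [h5, one_pow]
    rw [h4, one_mul]
  have e4 : (((if Odd k then N else 1 : ℕ)) : ℂ) ^ (2 * (1 - s)) *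
      ((N : ℂ) ^ (1 - s)) ^ (4 * (k / 2)) = ((N ^ k : ℕ) : ℂ) ^ (2 * (1 - s)) := by
    have h2 : (N : ℂ) ^ (2 * (1 - s)) = ((N : ℂ) ^ (1 - s)) ^ 2 := by
      rw [show (2 : ℂ) * (1 - s) = ((2 : ℕ) : ℂ) * (1 - s) by norm_num, Complex.cpow_nat_mul]
    rw [gfe_pow_cpow, h2, ← pow_mul]
    rcases Nat.even_or_odd k with hk | hk
    · rw [if_neg (Nat.not_odd_iff_even.2 hk), Nat.cast_one, Complex.one_cpow, one_mul]
      obtain ⟨j, rfl⟩ := hk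
      congr 1
      omega
    · rw [if_pos hk, h2, ← pow_add]
      obtain ⟨j, rfl⟩ := hk
      congr 1
      omega
  rw [h1, e1, e2, e3, ← mul_assoc, e4]

private theorem gfe_Qfac {N : ℕ} (hN : N ≠ 0) (l : ℝ) (k : ℕ) {e : ℂ} (he : e = 1 ∨ e = -1)
    (w : ℂ) :
    (((if Odd k then N else 1 : ℕ)) : ℂ) ^ (1 / 2 - w) * Qw N l k (e * (N : ℂ) ^ (-w)) =
      ((N ^ k : ℕ) : ℂ) ^ (1 / 2 - w) * Qw N l k (e * (N : ℂ) ^ (-(1 - w))) := by
  obtain ⟨he0, hee⟩ := gfe_sign he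
  have hNC : (N : ℂ) ≠ 0 := by exact_mod_cast hN
  have hx : e * (N : ℂ) ^ (-w) ≠ 0 :=
    mul_ne_zero he0 (by rw [Complex.cpow_ne_zero_iff]; exact Or.inl hNC)
  have h1 := Qw_fe (N := (N : ℝ)) (l := l) (by exact_mod_cast hN) k hx
  rw [Complex.ofReal_natCast] at h1
  have e1 : 1 / ((N : ℂ) * (e * (N : ℂ) ^ (-w))) = e * (N : ℂ) ^ (-(1 - w)) := by
    have h2 : (N : ℂ) ^ (-(1 - w)) * ((N : ℂ) * (N : ℂ) ^ (-w)) = 1 := by
      nth_rewrite 2 [← Complex.cpow_one (N : ℂ)]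
      rw [← Complex.cpow_add _ _ hNC, ← Complex.cpow_add _ _ hNC]
      rw [show -(1 - w) + (1 + -w) = 0 by ring, Complex.cpow_zero]
    have h4 : ((N : ℂ) * (e * (N : ℂ) ^ (-w))) ≠ 0 := mul_ne_zero hNC hx
    rw [eq_comm, eq_div_iff h4]
    calc e * (N : ℂ) ^ (-(1 - w)) * ((N : ℂ) * (e * (N : ℂ) ^ (-w)))
        = e * e * ((N : ℂ) ^ (-(1 - w)) * ((N : ℂ) * (N : ℂ) ^ (-w))) := by ring
      _ = 1 := by rw [hee, h2, one_mul]
  have e2 : (N : ℂ) * (e * (N : ℂ) ^ (-w)) ^ 2 = ((N : ℂ) ^ (1 / 2 - w)) ^ 2 := by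
    have h3 : ((N : ℂ) ^ (1 / 2 - w)) ^ 2 = (N : ℂ) * ((N : ℂ) ^ (-w)) ^ 2 := by
      rw [← Complex.cpow_nat_mul, ← Complex.cpow_nat_mul]
      rw [show ((2 : ℕ) : ℂ) * (1 / 2 - w) = 1 + ((2 : ℕ) : ℂ) * (-w) by push_cast; ring,
        Complex.cpow_add _ _ hNC, Complex.cpow_one]
    rw [h3]
    calc (N : ℂ) * (e * (N : ℂ) ^ (-w)) ^ 2 = (e * e) * ((N : ℂ) * ((N : ℂ) ^ (-w)) ^ 2) := by ring
      _ = _ := by rw [hee, one_mul]
  have e4 : (((if Odd k then N else 1 : ℕ)) : ℂ) ^ (1 / 2 - w) *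
      (((N : ℂ) ^ (1 / 2 - w)) ^ 2) ^ (k / 2) = ((N ^ k : ℕ) : ℂ) ^ (1 / 2 - w) := by
    rw [gfe_pow_cpow, ← pow_mul]
    rcases Nat.even_or_odd k with hk | hk
    · rw [if_neg (Nat.not_odd_iff_even.2 hk), Nat.cast_one, Complex.one_cpow, one_mul]
      obtain ⟨j, rfl⟩ := hk
      congr 1
      omega
    · rw [if_pos hk, ← pow_succ']
      obtain ⟨j, rfl⟩ := hk
      congr 1
      omega
  rw [h1, e1, e2, ← mul_assoc, e4]

private theorem gfe_e (hS : IsSys S) (b : S.J) (c : S.G) (hb : S.R b c) (v : S.ι)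
    [Decidable (Even (b v))] :
    (if Even (b v) then S.u v b c else 1) = 1 ∨ (if Even (b v) then S.u v b c else 1) = -1 := by
  split_ifs with h
  · exact hS.u_even v b c hb h
  · exact Or.inl rfl

private theorem gfe_N (hS : IsSys S) (v : S.ι) : S.N v ≠ 0 := by
  have := hS.hN v
  omega

theorem P_fe (hS : IsSys S) (b : S.J) (c : S.G) (hb : S.R b c) (s : ℂ) :
    (S.odd b : ℂ) ^ (2 * (1 - s)) * S.P b c s = (S.nJ b : ℂ) ^ (2 * (1 - s)) * S.P b c (2 - s) := by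
  classical
  unfold odd nJ P Finsupp.prod
  rw [gfe_prod_cpow, gfe_prod_cpow, ← Finset.prod_mul_distrib, ← Finset.prod_mul_distrib]
  refine Finset.prod_congr rfl fun v _ => ?_
  have h := gfe_Pfac (gfe_N hS v) (S.lam v) (b v) (gfe_e hS b c hb v) s
  convert h using 2

theorem Q_fe (hS : IsSys S) (m : S.J) (g : S.G) (hm : S.R m g) (w : ℂ) :
    (S.odd m : ℂ) ^ (1 / 2 - w) * S.Q m g w = (S.nJ m : ℂ) ^ (1 / 2 - w) * S.Q m g (1 - w) := by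
  classical
  unfold odd nJ Q Finsupp.prod
  rw [gfe_prod_cpow, gfe_prod_cpow, ← Finset.prod_mul_distrib, ← Finset.prod_mul_distrib]
  refine Finset.prod_congr rfl fun v _ => ?_
  have h := gfe_Qfac (gfe_N hS v) (S.lam v) (m v) (gfe_e hS m g hm v) w
  convert h using 2

theorem P_diff (hS : IsSys S) (b : S.J) (c : S.G) : Differentiable ℂ (S.P b c) := by
  classical
  unfold P
  refine Differentiable.fun_finsetProd fun v _ => ?_
  refine (Pw_diff _ _ _).comp ?_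
  refine (differentiable_const _).mul ?_
  exact differentiable_id.neg.const_cpow (Or.inl (by exact_mod_cast gfe_N hS v))

theorem Q_diff (hS : IsSys S) (m : S.J) (g : S.G) : Differentiable ℂ (S.Q m g) := by
  classical
  unfold Q
  refine Differentiable.fun_finsetProd fun v _ => ?_
  refine (Qw_diff _ _ _).comp ?_
  refine (differentiable_const _).mul ?_
  exact differentiable_id.neg.const_cpow (Or.inl (by exact_mod_cast gfe_N hS v))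

private theorem gfe_norm (hS : IsSys S) (v : S.ι) {e : ℂ} (he : e = 1 ∨ e = -1) {s : ℂ} {B : ℝ}
    (hs : |s.re| ≤ B) : ‖e * (S.N v : ℂ) ^ (-s)‖ ≤ (S.N v : ℝ) ^ B := by
  have hN : 0 < S.N v := Nat.pos_of_ne_zero (gfe_N hS v)
  have hN1 : (1 : ℝ) ≤ S.N v := by exact_mod_cast hN
  have h1 : ‖e‖ = 1 := by rcases he with rfl | rfl <;> simp
  rw [norm_mul, h1, one_mul, Complex.norm_natCast_cpow_of_pos hN, Complex.neg_re]
  exact Real.rpow_le_rpow_of_exponent_le hN1 ((neg_le_abs _).trans hs)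

private theorem gfe_prod_le (hS : IsSys S) (b : S.J) (A : ℝ) (F : S.ι → ℂ)
    (h : ∀ v ∈ b.support, ‖F v‖ ≤ (S.N v : ℝ) ^ (A * (b v))) :
    ‖∏ v ∈ b.support, F v‖ ≤ (S.nJ b : ℝ) ^ A := by
  rw [norm_prod]
  have h1 : (S.nJ b : ℝ) ^ A = ∏ v ∈ b.support, (S.N v : ℝ) ^ (A * (b v)) := by
    unfold nJ Finsupp.prod
    rw [Nat.cast_prod, ← Real.finsetProd_rpow _ _ (fun v _ => by positivity)]
    refine Finset.prod_congr rfl fun v _ => ?_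
    rw [Nat.cast_pow, ← Real.rpow_natCast, ← Real.rpow_mul (by positivity), mul_comm]
  rw [h1]
  exact Finset.prod_le_prod (fun v _ => norm_nonneg _) h

theorem P_bd (hS : IsSys S) (B : ℝ) (hB : 0 ≤ B) : ∃ A : ℝ, 0 ≤ A ∧ ∀ b c, S.R b c → ∀ s : ℂ,
    |s.re| ≤ B → ‖S.P b c s‖ ≤ (S.nJ b : ℝ) ^ A := by
  classical
  obtain ⟨A, hA, h⟩ := Pw_bd B hB
  refine ⟨A, hA, fun b c hb s hs => ?_⟩
  unfold P
  refine gfe_prod_le hS b A _ fun v _ => ?_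
  exact h (S.N v) (S.lam v) (by exact_mod_cast hS.hN v) (hS.hlam v) (b v) _
    (gfe_norm hS v (gfe_e hS b c hb v) hs)

theorem Q_bd (hS : IsSys S) (B : ℝ) (hB : 0 ≤ B) : ∃ A : ℝ, 0 ≤ A ∧ ∀ m g, S.R m g → ∀ w : ℂ,
    |w.re| ≤ B → ‖S.Q m g w‖ ≤ (S.nJ m : ℝ) ^ A := by
  classical
  obtain ⟨A, hA, h⟩ := Qw_bd B hB
  refine ⟨A, hA, fun m g hm w hw => ?_⟩
  unfold Q
  refine gfe_prod_le hS m A _ fun v _ => ?_
  exact h (S.N v) (S.lam v) (by exact_mod_cast hS.hN v) (hS.hlam v) (m v) _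
    (gfe_norm hS v (gfe_e hS m g hm v) hw)

end Pool.Agent.QD.SysD
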