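import Pool.Agent.QD.A.Det
import Pool.Agent.QD.A.Col
import Pool.Agent.QD.A.Gfe

/-!
# QD-A17: the continued column sums `DD`: formula and functional equation

PLAN. `DD_eq`: `Zf_eq`, `C_eq`, `D_eq`.  `DD_fe` (`Re w < 0`): for `R m g`: `Zf_fe` and `Q_fe`:
`Zf m g w * Q m g w = (w-1)^2 Z1(1-w) nJ m^(1/2-w) Gam g w * (Lchi m g (1-w) Q m g (1-w))`, the
last bracket is `C m g (1-w)` (`C_eq`, `Re (1-w) > 1`) `= cU⁻¹ ∑_c' B g c' D m c' (1-w)`
(`C_eq_D`).  `B g c * B g c' = B g (c c')` (`B_mul`, `B_comm`).  The sum over `{g | R m g}` can be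
replaced by the sum over all `g` because of `D_orth` (interchange the sums over `g` and `c'`:
for fixed `g` with `¬ R m g` the sum over `c'` of `B g c' D m c'` vanishes).
-/

namespace Pool.Agent.QD.SysD

open Pool.Agent.QD

variable {S : SysD}

theorem DD_eq (hS : IsSys S) (m : S.J) (c : S.G) {w : ℂ} (hw : 1 < w.re) :
    S.DD m c w = (w - 1) ^ 2 * S.Z1 w * S.D m c w := by
  classical
  rw [D_eq hS m c hw]
  unfold DD
  have h1 : ∀ g : S.G, (if S.R m g then S.B g c * S.Zf m g w * S.Q m g w else 0) =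
      (w - 1) ^ 2 * S.Z1 w * (if S.R m g then S.B g c * S.C m g w else 0) := by
    intro g
    by_cases hg : S.R m g
    · rw [if_pos hg, if_pos hg, hS.Zf_eq m g hg w hw, C_eq hS m g hg hw]
      ring
    · rw [if_neg hg, if_neg hg, mul_zero]
  rw [Finset.sum_congr rfl fun g _ => h1 g, ← Finset.mul_sum]
  ring

theorem DD_fe (hS : IsSys S) (m : S.J) (c : S.G) {w : ℂ} (hw : w.re < 0) :
    S.DD m c w = (w - 1) ^ 2 * S.Z1 (1 - w) * (S.nJ m : ℂ) ^ (1 / 2 - w) *
      ((S.cU : ℂ) ^ 2)⁻¹ * ∑ c' : S.G, S.M (c * c') w * S.D m c' (1 - w) := by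
  classical
  have hw' : 1 < (1 - w).re := by
    rw [Complex.sub_re, Complex.one_re]; linarith
  unfold DD
  have h1 : ∀ g : S.G, (if S.R m g then S.B g c * S.Zf m g w * S.Q m g w else 0) =
      (w - 1) ^ 2 * S.Z1 (1 - w) * (S.nJ m : ℂ) ^ (1 / 2 - w) * (S.cU : ℂ)⁻¹ *
        (S.B g c * S.Gam g w * ∑ c' : S.G, S.B g c' * S.D m c' (1 - w)) := by
    intro g
    by_cases hg : S.R m g
    · rw [if_pos hg, hS.Zf_fe m g hg w hw]
      have h2 := Q_fe hS m g hg w
      have h3 := C_eq_D hS m g hg hw'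
      rw [C_eq hS m g hg hw'] at h3
      calc S.B g c * ((w - 1) ^ 2 * (S.odd m : ℂ) ^ (1 / 2 - w) * S.Gam g w * S.Z1 (1 - w) *
            S.Lchi m g (1 - w)) * S.Q m g w
          = S.B g c * ((w - 1) ^ 2 * S.Gam g w * S.Z1 (1 - w) * S.Lchi m g (1 - w)) *
            ((S.odd m : ℂ) ^ (1 / 2 - w) * S.Q m g w) := by ring
        _ = S.B g c * ((w - 1) ^ 2 * S.Gam g w * S.Z1 (1 - w) * (S.nJ m : ℂ) ^ (1 / 2 - w)) *
            (S.Lchi m g (1 - w) * S.Q m g (1 - w)) := by rw [h2]; ring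
        _ = _ := by rw [h3]; ring
    · rw [if_neg hg, D_orth hS m g hg hw', mul_zero, mul_zero]
  rw [Finset.sum_congr rfl fun g _ => h1 g, ← Finset.mul_sum]
  have h4 : ∑ g : S.G, S.B g c * S.Gam g w * ∑ c' : S.G, S.B g c' * S.D m c' (1 - w) =
      ∑ c' : S.G, S.M (c * c') w * S.D m c' (1 - w) := by
    simp only [Finset.mul_sum]
    rw [Finset.sum_comm]
    apply Finset.sum_congr rfl
    intro c' _
    unfold M
    rw [Finset.sum_mul]
    apply Finset.sum_congr rfl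
    intro g _
    rw [hS.B_mul, hS.B_comm c g, hS.B_comm c' g]
    ring
  rw [h4, ← inv_pow]
  ring

theorem DD_diff (hS : IsSys S) (m : S.J) (c : S.G) : Differentiable ℂ (S.DD m c) := by
  classical
  unfold DD
  refine Differentiable.const_mul (Differentiable.fun_sum fun g _ => ?_) _
  by_cases hg : S.R m g
  · simp only [if_pos hg]
    exact ((hS.Zf_diff m g hg).const_mul _).mul (Q_diff hS m g)
  · simp only [if_neg hg]
    exact differentiable_const _

end Pool.Agent.QD.SysD
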