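import Pool.Agent.QD.A.Glob
import Pool.Agent.QD.A.Euler
import Pool.Agent.QD.A.LocRow

/-!
# QD-A11: rows

PLAN. `hJ m b * sg m b c * nJ m ^ (-s) = ∏_{v ∈ supp m} f_v(m_v)`,
`f_v(a) = hloc a (b v) * (if Odd a then u v b c else 1) * (N_v^(-s))^a`, `f_v(0) = 1`
(`hloc_zero`).  For `Re s ≥ 6`: `‖f_v(a)‖ ≤ N^(2a) N^(-6a) = N^(-4a)` (`hloc_bd`, `u_norm`), so
`ep_summable`, `ep_hasSum` apply.  Local sums: `b v = 0`: `row_even` with `Pw 0 = 1`: `(EE (u x))⁻¹
= Efac v u s` (`x = N^(-s)`, `N x^2 = N^(1-2s)`, `u^2 = 1`); `b v` even: `(EE(ux))⁻¹ Pw (u x)`; `b v`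
odd: `row_odd`, `u = 0`, `Efac v 0 s = 1`.  So the product is `Lu b c s * P b c s` (`∏'` of a
product: `Multipliable.tprod_mul`, the second factor is `1` outside the support of `b`:
`tprod_eq_prod`).
`AA_bound`: `ep_bound`: `∑_v ∑_{a≥1} N^(-4a) ≤ C`, uniformly in `b, c, s`.
-/

namespace Pool.Agent.QD.SysD

open Pool.Agent.QD

variable {S : SysD}

open Classical in
/-- the local factor of the row -/
private noncomputable def rf (S : SysD) (b : S.J) (c : S.G) (s : ℂ) (v : S.ι) (a : ℕ) : ℂ :=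
  (hloc (S.N v) (S.lam v) a (b v) : ℂ) * (if Odd a then S.u v b c else 1) *
    ((S.N v : ℂ) ^ (-s)) ^ a

private theorem rf_zero (b : S.J) (c : S.G) (s : ℂ) (v : S.ι) : rf S b c s v 0 = 1 := by
  unfold rf
  rw [hloc_zero, if_neg (by decide), pow_zero, Complex.ofReal_one, one_mul, one_mul]

private theorem row_term (b : S.J) (c : S.G) (s : ℂ) (m : S.J) :
    (S.hJ m b : ℂ) * S.sg m b c * (S.nJ m : ℂ) ^ (-s) = ∏ v ∈ m.support, rf S b c s v (m v) := by
  unfold hJ sg rf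
  rw [nJ_cpow, Complex.ofReal_prod, ← Finset.prod_mul_distrib, ← Finset.prod_mul_distrib]

private theorem norm_cpow_N (hS : IsSys S) (v : S.ι) (s : ℂ) :
    ‖(S.N v : ℂ) ^ (-s)‖ = (S.N v : ℝ) ^ (-s.re) := by
  have h1 : 0 < S.N v := by
    have := hS.hN v
    omega
  rw [Complex.norm_natCast_cpow_of_pos h1, Complex.neg_re]

private theorem row_sum (hS : IsSys S) (b : S.J) (c : S.G) (hb : S.R b c) {s : ℂ} (hs : 6 ≤ s.re) :
    Summable fun p : S.ι × ℕ => ‖rf S b c s p.1 (p.2 + 1)‖ := by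
  classical
  have h1 := glob_geo (a := fun v : S.ι => (S.N v : ℝ) ^ (-(2 : ℝ)))
    (fun v => Real.rpow_nonneg (Nat.cast_nonneg _) _) (fun v => glob_small hS v one_le_two)
    (hS.sumN 2 one_lt_two)
  refine Summable.of_nonneg_of_le (fun _ => norm_nonneg _) (fun p => ?_) h1
  obtain ⟨v, j⟩ := p
  show ‖rf S b c s v (j + 1)‖ ≤ ((S.N v : ℝ) ^ (-(2 : ℝ))) ^ (j + 1)
  have hN : (101 : ℝ) ≤ S.N v := by exact_mod_cast hS.hN v
  unfold rf
  rw [norm_mul, norm_mul, norm_pow, norm_cpow_N hS, Complex.norm_real, Real.norm_eq_abs]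
  have h2 := hloc_bd hN (hS.hlam v) (j + 1) (b v)
  have h3 : ‖(if Odd (j + 1) then S.u v b c else 1)‖ ≤ 1 := by
    split_ifs
    · exact u_norm hS v b c hb
    · rw [norm_one]
  have h4 : (S.N v : ℝ) ^ (-s.re) ≤ (S.N v : ℝ) ^ (-(6 : ℝ)) :=
    Real.rpow_le_rpow_of_exponent_le (by linarith) (by linarith)
  have h5 : 0 ≤ (S.N v : ℝ) ^ (-s.re) := Real.rpow_nonneg (Nat.cast_nonneg _) _
  have hN0 : (0 : ℝ) < S.N v := by linarith
  calc |hloc (S.N v) (S.lam v) (j + 1) (b v)| * ‖(if Odd (j + 1) then S.u v b c else 1)‖ *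
        ((S.N v : ℝ) ^ (-s.re)) ^ (j + 1)
      ≤ (S.N v : ℝ) ^ (2 * (j + 1)) * 1 * ((S.N v : ℝ) ^ (-(6 : ℝ))) ^ (j + 1) := by
        gcongr
    _ = ((S.N v : ℝ) ^ (-(4 : ℝ))) ^ (j + 1) := by
        rw [mul_one, pow_mul, ← mul_pow, ← Real.rpow_two, ← Real.rpow_add hN0]
        norm_num
    _ ≤ ((S.N v : ℝ) ^ (-(2 : ℝ))) ^ (j + 1) := by
        have h6 : (S.N v : ℝ) ^ (-(4 : ℝ)) ≤ (S.N v : ℝ) ^ (-(2 : ℝ)) :=
          Real.rpow_le_rpow_of_exponent_le (by linarith) (by norm_num)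
        have h7 : 0 ≤ (S.N v : ℝ) ^ (-(4 : ℝ)) := Real.rpow_nonneg (Nat.cast_nonneg _) _
        gcongr

theorem AA_summable (hS : IsSys S) (b : S.J) (c : S.G) (hb : S.R b c) {s : ℂ} (hs : 6 ≤ s.re) :
    Summable fun m : S.J => ‖(S.hJ m b : ℂ) * S.sg m b c * (S.nJ m : ℂ) ^ (-s)‖ := by
  classical
  have h1 := ep_summable (rf S b c s) (rf_zero b c s) (row_sum hS b c hb hs)
  refine h1.congr fun m => ?_
  rw [row_term]

private theorem Efac_mult (hS : IsSys S) (b : S.J) (c : S.G) (hb : S.R b c) {s : ℂ}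
    (hs : 6 ≤ s.re) : Multipliable fun v => S.Efac v (S.u v b c) s := by
  have h1 : Summable fun v : S.ι => ‖S.Efac v (S.u v b c) s - 1‖ := by
    refine Summable.of_nonneg_of_le (fun _ => norm_nonneg _) (fun v => ?_)
      ((hS.sumN 2 one_lt_two).mul_left 6)
    have hN : (101 : ℝ) ≤ S.N v := by exact_mod_cast hS.hN v
    have hN0 : (0 : ℝ) < S.N v := by linarith
    have hu := u_norm hS v b c hb
    set u := S.u v b c with hudef
    set N : ℝ := (S.N v : ℝ) with hNdef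
    set z : ℂ := (S.lam v : ℂ) * u * (S.N v : ℂ) ^ (-s) - u ^ 2 * (S.N v : ℂ) ^ (1 - 2 * s) with hz
    have hx : ‖(S.N v : ℂ) ^ (-s)‖ ≤ N ^ (-(6 : ℝ)) := by
      rw [norm_cpow_N hS]
      exact Real.rpow_le_rpow_of_exponent_le (by linarith) (by linarith)
    have hy : ‖(S.N v : ℂ) ^ (1 - 2 * s)‖ ≤ N ^ (-(6 : ℝ)) := by
      have h2 : 0 < S.N v := by
        have := hS.hN v
        omega
      rw [Complex.norm_natCast_cpow_of_pos h2]
      refine Real.rpow_le_rpow_of_exponent_le (by linarith) ?_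
      simp only [Complex.sub_re, Complex.one_re, Complex.mul_re, Complex.re_ofNat,
        Complex.im_ofNat, zero_mul, sub_zero]
      linarith
    have hlam : |S.lam v| ≤ 2 * N := by
      refine (hS.hlam v).trans ?_
      have h3 : Real.sqrt N ≤ N := by
        rw [Real.sqrt_le_left (by linarith)]
        nlinarith
      linarith
    have hz1 : ‖z‖ ≤ 3 * N ^ (-(2 : ℝ)) := by
      have h4 : ‖(S.lam v : ℂ) * u * (S.N v : ℂ) ^ (-s)‖ ≤ 2 * N * 1 * N ^ (-(6 : ℝ)) := by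
        rw [norm_mul, norm_mul, Complex.norm_real, Real.norm_eq_abs]
        gcongr
      have h5 : ‖u ^ 2 * (S.N v : ℂ) ^ (1 - 2 * s)‖ ≤ 1 * N ^ (-(6 : ℝ)) := by
        rw [norm_mul, norm_pow]
        have h6 : ‖u‖ ^ 2 ≤ 1 := pow_le_one₀ (norm_nonneg _) hu
        gcongr
      have h7 : N * N ^ (-(6 : ℝ)) ≤ N ^ (-(2 : ℝ)) := by
        have h8 : N * N ^ (-(6 : ℝ)) = N ^ (-(5 : ℝ)) := by
          nth_rewrite 1 [← Real.rpow_one N]
          rw [← Real.rpow_add hN0]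
          norm_num
        rw [h8]
        exact Real.rpow_le_rpow_of_exponent_le (by linarith) (by norm_num)
      have h9 : N ^ (-(6 : ℝ)) ≤ N ^ (-(2 : ℝ)) :=
        Real.rpow_le_rpow_of_exponent_le (by linarith) (by norm_num)
      calc ‖z‖ ≤ ‖(S.lam v : ℂ) * u * (S.N v : ℂ) ^ (-s)‖ + ‖u ^ 2 * (S.N v : ℂ) ^ (1 - 2 * s)‖ :=
            norm_sub_le _ _
        _ ≤ 2 * N * 1 * N ^ (-(6 : ℝ)) + 1 * N ^ (-(6 : ℝ)) := add_le_add h4 h5
        _ = 2 * (N * N ^ (-(6 : ℝ))) + N ^ (-(6 : ℝ)) := by ring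
        _ ≤ 3 * N ^ (-(2 : ℝ)) := by linarith
    have hN2 : N ^ (-(2 : ℝ)) ≤ 1 / 101 := by
      have h10 : N ^ (-(2 : ℝ)) ≤ N ^ (-(1 : ℝ)) :=
        Real.rpow_le_rpow_of_exponent_le (by linarith) (by norm_num)
      rw [Real.rpow_neg_one] at h10
      have h11 : N⁻¹ ≤ (101 : ℝ)⁻¹ := inv_anti₀ (by norm_num) hN
      linarith
    have hz2 : ‖z‖ ≤ 1 / 2 := by linarith
    have hE : S.Efac v u s = (1 - z)⁻¹ := by
      unfold Efac
      rw [hz]
      congr 1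
      ring
    have h12 : 1 / 2 ≤ ‖1 - z‖ := by
      have h13 := norm_sub_norm_le (1 : ℂ) z
      rw [norm_one] at h13
      linarith
    have h14 : (1 - z) ≠ 0 := by
      intro h
      rw [h, norm_zero] at h12
      norm_num at h12
    have h15 : (1 - z)⁻¹ - 1 = z * (1 - z)⁻¹ := by
      field_simp
      ring
    show ‖S.Efac v u s - 1‖ ≤ 6 * N ^ (-(2 : ℝ))
    rw [hE, h15, norm_mul, norm_inv]
    have h16 : ‖1 - z‖⁻¹ ≤ 2 := by
      rw [inv_le_comm₀ (by linarith) two_pos]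
      linarith
    calc ‖z‖ * ‖1 - z‖⁻¹ ≤ (3 * N ^ (-(2 : ℝ))) * 2 := by gcongr
      _ = 6 * N ^ (-(2 : ℝ)) := by ring
  have h2 := multipliable_one_add_of_summable h1
  refine h2.congr fun v => ?_
  rw [add_sub_cancel]

theorem AA_eq (hS : IsSys S) (b : S.J) (c : S.G) (hb : S.R b c) {s : ℂ} (hs : 6 ≤ s.re) :
    S.AA b c s = S.Lu b c s * S.P b c s := by
  classical
  have h1 := ep_hasSum (rf S b c s) (rf_zero b c s) (row_sum hS b c hb hs)
  have h2 : S.AA b c s = ∏' v, ∑' j : ℕ, rf S b c s v j := by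
    unfold AA
    rw [← h1.tsum_eq]
    exact tsum_congr fun m => row_term b c s m
  set pv : S.ι → ℂ := fun v => Pw (S.N v) (S.lam v) (b v)
    ((if Even (b v) then S.u v b c else 1) * (S.N v : ℂ) ^ (-s)) with hpv
  have h3 : ∀ v, ∑' j : ℕ, rf S b c s v j = S.Efac v (S.u v b c) s * pv v := by
    intro v
    have hN : (101 : ℝ) ≤ S.N v := by exact_mod_cast hS.hN v
    have hN0 : (0 : ℝ) < S.N v := by linarith
    have hx : ‖(S.N v : ℂ) ^ (-s)‖ ≤ (((S.N v : ℝ)) ^ 3)⁻¹ := by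
      rw [norm_cpow_N hS]
      have h4 : (((S.N v : ℝ)) ^ 3)⁻¹ = (S.N v : ℝ) ^ (-(3 : ℝ)) := by
        rw [Real.rpow_neg hN0.le]
        norm_num
      rw [h4]
      exact Real.rpow_le_rpow_of_exponent_le (by linarith) (by linarith)
    have hNc : (S.N v : ℂ) ≠ 0 := by
      intro h
      have h5 : (S.N v : ℝ) = 0 := by exact_mod_cast h
      linarith
    have h6 : (S.N v : ℂ) ^ (1 - 2 * s) = (S.N v : ℂ) * ((S.N v : ℂ) ^ (-s)) ^ 2 := by
      rw [← Complex.cpow_nat_mul, sub_eq_add_neg, Complex.cpow_add _ _ hNc, Complex.cpow_one]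
      congr 2
      push_cast
      ring
    rcases Nat.even_or_odd (b v) with he | ho
    · have h7 := row_even hN (hS.hlam v) he hx (hS.u_even v b c hb he)
      have h8 : ∑' j : ℕ, rf S b c s v j =
          (EE (S.N v) (S.lam v) (S.u v b c * (S.N v : ℂ) ^ (-s)))⁻¹ *
            Pw (S.N v) (S.lam v) (b v) (S.u v b c * (S.N v : ℂ) ^ (-s)) := h7.tsum_eq
      rw [h8, hpv]
      dsimp only
      rw [if_pos he]
      congr 1
      unfold EE Efac
      rw [h6, Complex.ofReal_natCast]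
      congr 1
      ring
    · have h7 := row_odd hN (hS.hlam v) ho hx (S.u v b c)
      have h8 : ∑' j : ℕ, rf S b c s v j =
          Pw (S.N v) (S.lam v) (b v) ((S.N v : ℂ) ^ (-s)) := h7.tsum_eq
      rw [h8, hpv]
      dsimp only
      rw [if_neg (Nat.not_even_iff_odd.2 ho), one_mul, hS.u_odd v b c hb ho]
      unfold Efac
      rw [mul_zero, zero_mul, sub_zero, zero_pow two_ne_zero, zero_mul, add_zero, inv_one, one_mul]
  have h9 : ∀ v, v ∉ b.support → pv v = 1 := by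
    intro v hv
    rw [hpv]
    dsimp only
    rw [Finsupp.notMem_support_iff.1 hv, Pw_zero]
  have h10 : Multipliable pv := multipliable_of_ne_finset_one fun v hv => h9 v hv
  rw [h2, tprod_congr h3, (Efac_mult hS b c hb hs).tprod_mul h10, tprod_eq_prod fun v hv => h9 v hv]
  rfl

end Pool.Agent.QD.SysD
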