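import Pool.Agent.QD.A.In2
import Pool.Agent.QD.A.DDa
import Pool.Agent.QD.A.Row

/-!
# QD-A22: regions 1 and 2 agree for `6 < Re t < 8`

`w = t - s + 1/2`, `Re w < 0`.  Insert `DD_fe` in `F1`: `nJ m^(-s) nJ m^(1/2-w) = nJ m^(-t)`.
`∑_m nJ m^(-t) D m c' (1-w) = ∑_{b : R b c'} nJ b^(-(1-w)) AA b c' t` (Fubini for absolutely
convergent double sums).
-/

namespace Pool.Agent.QD.SysD

open Pool.Agent.QD

variable {S : SysD} {T : PoleD}

theorem nJ_cpow_norm (hS : IsSys S) (b : S.J) (z : ℂ) :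
    ‖(S.nJ b : ℂ) ^ z‖ = (S.nJ b : ℝ) ^ z.re :=
  Complex.norm_natCast_cpow_of_pos (nJ_pos hS b) z

theorem nJ_cpow_add (hS : IsSys S) (b : S.J) (z w : ℂ) :
    (S.nJ b : ℂ) ^ z * (S.nJ b : ℂ) ^ w = (S.nJ b : ℂ) ^ (z + w) := by
  have h0 : (S.nJ b : ℂ) ≠ 0 := by
    have := nJ_pos hS b
    exact_mod_cast this.ne'
  rw [Complex.cpow_add _ _ h0]

open Classical in
/-- the double series -/
noncomputable def dbl (S : SysD) (c : S.G) (s w : ℂ) (m b : S.J) : ℂ :=
  if S.R b c then (S.hJ m b : ℂ) * S.sg m b c * (S.nJ b : ℂ) ^ (-w) * (S.nJ m : ℂ) ^ (-s) else 0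

theorem dbl_summable (hS : IsSys S) (c : S.G) {s w : ℂ} (hs : 6 ≤ s.re) (hw : 1 < w.re) :
    Summable (Function.uncurry (dbl S c s w)) := by
  have h1 : Summable fun m : S.J => (S.nJ m : ℝ) ^ (-(s.re - 2)) := summable_nJ hS (by linarith)
  have h2 : Summable fun b : S.J => (S.nJ b : ℝ) ^ (-w.re) := summable_nJ hS hw
  have h3 := h1.mul_of_nonneg h2 (fun m => by positivity) (fun b => by positivity)
  refine Summable.of_norm_bounded h3 ?_
  rintro ⟨m, b⟩
  simp only [Function.uncurry, dbl]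
  split_ifs with hR
  · rw [norm_mul, norm_mul, norm_mul, nJ_cpow_norm hS, nJ_cpow_norm hS, Complex.norm_real,
      Real.norm_eq_abs]
    have hm : (0 : ℝ) < S.nJ m := by exact_mod_cast nJ_pos hS m
    have hb : (0 : ℝ) < S.nJ b := by exact_mod_cast nJ_pos hS b
    have e1 : (S.nJ m : ℝ) ^ (-(s.re - 2)) = (S.nJ m : ℝ) ^ (2 : ℝ) * (S.nJ m : ℝ) ^ (-s).re := by
      rw [← Real.rpow_add hm]
      congr 1
      simp
      ring
    have e2 : (-w).re = -w.re := by simp
    rw [e1, e2]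
    calc |S.hJ m b| * ‖S.sg m b c‖ * (S.nJ b : ℝ) ^ (-w.re) * (S.nJ m : ℝ) ^ (-s).re
        ≤ (S.nJ m : ℝ) ^ (2 : ℝ) * 1 * (S.nJ b : ℝ) ^ (-w.re) * (S.nJ m : ℝ) ^ (-s).re := by
          gcongr
          · exact hJ_bd hS m b
          · exact sg_norm hS m b c hR
      _ = (S.nJ m : ℝ) ^ (2 : ℝ) * (S.nJ m : ℝ) ^ (-s).re * (S.nJ b : ℝ) ^ (-w.re) := by ring
  · rw [norm_zero]
    positivity

open Classical in
theorem dbl_tsum_b (c : S.G) (s w : ℂ) (m : S.J) :
    ∑' b, dbl S c s w m b = (S.nJ m : ℂ) ^ (-s) * S.D m c w := by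
  unfold D dbl
  rw [← tsum_mul_left]
  refine tsum_congr fun b => ?_
  split_ifs with hR
  · ring
  · ring

open Classical in
theorem dbl_tsum_m (c : S.G) (s w : ℂ) (b : S.J) :
    ∑' m, dbl S c s w m b = if S.R b c then S.AA b c s * (S.nJ b : ℂ) ^ (-w) else 0 := by
  unfold AA dbl
  split_ifs with hR
  · rw [← tsum_mul_right]
    refine tsum_congr fun m => ?_
    ring
  · simp

theorem D_summable_m (hS : IsSys S) (c : S.G) {s w : ℂ} (hs : 6 ≤ s.re) (hw : 1 < w.re) :
    Summable fun m : S.J => (S.nJ m : ℂ) ^ (-s) * S.D m c w := by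
  have := (dbl_summable hS c hs hw).prod
  simp only [Function.uncurry] at this
  simpa only [dbl_tsum_b] using this

open Classical in
theorem AA_summable_b (hS : IsSys S) (c : S.G) {s w : ℂ} (hs : 6 ≤ s.re) (hw : 1 < w.re) :
    Summable fun b : S.J => if S.R b c then S.AA b c s * (S.nJ b : ℂ) ^ (-w) else 0 := by
  have := (dbl_summable hS c hs hw).prod_symm.prod
  simp only [Function.uncurry, Prod.swap] at this
  simpa only [dbl_tsum_m] using this

open Classical in
/-- Fubini -/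
theorem fubini_D (hS : IsSys S) (c : S.G) {s w : ℂ} (hs : 6 ≤ s.re) (hw : 1 < w.re) :
    ∑' m : S.J, (S.nJ m : ℂ) ^ (-s) * S.D m c w =
      ∑' b : S.J, if S.R b c then S.AA b c s * (S.nJ b : ℂ) ^ (-w) else 0 := by
  have := (dbl_summable hS c hs hw).tsum_comm
  simp only [dbl_tsum_m, dbl_tsum_b] at this
  exact this.symm

theorem OmR_sub (hT : IsPole S T) {R1 : ℝ} {t : ℂ} (ht : t ∈ T.OmR R1) : t ∈ T.Om := by
  have hr := hT.hr
  obtain ⟨h1, h2, h3⟩ := ht
  exact ⟨by linarith, by linarith⟩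

open Classical in
theorem split_In2 (hS : IsSys S) (hT : IsPole S T) (c' : S.G) {z t : ℂ} (hz : 1 < z.re)
    (ht : t ∈ T.Om) (ht6 : 6 < t.re) :
    (t - T.t0) ^ T.k * T.Lo t *
      (∑' b : S.J, if S.R b c' then S.AA b c' t * (S.nJ b : ℂ) ^ (-z) else 0) = S.In2 T c' z t := by
  have hsum := AA_summable_b hS c' (s := t) (w := z) ht6.le hz
  have hLo : T.Lo t = (t - T.t0) ^ T.k * S.Ls t := hT.eq t ht (by linarith)
  have h1 : Summable fun b : S.J => if S.R b c' ∧ ¬ S.Sq b c' then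
      S.AA b c' t * (S.nJ b : ℂ) ^ (-z) else 0 := by
    refine (hsum.indicator {b | ¬ S.Sq b c'}).congr fun b => ?_
    simp only [Set.indicator, Set.mem_ofPred_eq]
    by_cases hR : S.R b c' <;> by_cases hq : S.Sq b c' <;> simp [hR, hq]
  have h2 : Summable fun b : S.J => if S.R b c' ∧ S.Sq b c' then
      S.AA b c' t * (S.nJ b : ℂ) ^ (-z) else 0 := by
    refine (hsum.indicator {b | S.Sq b c'}).congr fun b => ?_
    simp only [Set.indicator, Set.mem_ofPred_eq]
    by_cases hR : S.R b c' <;> by_cases hq : S.Sq b c' <;> simp [hR, hq]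
  have h3 : (∑' b : S.J, if S.R b c' then S.AA b c' t * (S.nJ b : ℂ) ^ (-z) else 0) =
      (∑' b : S.J, if S.R b c' ∧ ¬ S.Sq b c' then S.AA b c' t * (S.nJ b : ℂ) ^ (-z) else 0) +
        ∑' b : S.J, if S.R b c' ∧ S.Sq b c' then S.AA b c' t * (S.nJ b : ℂ) ^ (-z) else 0 := by
    rw [← h1.tsum_add h2]
    refine tsum_congr fun b => ?_
    by_cases hR : S.R b c' <;> by_cases hq : S.Sq b c' <;> simp [hR, hq]
  rw [h3, mul_add]
  unfold In2
  congr 1
  · rw [← tsum_mul_left, ← tsum_mul_left]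
    refine tsum_congr fun b => ?_
    split_ifs with h
    · rw [AA_eq hS b c' h.1 ht6.le, hLo, LL, hS.ell_eq b c' h.1 h.2 t (by linarith)]
      ring
    · ring
  · by_cases hc : c' = 1
    · subst hc
      rw [if_pos rfl]
      have hinj : Function.Injective fun f : S.J => 2 • f := by
        intro f g hfg
        ext v
        have := DFunLike.congr_fun hfg v
        simp only [Finsupp.smul_apply, smul_eq_mul] at this
        omega
      have h4 : (∑' b : S.J, if S.R b 1 ∧ S.Sq b 1 then S.AA b 1 t * (S.nJ b : ℂ) ^ (-z) else 0) =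
          ∑' f : S.J, S.AA (2 • f) 1 t * (S.nJ (2 • f) : ℂ) ^ (-z) := by
        rw [← hinj.tsum_eq]
        · refine tsum_congr fun f => ?_
          have hsq : S.Sq (2 • f) 1 := ⟨rfl, fun v => by simp⟩
          rw [if_pos ⟨hS.R_two f, hsq⟩]
        · intro b hb
          rw [Function.mem_support] at hb
          have hb' : S.R b 1 ∧ S.Sq b 1 := by
            by_contra hn
            exact hb (if_neg hn)
          refine ⟨b.mapRange (fun n => n / 2) rfl, ?_⟩
          ext v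
          simp only [Finsupp.smul_apply, Finsupp.mapRange_apply, smul_eq_mul]
          have := hb'.2.2 v
          obtain ⟨k, hk⟩ := this
          omega
      rw [h4, ← tsum_mul_left, ← tsum_mul_left]
      refine tsum_congr fun f => ?_
      rw [AA_eq hS (2 • f) 1 (hS.R_two f) ht6.le, Lu_sq hS, nJ_two]
      have h5 : (((S.nJ f ^ 2 : ℕ) : ℂ)) ^ (-z) = (S.nJ f : ℂ) ^ (-(2 * z)) := by
        have := Complex.natCast_cpow_natCast_mul (S.nJ f) 2 (-z)
        push_cast at this ⊢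
        rw [← this]
        congr 1
        ring
      rw [h5, hLo]
      ring
    · rw [if_neg hc]
      have : ∀ b : S.J, ¬ (S.R b c' ∧ S.Sq b c') := fun b h => hc h.2.1
      simp [this]

theorem agree (hS : IsSys S) (hT : IsPole S T) {W2 C : ℝ} (h : In2B S T W2 C) (c : S.G)
    {s t : ℂ} (hs : W2 + 8 ≤ s.re) (ht : t ∈ T.OmR 8) (ht6 : 6 < t.re) :
    S.F1 T c s t = S.F2 T c s t := by
  classical
  have ht8 : t.re < 8 := ht.2.2
  have hW := h.two
  have hOm := OmR_sub hT ht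
  set w : ℂ := t - s + 1 / 2 with hw
  have hwre : w.re = t.re - s.re + 1 / 2 := by
    simp [hw]
  have hw0 : w.re < 0 := by
    rw [hwre]; linarith
  have hz : 1 < (1 - w).re := by
    simp only [Complex.sub_re, Complex.one_re]
    rw [hwre]; linarith
  have hterm : ∀ m : S.J, (S.nJ m : ℂ) ^ (-s) * S.DD m c w =
      ∑ c' : S.G, ((w - 1) ^ 2 * S.Z1 (1 - w) * ((S.cU : ℂ) ^ 2)⁻¹ * S.M (c * c') w) *
        ((S.nJ m : ℂ) ^ (-t) * S.D m c' (1 - w)) := by
    intro m
    rw [DD_fe hS m c hw0]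
    have e : (S.nJ m : ℂ) ^ (-s) * (S.nJ m : ℂ) ^ (1 / 2 - w) = (S.nJ m : ℂ) ^ (-t) := by
      rw [nJ_cpow_add hS]
      congr 1
      rw [hw]
      ring
    rw [← e, Finset.mul_sum, Finset.mul_sum]
    refine Finset.sum_congr rfl fun c' _ => ?_
    ring
  have hsumm : ∀ c' : S.G, Summable fun m : S.J => (S.nJ m : ℂ) ^ (-t) * S.D m c' (1 - w) :=
    fun c' => D_summable_m hS c' ht6.le hz
  unfold F1 F2
  rw [← hw]
  simp only [hterm]
  rw [Summable.tsum_finsetSum (fun c' _ => (hsumm c').mul_left _), Finset.mul_sum, Finset.mul_sum]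
  refine Finset.sum_congr rfl fun c' _ => ?_
  rw [tsum_mul_left, fubini_D hS c' ht6.le hz, ← split_In2 hS hT c' hz hOm ht6]
  ring

end Pool.Agent.QD.SysD
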