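import Pool.Agent.QD.A.PL
import Pool.Agent.QD.A.Euler
import Pool.Agent.QD.A.DDa

/-!
# QD-A18: bounds for `M` and `DD` (B2, B3)

PLAN. `M_bd`: finite sum of `Gam_bd`.
`DD_bd`: three ranges.
`2 ≤ Re w ≤ W`: `DD_eq`, `D_bd`, `Z1_bd`: `C (1+|Im w|)^2 nJ m^2`.
`-1 ≤ Re w ≤ 2`: `Zf` is bounded by `C nJ m^A (1+|Im w|)^A` on `|Re w| ≤ 2`: `pl_poly` between
`Re w = 2` (`Zf_eq`, `Z1_bd`, `Lchi_bd`, factor `(w-1)^2`) and `Re w = -2` (`Zf_fe`,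
`odd m^(1/2-w) ≤ nJ m^(5/2)`, `Gam_bd`); times `Q_bd`; this fixes `A1 ≥ 2` (independent of `W`).
`-W ≤ Re w ≤ -1`: `DD_fe`, `M_bd`, `D_bd` with `Re (1-w) ≥ 2`: exponent `1/2 - Re w + 2`.
-/

namespace Pool.Agent.QD.SysD

open Pool.Agent.QD

variable {S : SysD}

private theorem unif_poly {κ : Type} [Fintype κ] {c : ℝ} (F : κ → ℂ → ℂ)
    (h : ∀ i, PolyStrip c (F i)) (a b : ℝ) (hb : b < c) :
    ∃ A C : ℝ, 0 ≤ A ∧ 0 ≤ C ∧ ∀ i, ∀ s : ℂ, a ≤ s.re → s.re ≤ b →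
      ‖F i s‖ ≤ C * (1 + |s.im|) ^ A := by
  choose A C hA hC h using fun i => h i a b hb
  refine ⟨∑ i, A i, ∑ i, C i, Finset.sum_nonneg fun i _ => hA i,
    Finset.sum_nonneg fun i _ => hC i, fun i s h1 h2 => ?_⟩
  have h3 : A i ≤ ∑ i, A i := Finset.single_le_sum (fun i _ => hA i) (Finset.mem_univ i)
  have h4 : C i ≤ ∑ i, C i := Finset.single_le_sum (fun i _ => hC i) (Finset.mem_univ i)
  calc ‖F i s‖ ≤ C i * (1 + |s.im|) ^ A i := h i s h1 h2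
    _ ≤ _ := mul_le_mul h4
        (Real.rpow_le_rpow_of_exponent_le (by linarith [abs_nonneg s.im]) h3)
        (Real.rpow_nonneg (by linarith [abs_nonneg s.im]) _) (Finset.sum_nonneg fun i _ => hC i)

private theorem B_norm (hS : IsSys S) (g h : S.G) : ‖S.B g h‖ = 1 := by
  rcases hS.B_sq g h with h | h <;> rw [h] <;> simp

theorem M_bd (hS : IsSys S) (g : S.G) : PolyStrip 0 (S.M g) := by
  intro a b hb
  obtain ⟨A, C, hA, hC, h⟩ := unif_poly S.Gam hS.Gam_bd a b hb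
  refine ⟨A, Fintype.card S.G * C, hA, by positivity, fun s h1 h2 => ?_⟩
  calc ‖S.M g s‖ ≤ ∑ b : S.G, ‖S.B g b * S.Gam b s‖ := norm_sum_le _ _
    _ ≤ ∑ b : S.G, C * (1 + |s.im|) ^ A := by
        refine Finset.sum_le_sum fun i _ => ?_
        rw [norm_mul, B_norm hS, one_mul]
        exact h i s h1 h2
    _ = _ := by
        rw [Finset.sum_const, nsmul_eq_mul, Finset.card_univ]
        ring

theorem M_diff (hS : IsSys S) (g : S.G) : DifferentiableOn ℂ (S.M g) {w : ℂ | w.re < 0} := by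
  unfold M
  refine DifferentiableOn.fun_sum fun b _ => ?_
  exact (hS.Gam_diff b).const_mul _

private theorem norm_sub_one_sq {W : ℝ} (hW : 0 ≤ W) {w : ℂ} (hw : |w.re| ≤ W) :
    ‖(w - 1) ^ 2‖ ≤ (W + 1) ^ 2 * (1 + |w.im|) ^ (2 : ℝ) := by
  rw [norm_pow, Real.rpow_two, ← mul_pow]
  refine pow_le_pow_left₀ (norm_nonneg _) ?_ 2
  have h1 : ‖w - 1‖ ≤ |(w - 1).re| + |(w - 1).im| := Complex.norm_le_abs_re_add_abs_im _
  simp only [Complex.sub_re, Complex.one_re, Complex.sub_im, Complex.one_im, sub_zero] at h1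
  have h2 : |w.re - 1| ≤ W + 1 := by
    rw [abs_le] at hw ⊢
    constructor <;> linarith
  have h3 : 0 ≤ W * |w.im| := mul_nonneg hW (abs_nonneg _)
  nlinarith

/-- the bound of `Zf` on `|Re w| ≤ 2` -/
private theorem Zf_bd (hS : IsSys S) : ∃ A C : ℝ, 0 ≤ A ∧ 0 ≤ C ∧ ∀ (m : S.J) (g : S.G),
    S.R m g → ∀ w : ℂ, |w.re| ≤ 2 →
      ‖S.Zf m g w‖ ≤ C * (S.nJ m : ℝ) ^ (5 / 2 : ℝ) * (1 + |w.im|) ^ A := by
  obtain ⟨A, C, hA, hC, hG⟩ := unif_poly S.Gam hS.Gam_bd (-2) (-2) (by norm_num)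
  obtain ⟨C1, hC1, hZ⟩ := Z1_bd hS (c := 2) (by norm_num)
  obtain ⟨C2, hC2, hL⟩ := Lchi_bd hS (c := 2) (by norm_num)
  obtain ⟨C0, hC0, hpl⟩ := pl_poly (-2) 2 (by norm_num) (A + 2) (by linarith)
  refine ⟨A + 2 + 1, C0 * (9 * (C + 1) * C1 * C2), by linarith, by positivity,
    fun m g hm w hw => ?_⟩
  have hn1 : (1 : ℝ) ≤ S.nJ m := by exact_mod_cast nJ_pos hS m
  have hn2 : (1 : ℝ) ≤ (S.nJ m : ℝ) ^ (5 / 2 : ℝ) := Real.one_le_rpow hn1 (by norm_num)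
  have key := hpl (S.Zf m g) (hS.Zf_diff m g hm) (hS.Zf_ord m g hm)
    (9 * (C + 1) * C1 * C2 * (S.nJ m : ℝ) ^ (5 / 2 : ℝ)) (by positivity) ?_ ?_ w
    (by rw [abs_le] at hw; linarith [hw.1]) (by rw [abs_le] at hw; linarith [hw.2])
  · calc ‖S.Zf m g w‖ ≤ _ := key
      _ = _ := by ring
  · -- left edge
    intro s hs
    have h1 : (1 : ℝ) ≤ 1 + |s.im| := by linarith [abs_nonneg s.im]
    rw [hS.Zf_fe m g hm s (by rw [hs]; norm_num)]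
    have hre : 2 ≤ (1 - s).re := by
      rw [Complex.sub_re, Complex.one_re, hs]; norm_num
    have e1 := norm_sub_one_sq (W := 2) (by norm_num) (w := s) (by rw [hs]; norm_num)
    have e2 : ‖(S.odd m : ℂ) ^ (1 / 2 - s)‖ ≤ (S.nJ m : ℝ) ^ (5 / 2 : ℝ) := by
      rw [Complex.norm_natCast_cpow_of_pos (odd_pos hS m)]
      have e : (1 / 2 - s).re = 5 / 2 := by
        rw [Complex.sub_re, hs]
        norm_num
      rw [e]
      refine Real.rpow_le_rpow (by positivity) ?_ (by norm_num)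
      exact_mod_cast odd_le hS m
    have e3 := hG g s hs.symm.le hs.le
    have e4 := hZ (1 - s) hre
    have e5 := hL m g hm (1 - s) hre
    rw [norm_mul, norm_mul, norm_mul, norm_mul]
    calc ‖(s - 1) ^ 2‖ * ‖(S.odd m : ℂ) ^ (1 / 2 - s)‖ * ‖S.Gam g s‖ * ‖S.Z1 (1 - s)‖ *
          ‖S.Lchi m g (1 - s)‖
        ≤ ((2 + 1) ^ 2 * (1 + |s.im|) ^ (2 : ℝ)) * (S.nJ m : ℝ) ^ (5 / 2 : ℝ) *
          (C * (1 + |s.im|) ^ A) * C1 * C2 := by gcongr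
      _ = 9 * C * C1 * C2 * (S.nJ m : ℝ) ^ (5 / 2 : ℝ) *
          ((1 + |s.im|) ^ A * (1 + |s.im|) ^ (2 : ℝ)) := by ring
      _ = 9 * C * C1 * C2 * (S.nJ m : ℝ) ^ (5 / 2 : ℝ) * (1 + |s.im|) ^ (A + 2) := by
          rw [← Real.rpow_add (by linarith)]
      _ ≤ _ := by
          gcongr
          linarith
  · intro s hs
    have h1 : (1 : ℝ) ≤ 1 + |s.im| := by linarith [abs_nonneg s.im]
    rw [hS.Zf_eq m g hm s (by rw [hs]; norm_num)]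
    have e1 := norm_sub_one_sq (W := 2) (by norm_num) (w := s) (by rw [hs]; norm_num)
    have e4 := hZ s hs.symm.le
    have e5 := hL m g hm s hs.symm.le
    rw [norm_mul, norm_mul]
    calc ‖(s - 1) ^ 2‖ * ‖S.Z1 s‖ * ‖S.Lchi m g s‖
        ≤ ((2 + 1) ^ 2 * (1 + |s.im|) ^ (2 : ℝ)) * C1 * C2 := by gcongr
      _ = 9 * 1 * C1 * C2 * 1 * (1 + |s.im|) ^ (2 : ℝ) := by ring
      _ ≤ _ := by
          gcongr
          · linarith
          · linarith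

theorem DD_bd (hS : IsSys S) : ∃ A1 : ℝ, 2 ≤ A1 ∧ ∀ W : ℝ, ∃ A C : ℝ, 0 ≤ A ∧ 0 ≤ C ∧
    ∀ (m : S.J) (c : S.G) (w : ℂ), |w.re| ≤ W →
      ‖S.DD m c w‖ ≤ C * (S.nJ m : ℝ) ^ (max A1 (5 / 2 - w.re)) * (1 + |w.im|) ^ A := by
  classical
  obtain ⟨AZ, CZ, hAZ, hCZ, hZf⟩ := Zf_bd hS
  obtain ⟨AQ, hAQ, hQ⟩ := Q_bd hS 2 (by norm_num)
  refine ⟨5 / 2 + AQ, by linarith, fun W => ?_⟩
  rcases lt_or_ge W 0 with hW | hW
  · exact ⟨0, 0, le_rfl, le_rfl, fun m c w hw => absurd hw (by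
      have := abs_nonneg w.re
      intro h
      linarith)⟩
  obtain ⟨C1, hC1, hZ⟩ := Z1_bd hS (c := 2) (by norm_num)
  obtain ⟨C3, hC3, hD⟩ := D_bd hS (x := 2) (by norm_num)
  obtain ⟨A4, C4, hA4, hC4, hM⟩ := unif_poly S.M (M_bd hS) (-W) (-1) (by norm_num)
  set K : ℝ := (Fintype.card S.G : ℝ) with hK
  have hK0 : 0 ≤ K := by positivity
  set u : ℝ := ‖(S.cU : ℂ)⁻¹‖ with hu
  have hu0 : 0 ≤ u := norm_nonneg _
  refine ⟨AZ + (A4 + 2), (W + 1) ^ 2 * C1 * C3 + u * (K * CZ) +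
    (W + 1) ^ 2 * C1 * u ^ 2 * (K * (C4 * C3)), by linarith, by positivity,
    fun m c w hw => ?_⟩
  have hn1 : (1 : ℝ) ≤ S.nJ m := by exact_mod_cast nJ_pos hS m
  have h1 : (1 : ℝ) ≤ 1 + |w.im| := by linarith [abs_nonneg w.im]
  have hpos : 0 < (S.nJ m : ℝ) := by linarith
  -- each range
  suffices h : ∃ E X : ℝ, 0 ≤ X ∧ ‖S.DD m c w‖ ≤ X * (S.nJ m : ℝ) ^ E * (1 + |w.im|) ^ (AZ + (A4 + 2)) ∧
      E ≤ max (5 / 2 + AQ) (5 / 2 - w.re) ∧ X ≤ (W + 1) ^ 2 * C1 * C3 + u * (K * CZ) +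
        (W + 1) ^ 2 * C1 * u ^ 2 * (K * (C4 * C3)) by
    obtain ⟨E, X, hX, hb, hE, hX2⟩ := h
    refine hb.trans ?_
    have : (S.nJ m : ℝ) ^ E ≤ (S.nJ m : ℝ) ^ (max (5 / 2 + AQ) (5 / 2 - w.re)) :=
      Real.rpow_le_rpow_of_exponent_le hn1 hE
    gcongr
  have hp1 : 0 ≤ (W + 1) ^ 2 * C1 * C3 := by positivity
  have hp2 : 0 ≤ u * (K * CZ) := by positivity
  have hp3 : 0 ≤ (W + 1) ^ 2 * C1 * u ^ 2 * (K * (C4 * C3)) := by positivity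
  have e1 := norm_sub_one_sq hW hw
  rcases le_or_gt 2 w.re with h2 | h2
  · refine ⟨2, (W + 1) ^ 2 * C1 * C3, hp1, ?_, le_max_of_le_left (by linarith), by linarith⟩
    rw [DD_eq hS m c (by linarith), norm_mul, norm_mul]
    calc ‖(w - 1) ^ 2‖ * ‖S.Z1 w‖ * ‖S.D m c w‖
        ≤ ((W + 1) ^ 2 * (1 + |w.im|) ^ (2 : ℝ)) * C1 * (C3 * (S.nJ m : ℝ) ^ (2 : ℝ)) := by
          gcongr
          · exact hZ w h2
          · exact hD m c w h2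
      _ = (W + 1) ^ 2 * C1 * C3 * (S.nJ m : ℝ) ^ (2 : ℝ) * (1 + |w.im|) ^ (2 : ℝ) := by ring
      _ ≤ _ := by
          gcongr
          linarith
  rcases le_or_gt (-1) w.re with h3 | h3
  · refine ⟨5 / 2 + AQ, u * (K * CZ), hp2, ?_, le_max_left _ _, by linarith⟩
    have h4 : |w.re| ≤ 2 := by
      rw [abs_le]; constructor <;> linarith
    unfold DD
    rw [norm_mul]
    have hsum : ‖∑ g : S.G, if S.R m g then S.B g c * S.Zf m g w * S.Q m g w else 0‖ ≤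
        ∑ g : S.G, CZ * (S.nJ m : ℝ) ^ (5 / 2 : ℝ) * (1 + |w.im|) ^ AZ * (S.nJ m : ℝ) ^ AQ := by
      refine (norm_sum_le _ _).trans (Finset.sum_le_sum fun g _ => ?_)
      split_ifs with hg
      · rw [norm_mul, norm_mul, B_norm hS, one_mul]
        exact mul_le_mul (hZf m g hg w h4) (hQ m g hg w h4) (norm_nonneg _) (by positivity)
      · rw [norm_zero]
        positivity
    rw [Finset.sum_const, nsmul_eq_mul, Finset.card_univ] at hsum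
    calc u * ‖∑ g : S.G, if S.R m g then S.B g c * S.Zf m g w * S.Q m g w else 0‖
        ≤ u * (K * (CZ * (S.nJ m : ℝ) ^ (5 / 2 : ℝ) * (1 + |w.im|) ^ AZ * (S.nJ m : ℝ) ^ AQ)) := by
          gcongr
      _ = u * (K * CZ) * ((S.nJ m : ℝ) ^ (5 / 2 : ℝ) * (S.nJ m : ℝ) ^ AQ) *
          (1 + |w.im|) ^ AZ := by ring
      _ = u * (K * CZ) * (S.nJ m : ℝ) ^ (5 / 2 + AQ) * (1 + |w.im|) ^ AZ := by
          rw [← Real.rpow_add hpos]
      _ ≤ _ := by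
          gcongr
          linarith
  · refine ⟨5 / 2 - w.re, (W + 1) ^ 2 * C1 * u ^ 2 * (K * (C4 * C3)), hp3, ?_,
      le_max_right _ _, by linarith⟩
    have hre : 2 ≤ (1 - w).re := by
      rw [Complex.sub_re, Complex.one_re]; linarith
    have hre2 : -W ≤ w.re := by
      rw [abs_le] at hw; exact hw.1
    rw [DD_fe hS m c (by linarith), norm_mul, norm_mul, norm_mul, norm_mul]
    have e2 : ‖(S.nJ m : ℂ) ^ (1 / 2 - w)‖ = (S.nJ m : ℝ) ^ (1 / 2 - w.re) := by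
      rw [Complex.norm_natCast_cpow_of_pos (nJ_pos hS m)]
      congr 1
      rw [Complex.sub_re]
      norm_num
    have e3 : ‖((S.cU : ℂ) ^ 2)⁻¹‖ = u ^ 2 := by
      rw [hu, ← inv_pow, norm_pow]
    have hsum : ‖∑ c' : S.G, S.M (c * c') w * S.D m c' (1 - w)‖ ≤
        ∑ c' : S.G, (C4 * (1 + |w.im|) ^ A4) * (C3 * (S.nJ m : ℝ) ^ (2 : ℝ)) := by
      refine (norm_sum_le _ _).trans (Finset.sum_le_sum fun g _ => ?_)
      rw [norm_mul]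
      exact mul_le_mul (hM _ w hre2 h3.le) (hD m g (1 - w) hre) (norm_nonneg _) (by positivity)
    rw [Finset.sum_const, nsmul_eq_mul, Finset.card_univ] at hsum
    rw [e2, e3]
    calc ‖(w - 1) ^ 2‖ * ‖S.Z1 (1 - w)‖ * (S.nJ m : ℝ) ^ (1 / 2 - w.re) * u ^ 2 *
          ‖∑ c' : S.G, S.M (c * c') w * S.D m c' (1 - w)‖
        ≤ ((W + 1) ^ 2 * (1 + |w.im|) ^ (2 : ℝ)) * C1 * (S.nJ m : ℝ) ^ (1 / 2 - w.re) * u ^ 2 *
          (K * ((C4 * (1 + |w.im|) ^ A4) * (C3 * (S.nJ m : ℝ) ^ (2 : ℝ)))) := by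
          gcongr
          · exact hZ _ hre
      _ = (W + 1) ^ 2 * C1 * u ^ 2 * (K * (C4 * C3)) *
          ((S.nJ m : ℝ) ^ (1 / 2 - w.re) * (S.nJ m : ℝ) ^ (2 : ℝ)) *
          ((1 + |w.im|) ^ A4 * (1 + |w.im|) ^ (2 : ℝ)) := by ring
      _ = (W + 1) ^ 2 * C1 * u ^ 2 * (K * (C4 * C3)) *
          (S.nJ m : ℝ) ^ (5 / 2 - w.re) * (1 + |w.im|) ^ (A4 + 2) := by
          rw [← Real.rpow_add hpos, ← Real.rpow_add (by linarith)]
          congr 3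
          ring
      _ ≤ _ := by
          have : A4 + 2 ≤ AZ + (A4 + 2) := by linarith
          gcongr

end Pool.Agent.QD.SysD
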