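import Pool.Agent.QD.A.Loc
import Pool.Agent.HWR.Defs

/-!
# QD/A, the abstract system (see `qd_paper.md`, section 2)
-/

namespace Pool.Agent.QD

open Pool.Agent.HWR (FinOrd)

/-- polynomial growth in vertical strips contained in `Re < c` -/
def PolyStrip (c : ℝ) (F : ℂ → ℂ) : Prop :=
  ∀ a b : ℝ, b < c → ∃ A C : ℝ, 0 ≤ A ∧ 0 ≤ C ∧ ∀ s : ℂ, a ≤ s.re → s.re ≤ b →
    ‖F s‖ ≤ C * (1 + |s.im|) ^ A

/-- data of the abstract system -/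
structure SysD where
  ι : Type
  N : ι → ℕ
  lam : ι → ℝ
  G : Type
  [grp : CommGroup G]
  [fin : Fintype G]
  B : G → G → ℂ
  R : (ι →₀ ℕ) → G → Prop
  u : ι → (ι →₀ ℕ) → G → ℂ
  Zf : (ι →₀ ℕ) → G → ℂ → ℂ
  Gam : G → ℂ → ℂ
  ell : (ι →₀ ℕ) → G → ℂ → ℂ
  GG : G → ℂ → ℂ

attribute [instance] SysD.grp SysD.fin

namespace SysD

variable (S : SysD)

/-- index set: integral ideals outside `S` -/
abbrev J : Type := S.ι →₀ ℕ

/-- norm -/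
noncomputable def nJ (b : S.J) : ℕ := b.prod fun v k => S.N v ^ k

/-- norm of the odd part -/
noncomputable def odd (b : S.J) : ℕ := b.prod fun v k => if Odd k then S.N v else 1

/-- `∏' (1 - N_v^(-w))⁻¹` -/
noncomputable def Z1 (w : ℂ) : ℂ := ∏' v, (1 - (S.N v : ℂ) ^ (-w))⁻¹

noncomputable def Lchi (m : S.J) (g : S.G) (w : ℂ) : ℂ :=
  ∏' v, (1 - S.u v m g * (S.N v : ℂ) ^ (-w))⁻¹

/-- Euler factor `(1 - lam u x + N u^2 x^2)⁻¹`, `x = N_v^(-s)` -/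
noncomputable def Efac (v : S.ι) (u : ℂ) (s : ℂ) : ℂ :=
  (1 - (S.lam v : ℂ) * u * (S.N v : ℂ) ^ (-s) + u ^ 2 * (S.N v : ℂ) ^ (1 - 2 * s))⁻¹

noncomputable def Ls (s : ℂ) : ℂ := ∏' v, S.Efac v 1 s

noncomputable def Lu (b : S.J) (c : S.G) (s : ℂ) : ℂ := ∏' v, S.Efac v (S.u v b c) s

/-- squares -/
def Sq (b : S.J) (c : S.G) : Prop := c = 1 ∧ ∀ v, Even (b v)

/-- global weight -/
noncomputable def hJ (m b : S.J) : ℝ := ∏ v ∈ m.support, hloc (S.N v) (S.lam v) (m v) (b v)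

open Classical in
noncomputable def sg (m b : S.J) (c : S.G) : ℂ :=
  ∏ v ∈ m.support, if Odd (m v) then S.u v b c else 1

open Classical in
noncomputable def ch (m : S.J) (g : S.G) (b : S.J) : ℂ :=
  ∏ v ∈ b.support, if Odd (b v) then S.u v m g else 1

open Classical in
noncomputable def P (b : S.J) (c : S.G) (s : ℂ) : ℂ :=
  ∏ v ∈ b.support, Pw (S.N v) (S.lam v) (b v)
    ((if Even (b v) then S.u v b c else 1) * (S.N v : ℂ) ^ (-s))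

open Classical in
noncomputable def Q (m : S.J) (g : S.G) (w : ℂ) : ℂ :=
  ∏ v ∈ m.support, Qw (S.N v) (S.lam v) (m v)
    ((if Even (m v) then S.u v m g else 1) * (S.N v : ℂ) ^ (-w))

/-- row sum -/
noncomputable def AA (b : S.J) (c : S.G) (s : ℂ) : ℂ :=
  ∑' m : S.J, (S.hJ m b : ℂ) * S.sg m b c * (S.nJ m : ℂ) ^ (-s)

/-- column sum with a character -/
noncomputable def C (m : S.J) (g : S.G) (w : ℂ) : ℂ :=
  ∑' b : S.J, (S.hJ m b : ℂ) * S.ch m g b * (S.nJ b : ℂ) ^ (-w)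

open Classical in
/-- column sum over a class -/
noncomputable def D (m : S.J) (c : S.G) (w : ℂ) : ℂ :=
  ∑' b : S.J, if S.R b c then (S.hJ m b : ℂ) * S.sg m b c * (S.nJ b : ℂ) ^ (-w) else 0

open Classical in
/-- order of `U` -/
noncomputable def cU : ℕ := (Finset.univ.filter fun g : S.G => S.R 0 g).card

open Classical in
/-- `(w-1)^2 Z1(w) D(m,c,w)`, continued -/
noncomputable def DD (m : S.J) (c : S.G) (w : ℂ) : ℂ :=
  (S.cU : ℂ)⁻¹ * ∑ g : S.G, if S.R m g then S.B g c * S.Zf m g w * S.Q m g w else 0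

/-- scattering coefficients -/
noncomputable def M (g : S.G) (w : ℂ) : ℂ := ∑ b : S.G, S.B g b * S.Gam b w

/-- completed twisted L-function times the correction polynomial -/
noncomputable def LL (b : S.J) (c : S.G) (s : ℂ) : ℂ := S.ell b c s * S.P b c s

end SysD

/-- The axioms. -/
structure IsSys (S : SysD) : Prop where
  cnt : Countable S.ι
  hN : ∀ v, 101 ≤ S.N v
  sumN : ∀ x : ℝ, 1 < x → Summable fun v => (S.N v : ℝ) ^ (-x)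
  hlam : ∀ v, |S.lam v| ≤ 2 * Real.sqrt (S.N v)
  B_mul : ∀ g h k, S.B (g * h) k = S.B g k * S.B h k
  B_comm : ∀ g h, S.B g h = S.B h g
  B_sq : ∀ g h, S.B g h = 1 ∨ S.B g h = -1
  R_ex : ∀ b, ∃ c, S.R b c
  R_one : S.R 0 1
  R_coset : ∀ b c c', S.R b c → (S.R b c' ↔ S.R 0 (c' / c))
  U_perp : ∀ x, S.R 0 x ↔ ∀ y, S.R 0 y → S.B x y = 1
  u_odd : ∀ v b c, S.R b c → Odd (b v) → S.u v b c = 0
  u_even : ∀ v b c, S.R b c → Even (b v) → S.u v b c = 1 ∨ S.u v b c = -1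
  recip : ∀ m g b c, S.R m g → S.R b c → (∀ v, ¬ (Odd (m v) ∧ Odd (b v))) →
    S.sg m b c * S.ch m g b = S.B g c
  R_two : ∀ f : S.J, S.R (2 • f) 1
  u_two : ∀ (f : S.J) v, S.u v (2 • f) 1 = 1
  Zf_diff : ∀ m g, S.R m g → Differentiable ℂ (S.Zf m g)
  Zf_ord : ∀ m g, S.R m g → FinOrd (S.Zf m g)
  Zf_eq : ∀ m g, S.R m g → ∀ w : ℂ, 1 < w.re → S.Zf m g w = (w - 1) ^ 2 * S.Z1 w * S.Lchi m g w
  Zf_fe : ∀ m g, S.R m g → ∀ w : ℂ, w.re < 0 → S.Zf m g w =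
    (w - 1) ^ 2 * (S.odd m : ℂ) ^ (1 / 2 - w) * S.Gam g w * S.Z1 (1 - w) * S.Lchi m g (1 - w)
  Gam_diff : ∀ g, DifferentiableOn ℂ (S.Gam g) {w : ℂ | w.re < 0}
  Gam_bd : ∀ g, PolyStrip 0 (S.Gam g)
  ell_diff : ∀ b c, S.R b c → ¬ S.Sq b c → Differentiable ℂ (S.ell b c)
  ell_ord : ∀ b c, S.R b c → ¬ S.Sq b c → FinOrd (S.ell b c)
  ell_eq : ∀ b c, S.R b c → ¬ S.Sq b c → ∀ s : ℂ, 3 / 2 < s.re → S.ell b c s = S.Ls s * S.Lu b c s
  ell_fe : ∀ b c, S.R b c → ¬ S.Sq b c → ∀ s : ℂ, s.re < 1 / 2 → S.ell b c s =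
    (S.odd b : ℂ) ^ (2 * (1 - s)) * S.GG c s * S.ell b c (2 - s)
  GG_diff : ∀ c, DifferentiableOn ℂ (S.GG c) {s : ℂ | s.re < 1 / 2}
  GG_bd : ∀ c, PolyStrip (1 / 2) (S.GG c)

end Pool.Agent.QD
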