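import Pool.Agent.QD.A.Glob

/-!
# QD-A13: detection of classes

PLAN. (`qd_paper.md` 2.4 (DET)).  `D_summable`: `|hJ| ≤ nJ m ^2`, `summable_nJ`.
For `R m g`, `R b c` and `hJ m b ≠ 0` (so no place with both exponents odd, `hJ_odd`):
`sg m b c * ch m g b = B g c` (`recip`), all three are `±1`... (`ch`, `sg` are products of
`u`'s of even exponent: `±1`, so `sg = B g c * ch`).
`{g | R m g}` and `{c | R b c}` are cosets of `U = {u | R 0 u}` (`R_ex`, `R_coset`), of cardinality
`cU`; `∑_{u ∈ U} B x u = cU` if `x ∈ U` (`U_perp`), `= 0` if `x ∉ U` (choose `y ∈ U` with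
`B x y = -1`, and reindex; `U` is closed under multiplication by `R_coset`, `R_one`).
`D_eq`: interchange the finite sum over `g` and the sum over `b`; for each `b`:
`cU⁻¹ ∑_{g : R m g} B g c * ch m g b * hJ = [R b c] hJ * sg m b c`.
`C_eq_D`, `D_orth`: for each `b` fix `c0` with `R b c0`, `g0` with `R m g0`.
Every element of `G` need not be an involution; use `B x⁻¹ y = B x y` (values `±1`).
-/

namespace Pool.Agent.QD.SysD

open Pool.Agent.QD

variable {S : SysD}

private theorem B_one (hS : IsSys S) (k : S.G) : S.B 1 k = 1 := by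
  have h := hS.B_mul 1 1 k
  rw [one_mul] at h
  rcases hS.B_sq 1 k with h1 | h1
  · exact h1
  · rw [h1] at h
    norm_num at h

private theorem B_sq' (hS : IsSys S) (g h : S.G) : S.B g h * S.B g h = 1 := by
  rcases hS.B_sq g h with h1 | h1 <;> rw [h1] <;> norm_num

private theorem B_mul_right (hS : IsSys S) (k g h : S.G) : S.B k (g * h) = S.B k g * S.B k h := by
  rw [hS.B_comm, hS.B_mul, hS.B_comm g, hS.B_comm h]

private theorem B_inv (hS : IsSys S) (g k : S.G) : S.B g⁻¹ k = S.B g k := by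
  have h : S.B g⁻¹ k * S.B g k = 1 := by
    rw [← hS.B_mul, inv_mul_cancel, B_one hS]
  have h2 := B_sq' hS g k
  calc S.B g⁻¹ k = S.B g⁻¹ k * (S.B g k * S.B g k) := by rw [h2, mul_one]
    _ = (S.B g⁻¹ k * S.B g k) * S.B g k := by ring
    _ = S.B g k := by rw [h, one_mul]

private theorem R_div_iff (hS : IsSys S) (x y : S.G) : S.R 0 (x / y) ↔ S.R 0 (x * y) := by
  rw [hS.U_perp, hS.U_perp]
  have : ∀ k, S.B (x / y) k = S.B (x * y) k := by
    intro k
    rw [div_eq_mul_inv, hS.B_mul, hS.B_mul, B_inv hS]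
  simp only [this]

private theorem R_mul (hS : IsSys S) {x y : S.G} (hx : S.R 0 x) : S.R 0 (x * y) ↔ S.R 0 y := by
  have h := hS.R_coset 0 x (x * y) hx
  rw [mul_div_cancel_left] at h
  exact h

open Classical in
private noncomputable def SU (S : SysD) (x : S.G) : ℂ := ∑ u : S.G, if S.R 0 u then S.B x u else 0

private theorem SU_mem (hS : IsSys S) {x : S.G} (hx : S.R 0 x) : SU S x = S.cU := by
  classical
  unfold SU SysD.cU
  have h := (hS.U_perp x).1 hx
  rw [Finset.card_filter, Nat.cast_sum]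
  apply Finset.sum_congr rfl
  intro u _
  by_cases hu : S.R 0 u
  · rw [if_pos hu, if_pos hu, h u hu]
    norm_num
  · rw [if_neg hu, if_neg hu]
    norm_num

private theorem SU_not (hS : IsSys S) {x : S.G} (hx : ¬ S.R 0 x) : SU S x = 0 := by
  classical
  have h : ∃ y, S.R 0 y ∧ S.B x y = -1 := by
    by_contra hcon
    push Not at hcon
    apply hx
    rw [hS.U_perp]
    intro y hy
    rcases hS.B_sq x y with h1 | h1
    · exact h1
    · exact absurd h1 (hcon y hy)
  obtain ⟨y, hy, hxy⟩ := h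
  have h2 : SU S x = - SU S x := by
    unfold SU
    conv_lhs => rw [← Equiv.sum_comp (Equiv.mulLeft y)]
    rw [← Finset.sum_neg_distrib]
    apply Finset.sum_congr rfl
    intro u _
    simp only [Equiv.coe_mulLeft]
    by_cases hu : S.R 0 u
    · rw [if_pos ((R_mul hS hy).2 hu), if_pos hu, B_mul_right hS, hxy]
      ring
    · rw [if_neg (fun h' => hu ((R_mul hS hy).1 h')), if_neg hu, neg_zero]
  have h3 : SU S x + SU S x = 0 := by
    nth_rewrite 1 [h2]
    ring
  have h4 : (2 : ℂ) * SU S x = 0 := by rw [two_mul]; exact h3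
  exact (mul_eq_zero.1 h4).resolve_left two_ne_zero

open Classical in
private theorem coset_sum (hS : IsSys S) (b : S.J) (c0 : S.G) (h0 : S.R b c0) (x : S.G) :
    (∑ c : S.G, if S.R b c then S.B x c else 0) = S.B x c0 * SU S x := by
  unfold SU
  rw [Finset.mul_sum, ← Equiv.sum_comp (Equiv.mulLeft c0)]
  apply Finset.sum_congr rfl
  intro u _
  simp only [Equiv.coe_mulLeft]
  have h1 : S.R b (c0 * u) ↔ S.R 0 u := by
    rw [hS.R_coset b c0 (c0 * u) h0, mul_div_cancel_left]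
  by_cases hu : S.R 0 u
  · rw [if_pos (h1.2 hu), if_pos hu, B_mul_right hS]
  · rw [if_neg (fun h' => hu (h1.1 h')), if_neg hu, mul_zero]

private theorem no_odd {m b : S.J} (h : S.hJ m b ≠ 0) : ∀ v, ¬ (Odd (m v) ∧ Odd (b v)) :=
  fun v hv => h (hJ_odd m b ⟨v, hv⟩)

private theorem sg_sq (hS : IsSys S) {m b : S.J} {c : S.G} (hc : S.R b c)
    (h : ∀ v, ¬ (Odd (m v) ∧ Odd (b v))) : S.sg m b c * S.sg m b c = 1 := by
  classical
  unfold SysD.sg
  rw [← Finset.prod_mul_distrib]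
  apply Finset.prod_eq_one
  intro v _
  by_cases hv : Odd (m v)
  · rw [if_pos hv]
    have he : Even (b v) := Nat.not_odd_iff_even.1 (fun ho => h v ⟨hv, ho⟩)
    rcases hS.u_even v b c hc he with h1 | h1 <;> rw [h1] <;> norm_num
  · rw [if_neg hv, one_mul]

private theorem ch_sq (hS : IsSys S) {m b : S.J} {g : S.G} (hg : S.R m g)
    (h : ∀ v, ¬ (Odd (m v) ∧ Odd (b v))) : S.ch m g b * S.ch m g b = 1 := by
  classical
  unfold SysD.ch
  rw [← Finset.prod_mul_distrib]
  apply Finset.prod_eq_one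
  intro v _
  by_cases hv : Odd (b v)
  · rw [if_pos hv]
    have he : Even (m v) := Nat.not_odd_iff_even.1 (fun ho => h v ⟨ho, hv⟩)
    rcases hS.u_even v m g hg he with h1 | h1 <;> rw [h1] <;> norm_num
  · rw [if_neg hv, one_mul]

theorem cU_ne (hS : IsSys S) : (S.cU : ℂ) ≠ 0 := by
  classical
  unfold SysD.cU
  rw [Nat.cast_ne_zero]
  apply Finset.card_ne_zero_of_mem (a := 1)
  rw [Finset.mem_filter]
  exact ⟨Finset.mem_univ _, hS.R_one⟩

private theorem norm_pow (hS : IsSys S) (b : S.J) (w : ℂ) :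
    ‖(S.nJ b : ℂ) ^ (-w)‖ = (S.nJ b : ℝ) ^ (-w.re) := by
  rw [Complex.norm_natCast_cpow_of_pos (nJ_pos hS b), Complex.neg_re]

open Classical in
private theorem term_bd (hS : IsSys S) (m : S.J) (c : S.G) (w : ℂ) (b : S.J) :
    ‖if S.R b c then (S.hJ m b : ℂ) * S.sg m b c * (S.nJ b : ℂ) ^ (-w) else 0‖ ≤
      (S.nJ m : ℝ) ^ (2 : ℝ) * (S.nJ b : ℝ) ^ (-w.re) := by
  by_cases h : S.R b c
  · rw [if_pos h, norm_mul, norm_mul, norm_pow hS, Complex.norm_real, Real.norm_eq_abs]
    have h1 := hJ_bd hS m b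
    have h2 := sg_norm hS m b c h
    have h3 : 0 ≤ (S.nJ b : ℝ) ^ (-w.re) := Real.rpow_nonneg (Nat.cast_nonneg _) _
    apply mul_le_mul_of_nonneg_right _ h3
    calc |S.hJ m b| * ‖S.sg m b c‖ ≤ |S.hJ m b| * 1 :=
          mul_le_mul_of_nonneg_left h2 (abs_nonneg _)
      _ ≤ _ := by rw [mul_one]; exact h1
  · rw [if_neg h, norm_zero]
    exact mul_nonneg (Real.rpow_nonneg (Nat.cast_nonneg _) _)
      (Real.rpow_nonneg (Nat.cast_nonneg _) _)

private theorem ch_term_summable (hS : IsSys S) (m : S.J) (g : S.G) (hg : S.R m g) {w : ℂ}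
    (hw : 1 < w.re) : Summable fun b : S.J => (S.hJ m b : ℂ) * S.ch m g b * (S.nJ b : ℂ) ^ (-w) := by
  apply Summable.of_norm
  refine Summable.of_nonneg_of_le (fun _ => norm_nonneg _) (fun b => ?_)
    ((summable_nJ hS hw).mul_left ((S.nJ m : ℝ) ^ (2 : ℝ)))
  rw [norm_mul, norm_mul, norm_pow hS, Complex.norm_real, Real.norm_eq_abs]
  have h1 := hJ_bd hS m b
  have h2 := ch_norm hS m g b hg
  have h3 : 0 ≤ (S.nJ b : ℝ) ^ (-w.re) := Real.rpow_nonneg (Nat.cast_nonneg _) _
  apply mul_le_mul_of_nonneg_right _ h3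
  calc |S.hJ m b| * ‖S.ch m g b‖ ≤ |S.hJ m b| * 1 :=
        mul_le_mul_of_nonneg_left h2 (abs_nonneg _)
    _ ≤ _ := by rw [mul_one]; exact h1

open Classical in
theorem D_summable (hS : IsSys S) (m : S.J) (c : S.G) {w : ℂ} (hw : 1 < w.re) :
    Summable fun b : S.J =>
      ‖if S.R b c then (S.hJ m b : ℂ) * S.sg m b c * (S.nJ b : ℂ) ^ (-w) else 0‖ :=
  Summable.of_nonneg_of_le (fun _ => norm_nonneg _) (fun b => term_bd hS m c w b)
    ((summable_nJ hS hw).mul_left ((S.nJ m : ℝ) ^ (2 : ℝ)))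

open Classical in
theorem D_bd (hS : IsSys S) {x : ℝ} (hx : 1 < x) : ∃ C : ℝ, 0 ≤ C ∧ ∀ (m : S.J) (c : S.G) (w : ℂ),
    x ≤ w.re → ‖S.D m c w‖ ≤ C * (S.nJ m : ℝ) ^ (2 : ℝ) := by
  refine ⟨∑' b : S.J, (S.nJ b : ℝ) ^ (-x),
    tsum_nonneg fun b => Real.rpow_nonneg (Nat.cast_nonneg _) _, ?_⟩
  intro m c w hw
  unfold SysD.D
  refine le_trans (norm_tsum_le_tsum_norm (D_summable hS m c (lt_of_lt_of_le hx hw))) ?_
  rw [mul_comm, ← tsum_mul_left]
  refine Summable.tsum_le_tsum (fun b => ?_) (D_summable hS m c (lt_of_lt_of_le hx hw))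
    ((summable_nJ hS hx).mul_left _)
  refine le_trans (term_bd hS m c w b) ?_
  apply mul_le_mul_of_nonneg_left _ (Real.rpow_nonneg (Nat.cast_nonneg _) _)
  apply Real.rpow_le_rpow_of_exponent_le _ (by linarith)
  have := nJ_pos hS b
  exact_mod_cast this

open Classical in
private theorem D_summable' (hS : IsSys S) (m : S.J) (c : S.G) {w : ℂ} (hw : 1 < w.re) :
    Summable fun b : S.J =>
      if S.R b c then (S.hJ m b : ℂ) * S.sg m b c * (S.nJ b : ℂ) ^ (-w) else 0 :=
  Summable.of_norm (D_summable hS m c hw)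

open Classical in
private theorem local_one (hS : IsSys S) (m b : S.J) (c : S.G) :
    (∑ g : S.G, if S.R m g then S.B g c * ((S.hJ m b : ℂ) * S.ch m g b) else 0) =
      S.cU * (if S.R b c then (S.hJ m b : ℂ) * S.sg m b c else 0) := by
  by_cases hh : S.hJ m b = 0
  · rw [hh]
    simp
  have hno := no_odd hh
  obtain ⟨g0, hg0⟩ := hS.R_ex m
  have key : ∀ c0, S.R b c0 →
      (∑ g : S.G, if S.R m g then S.B g c * ((S.hJ m b : ℂ) * S.ch m g b) else 0) =
        (S.hJ m b : ℂ) * S.sg m b c0 * (S.B (c * c0) g0 * SU S (c * c0)) := by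
    intro c0 hc0
    rw [← coset_sum hS m g0 hg0 (c * c0), Finset.mul_sum]
    apply Finset.sum_congr rfl
    intro g _
    by_cases hg : S.R m g
    · rw [if_pos hg, if_pos hg]
      have h1 := hS.recip m g b c0 hg hc0 hno
      have h2 := sg_sq hS hc0 hno
      have h3 : S.ch m g b = S.sg m b c0 * S.B g c0 := by
        rw [← h1]
        calc S.ch m g b = (S.sg m b c0 * S.sg m b c0) * S.ch m g b := by rw [h2, one_mul]
          _ = _ := by ring
      rw [h3, hS.B_mul, hS.B_comm c g, hS.B_comm c0 g]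
      ring
    · rw [if_neg hg, if_neg hg, mul_zero]
  by_cases hc : S.R b c
  · rw [key c hc, if_pos hc]
    have h4 : S.B (c * c) g0 = 1 := by
      rw [hS.B_mul]
      exact B_sq' hS c g0
    have h5 : S.R 0 (c * c) := by
      rw [hS.U_perp]
      intro y _
      rw [hS.B_mul]
      exact B_sq' hS c y
    rw [h4, SU_mem hS h5]
    ring
  · obtain ⟨c0, hc0⟩ := hS.R_ex b
    rw [key c0 hc0, if_neg hc]
    have h5 : ¬ S.R 0 (c * c0) := by
      rw [← R_div_iff hS, ← hS.R_coset b c0 c hc0]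
      exact hc
    rw [SU_not hS h5]
    ring

open Classical in
private theorem local_two (hS : IsSys S) (m b : S.J) (g : S.G) (hg : S.R m g) :
    (∑ c : S.G, S.B g c * (if S.R b c then (S.hJ m b : ℂ) * S.sg m b c else 0)) =
      S.cU * ((S.hJ m b : ℂ) * S.ch m g b) := by
  by_cases hh : S.hJ m b = 0
  · rw [hh]
    simp
  have hno := no_odd hh
  obtain ⟨c0, hc0⟩ := hS.R_ex b
  have h1 := coset_sum hS b c0 hc0 1
  rw [SU_mem hS hS.R_one, B_one hS, one_mul] at h1
  rw [← h1, Finset.sum_mul]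
  apply Finset.sum_congr rfl
  intro c _
  by_cases hc : S.R b c
  · rw [if_pos hc, if_pos hc, B_one hS]
    have h2 := hS.recip m g b c hg hc hno
    have h3 := sg_sq hS hc hno
    rw [← h2]
    calc S.sg m b c * S.ch m g b * ((S.hJ m b : ℂ) * S.sg m b c)
        = (S.sg m b c * S.sg m b c) * ((S.hJ m b : ℂ) * S.ch m g b) := by ring
      _ = _ := by rw [h3]
  · rw [if_neg hc, if_neg hc]
    ring

open Classical in
private theorem local_three (hS : IsSys S) (m b : S.J) (g : S.G) (hg : ¬ S.R m g) :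
    (∑ c : S.G, S.B g c * (if S.R b c then (S.hJ m b : ℂ) * S.sg m b c else 0)) = 0 := by
  by_cases hh : S.hJ m b = 0
  · rw [hh]
    simp
  have hno := no_odd hh
  obtain ⟨c0, hc0⟩ := hS.R_ex b
  obtain ⟨g0, hg0⟩ := hS.R_ex m
  have h5 : ¬ S.R 0 (g * g0) := by
    rw [← R_div_iff hS, ← hS.R_coset m g0 g hg0]
    exact hg
  have h1 := coset_sum hS b c0 hc0 (g * g0)
  rw [SU_not hS h5, mul_zero] at h1
  have h6 : (∑ c : S.G, S.B g c * (if S.R b c then (S.hJ m b : ℂ) * S.sg m b c else 0)) =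
      (S.hJ m b : ℂ) * S.ch m g0 b * (∑ c : S.G, if S.R b c then S.B (g * g0) c else 0) := by
    rw [Finset.mul_sum]
    apply Finset.sum_congr rfl
    intro c _
    by_cases hc : S.R b c
    · rw [if_pos hc, if_pos hc]
      have h2 := hS.recip m g0 b c hg0 hc hno
      have h3 := ch_sq hS hg0 hno
      rw [hS.B_mul, ← h2]
      calc S.B g c * ((S.hJ m b : ℂ) * S.sg m b c)
          = S.B g c * ((S.hJ m b : ℂ) * S.sg m b c) * (S.ch m g0 b * S.ch m g0 b) := by
            rw [h3, mul_one]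
        _ = _ := by ring
    · rw [if_neg hc, if_neg hc]
      ring
  rw [h6, h1, mul_zero]

open Classical in
theorem D_eq (hS : IsSys S) (m : S.J) (c : S.G) {w : ℂ} (hw : 1 < w.re) :
    S.D m c w = (S.cU : ℂ)⁻¹ * ∑ g : S.G, if S.R m g then S.B g c * S.C m g w else 0 := by
  have h1 : (∑ g : S.G, if S.R m g then S.B g c * S.C m g w else 0) =
      ∑ g : S.G, ∑' b : S.J, if S.R m g then
        S.B g c * ((S.hJ m b : ℂ) * S.ch m g b * (S.nJ b : ℂ) ^ (-w)) else 0 := by
    apply Finset.sum_congr rfl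
    intro g _
    by_cases hg : S.R m g
    · simp only [if_pos hg]
      rw [tsum_mul_left]
      rfl
    · simp only [if_neg hg, tsum_zero]
  have hsum : ∀ g ∈ (Finset.univ : Finset S.G), Summable fun b : S.J => if S.R m g then
        S.B g c * ((S.hJ m b : ℂ) * S.ch m g b * (S.nJ b : ℂ) ^ (-w)) else 0 := by
    intro g _
    by_cases hg : S.R m g
    · simp only [if_pos hg]
      exact (ch_term_summable hS m g hg hw).mul_left _
    · simp only [if_neg hg]
      exact summable_zero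
  rw [h1, ← Summable.tsum_finsetSum hsum]
  have h2 : ∀ b : S.J, (∑ g : S.G, if S.R m g then
        S.B g c * ((S.hJ m b : ℂ) * S.ch m g b * (S.nJ b : ℂ) ^ (-w)) else 0) =
      S.cU * (if S.R b c then (S.hJ m b : ℂ) * S.sg m b c * (S.nJ b : ℂ) ^ (-w) else 0) := by
    intro b
    have h3 := congrArg (fun z => z * (S.nJ b : ℂ) ^ (-w)) (local_one hS m b c)
    simp only [Finset.sum_mul] at h3
    calc (∑ g : S.G, if S.R m g then
        S.B g c * ((S.hJ m b : ℂ) * S.ch m g b * (S.nJ b : ℂ) ^ (-w)) else 0)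
        = ∑ g : S.G, (if S.R m g then S.B g c * ((S.hJ m b : ℂ) * S.ch m g b) else 0) *
            (S.nJ b : ℂ) ^ (-w) := by
          apply Finset.sum_congr rfl
          intro g _
          split_ifs <;> ring
      _ = _ := by
          rw [h3]
          split_ifs <;> ring
  simp only [h2]
  rw [tsum_mul_left, ← mul_assoc, inv_mul_cancel₀ (cU_ne hS), one_mul]
  rfl

private theorem sum_D (hS : IsSys S) (m : S.J) (g : S.G) {w : ℂ} (hw : 1 < w.re) :
    ∑ c : S.G, S.B g c * S.D m c w = ∑' b : S.J, (∑ c : S.G, S.B g c *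
      (open Classical in if S.R b c then (S.hJ m b : ℂ) * S.sg m b c else 0)) *
        (S.nJ b : ℂ) ^ (-w) := by
  classical
  have h1 : ∀ c : S.G, S.B g c * S.D m c w = ∑' b : S.J, S.B g c *
      (if S.R b c then (S.hJ m b : ℂ) * S.sg m b c * (S.nJ b : ℂ) ^ (-w) else 0) := by
    intro c
    rw [tsum_mul_left]
    unfold SysD.D
    congr 1
  simp only [h1]
  rw [← Summable.tsum_finsetSum (fun c _ => (D_summable' hS m c hw).mul_left _)]
  apply tsum_congr
  intro b
  rw [Finset.sum_mul]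
  apply Finset.sum_congr rfl
  intro c _
  split_ifs <;> ring

theorem C_eq_D (hS : IsSys S) (m : S.J) (g : S.G) (hm : S.R m g) {w : ℂ} (hw : 1 < w.re) :
    S.C m g w = (S.cU : ℂ)⁻¹ * ∑ c : S.G, S.B g c * S.D m c w := by
  rw [sum_D hS m g hw]
  simp only [local_two hS m _ g hm]
  have h1 : ∀ b : S.J, (S.cU : ℂ) * ((S.hJ m b : ℂ) * S.ch m g b) * (S.nJ b : ℂ) ^ (-w) =
      (S.cU : ℂ) * ((S.hJ m b : ℂ) * S.ch m g b * (S.nJ b : ℂ) ^ (-w)) := fun b => by ring
  simp only [h1]
  rw [tsum_mul_left, ← mul_assoc, inv_mul_cancel₀ (cU_ne hS), one_mul]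
  rfl

theorem D_orth (hS : IsSys S) (m : S.J) (g : S.G) (hm : ¬ S.R m g) {w : ℂ} (hw : 1 < w.re) :
    ∑ c : S.G, S.B g c * S.D m c w = 0 := by
  rw [sum_D hS m g hw]
  simp only [local_three hS m _ g hm, zero_mul, tsum_zero]

end Pool.Agent.QD.SysD
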