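import Pool.Agent.QD.A.Defs
import Pool.Agent.QD.A.LocH
import Pool.Agent.QD.A.LocBd
import Pool.Agent.QD.A.EP

/-!
# QD-A09: basic facts on norms and global weights

PLAN. `nJ`, `odd` are products over the support (`Finsupp.prod`), `N v ≥ 101`.
`summable_nJ`: `ep_summable` with `f v j = N_v^(-j x)`; `∑_{j≥1} N^(-jx) ≤ 2 N^(-x)`.
`hJ_bd`: `hloc_bd` factorwise.  `sg`, `ch`: factors of norm `≤ 1` (`u_odd`, `u_even`).
`countJ`: `Countable (ι →₀ ℕ)` instance from `cnt`.
-/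

namespace Pool.Agent.QD.SysD

open Pool.Agent.QD

variable {S : SysD} (hS : IsSys S)

theorem nJ_pos (hS : IsSys S) (b : S.J) : 0 < S.nJ b := by
  unfold nJ Finsupp.prod
  refine Finset.prod_pos fun v _ => pow_pos ?_ _
  have := hS.hN v
  omega

theorem nJ_zero : S.nJ 0 = 1 := by
  unfold nJ
  rw [Finsupp.prod_zero_index]

theorem nJ_add (b c : S.J) : S.nJ (b + c) = S.nJ b * S.nJ c := by
  classical
  unfold nJ
  exact Finsupp.prod_add_index' (fun v => pow_zero _) (fun v k l => pow_add _ _ _)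

theorem nJ_two (f : S.J) : S.nJ (2 • f) = S.nJ f ^ 2 := by
  rw [two_smul, nJ_add, sq]

theorem odd_pos (hS : IsSys S) (b : S.J) : 0 < S.odd b := by
  unfold odd Finsupp.prod
  refine Finset.prod_pos fun v _ => ?_
  dsimp only
  split_ifs
  · have := hS.hN v
    omega
  · exact one_pos

theorem odd_le (hS : IsSys S) (b : S.J) : S.odd b ≤ S.nJ b := by
  unfold odd nJ Finsupp.prod
  refine Finset.prod_le_prod (fun v _ => Nat.zero_le _) fun v _ => ?_
  have h1 : 1 ≤ S.N v := by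
    have := hS.hN v
    omega
  dsimp only
  split_ifs with h
  · exact Nat.le_self_pow (Nat.pos_iff_ne_zero.1 h.pos) _
  · exact Nat.one_le_pow _ _ h1

/-- nontrivial ideals have norm at least `101` -/
theorem nJ_ge (hS : IsSys S) (b : S.J) (hb : b ≠ 0) : 101 ≤ S.nJ b := by
  obtain ⟨v, hv⟩ := Finsupp.ne_iff.1 hb
  rw [Finsupp.zero_apply] at hv
  have h1 : S.N v ^ b v ∣ S.nJ b := Finset.dvd_prod_of_mem _ (Finsupp.mem_support_iff.2 hv)
  have h2 := Nat.le_of_dvd (nJ_pos hS b) h1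
  have h3 := hS.hN v
  have h4 : S.N v ≤ S.N v ^ b v := Nat.le_self_pow hv _
  omega

/-- powers of the norm as products -/
theorem nJ_cpow (b : S.J) (s : ℂ) :
    (S.nJ b : ℂ) ^ s = ∏ v ∈ b.support, ((S.N v : ℂ) ^ s) ^ b v := by
  have h1 : ∀ (n k : ℕ), ((n ^ k : ℕ) : ℂ) ^ s = ((n : ℂ) ^ s) ^ k := by
    intro n k
    induction k with
    | zero => rw [pow_zero, pow_zero, Nat.cast_one, Complex.one_cpow]
    | succ k ih => rw [pow_succ, pow_succ, Nat.cast_mul, Complex.natCast_mul_natCast_cpow, ih]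
  have h2 : ∀ (t : Finset S.ι), ((∏ v ∈ t, S.N v ^ b v : ℕ) : ℂ) ^ s =
      ∏ v ∈ t, ((S.N v : ℂ) ^ s) ^ b v := by
    classical
    intro t
    induction t using Finset.induction_on with
    | empty => rw [Finset.prod_empty, Finset.prod_empty, Nat.cast_one, Complex.one_cpow]
    | insert a t ha ih =>
      rw [Finset.prod_insert ha, Finset.prod_insert ha, Nat.cast_mul,
        Complex.natCast_mul_natCast_cpow, ih, h1]
  exact h2 b.support

/-- real powers of the norm as products -/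
theorem nJ_rpow (b : S.J) (x : ℝ) :
    (S.nJ b : ℝ) ^ x = ∏ v ∈ b.support, ((S.N v : ℝ) ^ x) ^ b v := by
  have h1 : ∀ (n k : ℕ), ((n ^ k : ℕ) : ℝ) ^ x = ((n : ℝ) ^ x) ^ k := by
    intro n k
    induction k with
    | zero => rw [pow_zero, pow_zero, Nat.cast_one, Real.one_rpow]
    | succ k ih =>
      rw [pow_succ, pow_succ, Nat.cast_mul,
        Real.mul_rpow (Nat.cast_nonneg _) (Nat.cast_nonneg _), ih]
  have h2 : ∀ (t : Finset S.ι), ((∏ v ∈ t, S.N v ^ b v : ℕ) : ℝ) ^ x =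
      ∏ v ∈ t, ((S.N v : ℝ) ^ x) ^ b v := by
    classical
    intro t
    induction t using Finset.induction_on with
    | empty => rw [Finset.prod_empty, Finset.prod_empty, Nat.cast_one, Real.one_rpow]
    | insert a t ha ih =>
      rw [Finset.prod_insert ha, Finset.prod_insert ha, Nat.cast_mul,
        Real.mul_rpow (Nat.cast_nonneg _) (Nat.cast_nonneg _), ih, h1]
  exact h2 b.support

/-- a double geometric series -/
theorem glob_geo {ι : Type} {a : ι → ℝ} (h0 : ∀ v, 0 ≤ a v) (h1 : ∀ v, a v ≤ 1 / 2)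
    (hs : Summable a) : Summable fun p : ι × ℕ => a p.1 ^ (p.2 + 1) := by
  rw [summable_prod_of_nonneg (fun p => pow_nonneg (h0 p.1) _)]
  refine ⟨fun v => ?_, ?_⟩
  · exact (summable_nat_add_iff 1).2
      (summable_geometric_of_lt_one (h0 v) (by linarith [h1 v]))
  · refine Summable.of_nonneg_of_le (fun v => tsum_nonneg fun j => pow_nonneg (h0 v) _)
      (fun v => ?_) (hs.mul_left 2)
    have h2 : ∑' j : ℕ, a v ^ (j + 1) = a v * (1 - a v)⁻¹ := by
      rw [← tsum_geometric_of_lt_one (h0 v) (by linarith [h1 v]), ← tsum_mul_left]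
      exact tsum_congr fun j => pow_succ' _ _
    show ∑' j : ℕ, a v ^ (j + 1) ≤ 2 * a v
    rw [h2, mul_comm]
    have h3 : (1 - a v)⁻¹ ≤ 2 := by
      rw [inv_le_comm₀ (by linarith [h1 v]) two_pos]
      linarith [h1 v]
    exact mul_le_mul_of_nonneg_right h3 (h0 v)

/-- small powers of the norm -/
theorem glob_small (hS : IsSys S) (v : S.ι) {x : ℝ} (hx : 1 ≤ x) : (S.N v : ℝ) ^ (-x) ≤ 1 / 2 := by
  have h1 : (101 : ℝ) ≤ S.N v := by exact_mod_cast hS.hN v
  have h2 : (S.N v : ℝ) ^ (-x) ≤ (S.N v : ℝ) ^ (-(1 : ℝ)) :=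
    Real.rpow_le_rpow_of_exponent_le (by linarith) (by linarith)
  rw [Real.rpow_neg_one] at h2
  have h3 : ((S.N v : ℝ))⁻¹ ≤ (2 : ℝ)⁻¹ := inv_anti₀ two_pos (by linarith)
  linarith

theorem summable_nJ (hS : IsSys S) {x : ℝ} (hx : 1 < x) :
    Summable fun b : S.J => (S.nJ b : ℝ) ^ (-x) := by
  classical
  have hnn : ∀ v : S.ι, 0 ≤ (S.N v : ℝ) ^ (-x) := fun v => Real.rpow_nonneg (Nat.cast_nonneg _) _
  have h1 := ep_summable (fun (v : S.ι) (j : ℕ) => ((((S.N v : ℝ) ^ (-x)) ^ j : ℝ) : ℂ))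
    (fun v => by rw [pow_zero, Complex.ofReal_one]) (by
      have h2 := glob_geo hnn (fun v => glob_small hS v hx.le) (hS.sumN x hx)
      refine h2.congr fun p => ?_
      rw [Complex.norm_real, Real.norm_of_nonneg (pow_nonneg (hnn _) _)])
  refine h1.congr fun m => ?_
  rw [nJ_rpow, norm_prod]
  refine Finset.prod_congr rfl fun v _ => ?_
  rw [Complex.norm_real, Real.norm_of_nonneg (pow_nonneg (hnn _) _)]

theorem hJ_bd (hS : IsSys S) (m b : S.J) : |S.hJ m b| ≤ (S.nJ m : ℝ) ^ (2 : ℝ) := by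
  unfold hJ
  rw [Finset.abs_prod, nJ_rpow]
  refine Finset.prod_le_prod (fun v _ => abs_nonneg _) fun v _ => ?_
  have h1 : (101 : ℝ) ≤ S.N v := by exact_mod_cast hS.hN v
  refine (hloc_bd h1 (hS.hlam v) (m v) (b v)).trans (le_of_eq ?_)
  rw [pow_mul, Real.rpow_two]

/-- weights vanish if there is a place where both exponents are odd -/
theorem hJ_odd (m b : S.J) (h : ∃ v, Odd (m v) ∧ Odd (b v)) : S.hJ m b = 0 := by
  obtain ⟨v, h1, h2⟩ := h
  refine Finset.prod_eq_zero (Finsupp.mem_support_iff.2 ?_) (hloc_odd _ _ h1 h2)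
  exact Nat.pos_iff_ne_zero.1 h1.pos

theorem u_norm (hS : IsSys S) (v : S.ι) (b : S.J) (c : S.G) (h : S.R b c) :
    ‖S.u v b c‖ ≤ 1 := by
  rcases Nat.even_or_odd (b v) with h1 | h1
  · rcases hS.u_even v b c h h1 with h2 | h2
    · rw [h2, norm_one]
    · rw [h2, norm_neg, norm_one]
  · rw [hS.u_odd v b c h h1, norm_zero]
    exact zero_le_one

theorem sg_norm (hS : IsSys S) (m b : S.J) (c : S.G) (h : S.R b c) : ‖S.sg m b c‖ ≤ 1 := by
  unfold sg
  rw [norm_prod]
  refine Finset.prod_le_one (fun v _ => norm_nonneg _) fun v _ => ?_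
  split_ifs
  · exact u_norm hS v b c h
  · rw [norm_one]

theorem ch_norm (hS : IsSys S) (m : S.J) (g : S.G) (b : S.J) (h : S.R m g) :
    ‖S.ch m g b‖ ≤ 1 := by
  unfold ch
  rw [norm_prod]
  refine Finset.prod_le_one (fun v _ => norm_nonneg _) fun v _ => ?_
  split_ifs
  · exact u_norm hS v m g h
  · rw [norm_one]

end Pool.Agent.QD.SysD
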