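import Pool.Agent.QD.A.Pole
import Pool.Agent.QD.A.Bd2

/-!
# QD-A19: region 1

PLAN. Term bound: `‖nJ m^(-s) DD m c w‖ ≤ C nJ m^(max A1 (5/2 - Re w) - Re s) (1+|Im w|)^A`,
`w = t - s + 1/2`; exponent `≤ -2`: `A1 - Re s ≤ -4`; `5/2 - Re w - Re s = 2 - Re t ≤ -4`.
`summable_nJ` with `x = 2`.  For holomorphy in `t` (resp. `s`) use
`Complex.differentiableOn_tsum_of_summable_norm` on the intersections with bounded open sets (the constant
`C (1 + |Im w|)^A` depends on the bound `W` for `|Re w|` and is locally bounded), locality of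
differentiability; or `DifferentiableOn` via `AnalyticOnNhd`/`TendstoLocallyUniformlyOn`.
`T.Lo` is differentiable on `Om`, `Ls` on `Re s > 3/2`.
Bound `F1_bd`: `t` ranges in a bounded set whose closure is compact in `Om`, so `‖Lo t‖ ≤ C`
(`Lo` is continuous on the compact set `{|Im (t-t0)| ≤ r/2, Re t0 - r/2 ≤ Re t ≤ R1} ⊆ Om`),
`|Im w| ≤ C + |Im s|`.
-/

namespace Pool.Agent.QD.SysD

open Pool.Agent.QD

variable {S : SysD} {T : PoleD}

/-- bound for `DD` with exponent `A1` -/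
def DDB (S : SysD) (A1 : ℝ) : Prop := 2 ≤ A1 ∧ ∀ W : ℝ, ∃ A C : ℝ, 0 ≤ A ∧ 0 ≤ C ∧
    ∀ (m : S.J) (c : S.G) (w : ℂ), |w.re| ≤ W →
      ‖S.DD m c w‖ ≤ C * (S.nJ m : ℝ) ^ (max A1 (5 / 2 - w.re)) * (1 + |w.im|) ^ A

/-- `Lo` is bounded on the relatively compact parts -/
theorem Lo_bd (hT : IsPole S T) (R1 : ℝ) : ∃ C : ℝ, 0 ≤ C ∧ ∀ t ∈ T.OmR R1, ‖T.Lo t‖ ≤ C := by
  have hr := hT.hr
  have hK : IsCompact (Set.Icc (T.t0.re - T.r / 2) R1 ×ℂ Set.Icc (T.t0.im - T.r / 2) (T.t0.im + T.r / 2)) :=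
    isCompact_Icc.reProdIm isCompact_Icc
  have hsub : (Set.Icc (T.t0.re - T.r / 2) R1 ×ℂ Set.Icc (T.t0.im - T.r / 2) (T.t0.im + T.r / 2)) ⊆ T.Om := by
    intro t ht
    rw [Complex.mem_reProdIm] at ht
    obtain ⟨⟨h1, h2⟩, ⟨h3, h4⟩⟩ := ht
    refine ⟨?_, by linarith⟩
    rw [Complex.sub_im, abs_lt]
    constructor <;> linarith
  obtain ⟨C, hC⟩ := hK.exists_bound_of_continuousOn (hT.diff.continuousOn.mono hsub)
  refine ⟨max C 0, le_max_right _ _, fun t ht => (hC t ?_).trans (le_max_left _ _)⟩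
  rw [Complex.mem_reProdIm]
  obtain ⟨h1, h2, h3⟩ := ht
  rw [Complex.sub_im, abs_lt] at h1
  exact ⟨⟨h2.le, h3.le⟩, ⟨by linarith [h1.1], by linarith [h1.2]⟩⟩

/-- the bound of the terms of the sum over `m` -/
private theorem term_bd (hS : IsSys S) {A1 : ℝ} (hA : DDB S A1) (W : ℝ) : ∃ A C : ℝ, 0 ≤ A ∧ 0 ≤ C ∧
    ∀ (c : S.G) (s t : ℂ), A1 + 4 ≤ s.re → 6 ≤ t.re → |(t - s + 1 / 2).re| ≤ W → ∀ m : S.J,
      ‖(S.nJ m : ℂ) ^ (-s) * S.DD m c (t - s + 1 / 2)‖ ≤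
        C * (1 + |(t - s + 1 / 2).im|) ^ A * (S.nJ m : ℝ) ^ (-(2 : ℝ)) := by
  obtain ⟨A, C, hA0, hC0, h⟩ := hA.2 W
  refine ⟨A, C, hA0, hC0, fun c s t hs ht hw m => ?_⟩
  have hn : 0 < S.nJ m := nJ_pos hS m
  have hn1 : (1 : ℝ) ≤ S.nJ m := by exact_mod_cast hn
  have hnr : (0 : ℝ) < S.nJ m := by linarith
  have h1 := h m c _ hw
  have h2 : ‖(S.nJ m : ℂ) ^ (-s)‖ = (S.nJ m : ℝ) ^ (-s.re) := by
    rw [Complex.norm_natCast_cpow_of_pos hn, Complex.neg_re]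
  have h3 : (t - s + 1 / 2).re = t.re - s.re + 1 / 2 := by
    rw [Complex.add_re, Complex.sub_re]
    norm_num
  have h4 : -s.re + max A1 (5 / 2 - (t - s + 1 / 2).re) ≤ -(2 : ℝ) := by
    rw [h3]
    rcases max_cases A1 (5 / 2 - (t.re - s.re + 1 / 2)) with ⟨h5, _⟩ | ⟨h5, _⟩ <;> rw [h5] <;> linarith
  rw [norm_mul, h2]
  calc (S.nJ m : ℝ) ^ (-s.re) * ‖S.DD m c (t - s + 1 / 2)‖
      ≤ (S.nJ m : ℝ) ^ (-s.re) * (C * (S.nJ m : ℝ) ^ (max A1 (5 / 2 - (t - s + 1 / 2).re)) *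
          (1 + |(t - s + 1 / 2).im|) ^ A) :=
        mul_le_mul_of_nonneg_left h1 (Real.rpow_nonneg hnr.le _)
    _ = C * (1 + |(t - s + 1 / 2).im|) ^ A *
        (S.nJ m : ℝ) ^ (-s.re + max A1 (5 / 2 - (t - s + 1 / 2).re)) := by
        rw [Real.rpow_add hnr]; ring
    _ ≤ _ := by
        apply mul_le_mul_of_nonneg_left (Real.rpow_le_rpow_of_exponent_le hn1 h4)
        exact mul_nonneg hC0 (Real.rpow_nonneg (by positivity) _)

theorem F1_summable (hS : IsSys S) {A1 : ℝ} (hA : DDB S A1) (c : S.G) {s t : ℂ}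
    (hs : A1 + 4 ≤ s.re) (ht : 6 ≤ t.re) :
    Summable fun m : S.J => ‖(S.nJ m : ℂ) ^ (-s) * S.DD m c (t - s + 1 / 2)‖ := by
  obtain ⟨A, C, _, _, h⟩ := term_bd hS hA |(t - s + 1 / 2).re|
  exact Summable.of_nonneg_of_le (fun m => norm_nonneg _) (fun m => h c s t hs ht le_rfl m)
    ((summable_nJ hS one_lt_two).mul_left _)

private theorem nJ_cpow_diff (hS : IsSys S) (m : S.J) {σ : ℂ → ℂ} (hσ : Differentiable ℂ σ) :
    Differentiable ℂ fun z => (S.nJ m : ℂ) ^ (-σ z) := by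
  have hn : (S.nJ m : ℂ) ≠ 0 := by exact_mod_cast (nJ_pos hS m).ne'
  exact hσ.neg.const_cpow (Or.inl hn)

/-- the sum over `m` is holomorphic -/
private theorem tsum_diff (hS : IsSys S) {A1 : ℝ} (hA : DDB S A1) (c : S.G) {σ τ : ℂ → ℂ}
    (hσ : Differentiable ℂ σ) (hτ : Differentiable ℂ τ) {U : Set ℂ} (hU : IsOpen U)
    (h : ∀ z ∈ U, A1 + 4 ≤ (σ z).re ∧ 6 ≤ (τ z).re) {z0 : ℂ} (hz0 : z0 ∈ U) :
    DifferentiableAt ℂ (fun z => ∑' m : S.J, (S.nJ m : ℂ) ^ (-σ z) * S.DD m c (τ z - σ z + 1 / 2)) z0 := by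
  have hw : Differentiable ℂ fun z => τ z - σ z + 1 / 2 := (hτ.sub hσ).add_const _
  set W : ℝ := ‖τ z0 - σ z0 + 1 / 2‖ + 1 with hW
  have hV : IsOpen {z : ℂ | ‖τ z - σ z + 1 / 2‖ < W} :=
    isOpen_lt hw.continuous.norm continuous_const
  obtain ⟨A, C, hA0, hC0, hb⟩ := term_bd hS hA W
  have hd : DifferentiableOn ℂ
      (fun z => ∑' m : S.J, (S.nJ m : ℂ) ^ (-σ z) * S.DD m c (τ z - σ z + 1 / 2))
      (U ∩ {z : ℂ | ‖τ z - σ z + 1 / 2‖ < W}) := by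
    refine Complex.differentiableOn_tsum_of_summable_norm
      (u := fun m : S.J => C * (1 + W) ^ A * (S.nJ m : ℝ) ^ (-(2 : ℝ)))
      ((summable_nJ hS one_lt_two).mul_left _) (fun m => ?_) (hU.inter hV) (fun m z hz => ?_)
    · exact ((nJ_cpow_diff hS m hσ).mul ((DD_diff hS m c).comp hw)).differentiableOn
    · have hz2 : ‖τ z - σ z + 1 / 2‖ < W := hz.2
      have h1 := hb c (σ z) (τ z) (h z hz.1).1 (h z hz.1).2
        ((Complex.abs_re_le_norm _).trans hz2.le) m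
      refine h1.trans ?_
      apply mul_le_mul_of_nonneg_right _ (Real.rpow_nonneg (by positivity) _)
      apply mul_le_mul_of_nonneg_left _ hC0
      apply Real.rpow_le_rpow (by positivity) _ hA0
      linarith [(Complex.abs_im_le_norm (τ z - σ z + 1 / 2))]
  refine hd.differentiableAt ((hU.inter hV).mem_nhds ⟨hz0, ?_⟩)
  change ‖τ z0 - σ z0 + 1 / 2‖ < W
  rw [hW]; linarith

theorem F1_diff_t (hS : IsSys S) (hT : IsPole S T) {A1 : ℝ} (hA : DDB S A1) (c : S.G) {s : ℂ}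
    (hs : A1 + 4 ≤ s.re) :
    DifferentiableOn ℂ (fun t => S.F1 T c s t) (T.Om ∩ {t : ℂ | 6 < t.re}) := by
  unfold F1
  have hU : IsOpen {t : ℂ | 6 < t.re} := isOpen_lt continuous_const Complex.continuous_re
  intro t ht
  have h1 : DifferentiableWithinAt ℂ
      (fun t => ∑' m : S.J, (S.nJ m : ℂ) ^ (-s) * S.DD m c (t - s + 1 / 2))
      (T.Om ∩ {t : ℂ | 6 < t.re}) t :=
    (tsum_diff hS hA c (σ := fun _ => s) (τ := fun z => z) (differentiable_const _) differentiable_id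
      hU (fun z hz => ⟨hs, (show (6 : ℝ) < z.re from hz).le⟩) ht.2).differentiableWithinAt
  have h2 : DifferentiableWithinAt ℂ (fun t => (t - T.t0) ^ T.k) (T.Om ∩ {t : ℂ | 6 < t.re}) t :=
    ((differentiableAt_id.sub_const _).pow _).differentiableWithinAt
  have h3 : DifferentiableWithinAt ℂ T.Lo (T.Om ∩ {t : ℂ | 6 < t.re}) t :=
    (hT.diff t ht.1).mono Set.inter_subset_left
  exact ((h2.mul h3).mul_const _).mul h1

theorem F1_diff_s (hS : IsSys S) (hT : IsPole S T) {A1 : ℝ} (hA : DDB S A1) (c : S.G) {t : ℂ}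
    (ht : 6 ≤ t.re) :
    DifferentiableOn ℂ (fun s => S.F1 T c s t) {s : ℂ | A1 + 4 < s.re} := by
  unfold F1
  have hU : IsOpen {s : ℂ | A1 + 4 < s.re} := isOpen_lt continuous_const Complex.continuous_re
  have hU2 : IsOpen {s : ℂ | 3 / 2 < s.re} := isOpen_lt continuous_const Complex.continuous_re
  have hA1 : 2 ≤ A1 := hA.1
  intro s hs
  have hs' : A1 + 4 < s.re := hs
  have h1 : DifferentiableAt ℂ
      (fun s => ∑' m : S.J, (S.nJ m : ℂ) ^ (-s) * S.DD m c (t - s + 1 / 2)) s :=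
    tsum_diff hS hA c (σ := fun z => z) (τ := fun _ => t) differentiable_id (differentiable_const _)
      hU (fun z hz => ⟨(show A1 + 4 < z.re from hz).le, ht⟩) hs
  have h2 : DifferentiableAt ℂ S.Ls s :=
    (Ls_diff hS).differentiableAt (hU2.mem_nhds (show 3 / 2 < s.re by linarith))
  exact ((h2.const_mul _).mul h1).differentiableWithinAt

theorem F1_bd (hS : IsSys S) (hT : IsPole S T) {A1 : ℝ} (hA : DDB S A1) {b : ℝ}
    (hb : A1 + 4 ≤ b) (R1 : ℝ) : ∃ A C : ℝ, 0 ≤ A ∧ 0 ≤ C ∧ ∀ (c : S.G) (s t : ℂ), s.re = b →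
      t ∈ T.OmR R1 → 6 ≤ t.re → ‖S.F1 T c s t‖ ≤ C * (1 + |s.im|) ^ A := by
  have hA1 : 2 ≤ A1 := hA.1
  have hr := hT.hr
  obtain ⟨CL, hCL0, hCL⟩ := Lo_bd hT R1
  obtain ⟨Cs, hCs0, hCs⟩ := Ls_bd hS (show (3 / 2 : ℝ) < 2 by norm_num)
  obtain ⟨A, C, hA0, hC0, h⟩ := term_bd hS hA (|R1| + |b| + 1)
  have hsum := summable_nJ hS one_lt_two
  set T0 : ℝ := ∑' m : S.J, (S.nJ m : ℝ) ^ (-(2 : ℝ)) with hTd
  have hTn : 0 ≤ T0 := tsum_nonneg fun m => Real.rpow_nonneg (by positivity) _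
  set B0 : ℝ := |T.t0.im| + T.r with hB0
  have hB0n : 0 ≤ B0 := by positivity
  set B1 : ℝ := |R1| + |T.t0.re| + T.r with hB1
  have hB1n : 0 ≤ B1 := by positivity
  refine ⟨A, B1 ^ T.k * CL * Cs * (C * (1 + B0) ^ A * T0), hA0, by positivity,
    fun c s t hs ht ht6 => ?_⟩
  obtain ⟨h1, h2, h3⟩ := ht
  have hRe : |t.re| ≤ |R1| := by
    rw [abs_of_nonneg (by linarith)]
    exact h3.le.trans (le_abs_self _)
  have hIm : |t.im| ≤ B0 := by
    have h4 : |t.im| ≤ |(t - T.t0).im| + |T.t0.im| := by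
      have : t.im = (t - T.t0).im + T.t0.im := by rw [Complex.sub_im]; ring
      calc |t.im| = |(t - T.t0).im + T.t0.im| := by rw [← this]
        _ ≤ _ := abs_add_le _ _
    rw [hB0]; linarith
  have hwre : (t - s + 1 / 2).re = t.re - s.re + 1 / 2 := by
    rw [Complex.add_re, Complex.sub_re]; norm_num
  have hwim : (t - s + 1 / 2).im = t.im - s.im := by
    rw [Complex.add_im, Complex.sub_im]; norm_num
  have hw1 : |(t - s + 1 / 2).re| ≤ |R1| + |b| + 1 := by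
    rw [hwre, hs]
    calc |t.re - b + 1 / 2| ≤ |t.re - b| + |(1 / 2 : ℝ)| := abs_add_le _ _
      _ ≤ |t.re| + |b| + |(1 / 2 : ℝ)| := by gcongr; exact abs_sub _ _
      _ ≤ _ := by
        have : |(1 / 2 : ℝ)| = 1 / 2 := abs_of_pos (by norm_num)
        linarith
  have hw2 : 1 + |(t - s + 1 / 2).im| ≤ (1 + B0) * (1 + |s.im|) := by
    rw [hwim]
    have h5 : |t.im - s.im| ≤ |t.im| + |s.im| := abs_sub _ _
    have h6 : 0 ≤ B0 * |s.im| := by positivity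
    nlinarith
  have hpow : (1 + |(t - s + 1 / 2).im|) ^ A ≤ (1 + B0) ^ A * (1 + |s.im|) ^ A := by
    rw [← Real.mul_rpow (by positivity) (by positivity)]
    exact Real.rpow_le_rpow (by positivity) hw2 hA0
  have hts : ‖∑' m : S.J, (S.nJ m : ℂ) ^ (-s) * S.DD m c (t - s + 1 / 2)‖ ≤
      C * (1 + B0) ^ A * T0 * (1 + |s.im|) ^ A := by
    have h7 : ∀ m : S.J, ‖(S.nJ m : ℂ) ^ (-s) * S.DD m c (t - s + 1 / 2)‖ ≤
        C * (1 + |(t - s + 1 / 2).im|) ^ A * (S.nJ m : ℝ) ^ (-(2 : ℝ)) :=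
      h c s t (by rw [hs]; exact hb) ht6 hw1
    calc ‖∑' m : S.J, (S.nJ m : ℂ) ^ (-s) * S.DD m c (t - s + 1 / 2)‖
        ≤ ∑' m : S.J, C * (1 + |(t - s + 1 / 2).im|) ^ A * (S.nJ m : ℝ) ^ (-(2 : ℝ)) :=
          tsum_of_norm_bounded (hsum.mul_left _).hasSum h7
      _ = C * (1 + |(t - s + 1 / 2).im|) ^ A * T0 := by rw [tsum_mul_left]
      _ ≤ C * ((1 + B0) ^ A * (1 + |s.im|) ^ A) * T0 := by gcongr
      _ = _ := by ring
  have htk : ‖(t - T.t0) ^ T.k‖ ≤ B1 ^ T.k := by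
    rw [norm_pow]
    apply pow_le_pow_left₀ (norm_nonneg _)
    calc ‖t - T.t0‖ ≤ |(t - T.t0).re| + |(t - T.t0).im| := Complex.norm_le_abs_re_add_abs_im _
      _ ≤ (|t.re| + |T.t0.re|) + T.r := by
        gcongr
        · rw [Complex.sub_re]; exact abs_sub _ _
        · linarith
      _ ≤ B1 := by rw [hB1]; linarith
  have hLs : ‖S.Ls s‖ ≤ Cs := hCs s (by linarith)
  have hLo : ‖T.Lo t‖ ≤ CL := hCL t ⟨h1, h2, h3⟩
  unfold F1
  rw [norm_mul, norm_mul, norm_mul]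
  calc ‖(t - T.t0) ^ T.k‖ * ‖T.Lo t‖ * ‖S.Ls s‖ *
        ‖∑' m : S.J, (S.nJ m : ℂ) ^ (-s) * S.DD m c (t - s + 1 / 2)‖
      ≤ B1 ^ T.k * CL * Cs * (C * (1 + B0) ^ A * T0 * (1 + |s.im|) ^ A) := by gcongr
    _ = _ := by ring

end Pool.Agent.QD.SysD
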