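import Pool.Agent.QD.A.In2
import Pool.Agent.QD.A.Reg1

/-!
# QD-A21: region 2

PLAN. `w = t - s + 1/2`, `1 - w = s - t + 1/2`, so `Re (1-w) > W2 ≥ 2` and `Re w < 0` for
`Re t < 8`, `Re s ≥ W2 + 8`.  Products and finite sums of differentiable functions: `Z1_diff`
(`Re (1-w) > 1`), `M_diff`, `In2B.diff_t`, `In2B.diff_z` composed with affine maps.
Bound: `‖w - 1‖^2 ≤ C (1+|Im s|)^2`, `Z1_bd`, `Ls_bd`, `M_bd` on the strip
`b' ≤ Re w ≤ -1` (`Re t` bounded).
-/
namespace Pool.Agent.QD.SysD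

open Pool.Agent.QD

variable {S : SysD} {T : PoleD}

private theorem r2_re1 {s t : ℂ} : (1 - (t - s + 1 / 2)).re = s.re - t.re + 1 / 2 := by
  simp only [Complex.sub_re, Complex.add_re, Complex.one_re, Complex.div_ofNat_re]
  ring

private theorem r2_re2 {s t : ℂ} : (t - s + 1 / 2).re = t.re - s.re + 1 / 2 := by
  simp only [Complex.sub_re, Complex.add_re, Complex.one_re, Complex.div_ofNat_re]

private theorem r2_im2 {s t : ℂ} : (t - s + 1 / 2).im = t.im - s.im := by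
  simp [Complex.sub_im, Complex.add_im]

theorem F2_diff_t (hS : IsSys S) (hT : IsPole S T) {W2 C : ℝ} (h : In2B S T W2 C) (c : S.G)
    {s : ℂ} (hs : W2 + 8 ≤ s.re) : DifferentiableOn ℂ (fun t => S.F2 T c s t) (T.OmR 8) := by
  have h2 := h.two
  have hre : ∀ t ∈ T.OmR 8, W2 < (1 - (t - s + 1 / 2)).re := by
    intro t ht
    rw [r2_re1]
    have := ht.2.2
    linarith
  have hz : DifferentiableOn ℂ (fun t : ℂ => S.Z1 (1 - (t - s + 1 / 2))) (T.OmR 8) := by
    refine (Z1_diff hS).comp (f := fun t : ℂ => 1 - (t - s + 1 / 2)) (by fun_prop) ?_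
    intro t ht
    have := hre t ht
    show (1 : ℝ) < (1 - (t - s + 1 / 2)).re
    linarith
  have hM : ∀ g, DifferentiableOn ℂ (fun t : ℂ => S.M g (t - s + 1 / 2)) (T.OmR 8) := by
    intro g
    refine (M_diff hS g).comp (f := fun t : ℂ => (t - s + 1 / 2)) (by fun_prop) ?_
    intro t ht
    have := ht.2.2
    show (t - s + 1 / 2).re < 0
    rw [r2_re2]
    linarith
  have hI : ∀ c', DifferentiableOn ℂ (fun t : ℂ => S.In2 T c' (1 - (t - s + 1 / 2)) t)
      (T.OmR 8) := fun c' => (h.diff_t c' s).mono fun t ht => ⟨ht, hre t ht⟩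
  unfold F2
  refine DifferentiableOn.mul (DifferentiableOn.mul (DifferentiableOn.mul
    (DifferentiableOn.mul (by fun_prop) hz) (by fun_prop)) (by fun_prop)) ?_
  exact DifferentiableOn.fun_sum fun c' _ => (hM (c * c')).mul (hI c')

theorem F2_diff_s (hS : IsSys S) (hT : IsPole S T) {W2 C : ℝ} (h : In2B S T W2 C) (c : S.G)
    {t : ℂ} (ht : t ∈ T.OmR 8) :
    DifferentiableOn ℂ (fun s => S.F2 T c s t) {s : ℂ | W2 + 8 < s.re} := by
  have h2 := h.two
  have ht8 := ht.2.2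
  have hre : ∀ s ∈ {s : ℂ | W2 + 8 < s.re}, W2 < (1 - (t - s + 1 / 2)).re := by
    intro s hs
    rw [r2_re1]
    have hs' : W2 + 8 < s.re := hs
    linarith
  have hz : DifferentiableOn ℂ (fun s : ℂ => S.Z1 (1 - (t - s + 1 / 2)))
      {s : ℂ | W2 + 8 < s.re} := by
    refine (Z1_diff hS).comp (f := fun s : ℂ => 1 - (t - s + 1 / 2)) (by fun_prop) ?_
    intro s hs
    have := hre s hs
    show (1 : ℝ) < (1 - (t - s + 1 / 2)).re
    linarith
  have hM : ∀ g, DifferentiableOn ℂ (fun s : ℂ => S.M g (t - s + 1 / 2))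
      {s : ℂ | W2 + 8 < s.re} := by
    intro g
    refine (M_diff hS g).comp (f := fun s : ℂ => (t - s + 1 / 2)) (by fun_prop) ?_
    intro s hs
    have hs' : W2 + 8 < s.re := hs
    show (t - s + 1 / 2).re < 0
    rw [r2_re2]
    linarith
  have hL : DifferentiableOn ℂ S.Ls {s : ℂ | W2 + 8 < s.re} :=
    (Ls_diff hS).mono fun s hs => by
      have hs' : W2 + 8 < s.re := hs
      show (3 / 2 : ℝ) < s.re
      linarith
  have hI : ∀ c', DifferentiableOn ℂ (fun s : ℂ => S.In2 T c' (1 - (t - s + 1 / 2)) t)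
      {s : ℂ | W2 + 8 < s.re} := by
    intro c'
    exact (h.diff_z c' t ht).comp (f := fun s : ℂ => 1 - (t - s + 1 / 2)) (by fun_prop)
      (fun s hs => hre s hs)
  unfold F2
  refine DifferentiableOn.mul (DifferentiableOn.mul (DifferentiableOn.mul
    (DifferentiableOn.mul (by fun_prop) hz) hL) (by fun_prop)) ?_
  exact DifferentiableOn.fun_sum fun c' _ => (hM (c * c')).mul (hI c')

/-- polynomial bound in `Im s` on the line `Re s = b` -/
private def R2B (T : PoleD) (b : ℝ) (f : ℂ → ℂ → ℂ) : Prop :=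
  ∃ A C : ℝ, 0 ≤ A ∧ 0 ≤ C ∧ ∀ s t : ℂ, s.re = b → t ∈ T.OmR 8 → ‖f s t‖ ≤ C * (1 + |s.im|) ^ A

private theorem r2b_bdd {b : ℝ} {f : ℂ → ℂ → ℂ} (C : ℝ)
    (h : ∀ s t : ℂ, s.re = b → t ∈ T.OmR 8 → ‖f s t‖ ≤ C) : R2B T b f := by
  refine ⟨0, max C 0, le_rfl, le_max_right _ _, fun s t hs ht => ?_⟩
  rw [Real.rpow_zero, mul_one]
  exact (h s t hs ht).trans (le_max_left _ _)

private theorem r2b_mul {b : ℝ} {f g : ℂ → ℂ → ℂ} (hf : R2B T b f) (hg : R2B T b g) :
    R2B T b (fun s t => f s t * g s t) := by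
  obtain ⟨A1, C1, hA1, hC1, h1⟩ := hf
  obtain ⟨A2, C2, hA2, hC2, h2⟩ := hg
  refine ⟨A1 + A2, C1 * C2, by positivity, by positivity, fun s t hs ht => ?_⟩
  have hx : 0 < 1 + |s.im| := by positivity
  rw [norm_mul, Real.rpow_add hx]
  calc ‖f s t‖ * ‖g s t‖ ≤ (C1 * (1 + |s.im|) ^ A1) * (C2 * (1 + |s.im|) ^ A2) :=
        mul_le_mul (h1 s t hs ht) (h2 s t hs ht) (norm_nonneg _) (by positivity)
    _ = C1 * C2 * ((1 + |s.im|) ^ A1 * (1 + |s.im|) ^ A2) := by ring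

private theorem r2b_le {x A A' C C' : ℝ} (hx : 1 ≤ x) (hA : A ≤ A') (hC : 0 ≤ C) (hCC : C ≤ C') :
    C * x ^ A ≤ C' * x ^ A' :=
  mul_le_mul hCC (Real.rpow_le_rpow_of_exponent_le hx hA) (by positivity) (hC.trans hCC)

private theorem r2b_add {b : ℝ} {f g : ℂ → ℂ → ℂ} (hf : R2B T b f) (hg : R2B T b g) :
    R2B T b (fun s t => f s t + g s t) := by
  obtain ⟨A1, C1, hA1, hC1, h1⟩ := hf
  obtain ⟨A2, C2, hA2, hC2, h2⟩ := hg
  refine ⟨A1 + A2, C1 + C2, by positivity, by positivity, fun s t hs ht => ?_⟩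
  have hx : 1 ≤ 1 + |s.im| := by linarith [abs_nonneg s.im]
  have e1 := (h1 s t hs ht).trans (r2b_le hx (by linarith : A1 ≤ A1 + A2) hC1 le_rfl)
  have e2 := (h2 s t hs ht).trans (r2b_le hx (by linarith : A2 ≤ A1 + A2) hC2 le_rfl)
  calc ‖f s t + g s t‖ ≤ ‖f s t‖ + ‖g s t‖ := norm_add_le _ _
    _ ≤ C1 * (1 + |s.im|) ^ (A1 + A2) + C2 * (1 + |s.im|) ^ (A1 + A2) := add_le_add e1 e2
    _ = (C1 + C2) * (1 + |s.im|) ^ (A1 + A2) := by ring

private theorem r2b_sum {b : ℝ} {ι : Type*} (u : Finset ι) {f : ι → ℂ → ℂ → ℂ}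
    (hf : ∀ i ∈ u, R2B T b (f i)) : R2B T b (fun s t => ∑ i ∈ u, f i s t) := by
  classical
  induction u using Finset.induction_on with
  | empty => exact r2b_bdd 0 (fun s t _ _ => by simp)
  | insert a u ha ih =>
    have h1 := r2b_add (hf a (Finset.mem_insert_self a u))
      (ih fun i hi => hf i (Finset.mem_insert_of_mem hi))
    simpa only [Finset.sum_insert ha] using h1

theorem F2_bd (hS : IsSys S) (hT : IsPole S T) {W2 C : ℝ} (h : In2B S T W2 C) {b : ℝ}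
    (hb : W2 + 8 ≤ b) : ∃ A C : ℝ, 0 ≤ A ∧ 0 ≤ C ∧ ∀ (c : S.G) (s t : ℂ), s.re = b →
      t ∈ T.OmR 8 → ‖S.F2 T c s t‖ ≤ C * (1 + |s.im|) ^ A := by
  have h2 := h.two
  have hr := hT.hr
  have htim : ∀ t ∈ T.OmR 8, |t.im| ≤ |T.t0.im| + T.r := by
    intro t ht
    have h1 := ht.1
    rw [Complex.sub_im] at h1
    have h3 : |t.im| ≤ |t.im - T.t0.im| + |T.t0.im| := by
      have := abs_add_le (t.im - T.t0.im) T.t0.im
      simpa using this
    linarith
  have htre : ∀ t ∈ T.OmR 8, |t.re| ≤ |T.t0.re| + T.r + 8 := by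
    intro t ht
    have h1 := ht.2.1
    have h3 := ht.2.2
    have h4 := neg_abs_le T.t0.re
    have h5 := abs_nonneg T.t0.re
    rw [abs_le]
    constructor <;> linarith
  -- the factor `(w - 1)^2`
  have hw : R2B T b (fun s t => (t - s + 1 / 2 - 1)) := by
    refine ⟨1, (|T.t0.re| + T.r + 8 + |b| + 1 / 2) + (|T.t0.im| + T.r) + 1, zero_le_one,
      by positivity, fun s t hs ht => ?_⟩
    have e1 := Complex.norm_le_abs_re_add_abs_im (t - s + 1 / 2 - 1)
    have e2 : |(t - s + 1 / 2 - 1).re| ≤ |T.t0.re| + T.r + 8 + |b| + 1 / 2 := by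
      have e3 : (t - s + 1 / 2 - 1).re = t.re - b - 1 / 2 := by
        rw [Complex.sub_re, r2_re2, hs, Complex.one_re]; ring
      rw [e3]
      have e4 := htre t ht
      have e5 := abs_sub (t.re - b) (1 / 2)
      have e6 := abs_sub t.re b
      have e7 : |(1 / 2 : ℝ)| = 1 / 2 := by norm_num
      linarith
    have e3 : |(t - s + 1 / 2 - 1).im| ≤ |T.t0.im| + T.r + |s.im| := by
      have e4 : (t - s + 1 / 2 - 1).im = t.im - s.im := by
        rw [Complex.sub_im, r2_im2, Complex.one_im]; ring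
      rw [e4]
      have e5 := htim t ht
      have e6 := abs_sub t.im s.im
      linarith
    rw [Real.rpow_one]
    have e4 : 0 ≤ |T.t0.re| + T.r + 8 + |b| + 1 / 2 := by positivity
    have e5 : 0 ≤ |T.t0.im| + T.r := by positivity
    have e6 := abs_nonneg s.im
    nlinarith [mul_nonneg e4 e6, mul_nonneg e5 e6]
  -- the factors `Z1`, `Ls`
  obtain ⟨CZ, -, hCZ⟩ := Z1_bd hS (c := 2) (by norm_num)
  have hZ : R2B T b (fun s t => S.Z1 (1 - (t - s + 1 / 2))) := by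
    refine r2b_bdd CZ fun s t hs ht => hCZ _ ?_
    rw [r2_re1, hs]
    have := ht.2.2
    linarith
  obtain ⟨CL, -, hCL⟩ := Ls_bd hS (c := 2) (by norm_num)
  have hL : R2B T b (fun s _ => S.Ls s) := r2b_bdd CL fun s t hs _ => hCL _ (by linarith)
  have hcU : R2B T b (fun _ _ => ((S.cU : ℂ) ^ 2)⁻¹) :=
    r2b_bdd ‖((S.cU : ℂ) ^ 2)⁻¹‖ fun _ _ _ _ => le_rfl
  -- the factor `M`
  have hM : ∀ g, R2B T b (fun s t => S.M g (t - s + 1 / 2)) := by
    intro g
    obtain ⟨A, C', hA, hC', hMb⟩ := M_bd hS g (T.t0.re - T.r - b) (8 - b + 1 / 2) (by linarith)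
    refine ⟨A, C' * (1 + (|T.t0.im| + T.r)) ^ A, hA, by positivity, fun s t hs ht => ?_⟩
    have e1 := hMb (t - s + 1 / 2) (by
      rw [r2_re2, hs]
      have := ht.2.1
      linarith) (by
      rw [r2_re2, hs]
      have := ht.2.2
      linarith)
    have e2 : 1 + |(t - s + 1 / 2).im| ≤ (1 + (|T.t0.im| + T.r)) * (1 + |s.im|) := by
      rw [r2_im2]
      have e5 := htim t ht
      have e6 := abs_sub t.im s.im
      have e7 : 0 ≤ |T.t0.im| + T.r := by positivity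
      have e8 := abs_nonneg s.im
      nlinarith [mul_nonneg e7 e8]
    calc ‖S.M g (t - s + 1 / 2)‖ ≤ C' * (1 + |(t - s + 1 / 2).im|) ^ A := e1
      _ ≤ C' * ((1 + (|T.t0.im| + T.r)) * (1 + |s.im|)) ^ A :=
          mul_le_mul_of_nonneg_left (Real.rpow_le_rpow (by positivity) e2 hA) hC'
      _ = C' * (1 + (|T.t0.im| + T.r)) ^ A * (1 + |s.im|) ^ A := by
          rw [Real.mul_rpow (by positivity) (by positivity)]
          ring
  -- the inner sums
  have hI : ∀ c', R2B T b (fun s t => S.In2 T c' (1 - (t - s + 1 / 2)) t) := by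
    intro c'
    refine r2b_bdd C fun s t hs ht => h.bd c' _ t ?_ ht
    rw [r2_re1, hs]
    have := ht.2.2
    linarith
  have hF : ∀ c, R2B T b (fun s t => S.F2 T c s t) := by
    intro c
    have h1 := r2b_mul (r2b_mul (r2b_mul (r2b_mul (r2b_mul hw hw) hZ) hL) hcU)
      (r2b_sum Finset.univ fun c' (_ : c' ∈ Finset.univ) => r2b_mul (hM (c * c')) (hI c'))
    obtain ⟨A, C', hA, hC', h3⟩ := h1
    refine ⟨A, C', hA, hC', fun s t hs ht => ?_⟩
    have h4 := h3 s t hs ht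
    have h5 : S.F2 T c s t = (t - s + 1 / 2 - 1) * (t - s + 1 / 2 - 1) *
        S.Z1 (1 - (t - s + 1 / 2)) * S.Ls s * ((S.cU : ℂ) ^ 2)⁻¹ *
        ∑ c' : S.G, S.M (c * c') (t - s + 1 / 2) * S.In2 T c' (1 - (t - s + 1 / 2)) t := by
      rw [← pow_two]
      rfl
    show ‖S.F2 T c s t‖ ≤ C' * (1 + |s.im|) ^ A
    rw [h5]
    exact h4
  choose A C' hA hC' hbd using hF
  refine ⟨∑ c, A c, ∑ c, C' c, Finset.sum_nonneg fun c _ => hA c,
    Finset.sum_nonneg fun c _ => hC' c, fun c s t hs ht => ?_⟩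
  exact (hbd c s t hs ht).trans (r2b_le (by linarith [abs_nonneg s.im])
    (Finset.single_le_sum (f := A) (fun c _ => hA c) (Finset.mem_univ c)) (hC' c)
    (Finset.single_le_sum (f := C') (fun c _ => hC' c) (Finset.mem_univ c)))

end Pool.Agent.QD.SysD
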