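import Pool.Agent.QD.A.Agree
import Pool.Agent.QD.A.Reg2

/-!
# QD-A23: the function `HH`

PLAN. `b1 = max (A1 + 4) (W2 + 8) + |Re t0| + r + 10`, so that `Re w' = Re (t + s - 3/2) > 1` for
`t ∈ Om`, `Re s > b1`.  `FFn` is `F2` for `Re t < 8` and `F1` for `Re t > 6` (`agree`), so
differentiable in `t` on `OmR R1` (two open sets), in `s` for fixed `t`; bounds from `F1_bd`,
`F2_bd`.  Factor `(w'-1)^2 Z1 w'`: `Z1_diff`, `Z1_bd`.
Value at `t0` (`Re t0 ≤ 3/2 < 7`): `F2`, `In2_t0`: only `c' = 1` survives: `M (c * 1) = M c`.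
-/

namespace Pool.Agent.QD.SysD

open Pool.Agent.QD

variable {S : SysD} {T : PoleD}

/-- the nonvanishing factor at the pole -/
noncomputable def XX (S : SysD) (T : PoleD) (s : ℂ) : ℂ :=
  (T.t0 + s - 3 / 2 - 1) ^ 2 * S.Z1 (T.t0 + s - 3 / 2) *
    ((T.t0 - s + 1 / 2 - 1) ^ 2 * S.Z1 (1 - (T.t0 - s + 1 / 2)) * S.Ls s * ((S.cU : ℂ) ^ 2)⁻¹ *
      (T.Lo T.t0 ^ 2 * ∑' f : S.J, S.P (2 • f) 1 T.t0 *
        (S.nJ f : ℂ) ^ (-(2 * (1 - (T.t0 - s + 1 / 2))))))

structure HHB (S : SysD) (T : PoleD) (b1 : ℝ) : Prop where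
  large : 10 + |T.t0.re| + T.r ≤ b1
  diff_t : ∀ (c : S.G) (s : ℂ) (R1 : ℝ), b1 < s.re →
    DifferentiableOn ℂ (fun t => S.HH T c s t) (T.OmR R1)
  diff_s : ∀ (c : S.G) (t : ℂ) (R1 : ℝ), t ∈ T.OmR R1 →
    DifferentiableOn ℂ (fun s => S.HH T c s t) {s : ℂ | b1 < s.re}
  bd : ∀ b : ℝ, b1 < b → ∀ R1 : ℝ, ∃ A C : ℝ, 0 ≤ A ∧ 0 ≤ C ∧ ∀ (c : S.G) (s t : ℂ), s.re = b →
    t ∈ T.OmR R1 → ‖S.HH T c s t‖ ≤ C * (1 + |s.im|) ^ A
  val : ∀ (c : S.G) (s : ℂ), b1 < s.re →
    S.HH T c s T.t0 = XX S T s * S.M c (T.t0 - s + 1 / 2)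
  XX_ne : ∀ s : ℂ, b1 < s.re → XX S T s ≠ 0
  far : ∀ (c : S.G) (s t : ℂ), b1 < s.re → t ∈ T.Om → 8 < t.re →
    S.HH T c s t = (t + s - 3 / 2 - 1) ^ 2 * S.Z1 (t + s - 3 / 2) * S.F1 T c s t
  sum : ∀ (c : S.G) (s t : ℂ), b1 < s.re → 6 ≤ t.re →
    Summable fun m : S.J => ‖(S.nJ m : ℂ) ^ (-s) * S.DD m c (t - s + 1 / 2)‖

private theorem isOpen_OmR (T : PoleD) (R1 : ℝ) : IsOpen (T.OmR R1) := by
  have h1 : IsOpen {t : ℂ | |(t - T.t0).im| < T.r / 2} :=
    isOpen_lt (Complex.continuous_im.comp (continuous_id.sub continuous_const)).abs continuous_const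
  have h2 : IsOpen {t : ℂ | T.t0.re - T.r / 2 < t.re} := isOpen_lt continuous_const Complex.continuous_re
  have h3 : IsOpen {t : ℂ | t.re < R1} := isOpen_lt Complex.continuous_re continuous_const
  exact h1.inter (h2.inter h3)

private theorem hhm_OmR_sub (hT : IsPole S T) (R1 : ℝ) : T.OmR R1 ⊆ T.Om := by
  have hr := hT.hr
  intro t ht
  obtain ⟨h1, h2, _⟩ := ht
  exact ⟨by linarith, by linarith⟩

private theorem OmR_eight {R1 : ℝ} {t : ℂ} (ht : t ∈ T.OmR R1) (h8 : t.re < 8) : t ∈ T.OmR 8 :=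
  ⟨ht.1, ht.2.1, h8⟩

private theorem FFn_eq2 (hS : IsSys S) (hT : IsPole S T) {W2 C : ℝ} (h : In2B S T W2 C) (c : S.G)
    {s t : ℂ} (hs : W2 + 8 ≤ s.re) (ht : t ∈ T.OmR 8) : S.FFn T c s t = S.F2 T c s t := by
  unfold FFn
  by_cases h7 : t.re < 7
  · rw [if_pos h7]
  · rw [if_neg h7]
    exact agree hS hT h c hs ht (by linarith [not_lt.1 h7])

private theorem FFn_eq1 (c : S.G) {s t : ℂ} (ht : 7 ≤ t.re) : S.FFn T c s t = S.F1 T c s t := by
  unfold FFn
  rw [if_neg (not_lt.2 ht)]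

theorem exists_HHB (hS : IsSys S) (hT : IsPole S T) : ∃ b1 : ℝ, HHB S T b1 := by
  obtain ⟨A1, hA1, hDD⟩ := DD_bd hS
  have hA : DDB S A1 := ⟨hA1, hDD⟩
  obtain ⟨W2, C2, h2⟩ := exists_In2B hS hT
  have hr := hT.hr
  have hW2 := h2.two
  set b1 : ℝ := max (A1 + 4) (W2 + 8) + |T.t0.re| + T.r + 10 with hb1
  have hm1 : A1 + 4 ≤ max (A1 + 4) (W2 + 8) := le_max_left _ _
  have hm2 : W2 + 8 ≤ max (A1 + 4) (W2 + 8) := le_max_right _ _
  have hab : 0 ≤ |T.t0.re| := abs_nonneg _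
  have hab1 : T.t0.re ≤ |T.t0.re| := le_abs_self _
  have hab2 : -T.t0.re ≤ |T.t0.re| := neg_le_abs _
  have hsA : ∀ {s : ℂ}, b1 < s.re → A1 + 4 ≤ s.re := fun h => by linarith
  have hsW : ∀ {s : ℂ}, b1 < s.re → W2 + 8 ≤ s.re := fun h => by linarith
  -- the argument of `Z1`
  have hre : ∀ s t : ℂ, (t + s - 3 / 2).re = t.re + s.re - 3 / 2 := by
    intro s t
    rw [Complex.sub_re, Complex.add_re]; norm_num
  have hZ : ∀ {s t : ℂ}, b1 < s.re → T.t0.re - T.r < t.re → 2 < (t + s - 3 / 2).re := by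
    intro s t hs ht
    rw [hre]; linarith
  have hU1 : IsOpen {w : ℂ | 1 < w.re} := isOpen_lt continuous_const Complex.continuous_re
  have hZd : ∀ {w : ℂ}, 2 < w.re → DifferentiableAt ℂ S.Z1 w := fun {w} hw =>
    (Z1_diff hS).differentiableAt (hU1.mem_nhds (show 1 < w.re by linarith))
  refine ⟨b1, ⟨by linarith, ?_, ?_, ?_, ?_, ?_, ?_, ?_⟩⟩
  · -- diff_t
    intro c s R1 hs t ht
    have htO := hhm_OmR_sub hT R1 ht
    have hopen := isOpen_OmR T R1
    have hF : DifferentiableAt ℂ (fun t => S.FFn T c s t) t := by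
      by_cases h8 : t.re < 8
      · have h3 : DifferentiableAt ℂ (fun t => S.F2 T c s t) t :=
          (F2_diff_t hS hT h2 c (hsW hs)).differentiableAt
            ((isOpen_OmR T 8).mem_nhds (OmR_eight ht h8))
        refine h3.congr_of_eventuallyEq ?_
        filter_upwards [(isOpen_OmR T 8).mem_nhds (OmR_eight ht h8)] with z hz
        exact FFn_eq2 hS hT h2 c (hsW hs) hz
      · have hU7 : IsOpen {z : ℂ | 7 < z.re} := isOpen_lt continuous_const Complex.continuous_re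
        have h7 : (7 : ℝ) < t.re := by linarith [not_lt.1 h8]
        have hO : T.Om ∩ {z : ℂ | 6 < z.re} ∈ nhds t := by
          have h6 : {z : ℂ | 7 < z.re} ∈ nhds t := hU7.mem_nhds h7
          filter_upwards [h6, hopen.mem_nhds ht] with z hz hz2
          exact ⟨hhm_OmR_sub hT R1 hz2, show (6 : ℝ) < z.re by linarith [show (7 : ℝ) < z.re from hz]⟩
        have h3 : DifferentiableAt ℂ (fun t => S.F1 T c s t) t :=
          (F1_diff_t hS hT hA c (hsA hs)).differentiableAt hO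
        refine h3.congr_of_eventuallyEq ?_
        filter_upwards [hU7.mem_nhds h7] with z hz
        exact FFn_eq1 c (show (7 : ℝ) ≤ z.re from (show (7 : ℝ) < z.re from hz).le)
    have hZ1 : DifferentiableAt ℂ (fun t => S.Z1 (t + s - 3 / 2)) t :=
      (hZd (hZ hs htO.2)).comp (f := fun t : ℂ => t + s - 3 / 2) t
        ((differentiableAt_id.add_const _).sub_const _)
    have hq : DifferentiableAt ℂ (fun t : ℂ => (t + s - 3 / 2 - 1) ^ 2) t :=
      (((differentiableAt_id.add_const _).sub_const _).sub_const _).pow _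
    exact ((hq.mul hZ1).mul hF).differentiableWithinAt
  · -- diff_s
    intro c t R1 ht s hs
    have htO := hhm_OmR_sub hT R1 ht
    have hs' : b1 < s.re := hs
    have hF : DifferentiableAt ℂ (fun s => S.FFn T c s t) s := by
      by_cases h7 : t.re < 7
      · have hUs : IsOpen {z : ℂ | W2 + 8 < z.re} := isOpen_lt continuous_const Complex.continuous_re
        have h3 : DifferentiableAt ℂ (fun s => S.F2 T c s t) s :=
          (F2_diff_s hS hT h2 c (OmR_eight ht (by linarith))).differentiableAt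
            (hUs.mem_nhds (show W2 + 8 < s.re by linarith))
        have h4 : (fun s => S.FFn T c s t) = fun s => S.F2 T c s t := by
          funext z
          unfold FFn
          rw [if_pos h7]
        rw [h4]
        exact h3
      · have hUs : IsOpen {z : ℂ | A1 + 4 < z.re} := isOpen_lt continuous_const Complex.continuous_re
        have h3 : DifferentiableAt ℂ (fun s => S.F1 T c s t) s :=
          (F1_diff_s hS hT hA c (by linarith [not_lt.1 h7])).differentiableAt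
            (hUs.mem_nhds (show A1 + 4 < s.re by linarith))
        have h4 : (fun s => S.FFn T c s t) = fun s => S.F1 T c s t := by
          funext z
          exact FFn_eq1 c (not_lt.1 h7)
        rw [h4]
        exact h3
    have hZ1 : DifferentiableAt ℂ (fun s => S.Z1 (t + s - 3 / 2)) s :=
      (hZd (hZ hs' htO.2)).comp (f := fun s : ℂ => t + s - 3 / 2) s
        ((differentiableAt_id.const_add _).sub_const _)
    have hq : DifferentiableAt ℂ (fun s : ℂ => (t + s - 3 / 2 - 1) ^ 2) s :=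
      (((differentiableAt_id.const_add _).sub_const _).sub_const _).pow _
    exact ((hq.mul hZ1).mul hF).differentiableWithinAt
  · -- bound
    intro b hb R1
    obtain ⟨Aa, Ca, hAa, hCa, ha⟩ := F1_bd hS hT hA (b := b) (by linarith) R1
    obtain ⟨Ab, Cb, hAb, hCb, hbb⟩ := F2_bd hS hT h2 (b := b) (by linarith)
    obtain ⟨Cz, hCz, hz⟩ := Z1_bd hS (show (1 : ℝ) < 2 by norm_num)
    set B0 : ℝ := |R1| + |T.t0.re| + |T.t0.im| + 2 * T.r + |b| + 3 with hB0
    have hB0n : 1 ≤ B0 := by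
      have h1 := abs_nonneg R1
      have h3 := abs_nonneg T.t0.im
      have h4 := abs_nonneg b
      linarith
    refine ⟨Aa + Ab + 2, B0 ^ 2 * Cz * (Ca + Cb), by linarith, by positivity,
      fun c s t hs ht => ?_⟩
    have htO := hhm_OmR_sub hT R1 ht
    have hX : 1 ≤ 1 + |s.im| := by linarith [abs_nonneg s.im]
    have hX0 : 0 < 1 + |s.im| := by linarith
    have hF : ‖S.FFn T c s t‖ ≤ (Ca + Cb) * (1 + |s.im|) ^ (Aa + Ab) := by
      have e1 : (1 + |s.im|) ^ Aa ≤ (1 + |s.im|) ^ (Aa + Ab) :=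
        Real.rpow_le_rpow_of_exponent_le hX (by linarith)
      have e2 : (1 + |s.im|) ^ Ab ≤ (1 + |s.im|) ^ (Aa + Ab) :=
        Real.rpow_le_rpow_of_exponent_le hX (by linarith)
      have e3 : 0 ≤ (1 + |s.im|) ^ (Aa + Ab) := Real.rpow_nonneg hX0.le _
      by_cases h7 : t.re < 7
      · rw [FFn_eq2 hS hT h2 c (by linarith) (OmR_eight ht (by linarith))]
        calc ‖S.F2 T c s t‖ ≤ Cb * (1 + |s.im|) ^ Ab := hbb c s t hs (OmR_eight ht (by linarith))
          _ ≤ Cb * (1 + |s.im|) ^ (Aa + Ab) := mul_le_mul_of_nonneg_left e2 hCb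
          _ ≤ _ := mul_le_mul_of_nonneg_right (by linarith) e3
      · have h7' : (7 : ℝ) ≤ t.re := not_lt.1 h7
        rw [FFn_eq1 c h7']
        calc ‖S.F1 T c s t‖ ≤ Ca * (1 + |s.im|) ^ Aa := ha c s t hs ht (by linarith)
          _ ≤ Ca * (1 + |s.im|) ^ (Aa + Ab) := mul_le_mul_of_nonneg_left e1 hCa
          _ ≤ _ := mul_le_mul_of_nonneg_right (by linarith) e3
    have hZn : ‖S.Z1 (t + s - 3 / 2)‖ ≤ Cz := hz _ (hZ (by linarith) htO.2).le
    have hlin : ‖t + s - 3 / 2 - 1‖ ≤ B0 * (1 + |s.im|) := by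
      have h1 : (t + s - 3 / 2 - 1).re = t.re + b - 5 / 2 := by
        rw [Complex.sub_re, hre, hs, Complex.one_re]; ring
      have h3 : (t + s - 3 / 2 - 1).im = t.im + s.im := by
        rw [Complex.sub_im, Complex.sub_im, Complex.add_im, Complex.one_im]
        norm_num
      have h4 : |t.im| ≤ |T.t0.im| + T.r := by
        have h5 : t.im = (t - T.t0).im + T.t0.im := by rw [Complex.sub_im]; ring
        have h6 : |t.im| ≤ |(t - T.t0).im| + |T.t0.im| := by
          calc |t.im| = |(t - T.t0).im + T.t0.im| := by rw [← h5]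
            _ ≤ _ := abs_add_le _ _
        linarith [htO.1]
      have h8 : |t.re| ≤ |R1| + |T.t0.re| + T.r := by
        rw [abs_le]
        have h9 : t.re < R1 := ht.2.2
        have h10 := le_abs_self R1
        have h11 := abs_nonneg R1
        constructor
        · linarith [htO.2]
        · linarith
      have h12 : |t.re + b - 5 / 2| ≤ |t.re| + |b| + 5 / 2 := by
        calc |t.re + b - 5 / 2| ≤ |t.re + b| + |(5 / 2 : ℝ)| := abs_sub _ _
          _ ≤ |t.re| + |b| + 5 / 2 := by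
            have : |(5 / 2 : ℝ)| = 5 / 2 := abs_of_pos (by norm_num)
            rw [this]
            linarith [abs_add_le t.re b]
      have h13 : |t.im + s.im| ≤ |t.im| + |s.im| := abs_add_le _ _
      have h14 := Complex.norm_le_abs_re_add_abs_im (t + s - 3 / 2 - 1)
      rw [h1, h3] at h14
      have h15 : 0 ≤ |s.im| := abs_nonneg _
      have h16 : B0 * (1 + |s.im|) = B0 + B0 * |s.im| := by ring
      have h17 : |s.im| ≤ B0 * |s.im| := by nlinarith
      rw [h16]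
      linarith
    unfold HH
    rw [norm_mul, norm_mul, norm_pow]
    have hfin : (1 + |s.im|) ^ (Aa + Ab + 2) = (1 + |s.im|) ^ (Aa + Ab) * (1 + |s.im|) ^ 2 := by
      rw [Real.rpow_add hX0, Real.rpow_two]
    calc ‖t + s - 3 / 2 - 1‖ ^ 2 * ‖S.Z1 (t + s - 3 / 2)‖ * ‖S.FFn T c s t‖
        ≤ (B0 * (1 + |s.im|)) ^ 2 * Cz * ((Ca + Cb) * (1 + |s.im|) ^ (Aa + Ab)) := by gcongr
      _ = B0 ^ 2 * Cz * (Ca + Cb) * (1 + |s.im|) ^ (Aa + Ab + 2) := by rw [hfin]; ring
  · -- value at the pole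
    intro c s hs
    have ht7 : T.t0.re < 7 := by linarith [hT.t0_le]
    have hF : S.FFn T c s T.t0 = S.F2 T c s T.t0 := by
      unfold FFn
      rw [if_pos ht7]
    unfold HH
    rw [hF]
    unfold F2 XX
    have h3 : ∑ c' : S.G, S.M (c * c') (T.t0 - s + 1 / 2) * S.In2 T c' (1 - (T.t0 - s + 1 / 2)) T.t0 =
        S.M c (T.t0 - s + 1 / 2) * (T.Lo T.t0 ^ 2 * ∑' f : S.J, S.P (2 • f) 1 T.t0 *
          (S.nJ f : ℂ) ^ (-(2 * (1 - (T.t0 - s + 1 / 2))))) := by
      classical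
      rw [Finset.sum_eq_single (1 : S.G)]
      · rw [In2_t0 hT, if_pos rfl, mul_one]
      · intro c' _ hc'
        rw [In2_t0 hT, if_neg hc', mul_zero]
      · intro h
        exact absurd (Finset.mem_univ _) h
    rw [h3]
    ring
  · -- nonvanishing
    intro s hs
    have hsr : 3 / 2 < s.re := by linarith
    unfold XX
    have e1 : (T.t0 + s - 3 / 2 - 1) ≠ 0 := by
      intro h0
      have h3 := congrArg Complex.re h0
      rw [Complex.sub_re, hre, Complex.one_re, Complex.zero_re] at h3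
      linarith
    have e2 : S.Z1 (T.t0 + s - 3 / 2) ≠ 0 := by
      apply Z1_ne hS
      rw [hre]; linarith
    have hre2 : (T.t0 - s + 1 / 2).re = T.t0.re - s.re + 1 / 2 := by
      rw [Complex.add_re, Complex.sub_re]; norm_num
    have e3 : (T.t0 - s + 1 / 2 - 1) ≠ 0 := by
      intro h0
      have h3 := congrArg Complex.re h0
      rw [Complex.sub_re, hre2, Complex.one_re, Complex.zero_re] at h3
      linarith
    have hre3 : (1 - (T.t0 - s + 1 / 2)).re = 1 / 2 - T.t0.re + s.re := by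
      rw [Complex.sub_re, hre2, Complex.one_re]; ring
    have e4 : S.Z1 (1 - (T.t0 - s + 1 / 2)) ≠ 0 := by
      apply Z1_ne hS
      rw [hre3]; linarith
    have e5 : S.Ls s ≠ 0 := Ls_ne hS hsr
    have e6 : ((S.cU : ℂ) ^ 2)⁻¹ ≠ 0 := inv_ne_zero (pow_ne_zero _ (cU_ne hS))
    have e7 : T.Lo T.t0 ^ 2 ≠ 0 := pow_ne_zero _ hT.ne
    have e8 := h2.eta_ne (1 - (T.t0 - s + 1 / 2)) (by rw [hre3]; linarith)
    exact mul_ne_zero (mul_ne_zero (pow_ne_zero _ e1) e2)
      (mul_ne_zero (mul_ne_zero (mul_ne_zero (mul_ne_zero (pow_ne_zero _ e3) e4) e5) e6)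
        (mul_ne_zero e7 e8))
  · -- far to the right
    intro c s t _ _ ht
    unfold HH
    rw [FFn_eq1 c (by linarith : (7 : ℝ) ≤ t.re)]
  · intro c s t hs ht
    exact F1_summable hS hA c (hsA hs) ht

end Pool.Agent.QD.SysD
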