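import Pool.Agent.QD.A.Vreg
import Pool.Agent.QD.A.Cau
import Pool.Agent.QD.A.Par

/-!
# QD-A27: the function `I`: holomorphy, and `I = V` for `Re t` large

PLAN. `b1 < b`, `2 - b < Re s < b` (note `b > 10`).
`I_eq_V`: `strip_cauchy` for `f = V c · t` with `α = 2 - b`, `β = b`, `α' = -b - 1`, `β' = b + 1`;
on `Re z = b`: `V = HH` (`VB.eq_HH`), on `z = 2 - b + iy`: `VB.fe` and `2 - z = b - iy`.
`I_diff_t` on `OmR R1`, `I_diff_s` on the strip: `diff_integral`; differentiability in `t`: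
`HHB.diff_t` (the real part of `b ± iy` is `b > b1`); in `s`: only `kern (.. - s)` depends on `s`;
measurability in `y`: continuity of `y ↦ HH c (b + iy) t` (`HHB.diff_s`) and of
`y ↦ GG c (2 - b + iy)` (`GG_diff`, `2 - b < 1/2`); domination: `HHB.bd`, `GG_bd`, `kern_bd`
(`|Re (b + iy - s)| ≥ δ` locally uniformly).
-/

namespace Pool.Agent.QD.SysD

open Pool.Agent.QD

variable {S : SysD} {T : PoleD}

section aux

open MeasureTheory

private theorem iia_log {A y : ℝ} (hA : 0 ≤ A) : (1 + |y|) ^ A ≤ Real.exp (A ^ 2 + y ^ 2 / 4) := by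
  have h0 : 0 < 1 + |y| := by positivity
  rw [Real.rpow_def_of_pos h0]
  apply Real.exp_le_exp.2
  have h1 : Real.log (1 + |y|) ≤ |y| := by
    have := Real.log_le_sub_one_of_pos h0
    linarith
  have h2 : Real.log (1 + |y|) * A ≤ |y| * A := mul_le_mul_of_nonneg_right h1 hA
  have h3 : |y| ^ 2 = y ^ 2 := sq_abs y
  nlinarith [sq_nonneg (|y| / 2 - A)]

private theorem iia_dom {B δ A M : ℝ} (hδ : 0 < δ) (hA : 0 ≤ A) (hM : 0 ≤ M) {y : ℝ} {u : ℂ}
    (h1 : |u.re| ≤ B) (h2 : δ ≤ |u.re|) (h3 : |u.im - y| ≤ M) :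
    (1 + |y|) ^ A * ‖kern u‖ ≤
      δ⁻¹ * Real.exp (B ^ 2) * Real.exp (A ^ 2 + M ^ 2) * Real.exp (-(1 / 4) * y ^ 2) := by
  have h4 := kern_bd B δ hδ u h1 h2
  have h5 : -(u.im ^ 2) ≤ M ^ 2 - y ^ 2 / 2 := by
    have h6 : (u.im - y) ^ 2 ≤ M ^ 2 := by
      rw [← sq_abs]
      exact pow_le_pow_left₀ (abs_nonneg _) h3 2
    nlinarith [sq_nonneg (2 * u.im - y)]
  calc (1 + |y|) ^ A * ‖kern u‖ ≤ Real.exp (A ^ 2 + y ^ 2 / 4) *
        (δ⁻¹ * Real.exp (B ^ 2) * Real.exp (-(u.im ^ 2))) :=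
        mul_le_mul (iia_log hA) h4 (norm_nonneg _) (Real.exp_pos _).le
    _ ≤ Real.exp (A ^ 2 + y ^ 2 / 4) *
        (δ⁻¹ * Real.exp (B ^ 2) * Real.exp (M ^ 2 - y ^ 2 / 2)) := by
        have := Real.exp_le_exp.2 h5
        gcongr
    _ = δ⁻¹ * Real.exp (B ^ 2) *
        (Real.exp (A ^ 2 + y ^ 2 / 4) * Real.exp (M ^ 2 - y ^ 2 / 2)) := by ring
    _ = δ⁻¹ * Real.exp (B ^ 2) *
        (Real.exp (A ^ 2 + M ^ 2) * Real.exp (-(1 / 4) * y ^ 2)) := by
        rw [← Real.exp_add, ← Real.exp_add]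
        congr 2
        ring
    _ = _ := by ring

private theorem iia_kern_diff {u : ℂ} (hu : u ≠ 0) : DifferentiableAt ℂ kern u := by
  unfold kern
  exact DifferentiableAt.div (by fun_prop) (by fun_prop) hu

private theorem iia_kern_cont {a : ℝ} {s : ℂ} (hs : s.re ≠ a) :
    Continuous fun y : ℝ => kern (a + y * Complex.I - s) := by
  rw [continuous_iff_continuousAt]
  intro y
  have hu : (a : ℂ) + y * Complex.I - s ≠ 0 := by
    intro h
    have := congrArg Complex.re h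
    simp at this
    exact hs (by linarith)
  have h1 : ContinuousAt kern ((a : ℂ) + y * Complex.I - s) := (iia_kern_diff hu).continuousAt
  have h2 : ContinuousAt (fun y : ℝ => (a : ℂ) + y * Complex.I - s) y := by fun_prop
  exact ContinuousAt.comp (f := fun y : ℝ => (a : ℂ) + y * Complex.I - s) h1 h2

private theorem iia_int_t {U : Set ℂ} (hU : IsOpen U) {W : ℂ → ℝ → ℂ}
    (hd : ∀ y, DifferentiableOn ℂ (fun t => W t y) U) (hc : ∀ t ∈ U, Continuous (W t)) {A C : ℝ}
    (hA : 0 ≤ A) (hC : 0 ≤ C) (hb : ∀ t ∈ U, ∀ y, ‖W t y‖ ≤ C * (1 + |y|) ^ A) {a : ℝ} {s : ℂ}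
    (hs : s.re ≠ a) :
    DifferentiableOn ℂ (fun t => ∫ y : ℝ, W t y * kern (a + y * Complex.I - s)) U := by
  refine diff_integral hU (fun y => (hd y).mul_const _)
    (fun t ht => ((hc t ht).mul (iia_kern_cont hs)).aestronglyMeasurable) (fun t ht => ?_)
  have hδ : 0 < |a - s.re| := abs_pos.2 (sub_ne_zero.2 hs.symm)
  refine ⟨1, one_pos, fun y => C * (|a - s.re|⁻¹ * Real.exp (|a - s.re| ^ 2) *
    Real.exp (A ^ 2 + |s.im| ^ 2) * Real.exp (-(1 / 4) * y ^ 2)), ?_, ?_⟩
  · exact ((integrable_exp_neg_mul_sq (by norm_num)).const_mul _).const_mul _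
  · intro t' _ ht' y
    rw [norm_mul]
    have h1 := iia_dom (B := |a - s.re|) (y := y) (u := a + y * Complex.I - s) (M := |s.im|)
      hδ hA (abs_nonneg _) (by simp) (by simp) (by simp)
    calc ‖W t' y‖ * ‖kern (a + y * Complex.I - s)‖ ≤
        (C * (1 + |y|) ^ A) * ‖kern (a + y * Complex.I - s)‖ :=
          mul_le_mul_of_nonneg_right (hb t' ht' y) (norm_nonneg _)
      _ = C * ((1 + |y|) ^ A * ‖kern (a + y * Complex.I - s)‖) := by ring
      _ ≤ _ := mul_le_mul_of_nonneg_left h1 hC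

private theorem iia_int_s {U : Set ℂ} (hU : IsOpen U) {W : ℝ → ℂ} (hc : Continuous W) {A C : ℝ}
    (hA : 0 ≤ A) (hC : 0 ≤ C) (hb : ∀ y, ‖W y‖ ≤ C * (1 + |y|) ^ A) {a : ℝ}
    (hs : ∀ s ∈ U, s.re ≠ a) :
    DifferentiableOn ℂ (fun s => ∫ y : ℝ, W y * kern (a + y * Complex.I - s)) U := by
  refine diff_integral hU (fun y => ?_)
    (fun s hs' => (hc.mul (iia_kern_cont (hs s hs'))).aestronglyMeasurable) (fun s hs' => ?_)
  · intro s hs'
    have hu : (a : ℂ) + y * Complex.I - s ≠ 0 := by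
      intro h
      have := congrArg Complex.re h
      simp at this
      exact hs s hs' (by linarith)
    have h1 : DifferentiableAt ℂ (fun s : ℂ => kern ((a : ℂ) + y * Complex.I - s)) s :=
      DifferentiableAt.comp s (iia_kern_diff hu) (by fun_prop)
    exact ((h1.const_mul (W y))).differentiableWithinAt
  · have hδ : 0 < |a - s.re| := abs_pos.2 (sub_ne_zero.2 (hs s hs').symm)
    refine ⟨|a - s.re| / 2, by positivity, fun y => C * ((|a - s.re| / 2)⁻¹ *
      Real.exp ((2 * |a - s.re|) ^ 2) *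
      Real.exp (A ^ 2 + (|s.im| + |a - s.re|) ^ 2) * Real.exp (-(1 / 4) * y ^ 2)), ?_, ?_⟩
    · exact ((integrable_exp_neg_mul_sq (by norm_num)).const_mul _).const_mul _
    · intro s' hs1 _ y
      rw [norm_mul]
      have h2 : ‖s' - s‖ < |a - s.re| / 2 := by
        rw [← dist_eq_norm]
        exact Metric.mem_ball.1 hs1
      have h3 : |s'.re - s.re| < |a - s.re| / 2 := by
        have := Complex.abs_re_le_norm (s' - s)
        rw [Complex.sub_re] at this
        linarith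
      have h4 : |s'.im - s.im| < |a - s.re| / 2 := by
        have := Complex.abs_im_le_norm (s' - s)
        rw [Complex.sub_im] at this
        linarith
      have hre : (a + y * Complex.I - s').re = (a - s.re) - (s'.re - s.re) := by simp
      have him : (a + y * Complex.I - s').im - y = -(s'.im - s.im) - s.im := by
        simp
      have h1 := iia_dom (B := 2 * |a - s.re|) (δ := |a - s.re| / 2) (y := y)
        (u := a + y * Complex.I - s') (M := |s.im| + |a - s.re|)
        (by positivity) hA (by positivity)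
        (by
          rw [hre]
          have := abs_sub (a - s.re) (s'.re - s.re)
          linarith)
        (by
          rw [hre]
          have := abs_sub_abs_le_abs_sub (a - s.re) (s'.re - s.re)
          linarith)
        (by
          rw [him]
          have := abs_sub (-(s'.im - s.im)) s.im
          rw [abs_neg] at this
          linarith)
      calc ‖W y‖ * ‖kern (a + y * Complex.I - s')‖ ≤
          (C * (1 + |y|) ^ A) * ‖kern (a + y * Complex.I - s')‖ :=
            mul_le_mul_of_nonneg_right (hb y) (norm_nonneg _)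
        _ = C * ((1 + |y|) ^ A * ‖kern (a + y * Complex.I - s')‖) := by ring
        _ ≤ _ := mul_le_mul_of_nonneg_left h1 hC

end aux

private theorem iia_re1 (b y : ℝ) : ((b : ℂ) + y * Complex.I).re = b := by simp

private theorem iia_re2 (b y : ℝ) : ((b : ℂ) - y * Complex.I).re = b := by simp

private theorem iia_cast (b : ℝ) : (2 - (b : ℂ)) = ((2 - b : ℝ) : ℂ) := by push_cast; ring

theorem I_eq_V (hS : IsSys S) (hT : IsPole S T) {b1 : ℝ} (h : HHB S T b1) {c : S.G}
    {b R0 : ℝ} (hb : b1 < b) (hV : VB S T c b1 b R0) {s t : ℂ} (ht : t ∈ T.Om)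
    (ht' : R0 < t.re) (hs1 : 2 - b < s.re) (hs2 : s.re < b) :
    S.I T b c s t = S.V T c s t := by
  have hlarge := h.large
  have hr := hT.hr
  have habs := abs_nonneg T.t0.re
  obtain ⟨A, C, hA, hC, hbd⟩ := hV.bd t ht ht'
  have hf : DifferentiableOn ℂ (fun z => S.V T c z t) {z : ℂ | -b - 1 < z.re ∧ z.re < b + 1} := by
    refine (hV.diff t ht ht').mono ?_
    rintro z ⟨h1, h2⟩
    show |z.re| < b + 2
    rw [abs_lt]
    constructor <;> linarith
  have key := strip_cauchy (α := 2 - b) (β := b) (α' := -b - 1) (β' := b + 1) (by linarith)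
    (by linarith) (by linarith) hf hA (C := C) (fun z h1 h2 => hbd z (by
      rw [abs_le]
      constructor <;> linarith)) hs1 hs2
  rw [key]
  unfold I
  congr 2
  · congr 1
    funext y
    rw [hV.eq_HH t ht ht' _ (by rw [iia_re1]; exact hb) (by rw [iia_re1]; linarith)]
  · congr 1
    funext y
    rw [iia_cast b]
    have h1 := hV.fe t ht ht' (((2 - b : ℝ) : ℂ) + y * Complex.I) (by rw [iia_re1]; linarith)
      (by rw [iia_re1]; linarith)
    have h2 : (2 : ℂ) - (((2 - b : ℝ) : ℂ) + y * Complex.I) = (b : ℂ) - y * Complex.I := by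
      push_cast
      ring
    rw [h2] at h1
    rw [h1, hV.eq_HH t ht ht' _ (by rw [iia_re2]; exact hb) (by rw [iia_re2]; linarith)]

private theorem iia_OmR_open (T : PoleD) (R1 : ℝ) : IsOpen (T.OmR R1) := by
  have h1 : IsOpen {t : ℂ | |(t - T.t0).im| < T.r / 2} := isOpen_lt (by fun_prop) continuous_const
  have h2 : IsOpen {t : ℂ | T.t0.re - T.r / 2 < t.re} := isOpen_lt continuous_const (by fun_prop)
  have h3 : IsOpen {t : ℂ | t.re < R1} := isOpen_lt (by fun_prop) continuous_const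
  exact (h1.inter (h2.inter h3))

private theorem iia_HH1 {b1 : ℝ} (h : HHB S T b1) (c : S.G) {b : ℝ} (hb : b1 < b) {t : ℂ} {R1 : ℝ}
    (ht : t ∈ T.OmR R1) : Continuous fun y : ℝ => S.HH T c (b + y * Complex.I) t := by
  have h1 := (h.diff_s c t R1 ht).continuousOn
  exact h1.comp_continuous (f := fun y : ℝ => (b : ℂ) + y * Complex.I) (by fun_prop)
    (fun y => by
      show b1 < ((b : ℂ) + y * Complex.I).re
      rw [iia_re1]
      exact hb)

private theorem iia_HH2 {b1 : ℝ} (h : HHB S T b1) (c : S.G) {b : ℝ} (hb : b1 < b) {t : ℂ} {R1 : ℝ}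
    (ht : t ∈ T.OmR R1) : Continuous fun y : ℝ => S.HH T c (b - y * Complex.I) t := by
  have h1 := (h.diff_s c t R1 ht).continuousOn
  exact h1.comp_continuous (f := fun y : ℝ => (b : ℂ) - y * Complex.I) (by fun_prop)
    (fun y => by
      show b1 < ((b : ℂ) - y * Complex.I).re
      rw [iia_re2]
      exact hb)

private theorem iia_GG (hS : IsSys S) (c : S.G) {a : ℝ} (ha : a < 1 / 2) :
    Continuous fun y : ℝ => S.GG c (a + y * Complex.I) := by
  have h1 := (hS.GG_diff c).continuousOn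
  exact h1.comp_continuous (f := fun y : ℝ => (a : ℂ) + y * Complex.I) (by fun_prop)
    (fun y => by
      show ((a : ℂ) + y * Complex.I).re < 1 / 2
      rw [iia_re1]
      exact ha)

private theorem iia_bd1 {b1 : ℝ} (h : HHB S T b1) {b : ℝ} (hb : b1 < b) (R1 : ℝ) :
    ∃ A C : ℝ, 0 ≤ A ∧ 0 ≤ C ∧ ∀ (c : S.G) (t : ℂ), t ∈ T.OmR R1 → ∀ y : ℝ,
      ‖S.HH T c (b + y * Complex.I) t‖ ≤ C * (1 + |y|) ^ A ∧
      ‖S.HH T c (b - y * Complex.I) t‖ ≤ C * (1 + |y|) ^ A := by
  obtain ⟨A, C, hA, hC, hbd⟩ := h.bd b hb R1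
  refine ⟨A, C, hA, hC, fun c t ht y => ⟨?_, ?_⟩⟩
  · have := hbd c (b + y * Complex.I) t (iia_re1 b y) ht
    simpa using this
  · have := hbd c (b - y * Complex.I) t (iia_re2 b y) ht
    simpa using this

private theorem iia_bd2 (hS : IsSys S) {b1 : ℝ} (h : HHB S T b1) {b : ℝ} (hb : b1 < b)
    (hb2 : 2 - b < 1 / 2) (R1 : ℝ) (c : S.G) :
    ∃ A C : ℝ, 0 ≤ A ∧ 0 ≤ C ∧ ∀ (t : ℂ), t ∈ T.OmR R1 → ∀ y : ℝ,
      ‖S.GG c (2 - b + y * Complex.I) * S.HH T c (b - y * Complex.I) t‖ ≤ C * (1 + |y|) ^ A := by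
  obtain ⟨A, C, hA, hC, hbd⟩ := iia_bd1 h hb R1
  obtain ⟨A', C', hA', hC', hbd'⟩ := hS.GG_bd c (2 - b) (2 - b) hb2
  refine ⟨A' + A, C' * C, by positivity, by positivity, fun t ht y => ?_⟩
  rw [norm_mul, iia_cast b]
  have h1 := (hbd c t ht y).2
  have h2 := hbd' (((2 - b : ℝ) : ℂ) + y * Complex.I) (by rw [iia_re1]) (by rw [iia_re1])
  have h3 : (((2 - b : ℝ) : ℂ) + y * Complex.I).im = y := by simp
  rw [h3] at h2
  have h0 : 0 < 1 + |y| := by positivity
  rw [Real.rpow_add h0]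
  calc _ ≤ (C' * (1 + |y|) ^ A') * (C * (1 + |y|) ^ A) :=
        mul_le_mul h2 h1 (norm_nonneg _) (by positivity)
    _ = _ := by ring

theorem I_diff_t (hS : IsSys S) (hT : IsPole S T) {b1 : ℝ} (h : HHB S T b1) (c : S.G)
    {b : ℝ} (hb : b1 < b) {s : ℂ} (hs1 : 2 - b < s.re) (hs2 : s.re < b) (R1 : ℝ) :
    DifferentiableOn ℂ (fun t => S.I T b c s t) (T.OmR R1) := by
  have hlarge := h.large
  have hr := hT.hr
  have habs := abs_nonneg T.t0.re
  unfold I
  refine DifferentiableOn.const_mul (DifferentiableOn.sub ?_ ?_) _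
  · obtain ⟨A, C, hA, hC, hbd⟩ := iia_bd1 h hb R1
    exact iia_int_t (iia_OmR_open T R1) (W := fun t y => S.HH T c (b + y * Complex.I) t)
      (fun y => h.diff_t c _ R1 (by rw [iia_re1]; exact hb)) (fun t ht => iia_HH1 h c hb ht)
      hA hC (fun t ht y => (hbd c t ht y).1) hs2.ne
  · obtain ⟨A, C, hA, hC, hbd⟩ := iia_bd2 hS h hb (by linarith) R1 c
    simp only [iia_cast b] at hbd ⊢
    exact iia_int_t (iia_OmR_open T R1)
      (W := fun t y => S.GG c (((2 - b : ℝ) : ℂ) + y * Complex.I) *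
        S.HH T c (b - y * Complex.I) t)
      (fun y => (h.diff_t c _ R1 (by rw [iia_re2]; exact hb)).const_mul _)
      (fun t ht => (iia_GG hS c (by linarith)).mul (iia_HH2 h c hb ht))
      hA hC hbd hs1.ne'

theorem I_diff_s (hS : IsSys S) (hT : IsPole S T) {b1 : ℝ} (h : HHB S T b1) (c : S.G)
    {b : ℝ} (hb : b1 < b) {t : ℂ} {R1 : ℝ} (ht : t ∈ T.OmR R1) :
    DifferentiableOn ℂ (fun s => S.I T b c s t) {s : ℂ | 2 - b < s.re ∧ s.re < b} := by
  have hlarge := h.large
  have hr := hT.hr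
  have habs := abs_nonneg T.t0.re
  have hU : IsOpen {s : ℂ | 2 - b < s.re ∧ s.re < b} :=
    (isOpen_lt continuous_const Complex.continuous_re).inter
      (isOpen_lt Complex.continuous_re continuous_const)
  unfold I
  refine DifferentiableOn.const_mul (DifferentiableOn.sub ?_ ?_) _
  · obtain ⟨A, C, hA, hC, hbd⟩ := iia_bd1 h hb R1
    exact iia_int_s hU (W := fun y => S.HH T c (b + y * Complex.I) t) (iia_HH1 h c hb ht)
      hA hC (fun y => (hbd c t ht y).1) (fun s hs => hs.2.ne)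
  · obtain ⟨A, C, hA, hC, hbd⟩ := iia_bd2 hS h hb (by linarith) R1 c
    simp only [iia_cast b] at hbd ⊢
    exact iia_int_s hU
      (W := fun y => S.GG c (((2 - b : ℝ) : ℂ) + y * Complex.I) *
        S.HH T c (b - y * Complex.I) t)
      ((iia_GG hS c (by linarith)).mul (iia_HH2 h c hb ht))
      hA hC (hbd t ht) (fun s hs => hs.1.ne')

end Pool.Agent.QD.SysD
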