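import Pool.Agent.QD.A.IIa

/-!
# QD-A28: `I = HH`, and the functional equation of `I`

PLAN. Identity theorem in `t` on the convex open set `OmR R1` (`R1 > max R0 (Re t0) + 1`):
`AnalyticOnNhd.eqOn_of_preconnected_of_eventuallyEq` (both sides differentiable on the open set
`OmR R1`), equal near a point with `Re t > R0` (`I_eq_V`, `VB.eq_HH`; resp. `VB.fe` at `s` and
`2 - s`).  `t0 ∈ OmR R1`.
-/

namespace Pool.Agent.QD.SysD

open Pool.Agent.QD

variable {S : SysD} {T : PoleD}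

private theorem iib_open (R1 : ℝ) : IsOpen (T.OmR R1) := by
  have h1 : Continuous fun t : ℂ => |(t - T.t0).im| :=
    (Complex.continuous_im.comp (continuous_id.sub continuous_const)).abs
  exact (isOpen_lt h1 continuous_const).inter
    ((isOpen_lt continuous_const Complex.continuous_re).inter
      (isOpen_lt Complex.continuous_re continuous_const))

private theorem iib_convex (R1 : ℝ) : Convex ℝ (T.OmR R1) := by
  have h1 : T.OmR R1 = (Complex.im ⁻¹' Set.Ioo (T.t0.im - T.r / 2) (T.t0.im + T.r / 2)) ∩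
      (Complex.re ⁻¹' Set.Ioo (T.t0.re - T.r / 2) R1) := by
    ext t
    simp only [PoleD.OmR, Set.mem_setOf_eq, Set.mem_inter_iff, Set.mem_preimage, Set.mem_Ioo,
      Complex.sub_im, abs_lt]
    constructor
    · rintro ⟨⟨h1, h2⟩, h3, h4⟩
      exact ⟨⟨by linarith, by linarith⟩, h3, h4⟩
    · rintro ⟨⟨h1, h2⟩, h3, h4⟩
      exact ⟨⟨by linarith, by linarith⟩, h3, h4⟩
  rw [h1]
  exact ((convex_Ioo _ _).linear_preimage Complex.imLm).inter
    ((convex_Ioo _ _).linear_preimage Complex.reLm)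

/-- the identity theorem on `OmR R1` -/
private theorem iib_ident (hT : IsPole S T) {f g : ℂ → ℂ} {R0 : ℝ}
    (hf : ∀ R1 : ℝ, DifferentiableOn ℂ f (T.OmR R1)) (hg : ∀ R1 : ℝ, DifferentiableOn ℂ g (T.OmR R1))
    (h : ∀ t ∈ T.Om, R0 < t.re → f t = g t) : f T.t0 = g T.t0 := by
  have hr := hT.hr
  obtain ⟨x, hx⟩ : ∃ x : ℝ, x = max R0 T.t0.re + 1 := ⟨_, rfl⟩
  have hx0 : R0 < x := by
    rw [hx]
    linarith [le_max_left R0 T.t0.re]
  have hx1 : T.t0.re < x := by
    rw [hx]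
    linarith [le_max_right R0 T.t0.re]
  obtain ⟨t1, ht1⟩ : ∃ t1 : ℂ, t1 = ⟨x, T.t0.im⟩ := ⟨_, rfl⟩
  have ht1re : t1.re = x := by rw [ht1]
  have ht1im : t1.im = T.t0.im := by rw [ht1]
  have hm1 : t1 ∈ T.OmR (x + 1) := by
    refine ⟨?_, ?_, ?_⟩
    · rw [Complex.sub_im, ht1im, sub_self, abs_zero]
      linarith
    · rw [ht1re]
      linarith
    · rw [ht1re]
      linarith
  have hm0 : T.t0 ∈ T.OmR (x + 1) := by
    refine ⟨?_, ?_, ?_⟩
    · rw [sub_self, Complex.zero_im, abs_zero]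
      linarith
    · linarith
    · linarith
  have hsub : ∀ t ∈ T.OmR (x + 1), t ∈ T.Om := by
    intro t ht
    have h1 := ht.1
    have h2 := ht.2.1
    refine ⟨?_, ?_⟩
    · linarith
    · linarith
  have hfa : AnalyticOnNhd ℂ f (T.OmR (x + 1)) := (hf _).analyticOnNhd (iib_open _)
  have hga : AnalyticOnNhd ℂ g (T.OmR (x + 1)) := (hg _).analyticOnNhd (iib_open _)
  have hev : f =ᶠ[nhds t1] g := by
    have h2 : IsOpen {t : ℂ | R0 < t.re} := isOpen_lt continuous_const Complex.continuous_re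
    have h3 : t1 ∈ {t : ℂ | R0 < t.re} := by
      change R0 < t1.re
      rw [ht1re]
      exact hx0
    filter_upwards [(iib_open (x + 1)).mem_nhds hm1, h2.mem_nhds h3] with t h4 h5
    exact h t (hsub t h4) h5
  exact hfa.eqOn_of_preconnected_of_eventuallyEq hga (iib_convex (x + 1)).isPreconnected hm1 hev hm0

theorem I_eq_HH (hS : IsSys S) (hT : IsPole S T) {b1 : ℝ} (h : HHB S T b1) {c : S.G}
    (hc : c ≠ 1) {b : ℝ} (hb : b1 < b) {s : ℂ} (hs1 : b1 < s.re) (hs2 : s.re < b) :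
    S.I T b c s T.t0 = S.HH T c s T.t0 := by
  obtain ⟨R0, hV⟩ := exists_VB hS hT h hc b hb
  have hlarge := h.large
  have hr := hT.hr
  have h10 : 10 ≤ b1 := by linarith [abs_nonneg T.t0.re]
  refine iib_ident (R0 := R0) hT (f := fun t => S.I T b c s t) (g := fun t => S.HH T c s t)
    (fun R1 => I_diff_t hS hT h c hb (by linarith) hs2 R1) (fun R1 => h.diff_t c s R1 hs1)
    fun t ht ht' => ?_
  change S.I T b c s t = S.HH T c s t
  rw [I_eq_V hS hT h hb hV ht ht' (by linarith) hs2]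
  exact hV.eq_HH t ht ht' s hs1 (by linarith)

theorem I_fe (hS : IsSys S) (hT : IsPole S T) {b1 : ℝ} (h : HHB S T b1) {c : S.G}
    (hc : c ≠ 1) {b : ℝ} (hb : b1 < b) {s : ℂ} (hs1 : 2 - b < s.re) (hs2 : s.re < 1 / 2) :
    S.I T b c s T.t0 = S.GG c s * S.I T b c (2 - s) T.t0 := by
  obtain ⟨R0, hV⟩ := exists_VB hS hT h hc b hb
  have hlarge := h.large
  have hr := hT.hr
  have h10 : 10 ≤ b1 := by linarith [abs_nonneg T.t0.re]
  have h2s : (2 - s).re = 2 - s.re := by simp
  refine iib_ident (R0 := R0) hT (f := fun t => S.I T b c s t)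
    (g := fun t => S.GG c s * S.I T b c (2 - s) t)
    (fun R1 => I_diff_t hS hT h c hb hs1 (by linarith) R1)
    (fun R1 => (I_diff_t hS hT h c hb (by rw [h2s]; linarith) (by rw [h2s]; linarith)
      R1).const_mul _) fun t ht ht' => ?_
  change S.I T b c s t = S.GG c s * S.I T b c (2 - s) t
  rw [I_eq_V hS hT h hb hV ht ht' hs1 (by linarith),
    I_eq_V hS hT h hb hV ht ht' (by rw [h2s]; linarith) (by rw [h2s]; linarith)]
  exact hV.fe t ht ht' s (by linarith) hs2

end Pool.Agent.QD.SysD
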