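import Pool.Agent.QD.A.Pole
import Pool.Agent.QD.A.Bd1

/-!
# QD-A20: the inner sum of region 2

PLAN. `OmR 8 ⊆ {|Re t| ≤ B}`, `B = 8 + |Re t0| + r`, `|Im t| ≤ |Im t0| + r`.  `LL_bd`:
`‖LL b c' t * nJ b^(-z)‖ ≤ C nJ b^(A - Re z)`, `P_bd`: `‖P (2f) 1 t‖ ≤ nJ f^(2A)`.  `W2 = A + 2`
works (`summable_nJ` with `x = 2`; for the squares `2 A - 2 Re z ≤ -4`).  `Lo_bd` is proved in
Reg1.lean in parallel: here prove the bound of `Lo` on `OmR 8` again (compactness) or import it.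
Holomorphy: `differentiableOn_tsum_of_summable_norm`; each term is differentiable (`LL_diff`,
`P_diff`); in `In2_diff_t` the second argument moves too: `z = 1 - (t - s + 1/2)`.
`eta_ne`: `∑_f P (2f) 1 t0 nJ f^(-2z) = 1 + rest`, `‖rest‖ ≤ ∑_{f ≠ 0} nJ f^(2A - 2 Re z) ≤
101^(-x) ∑_f nJ f^(-2)` with `x = 2 Re z - 2A - 2`, `< 1` for `Re z` large (`nJ_ge`).
-/

namespace Pool.Agent.QD.SysD

open Pool.Agent.QD

variable {S : SysD} {T : PoleD}

/-- the statement with all constants -/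
structure In2B (S : SysD) (T : PoleD) (W2 C : ℝ) : Prop where
  two : 2 ≤ W2
  nonneg : 0 ≤ C
  bd : ∀ (c' : S.G) (z t : ℂ), W2 ≤ z.re → t ∈ T.OmR 8 → ‖S.In2 T c' z t‖ ≤ C
  diff_z : ∀ (c' : S.G) (t : ℂ), t ∈ T.OmR 8 →
    DifferentiableOn ℂ (fun z => S.In2 T c' z t) {z : ℂ | W2 < z.re}
  diff_t : ∀ (c' : S.G) (s : ℂ), DifferentiableOn ℂ (fun t => S.In2 T c' (1 - (t - s + 1 / 2)) t)
    (T.OmR 8 ∩ {t : ℂ | W2 < (1 - (t - s + 1 / 2)).re})
  summable_b : ∀ (c' : S.G) (z t : ℂ), W2 ≤ z.re → t ∈ T.OmR 8 →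
    Summable fun b : {b : S.J // S.R b c' ∧ ¬ S.Sq b c'} =>
      ‖S.LL b.1 c' t * (S.nJ b.1 : ℂ) ^ (-z)‖
  summable_f : ∀ (z t : ℂ), W2 ≤ z.re → t ∈ T.OmR 8 →
    Summable fun f : S.J => ‖S.P (2 • f) 1 t * (S.nJ f : ℂ) ^ (-(2 * z))‖
  eta_ne : ∀ z : ℂ, W2 ≤ z.re →
    (∑' f : S.J, S.P (2 • f) 1 T.t0 * (S.nJ f : ℂ) ^ (-(2 * z))) ≠ 0

private theorem in2_Lo_bd (hT : IsPole S T) (R1 : ℝ) :
    ∃ C : ℝ, 0 ≤ C ∧ ∀ t ∈ T.OmR R1, ‖T.Lo t‖ ≤ C := by
  have hr := hT.hr
  let K : Set ℂ := {t : ℂ | |(t - T.t0).im| ≤ T.r / 2 ∧ T.t0.re - T.r / 2 ≤ t.re ∧ t.re ≤ R1}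
  have hKc : IsClosed K := by
    have h1 : IsClosed {t : ℂ | |(t - T.t0).im| ≤ T.r / 2} :=
      isClosed_le (by fun_prop) continuous_const
    have h2 : IsClosed {t : ℂ | T.t0.re - T.r / 2 ≤ t.re} :=
      isClosed_le continuous_const Complex.continuous_re
    have h3 : IsClosed {t : ℂ | t.re ≤ R1} := isClosed_le Complex.continuous_re continuous_const
    exact h1.inter (h2.inter h3)
  have hKb : Bornology.IsBounded K := by
    rw [isBounded_iff_forall_norm_le]
    refine ⟨|R1| + |T.t0.re| + T.r + (|T.t0.im| + T.r), ?_⟩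
    rintro t ⟨h1, h2, h3⟩
    have h4 : ‖t‖ ≤ |t.re| + |t.im| := Complex.norm_le_abs_re_add_abs_im t
    have h5 : |t.re| ≤ |R1| + |T.t0.re| + T.r := by
      rw [abs_le]
      constructor
      · have := neg_abs_le T.t0.re
        have := abs_nonneg R1
        linarith
      · have := le_abs_self R1
        have := abs_nonneg T.t0.re
        linarith
    have h6 : |t.im| ≤ |T.t0.im| + T.r := by
      have h7 : t.im = (t - T.t0).im + T.t0.im := by simp
      rw [h7]
      refine (abs_add_le _ _).trans ?_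
      linarith
    linarith
  have hK : IsCompact K := Metric.isCompact_of_isClosed_isBounded hKc hKb
  have hsub : K ⊆ T.Om := by
    rintro t ⟨h1, h2, h3⟩
    exact ⟨lt_of_le_of_lt h1 (by linarith), by linarith⟩
  have hcont : ContinuousOn T.Lo K := (hT.diff.mono hsub).continuousOn
  obtain ⟨C, hC⟩ := hK.exists_bound_of_continuousOn hcont
  refine ⟨max C 0, le_max_right _ _, ?_⟩
  rintro t ⟨h1, h2, h3⟩
  exact (hC t ⟨h1.le, h2.le, h3.le⟩).trans (le_max_left _ _)

private theorem in2_open (R1 : ℝ) : IsOpen (T.OmR R1) := by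
  have h1 : IsOpen {t : ℂ | |(t - T.t0).im| < T.r / 2} :=
    isOpen_lt (by fun_prop) continuous_const
  have h2 : IsOpen {t : ℂ | T.t0.re - T.r / 2 < t.re} :=
    isOpen_lt continuous_const Complex.continuous_re
  have h3 : IsOpen {t : ℂ | t.re < R1} := isOpen_lt Complex.continuous_re continuous_const
  exact h1.inter (h2.inter h3)

private theorem in2_pow_norm (hS : IsSys S) (b : S.J) (z : ℂ) :
    ‖(S.nJ b : ℂ) ^ (-z)‖ = (S.nJ b : ℝ) ^ (-z.re) := by
  have h : (0 : ℝ) < (S.nJ b : ℝ) := by exact_mod_cast nJ_pos hS b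
  have := Complex.norm_cpow_eq_rpow_re_of_pos h (-z)
  simpa using this

private theorem in2_one_le (hS : IsSys S) (b : S.J) : (1 : ℝ) ≤ (S.nJ b : ℝ) := by
  exact_mod_cast nJ_pos hS b

private theorem in2_cpow_diff (hS : IsSys S) (b : S.J) {f : ℂ → ℂ} {U : Set ℂ}
    (hf : DifferentiableOn ℂ f U) : DifferentiableOn ℂ (fun z => (S.nJ b : ℂ) ^ (f z)) U := by
  have h : (S.nJ b : ℂ) ≠ 0 := by
    exact_mod_cast (nJ_pos hS b).ne'
  exact hf.const_cpow (Or.inl h)

theorem exists_In2B (hS : IsSys S) (hT : IsPole S T) : ∃ W2 C : ℝ, In2B S T W2 C := by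
  classical
  have hr := hT.hr
  obtain ⟨CL, hCL0, hCL⟩ := in2_Lo_bd hT 8
  set B : ℝ := 8 + |T.t0.re| + T.r with hBdef
  have hB0 : 0 ≤ B := by positivity
  obtain ⟨A, C0, hA0, hC0, hLL⟩ := LL_bd hS B hB0
  obtain ⟨A', hA'0, hP⟩ := P_bd hS B hB0
  have hre : ∀ t ∈ T.OmR 8, |t.re| ≤ B := by
    rintro t ⟨h1, h2, h3⟩
    rw [abs_le]
    constructor
    · have := neg_abs_le T.t0.re
      linarith
    · have := abs_nonneg T.t0.re
      linarith
  have him : ∀ t ∈ T.OmR 8, |t.im| ≤ |T.t0.im| + T.r := by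
    rintro t ⟨h1, h2, h3⟩
    have h7 : t.im = (t - T.t0).im + T.t0.im := by simp
    rw [h7]
    refine (abs_add_le _ _).trans ?_
    linarith
  have hdist : ∀ t ∈ T.OmR 8, ‖t - T.t0‖ ≤ B + |T.t0.re| + T.r := by
    intro t ht
    have h4 := Complex.norm_le_abs_re_add_abs_im (t - T.t0)
    have h5 : |(t - T.t0).re| ≤ B + |T.t0.re| := by
      rw [Complex.sub_re]
      refine (abs_sub _ _).trans ?_
      linarith [hre t ht]
    have h6 : |(t - T.t0).im| ≤ T.r := by
      have := ht.1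
      linarith
    linarith
  set C1 : ℝ := C0 * (1 + (|T.t0.im| + T.r)) ^ A with hC1def
  have hC1 : 0 ≤ C1 := by positivity
  -- term bounds
  have hLLt : ∀ t ∈ T.OmR 8, ∀ b c, S.R b c → ¬ S.Sq b c → ‖S.LL b c t‖ ≤ C1 * (S.nJ b : ℝ) ^ A := by
    intro t ht b c hb hn
    refine (hLL b c hb hn t (hre t ht)).trans ?_
    have h1 : (1 + |t.im|) ^ A ≤ (1 + (|T.t0.im| + T.r)) ^ A := by
      apply Real.rpow_le_rpow (by positivity) _ hA0
      linarith [him t ht]
    have h2 : 0 ≤ C0 * (S.nJ b : ℝ) ^ A := by positivity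
    calc C0 * (S.nJ b : ℝ) ^ A * (1 + |t.im|) ^ A
        ≤ C0 * (S.nJ b : ℝ) ^ A * (1 + (|T.t0.im| + T.r)) ^ A := by gcongr
      _ = C1 * (S.nJ b : ℝ) ^ A := by rw [hC1def]; ring
  have hsum : Summable fun b : S.J => (S.nJ b : ℝ) ^ (-(2 : ℝ)) := summable_nJ hS (by norm_num)
  set Z : ℝ := ∑' b : S.J, (S.nJ b : ℝ) ^ (-(2 : ℝ)) with hZdef
  have hZ0 : 0 ≤ Z := tsum_nonneg fun b => by positivity
  obtain ⟨n, hn⟩ : ∃ n : ℕ, Z < (101 : ℝ) ^ n := by
    obtain ⟨n, hn⟩ := pow_unbounded_of_one_lt Z (by norm_num : (1 : ℝ) < 101)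
    exact ⟨n, hn⟩
  set W2 : ℝ := A + A' + 2 + n with hW2def
  have hn0 : (0 : ℝ) ≤ n := Nat.cast_nonneg n
  -- the two families
  let Fb : S.G → ℂ → ℂ → S.J → ℂ := fun c' z t b =>
    if S.R b c' ∧ ¬ S.Sq b c' then S.LL b c' t * (S.nJ b : ℂ) ^ (-z) else 0
  let Ff : ℂ → ℂ → S.J → ℂ := fun z t f => S.P (2 • f) 1 t * (S.nJ f : ℂ) ^ (-(2 * z))
  have hrw : ∀ (c' : S.G) (z t : ℂ), S.In2 T c' z t = (t - T.t0) ^ (2 * T.k) * (∑' b, Fb c' z t b) +
      if c' = 1 then T.Lo t ^ 2 * ∑' f, Ff z t f else 0 := by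
    intro c' z t
    unfold In2
    congr 1
  have hb1 : ∀ (c' : S.G) (z t : ℂ) (b : S.J), W2 ≤ z.re → t ∈ T.OmR 8 → S.R b c' →
      ¬ S.Sq b c' → ‖S.LL b c' t * (S.nJ b : ℂ) ^ (-z)‖ ≤ C1 * (S.nJ b : ℝ) ^ (-(2 : ℝ)) := by
    intro c' z t b hz ht hb hnb
    rw [norm_mul, in2_pow_norm hS]
    have h1 := hLLt t ht b c' hb hnb
    have hpos : (0 : ℝ) < S.nJ b := lt_of_lt_of_le one_pos (in2_one_le hS b)
    calc ‖S.LL b c' t‖ * (S.nJ b : ℝ) ^ (-z.re)
        ≤ (C1 * (S.nJ b : ℝ) ^ A) * (S.nJ b : ℝ) ^ (-z.re) := by gcongr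
      _ = C1 * (S.nJ b : ℝ) ^ (A + -z.re) := by rw [Real.rpow_add hpos]; ring
      _ ≤ C1 * (S.nJ b : ℝ) ^ (-(2 : ℝ)) := by
          apply mul_le_mul_of_nonneg_left _ hC1
          apply Real.rpow_le_rpow_of_exponent_le (in2_one_le hS b)
          linarith
  have hb2 : ∀ (c' : S.G) (z t : ℂ) (b : S.J), W2 ≤ z.re → t ∈ T.OmR 8 →
      ‖Fb c' z t b‖ ≤ C1 * (S.nJ b : ℝ) ^ (-(2 : ℝ)) := by
    intro c' z t b hz ht
    by_cases h : S.R b c' ∧ ¬ S.Sq b c'
    · simp only [Fb, h, and_self, not_false_eq_true, if_true]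
      exact hb1 c' z t b hz ht h.1 h.2
    · simp only [Fb, h, if_false, norm_zero]
      positivity
  have hf0 : ∀ (z t : ℂ) (f : S.J), |t.re| ≤ B →
      ‖Ff z t f‖ ≤ (S.nJ f : ℝ) ^ (2 * A' - 2 * z.re) := by
    intro z t f ht
    have hpos : (0 : ℝ) < S.nJ f := lt_of_lt_of_le one_pos (in2_one_le hS f)
    simp only [Ff]
    rw [norm_mul, in2_pow_norm hS]
    have h1 := hP (2 • f) 1 (hS.R_two f) t ht
    rw [nJ_two] at h1
    have h2 : ((S.nJ f ^ 2 : ℕ) : ℝ) ^ A' = (S.nJ f : ℝ) ^ (2 * A') := by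
      push_cast
      rw [← Real.rpow_natCast, ← Real.rpow_mul hpos.le]
      norm_num
    rw [h2] at h1
    have h3 : ((2 : ℂ) * z).re = 2 * z.re := by simp
    rw [h3]
    calc ‖S.P (2 • f) 1 t‖ * (S.nJ f : ℝ) ^ (-(2 * z.re))
        ≤ (S.nJ f : ℝ) ^ (2 * A') * (S.nJ f : ℝ) ^ (-(2 * z.re)) := by gcongr
      _ = (S.nJ f : ℝ) ^ (2 * A' - 2 * z.re) := by rw [← Real.rpow_add hpos]; ring_nf
  have hf1 : ∀ (z t : ℂ) (f : S.J), W2 ≤ z.re → |t.re| ≤ B →
      ‖Ff z t f‖ ≤ (S.nJ f : ℝ) ^ (-(2 : ℝ)) := by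
    intro z t f hz ht
    refine (hf0 z t f ht).trans ?_
    apply Real.rpow_le_rpow_of_exponent_le (in2_one_le hS f)
    linarith
  have hsb : ∀ (c' : S.G) (z t : ℂ), W2 ≤ z.re → t ∈ T.OmR 8 →
      ‖∑' b, Fb c' z t b‖ ≤ C1 * Z := by
    intro c' z t hz ht
    rw [hZdef, ← tsum_mul_left]
    exact tsum_of_norm_bounded ((hsum.mul_left C1).hasSum) (fun b => hb2 c' z t b hz ht)
  have hsf : ∀ (z t : ℂ), W2 ≤ z.re → |t.re| ≤ B → ‖∑' f, Ff z t f‖ ≤ Z := by
    intro z t hz ht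
    rw [hZdef]
    exact tsum_of_norm_bounded hsum.hasSum (fun f => hf1 z t f hz ht)
  refine ⟨W2, (B + |T.t0.re| + T.r) ^ (2 * T.k) * (C1 * Z) + CL ^ 2 * Z, ?_⟩
  refine ⟨?_, ?_, ?_, ?_, ?_, ?_, ?_, ?_⟩
  · linarith
  · positivity
  · intro c' z t hz ht
    rw [hrw]
    refine (norm_add_le _ _).trans ?_
    apply add_le_add
    · rw [norm_mul, norm_pow]
      have h1 := hdist t ht
      have h2 := hsb c' z t hz ht
      gcongr
    · by_cases hc : c' = 1
      · simp only [hc, if_true]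
        rw [norm_mul, norm_pow]
        have h1 := hCL t ht
        have h2 := hsf z t hz (hre t ht)
        gcongr
      · simp only [hc, if_false, norm_zero]
        positivity
  · intro c' t ht
    have hU : IsOpen {z : ℂ | W2 < z.re} := isOpen_lt continuous_const Complex.continuous_re
    have hd1 : DifferentiableOn ℂ (fun z => ∑' b, Fb c' z t b) {z : ℂ | W2 < z.re} := by
      refine Complex.differentiableOn_tsum_of_summable_norm (hsum.mul_left C1) (fun b => ?_) hU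
        (fun b z hz => hb2 c' z t b (le_of_lt hz) ht)
      by_cases h : S.R b c' ∧ ¬ S.Sq b c'
      · simp only [Fb, h, and_self, not_false_eq_true, if_true]
        exact (differentiableOn_const _).mul (in2_cpow_diff hS b (differentiable_id.neg).differentiableOn)
      · simp only [Fb, h, if_false]
        exact differentiableOn_const _
    have hd2 : DifferentiableOn ℂ (fun z => ∑' f, Ff z t f) {z : ℂ | W2 < z.re} := by
      refine Complex.differentiableOn_tsum_of_summable_norm hsum (fun f => ?_) hU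
        (fun f z hz => hf1 z t f (le_of_lt hz) (hre t ht))
      simp only [Ff]
      exact (differentiableOn_const _).mul (in2_cpow_diff hS f
        ((differentiable_id.const_mul 2).neg).differentiableOn)
    simp only [hrw]
    refine ((differentiableOn_const _).mul hd1).add ?_
    by_cases hc : c' = 1
    · simp only [hc, if_true]
      exact (differentiableOn_const _).mul hd2
    · simp only [hc, if_false]
      exact differentiableOn_const _
  · intro c' s
    set U : Set ℂ := T.OmR 8 ∩ {t : ℂ | W2 < (1 - (t - s + 1 / 2)).re} with hUdef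
    have hU : IsOpen U := by
      apply (in2_open 8).inter
      exact isOpen_lt continuous_const (by fun_prop)
    have hz : Differentiable ℂ (fun t : ℂ => 1 - (t - s + 1 / 2)) := by fun_prop
    have hd1 : DifferentiableOn ℂ (fun t => ∑' b, Fb c' (1 - (t - s + 1 / 2)) t b) U := by
      refine Complex.differentiableOn_tsum_of_summable_norm (hsum.mul_left C1) (fun b => ?_) hU
        (fun b t ht => hb2 c' _ t b (le_of_lt ht.2) ht.1)
      by_cases h : S.R b c' ∧ ¬ S.Sq b c'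
      · simp only [Fb, h, and_self, not_false_eq_true, if_true]
        exact (LL_diff hS b c' h.1 h.2).differentiableOn.mul
          (in2_cpow_diff hS b (hz.neg).differentiableOn)
      · simp only [Fb, h, if_false]
        exact differentiableOn_const _
    have hd2 : DifferentiableOn ℂ (fun t => ∑' f, Ff (1 - (t - s + 1 / 2)) t f) U := by
      refine Complex.differentiableOn_tsum_of_summable_norm hsum (fun f => ?_) hU
        (fun f t ht => hf1 _ t f (le_of_lt ht.2) (hre t ht.1))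
      simp only [Ff]
      exact (P_diff hS (2 • f) 1).differentiableOn.mul (in2_cpow_diff hS f
        ((hz.const_mul 2).neg).differentiableOn)
    simp only [hrw]
    have hpow : Differentiable ℂ (fun t : ℂ => (t - T.t0) ^ (2 * T.k)) := by fun_prop
    refine (hpow.differentiableOn.mul hd1).add ?_
    have hLo : DifferentiableOn ℂ T.Lo U := by
      apply hT.diff.mono
      rintro t ⟨⟨h1, h2, h3⟩, -⟩
      exact ⟨lt_trans h1 (by linarith), by linarith⟩
    by_cases hc : c' = 1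
    · simp only [hc, if_true]
      exact (hLo.pow 2).mul hd2
    · simp only [hc, if_false]
      exact differentiableOn_const _
  · intro c' z t hz ht
    refine Summable.of_nonneg_of_le (fun _ => norm_nonneg _)
      (fun b => hb1 c' z t b.1 hz ht b.2.1 b.2.2) ?_
    exact (hsum.mul_left C1).comp_injective Subtype.val_injective
  · intro z t hz ht
    exact Summable.of_nonneg_of_le (fun _ => norm_nonneg _)
      (fun f => hf1 z t f hz (hre t ht)) hsum
  · intro z hz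
    have ht0 : |T.t0.re| ≤ B := by linarith [abs_nonneg T.t0.re]
    change (∑' f, Ff z T.t0 f) ≠ 0
    have hsumF : Summable (fun f => Ff z T.t0 f) :=
      Summable.of_norm_bounded hsum (fun f => hf1 z T.t0 f hz ht0)
    have h0 : Ff z T.t0 0 = 1 := by
      simp only [Ff, smul_zero]
      rw [nJ_zero]
      simp [P]
    rw [hsumF.tsum_eq_add_tsum_ite 0, h0]
    -- the rest
    have hrest : ‖∑' f, (if f = 0 then 0 else Ff z T.t0 f)‖ ≤ (101 : ℝ) ^ (-(n : ℝ)) * Z := by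
      rw [hZdef, ← tsum_mul_left]
      refine tsum_of_norm_bounded ((hsum.mul_left _).hasSum) (fun f => ?_)
      by_cases hf : f = 0
      · simp only [hf, if_true, norm_zero]
        positivity
      · simp only [hf, if_false]
        refine (hf0 z T.t0 f ht0).trans ?_
        have h101 : (101 : ℝ) ≤ S.nJ f := by exact_mod_cast nJ_ge hS f hf
        have hpos : (0 : ℝ) < S.nJ f := by linarith
        have h1 : (2 * A' - 2 * z.re) ≤ -(n : ℝ) + -(2 : ℝ) := by
          linarith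
        calc (S.nJ f : ℝ) ^ (2 * A' - 2 * z.re)
            ≤ (S.nJ f : ℝ) ^ (-(n : ℝ) + -(2 : ℝ)) :=
              Real.rpow_le_rpow_of_exponent_le (in2_one_le hS f) h1
          _ = (S.nJ f : ℝ) ^ (-(n : ℝ)) * (S.nJ f : ℝ) ^ (-(2 : ℝ)) := Real.rpow_add hpos _ _
          _ ≤ (101 : ℝ) ^ (-(n : ℝ)) * (S.nJ f : ℝ) ^ (-(2 : ℝ)) := by
              apply mul_le_mul_of_nonneg_right _ (by positivity)
              exact Real.rpow_le_rpow_of_nonpos (by norm_num) h101 (by linarith)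
    have hlt : (101 : ℝ) ^ (-(n : ℝ)) * Z < 1 := by
      rw [Real.rpow_neg (by norm_num), Real.rpow_natCast]
      rw [inv_mul_lt_iff₀ (by positivity)]
      linarith
    intro hcontra
    have h2 : (∑' f, (if f = 0 then 0 else Ff z T.t0 f)) = -1 := by
      linear_combination hcontra
    rw [h2, norm_neg, norm_one] at hrest
    linarith

/-- value at the pole -/
theorem In2_t0 (hT : IsPole S T) (c' : S.G) (z : ℂ) [Decidable (c' = 1)] : S.In2 T c' z T.t0 =
    if c' = 1 then T.Lo T.t0 ^ 2 * ∑' f : S.J, S.P (2 • f) 1 T.t0 * (S.nJ f : ℂ) ^ (-(2 * z))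
    else 0 := by
  have hk : 2 * T.k ≠ 0 := by have := hT.hk; omega
  unfold In2
  rw [sub_self, zero_pow hk, zero_mul, zero_add]
  by_cases hc : c' = 1
  · simp only [hc, if_true]
  · simp only [hc, if_false]

end Pool.Agent.QD.SysD
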