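import Mathlib

/-!
# QD/A, local weights: definitions (see `qd_paper.md`, section 2.3)

`N` is the norm of the place, `l` the trace `a_v`.
-/

namespace Pool.Agent.QD

/-- `∑ lseq p q n X^n = 1/(1 - p X + q X^2)`. -/
noncomputable def lseq (p q : ℝ) : ℕ → ℝ
  | 0 => 1
  | 1 => p
  | (n + 2) => p * lseq p q (n + 1) - q * lseq p q n

/-- coefficients of `1/E`, `E(x) = 1 - l x + N x^2` -/
noncomputable def l1 (N l : ℝ) (a : ℕ) : ℝ := lseq l N a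

/-- coefficients of `1/E2`, `E2(X) = 1 - (l^2 - 2N) X + N^2 X^2` -/
noncomputable def l2 (N l : ℝ) (i : ℕ) : ℝ := lseq (l ^ 2 - 2 * N) (N ^ 2) i

/-- `E(x) = 1 - l x + N x^2` -/
noncomputable def EE (N l : ℝ) (x : ℂ) : ℂ := 1 - (l : ℂ) * x + (N : ℂ) * x ^ 2

/-- `E2(X) = 1 - (l^2 - 2N) X + N^2 X^2` -/
noncomputable def E2 (N l : ℝ) (X : ℂ) : ℂ :=
  1 - ((l : ℂ) ^ 2 - 2 * (N : ℂ)) * X + (N : ℂ) ^ 2 * X ^ 2

/-- coefficients of `[(1 - N^3 x^4 y^2)/E(x) + (y + N^2 x^2 y^2)/(1-y)]` -/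
noncomputable def h0 (N l : ℝ) (a b : ℕ) : ℝ :=
  (if b = 0 then l1 N l a else 0) - (if b = 2 ∧ 4 ≤ a then N ^ 3 * l1 N l (a - 4) else 0) +
    (if a = 0 ∧ 1 ≤ b then 1 else 0) + (if a = 2 ∧ 2 ≤ b then N ^ 2 else 0)

/-- The local weights: coefficients of
`[(1 - N^3 x^4 y^2)/E(x) + (y + N^2 x^2 y^2)/(1-y)] / (E2(N x^2 y^2) (1 - N^4 x^4 y^2))`. -/
noncomputable def hloc (N l : ℝ) (a b : ℕ) : ℝ :=
  ∑ i ∈ Finset.range (a + b + 1), ∑ j ∈ Finset.range (a + b + 1),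
    if 2 * i + 4 * j ≤ a ∧ 2 * i + 2 * j ≤ b then
      l2 N l i * N ^ (i + 4 * j) * h0 N l (a - (2 * i + 4 * j)) (b - (2 * i + 2 * j)) else 0

/-- `r_k(x)` -/
noncomputable def rk (N l : ℝ) (k : ℕ) (x : ℂ) : ℂ :=
  ∑ i ∈ Finset.range (k + 1), (l2 N l i : ℂ) * (N : ℂ) ^ (i + 4 * (k - i)) *
    x ^ (2 * i + 4 * (k - i))

/-- row polynomials -/
noncomputable def Pw (N l : ℝ) (b : ℕ) (x : ℂ) : ℂ :=
  if Even b then
    rk N l (b / 2) x +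
      (if 1 ≤ b / 2 then rk N l (b / 2 - 1) x *
        ((1 + (N : ℂ) ^ 2 * x ^ 2) * EE N l x - (N : ℂ) ^ 3 * x ^ 4) else 0) +
      ∑ k ∈ Finset.range (b / 2 - 1), rk N l k x * ((1 + (N : ℂ) ^ 2 * x ^ 2) * EE N l x)
  else
    rk N l (b / 2) x + ∑ k ∈ Finset.range (b / 2), rk N l k x * (1 + (N : ℂ) ^ 2 * x ^ 2)

/-- column polynomials -/
noncomputable def Qw (N l : ℝ) (a : ℕ) (y : ℂ) : ℂ :=
  ∑ i ∈ Finset.range (a + 1), ∑ j ∈ Finset.range (a + 1),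
    if 2 * i + 4 * j ≤ a then
      (l2 N l i : ℂ) * (N : ℂ) ^ (i + 4 * j) * y ^ (2 * i + 2 * j) *
        ((if Even a then 1 - y else 1) *
            ((l1 N l (a - (2 * i + 4 * j)) : ℂ) -
              (if 4 ≤ a - (2 * i + 4 * j) then
                (N : ℂ) ^ 3 * (l1 N l (a - (2 * i + 4 * j) - 4) : ℂ) * y ^ 2 else 0)) +
          (if a - (2 * i + 4 * j) = 0 then y else 0) +
          (if a - (2 * i + 4 * j) = 2 then (N : ℂ) ^ 2 * y ^ 2 else 0))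
    else 0

end Pool.Agent.QD
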