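import Pool.Agent.QD.A.HHm

/-!
# QD-A24: region 3, the function `V`

`c ≠ 1`, so no pair `(b, c)` is a square (`Sq`).  `LL_bd` with `B = b + 2`: exponent `A`;
`Re w = Re t - Re s + 1/2 ≥ A + 2` for `Re t > R0 := A + 2 b + 20`.
-/

namespace Pool.Agent.QD.SysD

open Pool.Agent.QD

variable {S : SysD} {T : PoleD}

structure VB (S : SysD) (T : PoleD) (c : S.G) (b1 b R0 : ℝ) : Prop where
  diff : ∀ t ∈ T.Om, R0 < t.re → DifferentiableOn ℂ (fun s => S.V T c s t) {s : ℂ | |s.re| < b + 2}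
  bd : ∀ t ∈ T.Om, R0 < t.re → ∃ A C : ℝ, 0 ≤ A ∧ 0 ≤ C ∧ ∀ s : ℂ, |s.re| ≤ b + 1 →
    ‖S.V T c s t‖ ≤ C * (1 + |s.im|) ^ A
  eq_HH : ∀ t ∈ T.Om, R0 < t.re → ∀ s : ℂ, b1 < s.re → s.re ≤ b + 1 → S.V T c s t = S.HH T c s t
  fe : ∀ t ∈ T.Om, R0 < t.re → ∀ s : ℂ, -b ≤ s.re → s.re < 1 / 2 →
    S.V T c s t = S.GG c s * S.V T c (2 - s) t

theorem not_Sq {c : S.G} (hc : c ≠ 1) (b : S.J) : ¬ S.Sq b c := fun h => hc h.1

open Classical in
/-- the terms of the series of region 3 -/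
noncomputable def vterm (S : SysD) (c : S.G) (t s : ℂ) (b : S.J) : ℂ :=
  if S.R b c then S.LL b c s * (S.nJ b : ℂ) ^ (-(t - s + 1 / 2)) else 0

theorem vterm_bd (hS : IsSys S) {c : S.G} (hc : c ≠ 1) {B A C : ℝ} (hC : 0 ≤ C)
    (hLL : ∀ b c, S.R b c → ¬ S.Sq b c → ∀ s : ℂ, |s.re| ≤ B →
      ‖S.LL b c s‖ ≤ C * (S.nJ b : ℝ) ^ A * (1 + |s.im|) ^ A)
    {s t : ℂ} (hs : |s.re| ≤ B) (ht : A + 2 ≤ t.re - s.re + 1 / 2) (b : S.J) :
    ‖vterm S c t s b‖ ≤ C * (1 + |s.im|) ^ A * (S.nJ b : ℝ) ^ (-(2 : ℝ)) := by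
  have hb : (1 : ℝ) ≤ S.nJ b := by exact_mod_cast nJ_pos hS b
  have hb0 : (0 : ℝ) < S.nJ b := by linarith
  have him : (0 : ℝ) < 1 + |s.im| := by positivity
  unfold vterm
  split_ifs with hR
  · rw [norm_mul, nJ_cpow_norm hS]
    have h1 := hLL b c hR (not_Sq hc b) s hs
    have h2 : (-(t - s + 1 / 2)).re = -(t.re - s.re + 1 / 2) := by simp
    rw [h2]
    calc ‖S.LL b c s‖ * (S.nJ b : ℝ) ^ (-(t.re - s.re + 1 / 2))
        ≤ (C * (S.nJ b : ℝ) ^ A * (1 + |s.im|) ^ A) * (S.nJ b : ℝ) ^ (-(A + 2)) := by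
          apply mul_le_mul h1 _ (by positivity) (by positivity)
          exact Real.rpow_le_rpow_of_exponent_le hb (by linarith)
      _ = C * (1 + |s.im|) ^ A * ((S.nJ b : ℝ) ^ A * (S.nJ b : ℝ) ^ (-(A + 2))) := by ring
      _ = C * (1 + |s.im|) ^ A * (S.nJ b : ℝ) ^ (-(2 : ℝ)) := by
          rw [← Real.rpow_add hb0]
          congr 2
          ring
  · rw [norm_zero]
    positivity

theorem vterm_diff (hS : IsSys S) {c : S.G} (hc : c ≠ 1) (t : ℂ) (b : S.J) :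
    Differentiable ℂ fun s => vterm S c t s b := by
  have hb0 : (S.nJ b : ℂ) ≠ 0 := by
    have := nJ_pos hS b
    exact_mod_cast this.ne'
  unfold vterm
  split_ifs with hR
  · apply (LL_diff hS b c hR (not_Sq hc b)).mul
    apply Differentiable.const_cpow
    · fun_prop
    · exact Or.inl hb0
  · exact differentiable_const _

theorem vser_diff (hS : IsSys S) {c : S.G} (hc : c ≠ 1) {B A C : ℝ} (hA : 0 ≤ A) (hC : 0 ≤ C)
    (hLL : ∀ b c, S.R b c → ¬ S.Sq b c → ∀ s : ℂ, |s.re| ≤ B →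
      ‖S.LL b c s‖ ≤ C * (S.nJ b : ℝ) ^ A * (1 + |s.im|) ^ A)
    {t : ℂ} (ht : A + B + 2 < t.re) :
    DifferentiableOn ℂ (fun s => ∑' b, vterm S c t s b) {s : ℂ | |s.re| < B} := by
  intro s0 hs0
  have hs0' : |s0.re| < B := hs0
  let U : Set ℂ := {s : ℂ | |s.re| < B} ∩ {s : ℂ | |s.im| < |s0.im| + 1}
  have hU : IsOpen U := by
    apply IsOpen.inter
    · exact isOpen_lt (Complex.continuous_re.abs) continuous_const
    · exact isOpen_lt (Complex.continuous_im.abs) continuous_const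
  have hs0U : s0 ∈ U := ⟨hs0', by
    change |s0.im| < |s0.im| + 1
    linarith⟩
  have hsum : Summable fun b : S.J => C * (1 + (|s0.im| + 1)) ^ A * (S.nJ b : ℝ) ^ (-(2 : ℝ)) :=
    (summable_nJ hS (by norm_num)).mul_left _
  have hd : DifferentiableOn ℂ (fun s => ∑' b, vterm S c t s b) U := by
    refine Complex.differentiableOn_tsum_of_summable_norm hsum
      (fun b => (vterm_diff hS hc t b).differentiableOn) hU ?_
    rintro b s ⟨hs1, hs2⟩
    have hs1' : |s.re| < B := hs1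
    have hs2' : |s.im| < |s0.im| + 1 := hs2
    refine (vterm_bd hS hc hC hLL hs1'.le (by
      have := abs_lt.1 hs1'
      linarith) b).trans ?_
    gcongr
  exact (hd.differentiableAt (hU.mem_nhds hs0U)).differentiableWithinAt

theorem exists_VB (hS : IsSys S) (hT : IsPole S T) {b1 : ℝ} (h : HHB S T b1) {c : S.G}
    (hc : c ≠ 1) (b : ℝ) (hb : b1 < b) : ∃ R0 : ℝ, VB S T c b1 b R0 := by
  have hlarge := h.large
  have hr := hT.hr
  have habs := abs_nonneg T.t0.re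
  obtain ⟨A, C, hA, hC, hLL⟩ := LL_bd hS (b + 2) (by linarith)
  have hV : ∀ s t : ℂ, S.V T c s t = (t - T.t0) ^ T.k * T.Lo t * (t - s + 1 / 2 - 1) ^ 2 *
      S.Z1 (t - s + 1 / 2) * (t + s - 3 / 2 - 1) ^ 2 * S.Z1 (t + s - 3 / 2) *
      ∑' b, vterm S c t s b := fun s t => rfl
  have hre1 : ∀ s t : ℂ, (t - s + 1 / 2).re = t.re - s.re + 1 / 2 := fun s t => by simp
  have hre2 : ∀ s t : ℂ, (t + s - 3 / 2).re = t.re + s.re - 3 / 2 := fun s t => by simp
  refine ⟨A + 2 * b + 20, ⟨?_, ?_, ?_, ?_⟩⟩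
  · -- differentiability
    intro t ht htR
    have hZ := Z1_diff hS
    simp only [hV]
    have hd1 : DifferentiableOn ℂ (fun s : ℂ => S.Z1 (t - s + 1 / 2)) {s : ℂ | |s.re| < b + 2} := by
      apply hZ.comp (t := {w : ℂ | 1 < w.re}) (f := fun s : ℂ => t - s + 1 / 2)
      · fun_prop
      · intro s hs
        have hs' : |s.re| < b + 2 := hs
        have := abs_lt.1 hs'
        change 1 < (t - s + 1 / 2).re
        rw [hre1]
        linarith
    have hd2 : DifferentiableOn ℂ (fun s : ℂ => S.Z1 (t + s - 3 / 2)) {s : ℂ | |s.re| < b + 2} := by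
      apply hZ.comp (t := {w : ℂ | 1 < w.re}) (f := fun s : ℂ => t + s - 3 / 2)
      · fun_prop
      · intro s hs
        have hs' : |s.re| < b + 2 := hs
        have := abs_lt.1 hs'
        change 1 < (t + s - 3 / 2).re
        rw [hre2]
        linarith
    have hd3 := vser_diff hS hc hA hC hLL (t := t) (by linarith)
    have hp1 : DifferentiableOn ℂ (fun s : ℂ => (t - s + 1 / 2 - 1) ^ 2) {s : ℂ | |s.re| < b + 2} := by
      fun_prop
    have hp2 : DifferentiableOn ℂ (fun s : ℂ => (t + s - 3 / 2 - 1) ^ 2) {s : ℂ | |s.re| < b + 2} := by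
      fun_prop
    exact (((((differentiableOn_const _).mul hp1).mul hd1).mul hp2).mul hd2).mul hd3
  · -- bound
    intro t ht htR
    obtain ⟨CZ, hCZ, hZ⟩ := Z1_bd hS (c := 2) (by norm_num)
    set K : ℝ := ∑' b : S.J, (S.nJ b : ℝ) ^ (-(2 : ℝ)) with hK
    have hsumK : Summable fun b : S.J => (S.nJ b : ℝ) ^ (-(2 : ℝ)) := summable_nJ hS (by norm_num)
    have hK0 : 0 ≤ K := tsum_nonneg fun b => by positivity
    set M : ℝ := ‖t‖ + b + 5 with hM
    have hM0 : 0 ≤ M := by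
      have := norm_nonneg t
      linarith
    refine ⟨A + 4, ‖(t - T.t0) ^ T.k * T.Lo t‖ * M ^ 2 * CZ * M ^ 2 * CZ * (C * K), by linarith,
      by positivity, fun s hs => ?_⟩
    have hs' := abs_le.1 hs
    have him : (1 : ℝ) ≤ 1 + |s.im| := by
      have := abs_nonneg s.im
      linarith
    have him0 : (0 : ℝ) < 1 + |s.im| := by linarith
    have hns : ‖s‖ ≤ b + 1 + |s.im| := by
      have := Complex.norm_le_abs_re_add_abs_im s
      linarith
    have hbig : ∀ z : ℂ, ‖z‖ ≤ ‖t‖ + ‖s‖ + 4 → ‖z‖ ≤ M * (1 + |s.im|) := by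
      intro z hz
      have h0 := abs_nonneg s.im
      have h1 : ‖t‖ + ‖s‖ + 4 ≤ M + |s.im| := by
        rw [hM]; linarith
      have h2 : M + |s.im| ≤ M * (1 + |s.im|) := by
        have h3 : 1 ≤ M := by
          have := norm_nonneg t
          linarith
        nlinarith
      linarith
    have hn1 : ‖t - s + 1 / 2 - 1‖ ≤ M * (1 + |s.im|) := by
      apply hbig
      calc ‖t - s + 1 / 2 - 1‖ = ‖(t - s) + (-(1 / 2) : ℂ)‖ := by congr 1; ring
        _ ≤ ‖t - s‖ + ‖(-(1 / 2) : ℂ)‖ := norm_add_le _ _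
        _ ≤ (‖t‖ + ‖s‖) + 1 / 2 := by
            gcongr
            · exact norm_sub_le _ _
            · rw [norm_neg]; norm_num
        _ ≤ ‖t‖ + ‖s‖ + 4 := by linarith
    have hn2 : ‖t + s - 3 / 2 - 1‖ ≤ M * (1 + |s.im|) := by
      apply hbig
      calc ‖t + s - 3 / 2 - 1‖ = ‖(t + s) + (-(5 / 2) : ℂ)‖ := by congr 1; ring
        _ ≤ ‖t + s‖ + ‖(-(5 / 2) : ℂ)‖ := norm_add_le _ _
        _ ≤ (‖t‖ + ‖s‖) + 5 / 2 := by
            gcongr
            · exact norm_add_le _ _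
            · rw [norm_neg]; norm_num
        _ ≤ ‖t‖ + ‖s‖ + 4 := by linarith
    have hz1 : ‖S.Z1 (t - s + 1 / 2)‖ ≤ CZ := hZ _ (by rw [hre1]; linarith)
    have hz2 : ‖S.Z1 (t + s - 3 / 2)‖ ≤ CZ := hZ _ (by rw [hre2]; linarith)
    have hser : ‖∑' b, vterm S c t s b‖ ≤ C * (1 + |s.im|) ^ A * K := by
      rw [hK, ← tsum_mul_left]
      refine tsum_of_norm_bounded (hsumK.mul_left _).hasSum fun b' => ?_
      exact vterm_bd hS hc hC hLL (by linarith) (by linarith) b'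
    rw [hV]
    simp only [norm_mul, norm_pow]
    have e1 : (1 + |s.im|) ^ (A + 4) = (1 + |s.im|) ^ 2 * (1 + |s.im|) ^ 2 * (1 + |s.im|) ^ A := by
      rw [Real.rpow_add him0, ← pow_add]
      have : (1 + |s.im|) ^ (4 : ℝ) = (1 + |s.im|) ^ (4 : ℕ) := by
        rw [← Real.rpow_natCast]
        norm_num
      rw [this]
      ring
    calc ‖t - T.t0‖ ^ T.k * ‖T.Lo t‖ * ‖t - s + 1 / 2 - 1‖ ^ 2 * ‖S.Z1 (t - s + 1 / 2)‖ *
          ‖t + s - 3 / 2 - 1‖ ^ 2 * ‖S.Z1 (t + s - 3 / 2)‖ * ‖∑' b, vterm S c t s b‖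
        ≤ ‖t - T.t0‖ ^ T.k * ‖T.Lo t‖ * (M * (1 + |s.im|)) ^ 2 * CZ *
          (M * (1 + |s.im|)) ^ 2 * CZ * (C * (1 + |s.im|) ^ A * K) := by
          gcongr
      _ = ‖t - T.t0‖ ^ T.k * ‖T.Lo t‖ * M ^ 2 * CZ * M ^ 2 * CZ * (C * K) *
          ((1 + |s.im|) ^ 2 * (1 + |s.im|) ^ 2 * (1 + |s.im|) ^ A) := by ring
      _ = _ := by rw [e1]
  · -- agreement with HH
    intro t ht htR s hs1 hs2
    rw [h.far c s t hs1 ht (by linarith), hV]
    unfold F1
    have hw : 1 < (t - s + 1 / 2).re := by rw [hre1]; linarith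
    simp only [DD_eq hS _ c hw]
    have e1 : ∀ m : S.J, (S.nJ m : ℂ) ^ (-s) * ((t - s + 1 / 2 - 1) ^ 2 * S.Z1 (t - s + 1 / 2) *
        S.D m c (t - s + 1 / 2)) = ((t - s + 1 / 2 - 1) ^ 2 * S.Z1 (t - s + 1 / 2)) *
        ((S.nJ m : ℂ) ^ (-s) * S.D m c (t - s + 1 / 2)) := fun m => by ring
    simp only [e1]
    rw [tsum_mul_left, fubini_D hS c (s := s) (by linarith) hw]
    have e2 : S.Ls s * (∑' b : S.J, @ite ℂ (S.R b c) (Classical.propDecidable _)
        (S.AA b c s * (S.nJ b : ℂ) ^ (-(t - s + 1 / 2))) 0) = ∑' b, vterm S c t s b := by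
      rw [← tsum_mul_left]
      refine tsum_congr fun b' => ?_
      unfold vterm
      split_ifs with hR
      · rw [AA_eq hS b' c hR (by linarith), LL, hS.ell_eq b' c hR (not_Sq hc b') s (by linarith)]
        ring
      · ring
    rw [← e2]
    ring
  · -- functional equation
    intro t ht htR s hs1 hs2
    rw [hV, hV]
    have e1 : t - (2 - s) + 1 / 2 = t + s - 3 / 2 := by ring
    have e2 : t + (2 - s) - 3 / 2 = t - s + 1 / 2 := by ring
    have e3 : (∑' b, vterm S c t s b) = S.GG c s * ∑' b, vterm S c t (2 - s) b := by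
      rw [← tsum_mul_left]
      refine tsum_congr fun b' => ?_
      unfold vterm
      split_ifs with hR
      · rw [LL_fe hS b' c hR (not_Sq hc b') hs2]
        have e4 : (S.nJ b' : ℂ) ^ (2 * (1 - s)) * (S.nJ b' : ℂ) ^ (-(t - s + 1 / 2)) =
            (S.nJ b' : ℂ) ^ (-(t - (2 - s) + 1 / 2)) := by
          rw [nJ_cpow_add hS]
          congr 1
          ring
        rw [← e4]
        ring
      · ring
    rw [e3, e1, e2]
    ring

end Pool.Agent.QD.SysD
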